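import Pool.Agent.H540.DS.Num
import Pool.Graph.R_seed8.H474R2.GE.FA
import Pool.Graph.R_seed8.Y882.SI.Quad

/-! The sieve product in an interval, from the theorem of Mertens for the roots of a polynomial. -/

set_option autoImplicit false

namespace Pool.Agent.H540.DS

open Finset Filter Polynomial
open Pool.Agent.Y882.PX

theorem sq_sum_le (P : Finset ℕ) (hP : ∀ p ∈ P, 1 ≤ p) : ∑ p ∈ P, (1 / (p : ℝ) ^ 2) ≤ 2 := by
  obtain ⟨Z, hZ⟩ : ∃ Z : ℕ, P ⊆ Icc 1 (Z + 1) := by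
    refine ⟨P.sup id, fun p hp => ?_⟩
    rw [mem_Icc]
    have : p ≤ P.sup id := le_sup (f := id) hp
    exact ⟨hP p hp, by omega⟩
  have h4 : ∀ n : ℕ, 1 ≤ n → ∑ p ∈ Icc 1 n, (1 / (p : ℝ) ^ 2) ≤ 2 - 1 / (n : ℝ) := by
    intro n hn
    induction n, hn using Nat.le_induction with
    | base => norm_num
    | succ n hn ih =>
      rw [sum_Icc_succ_top (by omega)]
      have hn0 : (0 : ℝ) < n := by exact_mod_cast hn
      have h5 : 1 / (((n + 1 : ℕ) : ℝ)) ^ 2 ≤ 1 / (n : ℝ) - 1 / ((n + 1 : ℕ) : ℝ) := by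
        push_cast
        rw [div_sub_div _ _ hn0.ne' (by positivity),
          div_le_div_iff₀ (by positivity) (by positivity)]
        nlinarith
      linarith
  have h5 := h4 (Z + 1) (by omega)
  have : (0 : ℝ) < 1 / ((Z + 1 : ℕ) : ℝ) := by positivity
  have h6 : ∑ p ∈ P, (1 / (p : ℝ) ^ 2) ≤ ∑ p ∈ Icc 1 (Z + 1), (1 / (p : ℝ) ^ 2) :=
    sum_le_sum_of_subset_of_nonneg hZ (fun _ _ _ => by positivity)
  linarith

/-- **The sieve product in an interval.** -/
theorem prod_low (F : ℤ[X]) (hF : Irreducible F) (hd : 0 < F.natDegree) (K : ℕ)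
    (hK : ∀ p : ℕ, p.Prime → ro F 0 p ≤ K) :
    ∃ c : ℝ, 0 < c ∧ ∀ (P : Finset ℕ) (a b : ℝ), 3 ≤ a → 2 * (K : ℝ) ≤ a → a ≤ b →
      (∀ p ∈ P, p.Prime ∧ a < (p : ℝ) ∧ (p : ℝ) ≤ b) →
      c * (Real.log a / Real.log b) ≤ ∏ p ∈ P, (1 - xx F p) := by
  obtain ⟨C, hC0, hC⟩ := Pool.Agent.H474R2.GE.mertens_rho F hF hd
  refine ⟨Real.exp (-(2 * C + 4 * K ^ 2)), Real.exp_pos _, ?_⟩
  intro P a b ha hKa hab hP
  have hb : 3 ≤ b := ha.trans hab
  have hrho : ∀ p : ℕ, Pool.Agent.H474R2.PG.rho F p = ro F 0 p := by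
    intro p
    rw [ro_eq]
    unfold Pool.Agent.H474R2.PG.rho
    simp
  have hla : 1 < Real.log a := by
    rw [Real.lt_log_iff_exp_lt (by linarith)]
    linarith [Real.exp_one_lt_d9]
  have hlb : 1 < Real.log b := hla.trans_le (Real.log_le_log (by linarith) hab)
  have h1 := (abs_le.1 (hC a ha)).1
  have h2 := (abs_le.1 (hC b hb)).2
  -- the sum over the primes in the interval
  have h3 : ∑ p ∈ P, xx F p ≤ Real.log (Real.log b) - Real.log (Real.log a) + 2 * C := by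
    have h4 : ∑ p ∈ P, xx F p + ∑ p ∈ Pool.Agent.H474R2.PG.PR a, xx F p ≤
        ∑ p ∈ Pool.Agent.H474R2.PG.PR b, xx F p := by
      have hdis : Disjoint P (Pool.Agent.H474R2.PG.PR a) := by
        rw [disjoint_left]
        intro p hp hpa
        unfold Pool.Agent.H474R2.PG.PR at hpa
        rw [mem_filter, mem_Icc] at hpa
        have h5 : (p : ℝ) ≤ a := (Nat.le_floor_iff (by linarith)).1 hpa.1.2
        linarith [(hP p hp).2.1]
      rw [← sum_union hdis]
      apply sum_le_sum_of_subset_of_nonneg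
      · intro p hp
        unfold Pool.Agent.H474R2.PG.PR
        rw [mem_filter, mem_Icc]
        rcases mem_union.1 hp with h | h
        · exact ⟨⟨(hP p h).1.one_le, Nat.le_floor (hP p h).2.2⟩, (hP p h).1⟩
        · unfold Pool.Agent.H474R2.PG.PR at h
          rw [mem_filter, mem_Icc] at h
          exact ⟨⟨h.1.1, h.1.2.trans (Nat.floor_le_floor hab)⟩, h.2⟩
      · intro p _ _
        exact xx_nonneg F p
    have e1 : ∀ w : ℝ, Pool.Agent.H474R2.PG.Sg (Pool.Agent.H474R2.PG.rho F) w =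
        ∑ p ∈ Pool.Agent.H474R2.PG.PR w, xx F p := by
      intro w
      unfold Pool.Agent.H474R2.PG.Sg xx
      simp_rw [hrho]
    rw [e1] at h1 h2
    linarith
  have h5 : ∑ p ∈ P, (1 / (p : ℝ) ^ 2) ≤ 2 := sq_sum_le P (fun p hp => (hP p hp).1.one_le)
  have h6 : ∀ p ∈ P, Real.exp (-(xx F p) - 2 * K ^ 2 * (1 / (p : ℝ) ^ 2)) ≤ 1 - xx F p := by
    intro p hp
    have hp0 : (0 : ℝ) < p := by exact_mod_cast (hP p hp).1.pos
    have hx0 := xx_nonneg F p
    have hr : (ro F 0 p : ℝ) ≤ K := by exact_mod_cast hK p (hP p hp).1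
    have hx : xx F p ≤ 1 / 2 := by
      unfold xx
      rw [div_le_iff₀ hp0]
      linarith [(hP p hp).2.1]
    have hx2 : xx F p ^ 2 ≤ K ^ 2 * (1 / (p : ℝ) ^ 2) := by
      unfold xx
      rw [div_pow, mul_one_div]
      apply div_le_div_of_nonneg_right _ (by positivity)
      exact pow_le_pow_left₀ (Nat.cast_nonneg _) hr 2
    set x := xx F p with hxdef
    have h1x : 0 < 1 - x := by linarith
    rw [← Real.le_log_iff_exp_le h1x]
    have h3 := Real.one_sub_inv_le_log_of_pos h1x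
    refine le_trans ?_ h3
    have h4 : 1 - (1 - x)⁻¹ = - (x / (1 - x)) := by
      field_simp
      ring
    rw [h4]
    have h5 : x / (1 - x) ≤ x + 2 * x ^ 2 := by
      rw [div_le_iff₀ h1x]
      nlinarith [mul_nonneg (mul_nonneg hx0 hx0) (show 0 ≤ 1 - 2 * x by linarith)]
    linarith
  calc Real.exp (-(2 * C + 4 * K ^ 2)) * (Real.log a / Real.log b) =
      Real.exp (-(Real.log (Real.log b) - Real.log (Real.log a) + 2 * C) - 4 * K ^ 2) := by
        rw [show -(Real.log (Real.log b) - Real.log (Real.log a) + 2 * C) - 4 * (K : ℝ) ^ 2 =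
          -(2 * C + 4 * K ^ 2) + (Real.log (Real.log a) - Real.log (Real.log b)) by ring,
          Real.exp_add, Real.exp_sub, Real.exp_log (by linarith), Real.exp_log (by linarith)]
    _ ≤ Real.exp (∑ p ∈ P, (-(xx F p) - 2 * K ^ 2 * (1 / (p : ℝ) ^ 2))) := by
        apply Real.exp_le_exp.2
        rw [sum_sub_distrib, sum_neg_distrib, ← mul_sum]
        have h7 : 2 * (K : ℝ) ^ 2 * ∑ p ∈ P, (1 / (p : ℝ) ^ 2) ≤ 2 * (K : ℝ) ^ 2 * 2 :=
          mul_le_mul_of_nonneg_left h5 (by positivity)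
        linarith
    _ = ∏ p ∈ P, Real.exp (-(xx F p) - 2 * K ^ 2 * (1 / (p : ℝ) ^ 2)) := Real.exp_sum _ _
    _ ≤ _ := prod_le_prod (fun _ _ => (Real.exp_pos _).le) h6

end Pool.Agent.H540.DS
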