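import Pool.Agent.H540.DS.Nums
import Pool.Agent.H540.DS.Mert

/-! The two parts of the sieve. -/

set_option autoImplicit false

namespace Pool.Agent.H540.DS

open Finset Filter Polynomial
open Pool.Agent.W23.DC
open Pool.Agent.Y882.PX
open Pool.Agent.Y882
open Pool.Agent.Y882.KW

/-- the basic data -/
structure Bas (F : ℤ[X]) (K B k : ℕ) (L l w z0 N1 Lam u Lam0 : ℝ) (m0 N W : ℕ) (A1 A2 : Finset ℤ)
    (P1 P2 : Finset ℕ) : Prop where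
  L1 : Real.exp 1 ≤ L
  leq : Real.log L = l
  l1 : 3 * (K : ℝ) + 1 ≤ l
  LN : Real.log N = L
  N3 : 3 ≤ N
  zeq : z0 = L ^ B
  Beq : B = 2 * (4 * K + 10)
  w0 : 0 < w
  wL : w ≤ L
  m1 : ∀ p ∈ P1, p.Prime ∧ w < (p : ℝ) ∧ (p : ℝ) ≤ z0
  m2 : ∀ p ∈ P2, p.Prime ∧ z0 < (p : ℝ)
  mb : ∀ p ∈ P1 ∪ P2, p.Prime ∧ (p : ℝ) ≤ N ∧ K + 1 ≤ p ∧ ro F 0 p ≤ K ∧ p.Coprime W
  N10 : 0 < N1
  Lam1 : 1 ≤ Lam
  LamL : Lam ≤ L
  ls : LSH A1 A2 W N1 Lam u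
  ls0 : LSH A1 A2 W N1 Lam0 0
  Lam01 : 1 ≤ Lam0
  Lam0L : Lam0 ≤ L ^ m0
  k1 : (3 * K * B + (4 * K + 9 + m0)) * l ≤ (k : ℝ)

/-- the elementary symmetric function of the densities at the primes up to `log ^ B` -/
theorem EB_small (K B m0 : ℕ) (F : ℤ[X]) (P1 : Finset ℕ) (L : ℝ) (hL : Real.exp 1 ≤ L)
    (hl : 3 * (K : ℝ) + 1 ≤ Real.log L)
    (hP1 : ∀ p ∈ P1, 1 ≤ p ∧ (p : ℝ) ≤ L ^ B) (hK : ∀ p ∈ P1, ro F 0 p ≤ K) (k : ℕ)
    (hk : (3 * K * B + (4 * K + 9 + m0)) * Real.log L ≤ (k : ℝ)) :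
    EB P1 k (xx F) ≤ 1 / L ^ (4 * K + 8 + m0) := by
  have hL0 : 0 < L := (Real.exp_pos 1).trans_le hL
  have hL1 : 1 ≤ L := by
    have := Real.add_one_le_exp (1 : ℝ)
    linarith
  set l := Real.log L with hl'
  have hz1 : 1 ≤ L ^ B := one_le_pow₀ hL1
  have h1 := sum_inv_le P1 (L ^ B) hz1 hP1
  have h2 : ∑ p ∈ P1, xx F p ≤ K * (1 + B * l) := by
    calc ∑ p ∈ P1, xx F p ≤ ∑ p ∈ P1, (K : ℝ) * (1 / (p : ℝ)) := by
          apply sum_le_sum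
          intro p hp
          unfold xx
          rw [mul_one_div]
          apply div_le_div_of_nonneg_right _ (Nat.cast_nonneg _)
          exact_mod_cast hK p hp
      _ = K * ∑ p ∈ P1, 1 / (p : ℝ) := by rw [mul_sum]
      _ ≤ K * (1 + Real.log (L ^ B)) := mul_le_mul_of_nonneg_left h1 (Nat.cast_nonneg K)
      _ = _ := by rw [Real.log_pow]
  refine (EB_exp P1 (xx F) (fun p _ => xx_nonneg F p) k _ h2).trans ?_
  have h3 : 3 * ((K : ℝ) * (1 + B * l)) - k ≤ -((4 * K + 8 + m0 : ℕ) * l) := by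
    push_cast
    nlinarith
  calc Real.exp (3 * ((K : ℝ) * (1 + B * l)) - k) ≤ Real.exp (-((4 * K + 8 + m0 : ℕ) * l)) :=
        Real.exp_le_exp.2 h3
    _ = 1 / L ^ (4 * K + 8 + m0) := by
      rw [Real.exp_neg, Real.exp_nat_mul, hl', Real.exp_log hL0, one_div]

section

variable {F : ℤ[X]} {K B k : ℕ} {L l w z0 N1 Lam u Lam0 : ℝ} {m0 N W : ℕ} {A1 A2 : Finset ℤ}
    {P1 P2 : Finset ℕ}

theorem Bas.L0 (h : Bas F K B k L l w z0 N1 Lam u Lam0 m0 N W A1 A2 P1 P2) : 2 ≤ L := by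
  have := Real.add_one_le_exp (1 : ℝ)
  linarith [h.L1]

theorem Bas.B1 (h : Bas F K B k L l w z0 N1 Lam u Lam0 m0 N W A1 A2 P1 P2) : 1 ≤ B := by
  have := h.Beq
  omega

theorem Bas.Lz (h : Bas F K B k L l w z0 N1 Lam u Lam0 m0 N W A1 A2 P1 P2) : L ≤ z0 := by
  have h1 := h.L0
  rw [h.zeq]
  calc L = L ^ 1 := (pow_one L).symm
    _ ≤ L ^ B := pow_le_pow_right₀ (by linarith) h.B1

theorem Bas.EBs (h : Bas F K B k L l w z0 N1 Lam u Lam0 m0 N W A1 A2 P1 P2) :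
    EB P1 k (xx F) ≤ 1 / L ^ (4 * K + 8 + m0) := by
  apply EB_small K B m0 F P1 L h.L1
  · rw [h.leq]
    exact h.l1
  · intro p hp
    refine ⟨(h.m1 p hp).1.one_le, ?_⟩
    rw [← h.zeq]
    exact (h.m1 p hp).2.2
  · intro p hp
    exact (h.mb p (mem_union_left _ hp)).2.2.2.1
  · rw [h.leq]
    exact h.k1

theorem Bas.EB0 (h : Bas F K B k L l w z0 N1 Lam u Lam0 m0 N W A1 A2 P1 P2) : 0 ≤ EB P1 k (xx F) :=
  EB_nonneg P1 k (xx F) (fun p _ => xx_nonneg F p)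

theorem Bas.prod1 (h : Bas F K B k L l w z0 N1 Lam u Lam0 m0 N W A1 A2 P1 P2) (T : Finset ℕ) (hT : T ⊆ P1)
    (hTk : T.card ≤ k) : ((∏ p ∈ T, p : ℕ) : ℝ) ≤ z0 ^ k := by
  have hz01 : 1 ≤ z0 := by linarith [h.L0, h.Lz]
  push_cast
  calc ∏ p ∈ T, (p : ℝ) ≤ ∏ p ∈ T, z0 := by
        apply Finset.prod_le_prod
        · intro p _; positivity
        · intro p hp
          exact (h.m1 p (hT hp)).2.2
    _ = z0 ^ T.card := by rw [prod_const]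
    _ ≤ z0 ^ k := pow_le_pow_right₀ hz01 hTk

theorem Bas.MKs (h : Bas F K B k L l w z0 N1 Lam u Lam0 m0 N W A1 A2 P1 P2) (hz : (z0 ^ k) ^ 2 ≤ N1) :
    MK F A1 A2 P1 k ≤ (A1.card * A2.card) * (3 * L / L ^ (4 * K + 8)) := by
  have h1 := MK_le F A1 A2 W N1 Lam0 h.N10 h.Lam01 h.ls0 P1 (fun p hp => (h.m1 p hp).1)
    (fun p hp => (h.mb p (mem_union_left _ hp)).2.2.2.2) k (by
      intro T hT hTk
      refine le_trans ?_ hz
      exact pow_le_pow_left₀ (Nat.cast_nonneg _) (h.prod1 T hT hTk.le) 2)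
  refine h1.trans ?_
  have h2 := h.EBs
  have h3 := h.EB0
  have hm0 : (0 : ℝ) ≤ (A1.card : ℝ) * A2.card := by positivity
  have hL := h.L0
  have hLm : (0 : ℝ) < L ^ m0 := by positivity
  calc 3 * Lam0 * ((A1.card : ℝ) * A2.card) * EB P1 k (xx F) ≤
      3 * L ^ m0 * ((A1.card : ℝ) * A2.card) * (1 / L ^ (4 * K + 8 + m0)) := by
        apply mul_le_mul _ h2 h3 (by positivity)
        exact mul_le_mul_of_nonneg_right (by linarith [h.Lam0L]) hm0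
    _ = ((A1.card : ℝ) * A2.card) * (3 * 1 / L ^ (4 * K + 8)) := by
        rw [pow_add L (4 * K + 8) m0]
        field_simp
    _ ≤ _ := by
        apply mul_le_mul_of_nonneg_left _ hm0
        apply div_le_div_of_nonneg_right _ (by positivity)
        linarith

end

theorem arith1 (Ce c L Lam m x y Q : ℝ) (hCe : 0 ≤ Ce) (hc0 : 0 ≤ c) (hc : c ≤ 4 * L) (hL : 0 ≤ L)
    (hLam : Lam ≤ L) (hLam0 : 0 ≤ Lam) (hm : 0 ≤ m) (hx0 : 0 ≤ x) (hy0 : 0 ≤ y) (hx : x ≤ 1 / Q)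
    (hy : y ≤ 1 / Q) : Ce * (c * (4 * (Lam * m) * (x + y))) ≤ m * (32 * Ce * L ^ 2 / Q) := by
  calc Ce * (c * (4 * (Lam * m) * (x + y))) ≤
      Ce * ((4 * L) * (4 * (L * m) * (1 / Q + 1 / Q))) := by
        apply mul_le_mul_of_nonneg_left _ hCe
        apply mul_le_mul hc _ (by positivity) (by positivity)
        apply mul_le_mul _ (add_le_add hx hy) (by positivity) (by positivity)
        apply mul_le_mul_of_nonneg_left _ (by norm_num)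
        exact mul_le_mul_of_nonneg_right hLam hm
    _ = _ := by ring

theorem arith2 (K : ℕ) (L cV Ce m : ℝ) (hL : 1 ≤ L) (hcV : 0 < cV) (hCe : 0 ≤ Ce) (hm : 0 ≤ m)
    (hq : (5 * 9 ^ K / cV) * (32 * Ce + 6) ≤ L) :
    5 * L * ((3 * L) ^ (2 * K) / cV * (m * (32 * Ce * L ^ 2 / L ^ (4 * K + 10)) +
          2 * (m * (3 * L / L ^ (4 * K + 8))))) ≤ m / L ^ (2 * K + 5) := by
  have hL0 : 0 < L := by linarith
  have e1 : L ^ (4 * K + 10) = L ^ (2 * K) * L ^ (2 * K + 10) := by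
    rw [← pow_add]; congr 1; ring
  have e2 : L ^ (4 * K + 8) = L ^ (2 * K) * L ^ (2 * K + 8) := by
    rw [← pow_add]; congr 1; ring
  have e3 : (3 * L) ^ (2 * K) = 9 ^ K * L ^ (2 * K) := by
    rw [mul_pow, pow_mul]; norm_num
  have hp : 0 < L ^ (2 * K) := by positivity
  have e4 : 5 * L * ((3 * L) ^ (2 * K) / cV * (m * (32 * Ce * L ^ 2 / L ^ (4 * K + 10)) +
          2 * (m * (3 * L / L ^ (4 * K + 8))))) =
      m * (5 * 9 ^ K / cV * (32 * Ce * (L ^ 3 / L ^ (2 * K + 10)) + 6 * (L ^ 2 / L ^ (2 * K + 8)))) := by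
    rw [e1, e2, e3]
    field_simp
    ring
  rw [e4]
  have e5 : L ^ 3 / L ^ (2 * K + 10) ≤ 1 / L ^ (2 * K + 6) := by
    rw [div_le_div_iff₀ (by positivity) (by positivity), one_mul, ← pow_add]
    exact pow_le_pow_right₀ hL (by omega)
  have e6 : L ^ 2 / L ^ (2 * K + 8) ≤ 1 / L ^ (2 * K + 6) := by
    rw [div_le_div_iff₀ (by positivity) (by positivity), one_mul, ← pow_add]
    exact pow_le_pow_right₀ hL (by omega)
  have hc0 : 0 ≤ 5 * 9 ^ K / cV := by positivity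
  calc m * (5 * 9 ^ K / cV * (32 * Ce * (L ^ 3 / L ^ (2 * K + 10)) + 6 * (L ^ 2 / L ^ (2 * K + 8)))) ≤
      m * (5 * 9 ^ K / cV * (32 * Ce * (1 / L ^ (2 * K + 6)) + 6 * (1 / L ^ (2 * K + 6)))) := by
        apply mul_le_mul_of_nonneg_left _ hm
        apply mul_le_mul_of_nonneg_left _ hc0
        exact add_le_add (mul_le_mul_of_nonneg_left e5 (by positivity))
          (mul_le_mul_of_nonneg_left e6 (by norm_num))
    _ = m * ((5 * 9 ^ K / cV * (32 * Ce + 6)) / L ^ (2 * K + 6)) := by ring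
    _ ≤ m * (L / L ^ (2 * K + 6)) := by
        apply mul_le_mul_of_nonneg_left _ hm
        exact div_le_div_of_nonneg_right hq (by positivity)
    _ = _ := by
        rw [pow_succ L (2 * K + 5)]
        field_simp

/-- **the error part** -/
theorem err_part {F : ℤ[X]} {K B k : ℕ} {L l w z0 N1 Lam u Lam0 : ℝ} {m0 N W : ℕ} {A1 A2 : Finset ℤ}
    {P1 P2 : Finset ℕ} (h : Bas F K B k L l w z0 N1 Lam u Lam0 m0 N W A1 A2 P1 P2) (cV Ce η : ℝ)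
    (hcV : 0 < cV) (hCe : 1 ≤ Ce)
    (hPi : ∏ p ∈ P1 ∪ P2, (1 + xx F p) ≤ (3 * L) ^ (2 * K) / cV) (D0 D : ℕ)
    (hET : ET F A1 A2 (P1 ∪ P2) z0 D ≤ Ce * ((Nat.clog 2 D + 1) * (4 * (Lam * (A1.card * A2.card)) *
        (z0 ^ (-(1 - η)) + (D : ℝ) ^ (1 + η) / N1)))) (hη : η ≤ 1 / 2)
    (hz : (z0 ^ k) ^ 2 ≤ N1) (hDr : (D : ℝ) ^ (1 + η) / N1 ≤ 1 / L ^ (4 * K + 10))
    (hDN : (D : ℝ) ≤ N) (hDD : z0 ^ k * D0 ≤ D)
    (hq : (5 * 9 ^ K / cV) * (32 * Ce + 6) ≤ L) (hd : Disjoint P1 P2)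
    (c : Finset ℕ → ℝ) (hcL : ∀ T, |c T| ≤ 5 * L)
    (hc : ∀ T ⊆ P2, c T ≠ 0 → ∏ p ∈ T, p ≤ D0) :
    |∑ T ∈ P2.powerset, c T * ((MP F A1 A2 P1 (∏ p ∈ T, p) : ℝ) -
      (∏ p ∈ T, xx F p) * MP F A1 A2 P1 1)| ≤ (A1.card * A2.card) / L ^ (2 * K + 5) := by
  have hL2 := h.L0
  have hL1 : 1 ≤ L := by linarith
  have hz01 : 1 ≤ z0 := by linarith [h.Lz]
  have hm0 : (0 : ℝ) ≤ (A1.card : ℝ) * A2.card := by positivity
  have herr := err_total F A1 A2 P1 P2 (fun p hp => (h.m1 p hp).1) (fun p hp => (h.m2 p hp).1) hd k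
    D0 D z0 (fun p hp => (h.m2 p hp).2) (by
      intro T1 hT1 hT1k T _ hTD
      have a1 := h.prod1 T1 hT1 hT1k
      have a2 : ((∏ p ∈ T, p : ℕ) : ℝ) ≤ D0 := by exact_mod_cast hTD
      have a3 : (((∏ p ∈ T1, p) * ∏ p ∈ T, p : ℕ) : ℝ) ≤ D := by
        push_cast at a1 a2 ⊢
        refine le_trans (mul_le_mul a1 a2 ?_ ?_) hDD
        · exact prod_nonneg fun p _ => Nat.cast_nonneg p
        · positivity
      exact_mod_cast a3) c (5 * L) (by linarith) hcL hc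
  refine herr.trans ?_
  have hzr : z0 ^ (-(1 - η)) ≤ 1 / L ^ (4 * K + 10) := by
    calc z0 ^ (-(1 - η)) ≤ z0 ^ (-(1 / 2 : ℝ)) :=
          Real.rpow_le_rpow_of_exponent_le hz01 (by linarith)
      _ = 1 / L ^ (4 * K + 10) := by
        rw [h.zeq, h.Beq, Real.rpow_neg (by positivity), ← Real.sqrt_eq_rpow, pow_mul',
          Real.sqrt_sq (by positivity), one_div]
  have hclD : (Nat.clog 2 D : ℝ) + 1 ≤ 4 * L := by
    have h7 := clog_le D N (by exact_mod_cast (by linarith [h.N3] : 1 ≤ N)) hDN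
    rw [h.LN] at h7
    linarith
  have hET2 := hET.trans (arith1 Ce ((Nat.clog 2 D : ℝ) + 1) L Lam (A1.card * A2.card) _ _ _
    (by linarith) (by positivity) hclD (by linarith) h.LamL (by linarith [h.Lam1]) hm0
    (by positivity) (div_nonneg (by positivity) h.N10.le) hzr hDr)
  have hMK := h.MKs hz
  have hET0 := ET_nonneg F A1 A2 (P1 ∪ P2) z0 D
  have hMK0 := MK_nonneg F A1 A2 P1 k
  refine le_trans ?_ (arith2 K L cV Ce (A1.card * A2.card) hL1 hcV (by linarith) hm0 hq)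
  apply mul_le_mul_of_nonneg_left _ (by linarith)
  apply mul_le_mul hPi _ (by linarith) (by positivity)
  linarith

end Pool.Agent.H540.DS

namespace Pool.Agent.H540.DS

open Finset Filter Polynomial
open Pool.Agent.W23.DC
open Pool.Agent.Y882.PX
open Pool.Agent.Y882
open Pool.Agent.Y882.KW

theorem arith3 (L m MPv Pr EBv Pi1 ET1 X cV Ce cl Lam x y ε : ℝ) (hL : 1 ≤ L) (hm : 0 ≤ m)
    (h1 : |MPv - m * Pr| ≤ 2 * m * EBv + Pi1 * ET1) (hX : 0 < X) (hcV : 0 < cV) (h2 : cV / X ≤ Pr)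
    (h3 : Pi1 ≤ X / cV) (h4 : X / cV ≤ L ^ (ε / 32)) (h5 : EBv ≤ 1 / L) (hET0 : 0 ≤ ET1)
    (hET : ET1 ≤ Ce * (cl * (4 * (Lam * m) * (x + y)))) (hCe : 0 ≤ Ce) (hcl : 0 ≤ cl)
    (h6 : Ce * (8 * cl) ≤ L ^ (ε / 32)) (h7 : Lam * x ≤ L ^ (-(ε / 4))) (h8 : Lam * y ≤ L ^ (-(ε / 4)))
    (h9 : 4 / L + 2 * L ^ (ε / 16 - ε / 4) ≤ L ^ (-(ε / 32))) : m * Pr / 2 ≤ MPv := by
  have hL0 : 0 < L := by linarith
  have a1 : L ^ (-(ε / 32)) ≤ cV / X := by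
    rw [Real.rpow_neg hL0.le, ← one_div]
    rw [show cV / X = 1 / (X / cV) by rw [one_div_div]]
    exact one_div_le_one_div_of_le (by positivity) h4
  have a2 : ET1 ≤ m * (L ^ (ε / 32) * L ^ (-(ε / 4))) := by
    have e1 : Ce * (cl * (4 * (Lam * m) * (x + y))) = m * (Ce * (8 * cl) * ((Lam * x + Lam * y) / 2)) := by
      ring
    rw [e1] at hET
    refine hET.trans (mul_le_mul_of_nonneg_left ?_ hm)
    have e2 : (Lam * x + Lam * y) / 2 ≤ L ^ (-(ε / 4)) := by linarith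
    have e3 : 0 ≤ Ce * (8 * cl) := by positivity
    calc Ce * (8 * cl) * ((Lam * x + Lam * y) / 2) ≤ Ce * (8 * cl) * L ^ (-(ε / 4)) :=
          mul_le_mul_of_nonneg_left e2 e3
      _ ≤ _ := mul_le_mul_of_nonneg_right h6 (by positivity)
  have a3 : Pi1 * ET1 ≤ m * L ^ (ε / 16 - ε / 4) := by
    calc Pi1 * ET1 ≤ L ^ (ε / 32) * ET1 := mul_le_mul_of_nonneg_right (h3.trans h4) hET0
      _ ≤ L ^ (ε / 32) * (m * (L ^ (ε / 32) * L ^ (-(ε / 4)))) :=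
          mul_le_mul_of_nonneg_left a2 (by positivity)
      _ = m * (L ^ (ε / 32) * L ^ (ε / 32) * L ^ (-(ε / 4))) := by ring
      _ = m * L ^ (ε / 16 - ε / 4) := by
          rw [← Real.rpow_add hL0, ← Real.rpow_add hL0]
          congr 2
          ring
  have a4 : 2 * m * EBv ≤ m * (2 / L) := by
    calc 2 * m * EBv ≤ 2 * m * (1 / L) := mul_le_mul_of_nonneg_left h5 (by positivity)
      _ = _ := by ring
  have a5 : m * L ^ (-(ε / 32)) ≤ m * Pr := mul_le_mul_of_nonneg_left (a1.trans h2) hm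
  have a6 := mul_le_mul_of_nonneg_left h9 hm
  have a7 := (abs_le.1 h1).1
  have e6 : m * (4 / L + 2 * L ^ (ε / 16 - ε / 4)) = 2 * (m * (2 / L) + m * L ^ (ε / 16 - ε / 4)) := by
    ring
  rw [e6] at a6
  linarith

/-- **the main part** -/
theorem main_part {F : ℤ[X]} {K B k : ℕ} {L l w z0 N1 Lam u Lam0 : ℝ} {m0 N W : ℕ} {A1 A2 : Finset ℤ}
    {P1 P2 : Finset ℕ} (h : Bas F K B k L l w z0 N1 Lam u Lam0 m0 N W A1 A2 P1 P2) (cV Ce η K0 ε τ3 ν : ℝ)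
    (hcV : 0 < cV) (hCe : 1 ≤ Ce)
    (hPi : cV / (3 * (B * l)) ^ (2 * K) ≤ ∏ p ∈ P1, (1 - xx F p) ∧
      ∏ p ∈ P1, (1 + xx F p) ≤ (3 * (B * l)) ^ (2 * K) / cV) (D1 : ℕ)
    (hET : ET F A1 A2 P1 w D1 ≤ Ce * ((Nat.clog 2 D1 + 1) * (4 * (Lam * (A1.card * A2.card)) *
        (w ^ (-(1 - η)) + (D1 : ℝ) ^ (1 + η) / N1)))) (hη0 : 0 ≤ η) (hη : η ≤ ε / 4) (hε0 : 0 < ε)
    (hε1 : ε ≤ 1)
    (hD1 : D1 = ⌊z0 ^ k⌋₊) (hk : (k : ℝ) ≤ K0 * l + 1)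
    (hw : w = L ^ (1 - ε / 2)) (hLam : Lam ≤ L ^ (1 - ε)) (hzk : z0 ^ k ≤ (N : ℝ) ^ ν)
    (hν : ν ≤ τ3 / 8) (hτ3 : 0 < τ3) (hN1 : (N : ℝ) ^ τ3 ≤ N1)
    (q2 : (3 * (B * l)) ^ (2 * K) / cV ≤ L ^ (ε / 32))
    (q3 : Ce * (8 * (2 + 2 * (B * l * (K0 * l + 1)))) ≤ L ^ (ε / 32))
    (q4 : L * (N : ℝ) ^ (-(τ3 / 2)) ≤ L ^ (-(ε / 4)))
    (q5 : 4 / L + 2 * L ^ (ε / 16 - ε / 4) ≤ L ^ (-(ε / 32))) :
    ((A1.card : ℝ) * A2.card) * (∏ p ∈ P1, (1 - xx F p)) / 2 ≤ (MP F A1 A2 P1 1 : ℝ) := by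
  have hL2 := h.L0
  have hL1 : 1 ≤ L := by linarith
  have hL0 : 0 < L := by linarith
  have hz01 : 1 ≤ z0 := by linarith [h.Lz]
  have hm0 : (0 : ℝ) ≤ (A1.card : ℝ) * A2.card := by positivity
  have hKr : (0 : ℝ) ≤ K := Nat.cast_nonneg K
  have hl1 : 1 ≤ l := by linarith [h.l1]
  have hN3 : (3 : ℝ) ≤ N := by exact_mod_cast h.N3
  have hN0 : (0 : ℝ) < N := by linarith
  have hLam0 : 0 ≤ Lam := by linarith [h.Lam1]
  have hmain := main_J F A1 A2 P1 (fun p hp => (h.m1 p hp).1) (by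
    intro p hp
    unfold xx
    have hp0 : (0 : ℝ) < p := by exact_mod_cast (h.m1 p hp).1.pos
    rw [div_le_one hp0]
    exact_mod_cast ro_le_self F 0 p) k D1 w (fun p hp => (h.m1 p hp).2.1) (by
    intro T hT hTk
    rw [hD1]
    exact Nat.le_floor (h.prod1 T hT hTk))
  have hD1' : (D1 : ℝ) ≤ z0 ^ k := by
    rw [hD1]
    exact Nat.floor_le (by positivity)
  have hzk1 : 1 ≤ z0 ^ k := one_le_pow₀ hz01
  have hlz : Real.log (z0 ^ k) = k * (B * l) := by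
    rw [Real.log_pow, h.zeq, Real.log_pow, h.leq]
  have hcl : (Nat.clog 2 D1 : ℝ) + 1 ≤ 2 + 2 * (B * l * (K0 * l + 1)) := by
    have h7 := clog_le D1 (z0 ^ k) hzk1 hD1'
    rw [hlz] at h7
    have h8 : (k : ℝ) * (B * l) ≤ (K0 * l + 1) * (B * l) :=
      mul_le_mul_of_nonneg_right hk (by positivity)
    linarith
  have hEBL : EB P1 k (xx F) ≤ 1 / L := by
    refine h.EBs.trans (one_div_le_one_div_of_le hL0 ?_)
    calc L = L ^ 1 := (pow_one L).symm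
      _ ≤ L ^ (4 * K + 8 + m0) := pow_le_pow_right₀ hL1 (by omega)
  have hx : Lam * w ^ (-(1 - η)) ≤ L ^ (-(ε / 4)) := by
    rw [hw, ← Real.rpow_mul hL0.le]
    calc Lam * L ^ ((1 - ε / 2) * -(1 - η)) ≤ L ^ (1 - ε) * L ^ ((1 - ε / 2) * -(1 - η)) :=
          mul_le_mul_of_nonneg_right hLam (by positivity)
      _ = L ^ (1 - ε + (1 - ε / 2) * -(1 - η)) := by rw [← Real.rpow_add hL0]
      _ ≤ L ^ (-(ε / 4)) := by
          apply Real.rpow_le_rpow_of_exponent_le hL1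
          nlinarith
  have hy : Lam * ((D1 : ℝ) ^ (1 + η) / N1) ≤ L ^ (-(ε / 4)) := by
    refine le_trans ?_ q4
    have hNν : 1 ≤ (N : ℝ) ^ ν := hzk1.trans hzk
    have b1 : (D1 : ℝ) ^ (1 + η) ≤ (N : ℝ) ^ (ν * 2) := by
      calc (D1 : ℝ) ^ (1 + η) ≤ ((N : ℝ) ^ ν) ^ (1 + η) :=
            Real.rpow_le_rpow (Nat.cast_nonneg _) (hD1'.trans hzk) (by linarith)
        _ ≤ ((N : ℝ) ^ ν) ^ (2 : ℝ) := Real.rpow_le_rpow_of_exponent_le hNν (by linarith)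
        _ = (N : ℝ) ^ (ν * 2) := by rw [← Real.rpow_mul hN0.le]
    have b2 : (D1 : ℝ) ^ (1 + η) / N1 ≤ (N : ℝ) ^ (-(τ3 / 2)) := by
      rw [div_le_iff₀ h.N10]
      calc (D1 : ℝ) ^ (1 + η) ≤ (N : ℝ) ^ (ν * 2) := b1
        _ ≤ (N : ℝ) ^ (-(τ3 / 2) + τ3) := Real.rpow_le_rpow_of_exponent_le (by linarith) (by linarith)
        _ = (N : ℝ) ^ (-(τ3 / 2)) * (N : ℝ) ^ τ3 := Real.rpow_add hN0 _ _
        _ ≤ _ := mul_le_mul_of_nonneg_left hN1 (by positivity)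
    exact mul_le_mul h.LamL b2 (div_nonneg (by positivity) h.N10.le) hL0.le
  have h3l : 0 < 3 * ((B : ℝ) * l) := by
    have : (1 : ℝ) ≤ B := by exact_mod_cast h.B1
    positivity
  exact arith3 L (A1.card * A2.card) (MP F A1 A2 P1 1) (∏ p ∈ P1, (1 - xx F p)) (EB P1 k (xx F))
    (∏ p ∈ P1, (1 + xx F p)) (ET F A1 A2 P1 w D1) ((3 * (B * l)) ^ (2 * K)) cV Ce
    ((Nat.clog 2 D1 : ℝ) + 1) Lam (w ^ (-(1 - η))) ((D1 : ℝ) ^ (1 + η) / N1) ε hL1 hm0 hmain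
    (by positivity) hcV hPi.1 hPi.2 q2 hEBL (ET_nonneg _ _ _ _ _ _) hET (by linarith) (by positivity)
    (le_trans (mul_le_mul_of_nonneg_left (mul_le_mul_of_nonneg_left hcl (by norm_num)) (by linarith)) q3)
    hx hy q5

end Pool.Agent.H540.DS
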