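import Mathlib

/-! Truncated inclusion and exclusion. -/

set_option autoImplicit false

namespace Pool.Agent.H540.DS

open Finset

/-- truncated alternating sum -/
noncomputable def SB (P : Finset ℕ) (k : ℕ) (x : ℕ → ℝ) : ℝ :=
  ∑ T ∈ P.powerset, if T.card < k then (-1) ^ T.card * ∏ p ∈ T, x p else 0

/-- elementary symmetric function -/
noncomputable def EB (P : Finset ℕ) (k : ℕ) (x : ℕ → ℝ) : ℝ :=
  ∑ T ∈ P.powerset, if T.card = k then ∏ p ∈ T, x p else 0

theorem SB_zero (P : Finset ℕ) (x : ℕ → ℝ) : SB P 0 x = 0 := by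
  unfold SB
  simp

theorem EB_zero (P : Finset ℕ) (x : ℕ → ℝ) : EB P 0 x = 1 := by
  unfold EB
  rw [sum_eq_single ∅]
  · simp
  · intro T _ hT
    rw [if_neg]
    rw [card_eq_zero]
    exact hT
  · intro h
    exact absurd (empty_mem_powerset P) h

theorem EB_nonneg (P : Finset ℕ) (k : ℕ) (x : ℕ → ℝ) (hx : ∀ p ∈ P, 0 ≤ x p) : 0 ≤ EB P k x := by
  unfold EB
  apply sum_nonneg
  intro T hT
  split_ifs
  · exact prod_nonneg fun p hp => hx p (mem_powerset.1 hT hp)
  · exact le_rfl

theorem SB_insert (P : Finset ℕ) (a : ℕ) (ha : a ∉ P) (k : ℕ) (x : ℕ → ℝ) :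
    SB (insert a P) (k + 1) x = SB P (k + 1) x - x a * SB P k x := by
  unfold SB
  rw [sum_powerset_insert ha, sub_eq_add_neg, mul_sum, ← sum_neg_distrib]
  congr 1
  apply sum_congr rfl
  intro T hT
  have h1 : a ∉ T := fun h => ha (mem_powerset.1 hT h)
  rw [card_insert_of_notMem h1, prod_insert h1]
  by_cases h : T.card < k
  · rw [if_pos (by omega), if_pos h, pow_succ]
    ring
  · rw [if_neg (by omega), if_neg h]
    ring

theorem EB_insert (P : Finset ℕ) (a : ℕ) (ha : a ∉ P) (k : ℕ) (x : ℕ → ℝ) :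
    EB (insert a P) (k + 1) x = EB P (k + 1) x + x a * EB P k x := by
  unfold EB
  rw [sum_powerset_insert ha, mul_sum]
  congr 1
  apply sum_congr rfl
  intro T hT
  have h1 : a ∉ T := fun h => ha (mem_powerset.1 hT h)
  rw [card_insert_of_notMem h1, prod_insert h1]
  by_cases h : T.card = k
  · rw [if_pos (by omega), if_pos h]
  · rw [if_neg (by omega), if_neg h]
    ring

/-- **Bonferroni's inequality.** -/
theorem bonf (P : Finset ℕ) (x : ℕ → ℝ) (hx0 : ∀ p ∈ P, 0 ≤ x p) (hx1 : ∀ p ∈ P, x p ≤ 1) (k : ℕ) :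
    |∏ p ∈ P, (1 - x p) - SB P k x| ≤ EB P k x := by
  induction P using Finset.induction_on generalizing k with
  | empty =>
    rcases Nat.eq_zero_or_pos k with h | h
    · subst h
      rw [SB_zero, EB_zero]
      simp
    · have h1 : SB ∅ k x = 1 := by
        unfold SB
        simp [h]
      rw [h1]
      simp only [prod_empty, sub_self, abs_zero]
      exact EB_nonneg _ _ _ (by simp)
  | insert a P ha ih =>
    have hx0' : ∀ p ∈ P, 0 ≤ x p := fun p hp => hx0 p (mem_insert_of_mem hp)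
    have hx1' : ∀ p ∈ P, x p ≤ 1 := fun p hp => hx1 p (mem_insert_of_mem hp)
    have ha0 : 0 ≤ x a := hx0 a (mem_insert_self _ _)
    have ha1 : x a ≤ 1 := hx1 a (mem_insert_self _ _)
    rcases Nat.eq_zero_or_pos k with h | h
    · subst h
      rw [SB_zero, EB_zero, sub_zero, abs_of_nonneg]
      · apply prod_le_one
        · intro p hp; linarith [hx1 p hp]
        · intro p hp; linarith [hx0 p hp]
      · apply prod_nonneg
        intro p hp; linarith [hx1 p hp]
    · obtain ⟨j, rfl⟩ : ∃ j, k = j + 1 := ⟨k - 1, by omega⟩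
      rw [SB_insert P a ha, EB_insert P a ha, prod_insert ha]
      have i1 := ih hx0' hx1' (j + 1)
      have i2 := ih hx0' hx1' j
      have e : (1 - x a) * ∏ p ∈ P, (1 - x p) - (SB P (j + 1) x - x a * SB P j x) =
          (∏ p ∈ P, (1 - x p) - SB P (j + 1) x) - x a * (∏ p ∈ P, (1 - x p) - SB P j x) := by ring
      rw [e]
      calc |(∏ p ∈ P, (1 - x p) - SB P (j + 1) x) - x a * (∏ p ∈ P, (1 - x p) - SB P j x)| ≤
          |∏ p ∈ P, (1 - x p) - SB P (j + 1) x| + |x a * (∏ p ∈ P, (1 - x p) - SB P j x)| :=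
            abs_sub _ _
        _ ≤ _ := by
          rw [abs_mul, abs_of_nonneg ha0]
          exact add_le_add i1 (mul_le_mul_of_nonneg_left i2 ha0)

theorem pow_two_terms (s y : ℝ) (hs0 : 0 ≤ s) (ha0 : 0 ≤ y) (j : ℕ) :
    s ^ (j + 1) + (j + 1) * y * s ^ j ≤ (y + s) ^ (j + 1) := by
  induction j with
  | zero => simp; linarith
  | succ j i3 =>
    calc s ^ (j + 1 + 1) + ((j + 1 : ℕ) + 1) * y * s ^ (j + 1) ≤
        (y + s) * (s ^ (j + 1) + (j + 1) * y * s ^ j) := by
          push_cast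
          have h1 : 0 ≤ (j + 1) * y * y * s ^ j := by positivity
          have e4 : s ^ (j + 1) = s ^ j * s := pow_succ _ _
          have e5 : s ^ (j + 1 + 1) = s ^ j * s * s := by rw [pow_succ, pow_succ]
          rw [e4, e5]
          nlinarith
      _ ≤ (y + s) * (y + s) ^ (j + 1) := mul_le_mul_of_nonneg_left i3 (by linarith)
      _ = _ := by ring

/-- the elementary symmetric function is small -/
theorem EB_le (P : Finset ℕ) (x : ℕ → ℝ) (hx0 : ∀ p ∈ P, 0 ≤ x p) (k : ℕ) :
    EB P k x * (k.factorial : ℝ) ≤ (∑ p ∈ P, x p) ^ k := by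
  induction P using Finset.induction_on generalizing k with
  | empty =>
    rcases Nat.eq_zero_or_pos k with h | h
    · subst h
      rw [EB_zero]
      simp
    · have h1 : EB ∅ k x = 0 := by
        unfold EB
        simp [h.ne]
      rw [h1]
      simp [h.ne']
  | insert a P ha ih =>
    have hx0' : ∀ p ∈ P, 0 ≤ x p := fun p hp => hx0 p (mem_insert_of_mem hp)
    have ha0 : 0 ≤ x a := hx0 a (mem_insert_self _ _)
    have hs0 : 0 ≤ ∑ p ∈ P, x p := sum_nonneg hx0'
    rcases Nat.eq_zero_or_pos k with h | h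
    · subst h
      rw [EB_zero]
      simp
    · obtain ⟨j, rfl⟩ : ∃ j, k = j + 1 := ⟨k - 1, by omega⟩
      rw [EB_insert P a ha, sum_insert ha, add_mul]
      have i1 := ih hx0' (j + 1)
      have i2 := ih hx0' j
      have e1 : x a * EB P j x * ((j + 1).factorial : ℝ) = (j + 1) * x a * (EB P j x * (j.factorial : ℝ)) := by
        rw [Nat.factorial_succ]
        push_cast
        ring
      rw [e1]
      have e2 : (∑ p ∈ P, x p) ^ (j + 1) + (j + 1) * x a * (∑ p ∈ P, x p) ^ j ≤
          (x a + ∑ p ∈ P, x p) ^ (j + 1) := pow_two_terms _ _ hs0 ha0 j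
      have hja : 0 ≤ ((j : ℝ) + 1) * x a := by positivity
      calc EB P (j + 1) x * ((j + 1).factorial : ℝ) + (j + 1) * x a * (EB P j x * (j.factorial : ℝ)) ≤
          (∑ p ∈ P, x p) ^ (j + 1) + (j + 1) * x a * (∑ p ∈ P, x p) ^ j :=
            add_le_add i1 (mul_le_mul_of_nonneg_left i2 hja)
        _ ≤ _ := e2

end Pool.Agent.H540.DS
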