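import Pool.Agent.H540.DS.Sum
import Pool.Graph.R_seed8.H343R2.PV

/-! The large sieve for a set in a residue class. -/

set_option autoImplicit false

namespace Pool.Agent.H540.DS

open Finset Polynomial
open H343 (ex)
open Pool.Agent.Y882.PX
open Pool.Agent.Helper112 (ee)

open Classical in
theorem S_class (A : Finset ℤ) (M W : ℕ) (hW : 0 < W) (r : ℤ)
    (hA : ∀ a ∈ A, ∃ j : ℕ, 1 ≤ j ∧ j ≤ M ∧ a = r + W * j) (f : ℕ) (hf : 0 < f) (b : ℕ) :
    ‖S A f b‖ = ‖∑ j ∈ Icc 1 M, (if r + (W : ℤ) * j ∈ A then (1 : ℂ) else 0) *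
      ee ((j : ℝ) * ((b * W % f : ℕ) : ℝ) / f)‖ := by
  have h1 : A = ((Icc 1 M).filter (fun j : ℕ => r + (W : ℤ) * j ∈ A)).image
      (fun j : ℕ => r + (W : ℤ) * j) := by
    ext a
    rw [mem_image]
    constructor
    · intro ha
      obtain ⟨j, h1, h2, h3⟩ := hA a ha
      refine ⟨j, ?_, h3.symm⟩
      rw [mem_filter, mem_Icc, ← h3]
      exact ⟨⟨h1, h2⟩, ha⟩
    · rintro ⟨j, hj, rfl⟩
      exact (mem_filter.1 hj).2
  have h2 : S A f b = ex ((b : ℝ) * (r : ℤ) / f) * ∑ j ∈ Icc 1 M,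
      (if r + (W : ℤ) * j ∈ A then (1 : ℂ) else 0) * ee ((j : ℝ) * ((b * W % f : ℕ) : ℝ) / f) := by
    have e1 : S A f b = ∑ j ∈ (Icc 1 M).filter (fun j : ℕ => r + (W : ℤ) * j ∈ A),
        ex ((b : ℝ) * ((r + (W : ℤ) * j : ℤ)) / f) := by
      unfold S
      conv_lhs => rw [h1]
      rw [sum_image]
      intro i _ j _ h
      simp only at h
      have hW' : (W : ℤ) ≠ 0 := by exact_mod_cast hW.ne'
      have h3 : (W : ℤ) * i = W * j := by linarith
      have h4 := mul_left_cancel₀ hW' h3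
      exact_mod_cast h4
    rw [e1, sum_filter, mul_sum]
    apply sum_congr rfl
    intro j _
    by_cases h : r + (W : ℤ) * j ∈ A
    · rw [if_pos h, if_pos h, one_mul, ← H343.PVaux.ex_eq_ee]
      have e2 := ex_congr f hf ((b : ℤ) * (W * j)) ((j : ℤ) * ((b * W % f : ℕ) : ℤ)) (by
        have e3 : (b : ℤ) * (W * j) - (j : ℤ) * ((b * W % f : ℕ) : ℤ) =
            j * (((b * W : ℕ) : ℤ) - ((b * W % f : ℕ) : ℤ)) := by push_cast; ring
        rw [e3]
        apply Dvd.dvd.mul_left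
        push_cast
        exact Int.dvd_self_sub_emod)
      have e4 : ex ((j : ℝ) * ((b * W % f : ℕ) : ℝ) / f) = ex ((((j : ℤ) * ((b * W % f : ℕ) : ℤ) : ℤ) : ℝ) / f) := by
        congr 1
        push_cast
        rfl
      rw [e4, ← e2, ← H343.Gauss.ex_add]
      congr 1
      push_cast
      ring
    · rw [if_neg h, if_neg h, zero_mul, mul_zero]
  rw [h2, norm_mul, H343.Gauss.norm_ex, one_mul]

open Classical in
/-- **the large sieve in a residue class** -/
theorem LS_class (A : Finset ℤ) (M W : ℕ) (hW : 0 < W) (r : ℤ)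
    (hA : ∀ a ∈ A, ∃ j : ℕ, 1 ≤ j ∧ j ≤ M ∧ a = r + W * j) (t : ℕ) :
    ∑ f ∈ (Icc 1 t).filter (fun f => f.Coprime W), En A f ≤ 6 * (M + (t : ℝ) ^ 2) * A.card := by
  set α : ℕ → ℂ := fun j => if r + (W : ℤ) * j ∈ A then (1 : ℂ) else 0 with hα
  have h1 := Pool.Agent.Helper112.additive_large_sieve M t α
  have h2 : ∑ n ∈ Icc 1 M, ‖α n‖ ^ 2 ≤ A.card := by
    have e1 : ∀ n ∈ Icc 1 M, ‖α n‖ ^ 2 = if r + (W : ℤ) * n ∈ A then (1 : ℝ) else 0 := by
      intro n _
      rw [hα]
      simp only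
      split_ifs <;> simp
    rw [sum_congr rfl e1, sum_boole]
    have e2 : ((Icc 1 M).filter (fun n : ℕ => r + (W : ℤ) * n ∈ A)).card ≤ A.card := by
      apply card_le_card_of_injOn (fun n : ℕ => r + (W : ℤ) * n)
      · intro n hn
        rw [mem_coe, mem_filter] at hn
        exact hn.2
      · intro i _ j _ h
        simp only at h
        have hW' : (W : ℤ) ≠ 0 := by exact_mod_cast hW.ne'
        have h3 : (W : ℤ) * i = W * j := by linarith
        have h4 := mul_left_cancel₀ hW' h3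
        exact_mod_cast h4
    exact_mod_cast e2
  have h3 : ∑ f ∈ (Icc 1 t).filter (fun f => f.Coprime W), En A f ≤
      ∑ f ∈ Icc 1 t, ∑ a ∈ (range f).filter (fun a => a.Coprime f),
        ‖∑ n ∈ Icc 1 M, α n * ee (n * a / f)‖ ^ 2 := by
    rw [sum_filter]
    apply sum_le_sum
    intro f hf
    rw [mem_Icc] at hf
    have hf0 : 0 < f := hf.1
    split_ifs with hc
    · unfold En
      have e1 : ∀ b ∈ (range f).filter (fun b => b.Coprime f), ‖S A f b‖ ^ 2 =
          (fun c : ℕ => ‖∑ n ∈ Icc 1 M, α n * ee (n * c / f)‖ ^ 2) (b * W % f) := by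
        intro b _
        rw [S_class A M W hW r hA f hf0 b]
      rw [sum_congr rfl e1]
      have e2 : Set.InjOn (fun b => b * W % f) ((range f).filter (fun b => b.Coprime f) : Finset ℕ) := by
        intro b hb b' hb' h
        rw [mem_coe, mem_filter, mem_range] at hb hb'
        simp only at h
        have h5 : b * W ≡ b' * W [MOD f] := h
        have h6 : b ≡ b' [MOD f] := Nat.ModEq.cancel_right_of_coprime hc h5
        exact Nat.ModEq.eq_of_lt_of_lt h6 hb.1 hb'.1
      rw [← sum_image (f := fun c : ℕ => ‖∑ n ∈ Icc 1 M, α n * ee (n * c / f)‖ ^ 2) e2]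
      apply sum_le_sum_of_subset_of_nonneg
      · intro c hc'
        rw [mem_image] at hc'
        obtain ⟨b, hb, rfl⟩ := hc'
        rw [mem_filter, mem_range] at hb ⊢
        refine ⟨Nat.mod_lt _ hf0, ?_⟩
        rw [Nat.Coprime, ← Nat.gcd_rec, Nat.gcd_comm]
        exact Nat.Coprime.mul_left hb.2 hc.symm
      · intro c _ _
        positivity
    · apply sum_nonneg
      intro a _
      positivity
  refine h3.trans (h1.trans ?_)
  exact mul_le_mul_of_nonneg_left h2 (by positivity)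

end Pool.Agent.H540.DS
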