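import Pool.Agent.H540.DS.Fsv
import Pool.Agent.H540.DS.LSC

/-! Decomposition into residue classes. -/

set_option autoImplicit false

namespace Pool.Agent.H540.DS

open Finset Polynomial
open H343 (ex)
open Pool.Agent.Y882.PX
open Pool.Agent.Y882.SI (RT RT_card RS dvd_eval_congr)

/-- a set of integers in a residue class and in an interval -/
def InC (B : Finset ℤ) (x0 : ℤ) (N W : ℕ) (r : ℤ) : Prop :=
  ∀ a ∈ B, x0 < a ∧ a ≤ x0 + N ∧ a % W = r

theorem InC.ls {B : Finset ℤ} {x0 : ℤ} {N W : ℕ} {r : ℤ} (h : InC B x0 N W r) (hW : 0 < W) :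
    ∃ s : ℤ, ∀ a ∈ B, ∃ j : ℕ, 1 ≤ j ∧ j ≤ N / W + 1 ∧ a = s + W * j := by
  have hWz : (0 : ℤ) < W := by exact_mod_cast hW
  refine ⟨x0 - (x0 - r) % W, ?_⟩
  intro a ha
  obtain ⟨h1, h2, h3⟩ := h a ha
  have e1 := Int.emod_nonneg (x0 - r) hWz.ne'
  have e2 := Int.emod_lt_of_pos (x0 - r) hWz
  obtain ⟨k1, hk1⟩ : ∃ k1, x0 - r = W * k1 + (x0 - r) % W := ⟨(x0 - r) / W, (Int.mul_ediv_add_emod _ _).symm⟩
  obtain ⟨k2, hk2⟩ : ∃ k2, a = W * k2 + a % W := ⟨a / W, (Int.mul_ediv_add_emod _ _).symm⟩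
  rw [h3] at hk2
  have h4 : a - (x0 - (x0 - r) % W) = W * (k2 - k1) := by
    have : (x0 - r) % W = x0 - r - W * k1 := by linarith
    rw [this, hk2]
    ring
  have h5 : 0 < (W : ℤ) * (k2 - k1) := by rw [← h4]; linarith
  have h6 : 0 < k2 - k1 := by
    by_contra hcon
    push Not at hcon
    nlinarith
  have h7 : (W : ℤ) * (k2 - k1) ≤ N + W - 1 := by rw [← h4]; linarith
  refine ⟨(k2 - k1).toNat, by omega, ?_, ?_⟩
  · have h8 : (((k2 - k1).toNat : ℕ) : ℤ) = k2 - k1 := Int.toNat_of_nonneg h6.le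
    have h9 : W * ((k2 - k1).toNat) ≤ N + W - 1 := by
      zify [show 1 ≤ N + W by omega]
      rw [h8]
      linarith
    have h10 : (k2 - k1).toNat ≤ (N + W - 1) / W := by
      rw [Nat.le_div_iff_mul_le hW]
      linarith [mul_comm W ((k2 - k1).toNat)]
    refine h10.trans ?_
    have h11 : (N + W - 1) / W ≤ (N + W) / W := Nat.div_le_div_right (by omega)
    rw [Nat.add_div_right _ hW] at h11
    exact h11
  · rw [Int.toNat_of_nonneg h6.le]
    linarith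

theorem EE2_sum_le (A1 A2 : Finset ℤ) (s : Finset ℕ) (X1 X2 : ℝ) (h1 : ∑ f ∈ s, En A1 f ≤ X1)
    (h2 : ∑ f ∈ s, En A2 f ≤ X2) : ∑ f ∈ s, EE2 A1 A2 f ≤ √(X1 * X2) := by
  have h0 : 0 ≤ ∑ f ∈ s, En A1 f := sum_nonneg fun _ _ => En_nonneg _ _
  have h3 : ∀ f ∈ s, EE2 A1 A2 f ≤ √(En A1 f) * √(En A2 f) := by
    intro f _
    unfold EE2 En
    exact Real.sum_mul_le_sqrt_mul_sqrt _ _ _
  refine (sum_le_sum h3).trans ?_
  refine (Real.sum_mul_le_sqrt_mul_sqrt _ _ _).trans ?_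
  have e1 : ∀ A : Finset ℤ, ∑ f ∈ s, √(En A f) ^ 2 = ∑ f ∈ s, En A f := by
    intro A
    exact sum_congr rfl fun f _ => Real.sq_sqrt (En_nonneg A f)
  rw [e1, e1, ← Real.sqrt_mul h0]
  exact Real.sqrt_le_sqrt (mul_le_mul h1 h2 (sum_nonneg fun _ _ => En_nonneg _ _) (h0.trans h1))

open Classical in
theorem LSH_cls (B1 B2 : Finset ℤ) (x1 x2 : ℤ) (N W : ℕ) (r1 r2 : ℤ) (hW : 0 < W) (hWN : W ≤ N)
    (h1 : InC B1 x1 N W r1) (h2 : InC B2 x2 N W r2) (Lam : ℝ) (hLam : 0 ≤ Lam)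
    (hd : 12 * ((N : ℝ) / W) ≤ Lam * √((B1.card : ℝ) * B2.card)) :
    LSH B1 B2 W ((N : ℝ) / W) Lam 0 := by
  intro t _
  rw [Real.rpow_zero, mul_one]
  obtain ⟨s1, hs1⟩ := h1.ls hW
  obtain ⟨s2, hs2⟩ := h2.ls hW
  have hWr : (0 : ℝ) < W := by exact_mod_cast hW
  have hNr : (0 : ℝ) < N := by exact_mod_cast (hW.trans_le hWN)
  have l1 := LS_class B1 (N / W + 1) W hW s1 hs1 t
  have l2 := LS_class B2 (N / W + 1) W hW s2 hs2 t
  have l3 := EE2_sum_le B1 B2 _ _ _ l1 l2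
  refine l3.trans ?_
  have hM : (((N / W + 1 : ℕ)) : ℝ) ≤ 2 * ((N : ℝ) / W) := by
    push_cast
    have h3 : ((N / W : ℕ) : ℝ) ≤ (N : ℝ) / W := Nat.cast_div_le
    have h4 : (1 : ℝ) ≤ (N : ℝ) / W := by
      rw [one_le_div hWr]
      exact_mod_cast hWN
    linarith
  have hq : 0 < (N : ℝ) / W := by positivity
  have h3 : (((N / W + 1 : ℕ)) : ℝ) + (t : ℝ) ^ 2 ≤ 2 * ((N : ℝ) / W) * (1 + (t : ℝ) ^ 2 / ((N : ℝ) / W)) := by
    generalize (N : ℝ) / W = q at hM hq ⊢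
    have e : 2 * q * (1 + (t : ℝ) ^ 2 / q) = 2 * q + 2 * (t : ℝ) ^ 2 := by
      field_simp
    rw [e]
    have : 0 ≤ (t : ℝ) ^ 2 := by positivity
    linarith
  set m : ℝ := (B1.card : ℝ) * B2.card with hm
  have hm0 : 0 ≤ m := by positivity
  set T : ℝ := (((N / W + 1 : ℕ)) : ℝ) + (t : ℝ) ^ 2 with hT
  have hT0 : 0 ≤ T := by positivity
  have e1 : 6 * T * (B1.card : ℝ) * (6 * T * (B2.card : ℝ)) = (6 * T) ^ 2 * m := by
    rw [hm]; ring
  have hT2 : (0 : ℝ) ≤ (6 * T) ^ 2 := sq_nonneg _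
  have hT3 : (0 : ℝ) ≤ 6 * T := by linarith
  rw [e1, Real.sqrt_mul hT2, Real.sqrt_sq hT3]
  have e2 : m = √m * √m := (Real.mul_self_sqrt hm0).symm
  have hs : 0 ≤ √m := Real.sqrt_nonneg m
  have hc : 0 ≤ 1 + (t : ℝ) ^ 2 / ((N : ℝ) / W) := by positivity
  calc 6 * T * √m ≤ 6 * (2 * ((N : ℝ) / W) * (1 + (t : ℝ) ^ 2 / ((N : ℝ) / W))) * √m := by
        apply mul_le_mul_of_nonneg_right _ hs
        linarith
    _ = (12 * ((N : ℝ) / W)) * ((1 + (t : ℝ) ^ 2 / ((N : ℝ) / W)) * √m) := by ring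
    _ ≤ (Lam * √m) * ((1 + (t : ℝ) ^ 2 / ((N : ℝ) / W)) * √m) :=
        mul_le_mul_of_nonneg_right hd (mul_nonneg hc hs)
    _ = Lam * (1 + (t : ℝ) ^ 2 / ((N : ℝ) / W)) * (√m * √m) := by ring
    _ = _ := by rw [← e2]

/-- a complete residue system -/
def RR (W : ℕ) : Finset ℤ := (range W).map Nat.castEmbedding

theorem RR_card (W : ℕ) : (RR W).card = W := by
  unfold RR
  rw [card_map, card_range]

theorem mem_RR (W : ℕ) (a : ℤ) : a ∈ RR W ↔ 0 ≤ a ∧ a < W := by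
  unfold RR
  rw [Finset.mem_map]
  constructor
  · rintro ⟨b, hb, rfl⟩
    rw [mem_range] at hb
    simp only [Nat.castEmbedding_apply]
    omega
  · intro h
    refine ⟨a.toNat, ?_, ?_⟩
    · rw [mem_range]
      omega
    · simp only [Nat.castEmbedding_apply]
      omega

theorem S_RR (W f c b : ℕ) (hW : W = f * c) (hf : 1 < f) (hc : 0 < c) (hb : b.Coprime f) :
    S (RR W) f b = 0 := by
  have hW0 : 0 < W := by
    rw [hW]
    exact Nat.mul_pos (by omega) hc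
  unfold S RR
  rw [sum_map]
  have h1 : ∀ a ∈ range W, ex ((b : ℝ) * ((Nat.castEmbedding a : ℤ) : ℤ) / f) =
      ex ((a : ℝ) * (((b * c : ℕ) : ℤ)) / W) := by
    intro a _
    congr 1
    rw [hW]
    have hf0 : (f : ℝ) ≠ 0 := by positivity
    have hc0 : (c : ℝ) ≠ 0 := by positivity
    simp only [Nat.castEmbedding_apply]
    push_cast
    field_simp
  rw [sum_congr rfl h1, H336V.RamanAux.geom W hW0]
  rw [if_neg]
  intro h
  have h2 : W ∣ b * c := by exact_mod_cast h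
  rw [hW] at h2
  have h3 : f ∣ b := Nat.dvd_of_mul_dvd_mul_right hc h2
  have h4 : f ∣ Nat.gcd b f := Nat.dvd_gcd h3 (dvd_refl f)
  rw [hb] at h4
  have := Nat.le_of_dvd one_pos h4
  omega

theorem GG_RR (F : ℤ[X]) (P U : Finset ℕ) (hP : ∀ p ∈ P, p.Prime) (hU : U ⊆ P) (hne : U ≠ ∅) :
    GG F (RR (pd P)) (RR (pd P)) U = 0 := by
  classical
  unfold GG
  apply mul_eq_zero_of_right
  apply sum_eq_zero
  intro b hb
  rw [mem_filter] at hb
  have hUp : ∀ p ∈ U, p.Prime := fun p hp => hP p (hU hp)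
  have e0 : pd P = pd U * (∏ p ∈ P \ U, p) := by
    unfold pd
    rw [mul_comm, prod_sdiff hU]
  have hc0 : 0 < ∏ p ∈ P \ U, p := prod_pos' _ (fun p hp => hP p (mem_sdiff.1 hp).1)
  have h1 : 1 < pd U := by
    obtain ⟨a, ha⟩ := nonempty_iff_ne_empty.2 hne
    have h2 : a ∣ pd U := dvd_prod_of_mem _ ha
    exact (hUp a ha).one_lt.trans_le (Nat.le_of_dvd (pd_pos U hUp) h2)
  rw [S_RR (pd P) (pd U) _ b e0 h1 hc0 hb.2]
  ring

open Classical in
/-- the number of pairs of classes without prime factors of `P` -/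
theorem card_J (F : ℤ[X]) (P : Finset ℕ) (hP : ∀ p ∈ P, p.Prime) :
    ((JP F (RR (pd P)) (RR (pd P)) P).card : ℝ) = (pd P : ℝ) ^ 2 * ∏ p ∈ P, (1 - xx F p) := by
  have h1 := sieve_full F (RR (pd P)) (RR (pd P)) P hP
  rw [sum_eq_single_of_mem ∅ (empty_mem_powerset P) (by
    intro U hU hne
    rw [GG_RR F P U hP (mem_powerset.1 hU) hne, mul_zero])] at h1
  rw [GG_empty, RR_card, card_empty, pow_zero, one_mul, sdiff_empty] at h1
  have h2 : MP F (RR (pd P)) (RR (pd P)) P 1 = (JP F (RR (pd P)) (RR (pd P)) P).card := by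
    unfold MP
    rw [filter_true_of_mem]
    intro z _
    simp
  rw [h2] at h1
  have h3 : (((JP F (RR (pd P)) (RR (pd P)) P).card : ℝ) : ℂ) =
      (((pd P : ℝ) ^ 2 * ∏ p ∈ P, (1 - xx F p) : ℝ) : ℂ) := by
    push_cast
    rw [h1]
    push_cast
    ring
  exact_mod_cast h3

/-- the elements in a residue class -/
def cls (B : Finset ℤ) (W : ℕ) (r : ℤ) : Finset ℤ := B.filter (fun a => a % W = r)

open Classical in
/-- **The sum over the pairs of classes.** -/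
theorem class_sum (F : ℤ[X]) (B1 B2 : Finset ℤ) (P : Finset ℕ) (hP : ∀ p ∈ P, p.Prime)
    (good : ℤ × ℤ → Prop) (cc V : ℝ) (hcc : 0 ≤ cc) (hV : V = ∏ p ∈ P, (1 - xx F p))
    (hm : 0 < (B1.card : ℝ) * B2.card)
    (hs : V / 2 * ((B1.card : ℝ) * B2.card) ≤ (MP F B1 B2 P 1 : ℝ))
    (H : ∀ r1 r2 : ℤ, (B1.card : ℝ) * B2.card / (4 * (pd P : ℝ) ^ 2) ≤
      ((cls B1 (pd P) r1).card : ℝ) * (cls B2 (pd P) r2).card →
      (∀ p ∈ P, ¬ (p : ℤ) ∣ F.eval (r1 - r2)) →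
      cc * (((cls B1 (pd P) r1).card : ℝ) * (cls B2 (pd P) r2).card) ≤
      (((cls B1 (pd P) r1) ×ˢ (cls B2 (pd P) r2)).filter good).card) :
    cc * (V / 4) * ((B1.card : ℝ) * B2.card) ≤ (((B1 ×ˢ B2).filter good).card : ℝ) := by
  obtain ⟨W, hW⟩ : ∃ W : ℕ, W = pd P := ⟨_, rfl⟩
  have hW0 : 0 < W := by rw [hW]; exact pd_pos P hP
  have hWr : (0 : ℝ) < W := by exact_mod_cast hW0
  have hWz : (0 : ℤ) < W := by exact_mod_cast hW0
  rw [← hW] at H
  set m : ℝ := (B1.card : ℝ) * B2.card with hm'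
  -- classes of the elements
  have hcl : ∀ z : ℤ × ℤ, (z.1 % (W : ℤ), z.2 % (W : ℤ)) ∈ RR W ×ˢ RR W := by
    intro z
    rw [mem_product, mem_RR, mem_RR]
    exact ⟨⟨Int.emod_nonneg _ hWz.ne', Int.emod_lt_of_pos _ hWz⟩, ⟨Int.emod_nonneg _ hWz.ne',
      Int.emod_lt_of_pos _ hWz⟩⟩
  have hfib : ∀ Q : ℤ × ℤ → Prop, ((B1 ×ˢ B2).filter Q).card =
      ∑ r ∈ RR W ×ˢ RR W, (((cls B1 W r.1) ×ˢ (cls B2 W r.2)).filter Q).card := by
    intro Q
    rw [card_eq_sum_card_fiberwise (f := fun z : ℤ × ℤ => (z.1 % (W : ℤ), z.2 % (W : ℤ)))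
      (t := RR W ×ˢ RR W) (fun z _ => hcl z)]
    apply sum_congr rfl
    rintro ⟨r1, r2⟩ _
    congr 1
    ext ⟨a, b⟩
    unfold cls
    simp only [mem_filter, mem_product, Prod.mk.injEq]
    tauto
  -- the sieve
  set J := JP F (RR W) (RR W) P with hJ
  have hdvd : ∀ p ∈ P, (p : ℤ) ∣ (W : ℤ) := by
    intro p hp
    rw [hW]
    unfold pd
    exact_mod_cast dvd_prod_of_mem (fun p => p) hp
  have hcong : ∀ p ∈ P, ∀ a b : ℤ, (p : ℤ) ∣ F.eval (a - b) ↔ (p : ℤ) ∣ F.eval (a % W - b % W) := by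
    intro p hp a b
    apply dvd_eval_congr
    have h1 : (W : ℤ) ∣ a - a % W := Int.dvd_self_sub_emod
    have h2 : (W : ℤ) ∣ b - b % W := Int.dvd_self_sub_emod
    have h3 : a - b - (a % W - b % W) = (a - a % W) - (b - b % W) := by ring
    rw [h3]
    exact dvd_sub ((hdvd p hp).trans h1) ((hdvd p hp).trans h2)
  have hMP : (MP F B1 B2 P 1 : ℝ) = ∑ r ∈ J, ((cls B1 W r.1).card : ℝ) * (cls B2 W r.2).card := by
    obtain ⟨Q0, hQ0⟩ : ∃ Q0 : ℤ × ℤ → Prop, Q0 = fun z => ∀ p ∈ P, ¬ (p : ℤ) ∣ F.eval (z.1 - z.2) :=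
      ⟨_, rfl⟩
    have h1 : MP F B1 B2 P 1 = ((B1 ×ˢ B2).filter Q0).card := by
      unfold MP JP
      rw [filter_true_of_mem (by intro z _; simp)]
      congr 1
      ext z
      rw [mem_filter, mem_filter, hQ0]
    have h2 : J ⊆ RR W ×ˢ RR W := by
      rw [hJ]
      unfold JP
      exact filter_subset _ _
    rw [h1, hfib, ← sum_subset h2]
    · push_cast
      apply sum_congr rfl
      intro r hr
      rw [hJ] at hr
      unfold JP at hr
      rw [mem_filter] at hr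
      rw [filter_true_of_mem, card_product]
      · push_cast
        rfl
      · rw [hQ0]
        rintro ⟨a, b⟩ hz p hp hd
        unfold cls at hz
        rw [mem_product, mem_filter, mem_filter] at hz
        rw [hcong p hp] at hd
        simp only at hz hd
        rw [hz.1.2, hz.2.2] at hd
        exact hr.2 p hp hd
    · intro r hr hrJ
      rw [card_eq_zero, filter_eq_empty_iff]
      rintro ⟨a, b⟩ hz hgood
      rw [hQ0] at hgood
      apply hrJ
      rw [hJ]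
      unfold JP
      rw [mem_filter]
      refine ⟨hr, fun p hp hd => ?_⟩
      unfold cls at hz
      rw [mem_product, mem_filter, mem_filter] at hz
      simp only at hz
      apply hgood p hp
      rw [hcong p hp]
      simp only
      rw [hz.1.2, hz.2.2]
      exact hd
  have hJc : (J.card : ℝ) = (W : ℝ) ^ 2 * V := by
    rw [hJ, hV, hW]
    exact card_J F P hP
  -- dense pairs of classes
  set Jd := J.filter (fun r => m / (4 * (W : ℝ) ^ 2) ≤ ((cls B1 W r.1).card : ℝ) * (cls B2 W r.2).card)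
    with hJd
  have h1 : ∑ r ∈ J.filter (fun r => ¬ m / (4 * (W : ℝ) ^ 2) ≤
      ((cls B1 W r.1).card : ℝ) * (cls B2 W r.2).card), ((cls B1 W r.1).card : ℝ) * (cls B2 W r.2).card ≤
      V / 4 * m := by
    calc ∑ r ∈ J.filter (fun r => ¬ m / (4 * (W : ℝ) ^ 2) ≤
      ((cls B1 W r.1).card : ℝ) * (cls B2 W r.2).card), ((cls B1 W r.1).card : ℝ) * (cls B2 W r.2).card ≤
        ∑ _r ∈ J.filter (fun r => ¬ m / (4 * (W : ℝ) ^ 2) ≤
      ((cls B1 W r.1).card : ℝ) * (cls B2 W r.2).card), m / (4 * (W : ℝ) ^ 2) := by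
          apply sum_le_sum
          intro r hr
          rw [mem_filter] at hr
          push Not at hr
          exact hr.2.le
      _ ≤ ∑ _r ∈ J, m / (4 * (W : ℝ) ^ 2) :=
          sum_le_sum_of_subset_of_nonneg (filter_subset _ _) (fun _ _ _ => by positivity)
      _ = V / 4 * m := by
          rw [sum_const, nsmul_eq_mul, hJc]
          field_simp
  have h2 : V / 4 * m ≤ ∑ r ∈ Jd, ((cls B1 W r.1).card : ℝ) * (cls B2 W r.2).card := by
    rw [hMP, ← sum_filter_add_sum_filter_not J (fun r => m / (4 * (W : ℝ) ^ 2) ≤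
      ((cls B1 W r.1).card : ℝ) * (cls B2 W r.2).card)] at hs
    linarith
  rw [hfib]
  push_cast
  calc cc * (V / 4) * m = cc * (V / 4 * m) := by ring
    _ ≤ cc * ∑ r ∈ Jd, ((cls B1 W r.1).card : ℝ) * (cls B2 W r.2).card :=
        mul_le_mul_of_nonneg_left h2 hcc
    _ = ∑ r ∈ Jd, cc * (((cls B1 W r.1).card : ℝ) * (cls B2 W r.2).card) := mul_sum _ _ _
    _ ≤ ∑ r ∈ Jd, ((((cls B1 W r.1) ×ˢ (cls B2 W r.2)).filter good).card : ℝ) := by
        apply sum_le_sum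
        intro r hr
        rw [hJd, mem_filter] at hr
        apply H r.1 r.2 hr.2
        have h3 := hr.1
        rw [hJ] at h3
        unfold JP at h3
        rw [mem_filter] at h3
        exact h3.2
    _ ≤ _ := by
        apply sum_le_sum_of_subset_of_nonneg
        · rw [hJd, hJ]
          unfold JP
          exact (filter_subset _ _).trans (filter_subset _ _)
        · intro r _ _
          positivity

end Pool.Agent.H540.DS
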