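import Pool.Agent.H540.DS.Geo

/-! **The sieve for the differences of two sets, from moderate primes on**, with a weaker form of the large
sieve hypothesis. -/

set_option autoImplicit false

namespace Pool.Agent.H540.DS

open Finset Filter Polynomial
open Pool.Agent.W23.DC
open Pool.Agent.Y882.PX
open Pool.Agent.Y882
open Pool.Agent.Y882.KW

open Classical in
theorem core2 (F : ℤ[X]) (hF : Irreducible F) (hd : 0 < F.natDegree)
    (τ ζ υ aw bw τ3 ε u : ℝ) (m0 : ℕ) (hζ : 0 < ζ) (h2 : 2 * ζ < τ) (h4 : τ ≤ 4 * ζ) (hζυ : ζ ≤ υ) (hυτ : υ < τ)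
    (ha : 0 ≤ aw) (hb : 0 ≤ bw) (hab : bw * υ ≤ aw)
    (hJ0 : ∫ x in ζ..υ, (aw - bw * x) / (τ - x) / x < Real.log (τ / ζ - 1) / τ)
    (h5 : τ < τ3) (h6 : τ3 < 1) (h7 : 1 / 2 ≤ τ3) (hε : 0 < ε) (hε1 : ε ≤ 1)
    (hu0 : 0 < u) (hu1 : u ≤ ε / 8) (hu2 : u ≤ (τ3 - τ) / 8) :
    ∃ (c K1 : ℝ) (N0 : ℕ), 0 < c ∧ 3 ≤ K1 ∧ ∀ N : ℕ, N0 ≤ N → ∀ (W0 : ℕ) (B1 B2 : Finset ℤ)
      (x1 x2 r1 r2 : ℤ) (w0 Lam Lam0 : ℝ) (Nz : ℤ × ℤ → ℕ), 0 < W0 →
      (∀ p : ℕ, p.Prime → p ∣ W0 → (p : ℝ) ≤ w0) → (W0 : ℝ) ≤ (N : ℝ) ^ ((1 - τ3) / 2) →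
      InC B1 x1 N W0 r1 → InC B2 x2 N W0 r2 → 1 ≤ Lam → K1 ≤ w0 → 32 * Lam ≤ w0 ^ (1 - 2 * u) →
      w0 ≤ Real.log N ^ (1 - ε / 2) → Lam ≤ Real.log N ^ (1 - ε) →
      LSH B1 B2 W0 ((N : ℝ) / W0) Lam u →
      (∀ s1 s2 : ℤ, (B1.card : ℝ) * B2.card / (4 * (pd (PI w0 (Real.log N ^ (1 - ε / 2))) : ℝ) ^ 2) ≤
        ((cls B1 (pd (PI w0 (Real.log N ^ (1 - ε / 2)))) s1).card : ℝ) *
          (cls B2 (pd (PI w0 (Real.log N ^ (1 - ε / 2)))) s2).card →
        LSH (cls B1 (pd (PI w0 (Real.log N ^ (1 - ε / 2)))) s1)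
          (cls B2 (pd (PI w0 (Real.log N ^ (1 - ε / 2)))) s2)
          (W0 * pd (PI w0 (Real.log N ^ (1 - ε / 2))))
          ((N : ℝ) / ((W0 * pd (PI w0 (Real.log N ^ (1 - ε / 2))) : ℕ) : ℝ)) Lam u) →
      1 ≤ Lam0 → Lam0 ≤ Real.log N ^ m0 → 24 * ((N : ℝ) / W0) ≤ Lam0 * √((B1.card : ℝ) * B2.card) →
      (∀ z ∈ B1 ×ˢ B2, ∀ p : ℕ, p.Prime → (p : ℝ) ≤ w0 → ¬ p ∣ Nz z) →
      (∀ z ∈ B1 ×ˢ B2, ∀ p : ℕ, p.Prime → w0 < (p : ℝ) →
        (p ∣ Nz z ↔ (p : ℤ) ∣ F.eval (z.1 - z.2))) →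
      c * ((B1.card : ℝ) * B2.card) * (Real.log w0 / Real.log N) ≤
        (((B1 ×ˢ B2).filter (fun z => 0 < WW N ζ υ aw bw (Nz z))).card : ℝ) := by
  obtain ⟨K, hKF⟩ : ∃ K : ℕ, K = KF F := ⟨_, rfl⟩
  have hK : ∀ p : ℕ, p.Prime → ro F 0 p ≤ K := by
    intro p hp
    rw [hKF]
    exact ro_le F hd 0 p hp
  obtain ⟨ce, NE, hce, HE⟩ := engine F hF hd τ ζ υ aw bw τ3 ε u m0 hζ h2 h4 hζυ hυτ ha hb hab hJ0 h5
    h6.le hε hε1 hu0.le hu1 hu2
  obtain ⟨cM, hcM, HPL⟩ := prod_low F hF hd K hK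
  have ev1 : ∀ᶠ N : ℕ in atTop, 1 ≤ Real.log (Real.log N) :=
    (Real.tendsto_log_atTop.comp tlog).eventually_ge_atTop 1
  have ev2 : ∀ᶠ N : ℕ in atTop, 4 / (1 - τ3) ≤ Real.log N ^ (ε / 2) :=
    ((tendsto_rpow_atTop (show 0 < ε / 2 by linarith)).comp tlog).eventually_ge_atTop (4 / (1 - τ3))
  obtain ⟨N1, HN1⟩ := eventually_atTop.1 (ev1.and (ev2.and (eventually_ge_atTop 256)))
  refine ⟨ce * cM / 4, 8 * K + 3 + (2 * K + 1) ^ (1 / u), max NE N1, by positivity, by
    have : (0 : ℝ) ≤ K := Nat.cast_nonneg K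
    have : (0 : ℝ) ≤ (2 * K + 1) ^ (1 / u) := by positivity
    linarith, ?_⟩
  intro N hN W0 B1 B2 x1 x2 r1 r2 w0 Lam Lam0 Nz hW0 hW0p hW0N hI1 hI2 hLam1 hK1 h32 hw0 hLamL hLS0 hLS1
    hLam01 hLam0L hdense hsm hlg
  obtain ⟨hll, hev2, hN3'⟩ := HN1 N ((le_max_right _ _).trans hN)
  have hNE : NE ≤ N := (le_max_left _ _).trans hN
  have hKr : (0 : ℝ) ≤ K := Nat.cast_nonneg K
  obtain ⟨L, hL⟩ : ∃ L : ℝ, L = Real.log N := ⟨_, rfl⟩
  obtain ⟨l, hl⟩ : ∃ l : ℝ, l = Real.log L := ⟨_, rfl⟩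
  have HE' := HE N hNE
  rw [← hL] at hll hev2 hw0 hLamL HE' hLS1 hLam0L ⊢
  rw [← hl] at hll HE'
  have hN256 : (256 : ℝ) ≤ N := by exact_mod_cast hN3'
  have hN3 : (3 : ℝ) ≤ N := by linarith
  have hN0 : (0 : ℝ) < N := by linarith
  have hN1 : (1 : ℝ) ≤ N := by linarith
  have hL0 : 0 < L := by
    by_contra h
    push Not at h
    have hLnn : 0 ≤ L := by rw [hL]; exact Real.log_nonneg hN1
    have h0 : L = 0 := le_antisymm h hLnn
    rw [hl, h0, Real.log_zero] at hll
    linarith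
  have hLe : Real.exp 1 ≤ L := by
    rw [← Real.le_log_iff_exp_le hL0, ← hl]
    exact hll
  have hL1 : 1 ≤ L := by
    have := Real.add_one_le_exp (1 : ℝ)
    linarith
  obtain ⟨w, hw⟩ : ∃ w : ℝ, w = L ^ (1 - ε / 2) := ⟨_, rfl⟩
  rw [← hw] at hw0 HE' hLS1
  have hK2 : (0 : ℝ) ≤ (2 * K + 1) ^ (1 / u) := by positivity
  have hw00 : (3 : ℝ) ≤ w0 := by linarith
  have hw0K1 : 8 * (K : ℝ) ≤ w0 := by linarith
  have hw0u : 2 * (K : ℝ) ≤ w0 ^ u := by
    calc 2 * (K : ℝ) ≤ 2 * K + 1 := by linarith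
      _ = ((2 * K + 1) ^ (1 / u)) ^ u := by
          rw [← Real.rpow_mul (by positivity), one_div_mul_cancel hu0.ne', Real.rpow_one]
      _ ≤ w0 ^ u := Real.rpow_le_rpow hK2 (by linarith) hu0.le
  have hw1 : 3 ≤ w := hw00.trans hw0
  obtain ⟨P, hP⟩ : ∃ P : Finset ℕ, P = PI w0 w := ⟨_, rfl⟩
  have hPm : ∀ p ∈ P, p.Prime ∧ w0 < (p : ℝ) ∧ (p : ℝ) ≤ w := by
    intro p hp
    rw [hP, mem_PI w0 w (by linarith)] at hp
    exact hp
  have hPp : ∀ p ∈ P, p.Prime := fun p hp => (hPm p hp).1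
  obtain ⟨W1, hW1⟩ : ∃ W1 : ℕ, W1 = pd P := ⟨_, rfl⟩
  rw [← hP, ← hW1] at hLS1
  have hW10 : 0 < W1 := by rw [hW1]; exact pd_pos P hPp
  have hW1r : (0 : ℝ) < W1 := by exact_mod_cast hW10
  have hW0r : (0 : ℝ) < W0 := by exact_mod_cast hW0
  have hcop : W0.Coprime W1 := by
    rw [hW1]
    unfold pd
    apply Nat.Coprime.prod_right
    intro p hp
    rw [Nat.coprime_comm, Nat.Prime.coprime_iff_not_dvd (hPp p hp)]
    intro h
    linarith [hW0p p (hPp p hp) h, (hPm p hp).2.1]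
  have hW1N : (W1 : ℝ) ≤ (N : ℝ) ^ ((1 - τ3) / 2) := by
    rw [hW1, hP]
    refine (pd_PI w0 w (by linarith)).trans ?_
    rw [Real.rpow_def_of_pos (by norm_num : (0 : ℝ) < 4), Real.rpow_def_of_pos hN0, ← hL,
      Real.exp_le_exp]
    have hlog4 : Real.log 4 ≤ 2 := by
      have h1 : Real.log 4 = 2 * Real.log 2 := by
        rw [show (4 : ℝ) = 2 ^ 2 by norm_num, Real.log_pow]
        norm_num
      have := Real.log_two_lt_d9
      linarith
    have h8 : w * L ^ (ε / 2) = L := by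
      rw [hw, ← Real.rpow_add hL0]
      simp
    have h9 : w * (4 / (1 - τ3)) ≤ L := by
      calc w * (4 / (1 - τ3)) ≤ w * L ^ (ε / 2) := mul_le_mul_of_nonneg_left hev2 (by linarith)
        _ = L := h8
    have h10 : 0 < 1 - τ3 := by linarith
    have h11 : w * 4 ≤ L * (1 - τ3) := by
      rw [mul_div_assoc', div_le_iff₀ h10] at h9
      exact h9
    calc Real.log 4 * w ≤ 2 * w := mul_le_mul_of_nonneg_right hlog4 (by linarith)
      _ ≤ L * ((1 - τ3) / 2) := by linarith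
  obtain ⟨W, hWW⟩ : ∃ W : ℕ, W = W0 * W1 := ⟨_, rfl⟩
  have hWpos : 0 < W := by rw [hWW]; exact Nat.mul_pos hW0 hW10
  have hWr : (0 : ℝ) < W := by exact_mod_cast hWpos
  have hWN : (W : ℝ) ≤ (N : ℝ) ^ (1 - τ3) := by
    rw [hWW]
    push_cast
    calc (W0 : ℝ) * W1 ≤ (N : ℝ) ^ ((1 - τ3) / 2) * (N : ℝ) ^ ((1 - τ3) / 2) :=
          mul_le_mul hW0N hW1N (by positivity) (by positivity)
      _ = _ := by
          rw [← Real.rpow_add hN0]
          congr 1
          ring
  have hpow : ∀ a b : ℝ, a ≤ b → (N : ℝ) ^ a ≤ (N : ℝ) ^ b := fun a b h =>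
    Real.rpow_le_rpow_of_exponent_le hN1 h
  have hNone : (N : ℝ) ^ (1 : ℝ) = N := Real.rpow_one _
  have hWN' : W ≤ N := by
    have : (W : ℝ) ≤ N := hWN.trans ((hpow _ 1 (by linarith)).trans (le_of_eq hNone))
    exact_mod_cast this
  have hW0N' : W0 ≤ N := by
    have : (W0 : ℝ) ≤ N := hW0N.trans ((hpow _ 1 (by linarith)).trans (le_of_eq hNone))
    exact_mod_cast this
  set m : ℝ := (B1.card : ℝ) * B2.card with hm
  have hm0 : 0 ≤ m := by positivity
  rcases hm0.eq_or_lt with hz | hmp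
  · rw [← hz]
    simp
  -- the sieve for the primes between `w0` and `w`
  obtain ⟨V, hV⟩ : ∃ V : ℝ, V = ∏ p ∈ P, (1 - xx F p) := ⟨_, rfl⟩
  have hxs : ∀ p ∈ P, xx F p ≤ K / w0 ∧ xx F p ≤ 1 / 8 := by
    intro p hp
    have hp0 : (0 : ℝ) < p := by exact_mod_cast (hPp p hp).pos
    have h8 : (ro F 0 p : ℝ) ≤ K := by exact_mod_cast hK p (hPp p hp)
    have h9 : xx F p ≤ K / w0 := by
      unfold xx
      exact div_le_div₀ hKr h8 (by linarith) (hPm p hp).2.1.le
    refine ⟨h9, h9.trans ?_⟩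
    rw [div_le_iff₀ (by linarith)]
    linarith
  have hV0 : 0 < V := by
    rw [hV]
    exact prod_pos fun p hp => by linarith [(hxs p hp).2]
  have hsv : V / 2 * m ≤ (MP F B1 B2 P 1 : ℝ) := by
    have h8 := sieve_fin2 F B1 B2 P hPp (1 - u) (fun p hp => by linarith [(hxs p hp).2]) (by
      intro p hp
      have h9 := (hxs p hp).2
      have h10 : (0 : ℝ) < 1 - xx F p := by linarith
      have hp0 : (0 : ℝ) < p := by exact_mod_cast (hPp p hp).pos
      have h11 : (ro F 0 p : ℝ) ≤ K := by exact_mod_cast hK p (hPp p hp)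
      rw [div_le_iff₀ h10]
      have h12 : xx F p ≤ K / p := by
        unfold xx
        exact div_le_div_of_nonneg_right h11 hp0.le
      have h13 : 2 * (K : ℝ) ≤ (p : ℝ) ^ u :=
        hw0u.trans (Real.rpow_le_rpow (by linarith) (hPm p hp).2.1.le hu0.le)
      have h14 : (p : ℝ) ^ (-(1 - u)) = (p : ℝ) ^ u / p := by
        have e : -(1 - u) = u - 1 := by ring
        rw [e, Real.rpow_sub hp0, Real.rpow_one]
      rw [h14]
      have h15 : 2 * K / (p : ℝ) ≤ (p : ℝ) ^ u / p := div_le_div_of_nonneg_right h13 hp0.le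
      have h16 : 0 ≤ (p : ℝ) ^ u / p := by positivity
      have h17 : (p : ℝ) ^ u / p * (7 / 8) ≤ (p : ℝ) ^ u / p * (1 - xx F p) :=
        mul_le_mul_of_nonneg_left (by linarith) h16
      have h18 : 2 * (K : ℝ) / p = 2 * (K / p) := by ring
      have h19 : 0 ≤ (K : ℝ) / p := by positivity
      linarith)
    rw [← hV, ← hm] at h8
    have h9 : ∑ U ∈ P.powerset.filter (fun U => U ≠ ∅), ((∏ p ∈ U, p : ℕ) : ℝ) ^ (-(1 - u)) *
        EE2 B1 B2 (∏ p ∈ U, p) ≤ m / 2 := by
      obtain ⟨g, hg⟩ : ∃ g : ℕ → ℝ, g = fun f => if f.Coprime W0 then EE2 B1 B2 f else 0 := ⟨_, rfl⟩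
      have hg0 : ∀ f, 0 ≤ g f := by
        intro f
        rw [hg]
        simp only
        split_ifs
        · exact EE2_nonneg _ _ _
        · exact le_rfl
      have hdy := dyadic2 g hg0 (2 * Lam * m) (1 - u) u w0 (mul_nonneg (by linarith) hm0) (by linarith)
        (by linarith) hu0.le (by linarith) (by linarith) W1 (by
          intro t ht htW
          have h10 := hLS0 t ht
          rw [← hm] at h10
          rw [hg]
          simp only
          rw [← sum_filter]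
          refine h10.trans ?_
          have h11 : (t : ℝ) ^ 2 / ((N : ℝ) / W0) ≤ 1 := by
            rw [div_le_one (by positivity), le_div_iff₀ hW0r]
            have h12 : (t : ℝ) ≤ 2 * W1 := by exact_mod_cast htW
            calc (t : ℝ) ^ 2 * W0 ≤ (2 * W1) ^ 2 * W0 :=
                  mul_le_mul_of_nonneg_right (pow_le_pow_left₀ (Nat.cast_nonneg _) h12 2) hW0r.le
              _ = 4 * ((W1 : ℝ) ^ 2 * W0) := by ring
              _ ≤ 4 * (((N : ℝ) ^ ((1 - τ3) / 2)) ^ 2 * (N : ℝ) ^ ((1 - τ3) / 2)) := by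
                  apply mul_le_mul_of_nonneg_left _ (by norm_num)
                  exact mul_le_mul (pow_le_pow_left₀ hW1r.le hW1N 2) hW0N (by positivity) (by positivity)
              _ = 4 * (N : ℝ) ^ ((1 - τ3) / 2 * 2 + (1 - τ3) / 2) := by
                  rw [← Real.rpow_natCast ((N : ℝ) ^ ((1 - τ3) / 2)) 2, ← Real.rpow_mul hN0.le,
                    ← Real.rpow_add hN0]
                  norm_num
              _ ≤ (N : ℝ) ^ (1 / 4 : ℝ) * (N : ℝ) ^ (3 / 4 : ℝ) := by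
                  apply mul_le_mul _ (hpow _ _ (by linarith)) (by positivity) (by positivity)
                  calc (4 : ℝ) = (256 : ℝ) ^ (1 / 4 : ℝ) := by
                        rw [show (256 : ℝ) = 4 ^ (4 : ℝ) by norm_num, ← Real.rpow_mul (by norm_num)]
                        norm_num
                    _ ≤ (N : ℝ) ^ (1 / 4 : ℝ) := Real.rpow_le_rpow (by norm_num) hN256 (by norm_num)
              _ = N := by
                  rw [← Real.rpow_add hN0]
                  norm_num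
          have h12 : 0 ≤ Lam * (t : ℝ) ^ u * m := mul_nonneg (mul_nonneg (by linarith) (by positivity)) hm0
          nlinarith)
      have e1 : -(1 - u - u) = -(1 - 2 * u) := by ring
      rw [e1] at hdy
      have h10 : ∑ U ∈ P.powerset.filter (fun U => U ≠ ∅), ((∏ p ∈ U, p : ℕ) : ℝ) ^ (-(1 - u)) *
          EE2 B1 B2 (∏ p ∈ U, p) ≤
          ∑ f ∈ (Icc 1 W1).filter (fun f : ℕ => w0 < (f : ℝ)), (f : ℝ) ^ (-(1 - u)) * g f := by
        have h11 : ∀ U ∈ P.powerset.filter (fun U => U ≠ ∅), ((∏ p ∈ U, p : ℕ) : ℝ) ^ (-(1 - u)) *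
          EE2 B1 B2 (∏ p ∈ U, p) = (fun f : ℕ => (f : ℝ) ^ (-(1 - u)) * g f) (∏ p ∈ U, p) := by
          intro U hU
          rw [mem_filter, mem_powerset] at hU
          have hdv : ∏ p ∈ U, p ∣ W1 := by
            rw [hW1]
            exact prod_dvd_prod_of_subset _ _ _ hU.1
          rw [hg]
          simp only
          rw [if_pos (Nat.Coprime.coprime_dvd_right hdv hcop).symm]
        rw [sum_congr rfl h11, ← sum_image (f := fun f : ℕ => (f : ℝ) ^ (-(1 - u)) * g f)
          (g := fun U : Finset ℕ => ∏ p ∈ U, p) (s := P.powerset.filter (fun U => U ≠ ∅))]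
        · apply sum_le_sum_of_subset_of_nonneg
          · intro f hf
            rw [mem_image] at hf
            obtain ⟨U, hU, rfl⟩ := hf
            rw [mem_filter, mem_powerset] at hU
            rw [mem_filter, mem_Icc]
            have hUp : ∀ p ∈ U, p.Prime := fun p hp => hPp p (hU.1 hp)
            have hdv : ∏ p ∈ U, p ∣ W1 := by
              rw [hW1]
              exact prod_dvd_prod_of_subset _ _ _ hU.1
            refine ⟨⟨prod_pos' U hUp, Nat.le_of_dvd hW10 hdv⟩, ?_⟩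
            obtain ⟨a, haU⟩ := nonempty_iff_ne_empty.2 hU.2
            have h12 : a ≤ ∏ p ∈ U, p := Nat.le_of_dvd (prod_pos' U hUp) (dvd_prod_of_mem _ haU)
            have h13 : (a : ℝ) ≤ ((∏ p ∈ U, p : ℕ) : ℝ) := by exact_mod_cast h12
            linarith [(hPm a (hU.1 haU)).2.1]
          · intro f _ _
            have := hg0 f
            positivity
        · intro U hU V' hV' h
          rw [mem_coe, mem_filter, mem_powerset] at hU hV'
          simp only at h
          rw [← pf_prod U (fun p hp => hPp p (hU.1 hp)), ← pf_prod V' (fun p hp => hPp p (hV'.1 hp)), h]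
      refine h10.trans (hdy.trans ?_)
      have hwp : 0 < w0 ^ (1 - 2 * u) := by positivity
      rw [Real.rpow_neg (by linarith)]
      have h14 : 8 * (2 * Lam * m) * (w0 ^ (1 - 2 * u))⁻¹ = (32 * Lam) / w0 ^ (1 - 2 * u) * (m / 2) := by
        field_simp
        ring
      rw [h14]
      calc (32 * Lam) / w0 ^ (1 - 2 * u) * (m / 2) ≤ 1 * (m / 2) := by
            apply mul_le_mul_of_nonneg_right _ (by linarith)
            rw [div_le_one hwp]
            exact h32
        _ = m / 2 := one_mul _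
    have h14 := mul_le_mul_of_nonneg_left h9 hV0.le
    linarith
  have hVl : cM * (Real.log w0 / l) ≤ V := by
    have h8 := HPL P w0 w hw00 (by linarith) hw0 hPm
    rw [← hV] at h8
    refine le_trans ?_ h8
    apply mul_le_mul_of_nonneg_left _ hcM.le
    apply div_le_div_of_nonneg_left (Real.log_nonneg (by linarith))
    · exact Real.log_pos (by linarith)
    · rw [hw, Real.log_rpow hL0, ← hl]
      nlinarith
  have hfin := class_sum F B1 B2 P hPp (fun z => 0 < WW N ζ υ aw bw (Nz z)) (ce * (l / L)) V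
    (by positivity) hV hmp hsv (by
      intro s1 s2 hden hnd
      rw [← hW1] at hden ⊢
      rw [← hm] at hden
      have hdpos : 0 < m / (4 * (W1 : ℝ) ^ 2) := by positivity
      have hprod := hdpos.trans_le hden
      have hc1 : (cls B1 W1 s1).Nonempty := by
        rw [← card_pos]
        by_contra h
        have : (cls B1 W1 s1).card = 0 := by omega
        rw [this] at hprod
        simp at hprod
      have hc2 : (cls B2 W1 s2).Nonempty := by
        rw [← card_pos]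
        by_contra h
        have : (cls B2 W1 s2).card = 0 := by omega
        rw [this] at hprod
        simp at hprod
      obtain ⟨a1, ha1⟩ := hc1
      obtain ⟨a2, ha2⟩ := hc2
      have hJ1 := hI1.cls W1 hcop s1 a1 ha1
      have hJ2 := hI2.cls W1 hcop s2 a2 ha2
      rw [← hWW] at hJ1 hJ2
      have hLSu := hLS1 s1 s2 hden
      rw [← hWW] at hLSu
      have hLS := LSH_cls (cls B1 W1 s1) (cls B2 W1 s2) x1 x2 N W _ _ hWpos hWN' hJ1 hJ2 Lam0
        (by linarith) (by
          have h8 : √m / (2 * W1) ≤ √(((cls B1 W1 s1).card : ℝ) * (cls B2 W1 s2).card) := by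
            apply Real.le_sqrt_of_sq_le
            refine le_trans (le_of_eq ?_) hden
            rw [div_pow, Real.sq_sqrt hm0]
            ring
          refine le_trans ?_ (mul_le_mul_of_nonneg_left h8 (by linarith))
          have h10 : Lam0 * (√m / (2 * W1)) = Lam0 * √m / (2 * W1) := by ring
          rw [h10, le_div_iff₀ (by positivity)]
          have h9 : 12 * ((N : ℝ) / W) * (2 * W1) = 24 * ((N : ℝ) / W0) := by
            rw [hWW]
            push_cast
            field_simp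
            ring
          rw [h9]
          exact hdense)
      have hmem1 : ∀ a ∈ cls B1 W1 s1, a ∈ B1 ∧ a % (W1 : ℤ) = s1 := by
        intro a ha
        unfold cls at ha
        rw [mem_filter] at ha
        exact ha
      have hmem2 : ∀ a ∈ cls B2 W1 s2, a ∈ B2 ∧ a % (W1 : ℤ) = s2 := by
        intro a ha
        unfold cls at ha
        rw [mem_filter] at ha
        exact ha
      have hfi := HE' W (cls B1 W1 s1) (cls B2 W1 s2) ((N : ℝ) / W) Lam Lam0 Nz (by
          intro p hp hpW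
          rw [hWW] at hpW
          rcases (Nat.Prime.dvd_mul hp).1 hpW with h | h
          · exact (hW0p p hp h).trans hw0
          · rw [hW1] at h
            exact (hPm p (dvd_pd P hPp p hp h)).2.2) (by
          rw [le_div_iff₀ hWr]
          calc (N : ℝ) ^ τ3 * W ≤ (N : ℝ) ^ τ3 * (N : ℝ) ^ (1 - τ3) :=
                mul_le_mul_of_nonneg_left hWN (by positivity)
            _ = (N : ℝ) ^ (1 : ℝ) := by
                rw [← Real.rpow_add hN0]
                congr 1
                ring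
            _ = N := hNone) hLam1 hLamL hLSu hLam01 hLam0L hLS (by
          rintro ⟨a, b⟩ hz p hp hpw hdv
          rw [mem_product] at hz
          have g1 := hmem1 a hz.1
          have g2 := hmem2 b hz.2
          rcases le_or_gt (p : ℝ) w0 with h | h
          · exact hsm (a, b) (mem_product.2 ⟨g1.1, g2.1⟩) p hp h hdv
          · have hpP : p ∈ P := by
              rw [hP, mem_PI w0 w (by linarith)]
              exact ⟨hp, h, hpw⟩
            have g3 := (hlg (a, b) (mem_product.2 ⟨g1.1, g2.1⟩) p hp h).1 hdv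
            apply hnd p hpP
            have hpW1 : (p : ℤ) ∣ (W1 : ℤ) := by
              rw [hW1]
              unfold pd
              exact_mod_cast dvd_prod_of_mem (fun p => p) hpP
            refine (Pool.Agent.Y882.SI.dvd_eval_congr F p _ _ ?_).1 g3
            have e1 : (W1 : ℤ) ∣ a - s1 := by
              rw [← g1.2]
              exact Int.dvd_self_sub_emod
            have e2 : (W1 : ℤ) ∣ b - s2 := by
              rw [← g2.2]
              exact Int.dvd_self_sub_emod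
            have e3 : a - b - (s1 - s2) = (a - s1) - (b - s2) := by ring
            rw [e3]
            exact dvd_sub (hpW1.trans e1) (hpW1.trans e2)) (by
          rintro ⟨a, b⟩ hz p hp hpw
          rw [mem_product] at hz
          exact hlg (a, b) (mem_product.2 ⟨(hmem1 a hz.1).1, (hmem2 b hz.2).1⟩) p hp (hw0.trans_lt hpw))
      refine le_trans (le_of_eq ?_) hfi
      ring)
  refine le_trans ?_ hfin
  rw [← hm]
  have h8 : ce * cM / 4 * m * (Real.log w0 / L) = ce * (l / L) * (cM * (Real.log w0 / l) / 4) * m := by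
    have hl0 : l ≠ 0 := by linarith
    field_simp
  rw [h8]
  apply mul_le_mul_of_nonneg_right _ hm0
  apply mul_le_mul_of_nonneg_left _ (by positivity)
  linarith

end Pool.Agent.H540.DS
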