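import Pool.Agent.H540.DS.Pre
import Pool.Graph.R_seed8.Y882.KW.Alm
import Pool.Graph.R_seed8.Y882.KW.Num

/-! **Almost prime values at the differences of the elements of a dense set.** -/

set_option autoImplicit false

namespace Pool.Agent.H540.DS

open Finset Filter Polynomial
open Pool.Agent.W23.DC
open Pool.Agent.Y882.PX
open Pool.Agent.Y882
open Pool.Agent.Y882.KW

/-- `F m` is `F 0`, up to the sign, times a product of at most `r` primes which are all at least `y` -/
def GoodF (F : ℤ[X]) (r : ℕ) (y : ℝ) (m : ℕ) : Prop :=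
  ∃ n : ℕ, (F.eval (m : ℤ)).natAbs = (F.eval 0).natAbs * n ∧ n.primeFactorsList.length ≤ r ∧
    ∀ p : ℕ, p.Prime → p ∣ n → y ≤ p

open Classical in
/-- two dense sets in one residue class, one above the other -/
theorem two_sets (A : Finset ℕ) (N W : ℕ) (hW : 0 < W) (hA : A ⊆ Icc 1 N) (hA2 : 2 * W ≤ A.card) :
    ∃ (r : ℕ) (B1 B2 : Finset ℕ), B1 ⊆ A ∧ B2 ⊆ A ∧ (∀ a ∈ B1, ∀ b ∈ B2, b < a) ∧
      (∀ a ∈ B1, a % W = r) ∧ (∀ a ∈ B2, a % W = r) ∧ r < W ∧
      (A.card : ℝ) / (4 * W) ≤ B1.card ∧ (A.card : ℝ) / (4 * W) ≤ B2.card := by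
  obtain ⟨r, hr, hAr⟩ := exists_class A W hW
  set S := A.filter (fun a => a % W = r) with hS
  obtain ⟨t, ht⟩ := exists_cut S (S.card / 2) (Nat.div_le_self _ _)
  have hS2 : 2 ≤ S.card := by
    have h1 : W * 2 ≤ W * S.card := by linarith
    exact Nat.le_of_mul_le_mul_left h1 hW
  have hWr : (0 : ℝ) < W := by exact_mod_cast hW
  have h1 : (A.card : ℝ) / W ≤ S.card := by
    rw [div_le_iff₀ hWr, mul_comm]
    exact_mod_cast hAr
  have h2 : (S.card : ℝ) / 4 ≤ ((S.card / 2 : ℕ) : ℝ) := by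
    have h3 : S.card ≤ 4 * (S.card / 2) := by omega
    have h4 : (S.card : ℝ) ≤ 4 * ((S.card / 2 : ℕ) : ℝ) := by exact_mod_cast h3
    linarith
  have h3 : (S.filter (fun a => ¬ a < t)).card = S.card - S.card / 2 := by
    have := card_filter_add_card_filter_not (s := S) (fun a => a < t)
    omega
  have h4 : (A.card : ℝ) / (4 * W) = A.card / W / 4 := by
    rw [div_div, mul_comm]
  refine ⟨r, S.filter (fun a => ¬ a < t), S.filter (fun a => a < t), ?_, ?_, ?_, ?_, ?_, hr, ?_, ?_⟩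
  · exact (filter_subset _ _).trans (filter_subset _ _)
  · exact (filter_subset _ _).trans (filter_subset _ _)
  · intro a ha b hb
    rw [mem_filter] at ha hb
    omega
  · intro a ha
    exact (mem_filter.1 (mem_filter.1 ha).1).2
  · intro a ha
    exact (mem_filter.1 (mem_filter.1 ha).1).2
  · rw [h4, h3]
    have h5 : S.card / 2 ≤ S.card - S.card / 2 := by omega
    have h6 : ((S.card / 2 : ℕ) : ℝ) ≤ ((S.card - S.card / 2 : ℕ) : ℝ) := by exact_mod_cast h5
    linarith
  · rw [h4, ht]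
    linarith

end Pool.Agent.H540.DS
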