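import Pool.Agent.H540.DS.Core
import Pool.Agent.H540.DS.Fin

/-! **Almost prime values at the differences of the elements of a dense set.** -/

set_option autoImplicit false

namespace Pool.Agent.H540.DS

open Finset Filter Polynomial
open Pool.Agent.W23.DC
open Pool.Agent.Y882.PX
open Pool.Agent.Y882
open Pool.Agent.Y882.KW

open Classical in
theorem bad_pairs (F : ℤ[X]) (B1 B2 : Finset ℕ) (N kk : ℕ) (P : Finset ℕ) (h1 : B1 ⊆ Icc 1 N)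
    (hlt : ∀ a ∈ B1, ∀ b ∈ B2, b < a)
    (hdiv : ∀ a ∈ B1, ∀ b ∈ B2, ((F.eval ((a : ℤ) - b)).natAbs / kk) ∣ (F.eval ((a : ℤ) - b)).natAbs) :
    ((B1.map Nat.castEmbedding ×ˢ B2.map Nat.castEmbedding).filter (fun z : ℤ × ℤ =>
      ∃ q ∈ P, q ^ 2 ∣ (F.eval (z.1 - z.2)).natAbs / kk)).card ≤
      ((Icc 1 N).filter (fun m : ℕ => ∃ q ∈ P, ((q ^ 2 : ℕ) : ℤ) ∣ F.eval (m : ℤ))).card * B2.card := by
  rw [← card_product]
  apply card_le_card_of_injOn (fun z : ℤ × ℤ => ((z.1 - z.2).toNat, z.2.toNat))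
  · rintro ⟨x, y⟩ hz
    rw [mem_coe, mem_filter, mem_product, Finset.mem_map, Finset.mem_map] at hz
    obtain ⟨⟨⟨a, ha, hax⟩, b, hb, hby⟩, q, hq, hqd⟩ := hz
    simp only [Nat.castEmbedding_apply] at hax hby hqd
    subst hax hby
    rw [mem_coe, mem_product, mem_filter, mem_Icc]
    have h3 := hlt a ha b hb
    have h4 := (mem_Icc.1 (h1 ha)).2
    have h5 : (((a : ℤ) - b).toNat : ℤ) = (a : ℤ) - b := Int.toNat_of_nonneg (by omega)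
    simp only
    refine ⟨⟨⟨by omega, by omega⟩, q, hq, ?_⟩, ?_⟩
    · rw [h5]
      exact Int.natCast_dvd.2 (hqd.trans (hdiv a ha b hb))
    · rw [Int.toNat_natCast]
      exact hb
  · rintro ⟨x, y⟩ hz ⟨x', y'⟩ hz' heq
    rw [mem_coe, mem_filter, mem_product, Finset.mem_map, Finset.mem_map] at hz hz'
    obtain ⟨⟨⟨a, ha, hax⟩, b, hb, hby⟩, _⟩ := hz
    obtain ⟨⟨⟨a', ha', hax'⟩, b', hb', hby'⟩, _⟩ := hz'
    simp only [Nat.castEmbedding_apply] at hax hby hax' hby'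
    subst hax hby hax' hby'
    simp only [Prod.mk.injEq] at heq
    have h3 := hlt a ha b hb
    have h3' := hlt a' ha' b' hb'
    rw [Prod.mk.injEq]
    omega

/-- numerical conditions for the final theorem -/
structure Cond2 (CF KK q0 N0 : ℕ) (C1 C ε : ℝ) (N : ℕ) : Prop where
  n3 : 3 ≤ N
  N0 : N0 ≤ N
  L1 : 1 ≤ Real.log N
  v1 : (CF : ℝ) ≤ (N : ℝ) ^ (1 / 1000 : ℝ)
  q1 : (q0 : ℝ) ≤ (N : ℝ) ^ (6 / 25 : ℝ)
  b1 : (KK : ℝ) * 4 ≤ (N : ℝ) ^ (1 / 100 : ℝ)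
  e1 : 96 ≤ Real.log N ^ (ε / 2)
  e2 : C1 ≤ Real.log N ^ (3 * ε / 4)
  e3 : 300 * C1 ≤ Real.log N ^ ε
  e4 : 100 * C ≤ Real.log N ^ ε
  e5 : Real.log N ≤ (N : ℝ) ^ (1 / 100 : ℝ)
  e6 : 3 ≤ (N : ℝ) ^ (1 / 100 : ℝ)

theorem conds2 (CF KK q0 N0 : ℕ) (C1 C ε : ℝ) (hε : 0 < ε) :
    ∀ᶠ N : ℕ in atTop, Cond2 CF KK q0 N0 C1 C ε N := by
  have v1 := tlog.eventually_ge_atTop 1
  have v2 : ∀ (c : ℝ) (κ : ℝ), 0 < κ → ∀ᶠ N : ℕ in atTop, c ≤ (N : ℝ) ^ κ := fun c κ hκ =>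
    ((tendsto_rpow_atTop hκ).comp tendsto_natCast_atTop_atTop).eventually_ge_atTop _
  have v3 : ∀ (c : ℝ) (κ : ℝ), 0 < κ → ∀ᶠ N : ℕ in atTop, c ≤ Real.log N ^ κ := fun c κ hκ =>
    ((tendsto_rpow_atTop hκ).comp tlog).eventually_ge_atTop _
  have v4 := loN 1 (1 / 100) 1 (by norm_num)
  filter_upwards [eventually_ge_atTop 3, eventually_ge_atTop N0, v1, v2 CF (1 / 1000) (by norm_num),
    v2 q0 (6 / 25) (by norm_num), v2 ((KK : ℝ) * 4) (1 / 100) (by norm_num), v3 96 (ε / 2) (by linarith),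
    v3 C1 (3 * ε / 4) (by linarith), v3 (300 * C1) ε hε, v3 (100 * C) ε hε, v4,
    v2 3 (1 / 100) (by norm_num)] with N a0 a1 a2 a3 a4 a5 a6 a7 a8 a9 a10 a11
  refine ⟨a0, a1, a2, a3, a4, a5, a6, a7, a8, a9, ?_, a11⟩
  rw [Real.rpow_one, one_mul] at a10
  exact a10

/-- values with positive weight -/
theorem fin_almost (N : ℕ) (hN : 3 ≤ N) (hN2 : (3 : ℝ) ≤ (N : ℝ) ^ (1 / 100 : ℝ)) (g r n : ℕ)
    (ζ υ lam : ℝ) (hζ : ζ = 6 / 25) (hυ : υ = 24 / 25 * (24 / 25)) (hlam : lam = 8 / 9)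
    (hr : 9 / 8 + ((g : ℝ) + 1 / 1000) / (24 / 25 * (24 / 25)) ≤ r + 1)
    (hW : 0 < WW N ζ υ lam (lam / υ) n) (hn : (n : ℝ) ≤ (N : ℝ) ^ ((g : ℝ) + 1 / 1000))
    (hsq : ∀ q ∈ pr N ζ υ, ¬ q ^ 2 ∣ n) :
    n.primeFactorsList.length ≤ r ∧ ∀ p : ℕ, p.Prime → p ∣ n → (N : ℝ) ^ (6 / 25 : ℝ) ≤ p := by
  have hN3 : (3 : ℝ) ≤ N := by exact_mod_cast hN
  have hn0 : n ≠ 0 := by
    intro hn0
    rw [hn0] at hW
    unfold WW at hW
    have h2PZ : 2 ∈ PZ N ζ := by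
      unfold PZ
      rw [mem_filter, mem_Icc]
      refine ⟨⟨by norm_num, by omega⟩, Nat.prime_two, (tt_lt N 2 ζ (by omega) (by norm_num)).2 ?_⟩
      have h5 : (N : ℝ) ^ (1 / 100 : ℝ) < (N : ℝ) ^ ζ :=
        Real.rpow_lt_rpow_of_exponent_lt (by linarith) (by rw [hζ]; norm_num)
      push_cast
      linarith
    rw [if_neg (fun h => h 2 h2PZ (dvd_zero 2)), zero_mul] at hW
    exact lt_irrefl _ hW
  have hυ0 : 0 < υ := by rw [hυ]; norm_num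
  have hal := almost N (by omega) ζ υ lam ((g : ℝ) + 1 / 1000) r
    (by rw [hζ, hυ]; norm_num) hυ0 (by rw [hυ]; norm_num) (by rw [hlam]; norm_num) (by
      rw [hlam, hυ]
      refine le_trans (le_of_eq ?_) hr
      norm_num) n hn0 hn hW hsq
  rw [hζ] at hal
  exact hal

end Pool.Agent.H540.DS
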