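import Pool.Agent.H540.DS.Diff

/-! **Almost prime values at the differences of the elements of a dense set.** -/

set_option autoImplicit false

namespace Pool.Agent.H540.DS

open Finset Filter Polynomial
open Pool.Agent.W23.DC
open Pool.Agent.Y882.PX
open Pool.Agent.Y882
open Pool.Agent.Y882.KW

/-- the final estimate -/
theorem arith6 (c C1 C L N δ w0 W0 B1c B2c Z lw : ℝ) (hc : 0 < c) (hC1 : 0 ≤ C1) (hN : 0 < N)
    (hL : 0 < L) (hδ : 0 < δ) (hδ1 : δ ≤ 1)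
    (hW0 : 0 < W0) (hW : W0 ≤ Real.exp (3 * C1 / δ)) (h1 : δ * N / (4 * W0) ≤ B1c)
    (h2 : δ * N / (4 * W0) ≤ B2c) (hlw : 1 ≤ lw) (hZ : c * (B1c * B2c) * (lw / L) ≤ Z)
    (hC : C = |Real.log (c / 32)| + 2 + 6 * C1) :
    2 * (Real.exp (-(C / δ)) * (N ^ 2 / L)) ≤ Z := by
  have hb0 : 0 < δ * N / (4 * W0) := by positivity
  have e1 : (δ * N / (4 * W0)) * (δ * N / (4 * W0)) ≤ B1c * B2c := mul_le_mul h1 h2 hb0.le (hb0.le.trans h1)
  have e2 : c * ((δ * N / (4 * W0)) * (δ * N / (4 * W0))) * (1 / L) ≤ c * (B1c * B2c) * (lw / L) := by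
    apply mul_le_mul (mul_le_mul_of_nonneg_left e1 hc.le) _ (by positivity)
      (mul_nonneg hc.le (le_trans (by positivity) e1))
    exact div_le_div_of_nonneg_right hlw hL.le
  have e3 : c * ((δ * N / (4 * W0)) * (δ * N / (4 * W0))) * (1 / L) =
      2 * ((c / 32) * δ ^ 2 * (1 / W0 ^ 2) * (N ^ 2 / L)) := by
    field_simp
    ring
  have e4 : Real.exp (-(C / δ)) ≤ (c / 32) * δ ^ 2 * (1 / W0 ^ 2) := by
    have f1 : Real.exp (-(|Real.log (c / 32)| / δ)) ≤ c / 32 := by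
      rw [← Real.le_log_iff_exp_le (by positivity)]
      have g1 : |Real.log (c / 32)| ≤ |Real.log (c / 32)| / δ := by
        rw [le_div_iff₀ hδ]
        calc |Real.log (c / 32)| * δ ≤ |Real.log (c / 32)| * 1 :=
              mul_le_mul_of_nonneg_left hδ1 (abs_nonneg _)
          _ = _ := mul_one _
      have g2 := neg_abs_le (Real.log (c / 32))
      linarith
    have f2 : Real.exp (-(2 / δ)) ≤ δ ^ 2 := by
      have g1 : 1 / δ ≤ Real.exp (1 / δ) := by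
        have := Real.add_one_le_exp (1 / δ)
        linarith
      have g2 : Real.exp (-(1 / δ)) ≤ δ := by
        rw [Real.exp_neg]
        rw [inv_le_comm₀ (Real.exp_pos _) hδ, ← one_div]
        exact g1
      calc Real.exp (-(2 / δ)) = Real.exp (-(1 / δ)) * Real.exp (-(1 / δ)) := by
            rw [← Real.exp_add]
            congr 1
            ring
        _ ≤ δ * δ := mul_le_mul g2 g2 (Real.exp_pos _).le hδ.le
        _ = δ ^ 2 := by ring
    have f3 : Real.exp (-(6 * C1 / δ)) ≤ 1 / W0 ^ 2 := by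
      rw [Real.exp_neg, ← one_div]
      apply one_div_le_one_div_of_le (by positivity)
      calc W0 ^ 2 ≤ Real.exp (3 * C1 / δ) ^ 2 := pow_le_pow_left₀ hW0.le hW 2
        _ = Real.exp (6 * C1 / δ) := by
            rw [← Real.exp_nat_mul]
            congr 1
            push_cast
            ring
    calc Real.exp (-(C / δ)) = Real.exp (-(|Real.log (c / 32)| / δ)) * Real.exp (-(2 / δ)) *
          Real.exp (-(6 * C1 / δ)) := by
          rw [← Real.exp_add, ← Real.exp_add, hC]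
          congr 1
          ring
      _ ≤ _ := by
          apply mul_le_mul _ f3 (Real.exp_pos _).le (by positivity)
          exact mul_le_mul f1 f2 (Real.exp_pos _).le (by positivity)
  calc 2 * (Real.exp (-(C / δ)) * (N ^ 2 / L)) ≤ 2 * ((c / 32) * δ ^ 2 * (1 / W0 ^ 2) * (N ^ 2 / L)) := by
        apply mul_le_mul_of_nonneg_left _ (by norm_num)
        exact mul_le_mul_of_nonneg_right e4 (by positivity)
    _ = c * ((δ * N / (4 * W0)) * (δ * N / (4 * W0))) * (1 / L) := e3.symm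
    _ ≤ _ := e2.trans hZ

open Classical in
/-- **The main theorem for differences.** -/
theorem diffs (F : ℤ[X]) (hF : Irreducible F) (hd : 0 < F.natDegree) (h0 : F.eval 0 ≠ 0) (r : ℕ)
    (hr : 9 / 8 + ((F.natDegree : ℝ) + 1 / 1000) / (24 / 25 * (24 / 25)) ≤ r + 1) (ε : ℝ) (hε : 0 < ε)
    (hε1 : ε ≤ 1) : ∃ C : ℝ, 0 < C ∧ ∀ᶠ N : ℕ in atTop, ∀ A : Finset ℕ, A ⊆ Icc 1 N →
      (N : ℝ) / Real.log N ^ (1 - ε) ≤ A.card →
      Real.exp (-(C * (N / A.card))) * ((N : ℝ) ^ 2 / Real.log N) ≤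
        (((A ×ˢ A).filter (fun z : ℕ × ℕ => z.2 < z.1 ∧
        GoodF F r ((N : ℝ) ^ (6 / 25 : ℝ)) (z.1 - z.2))).card : ℝ) := by
  obtain ⟨kk, hkk⟩ : ∃ kk : ℕ, kk = (F.eval 0).natAbs := ⟨_, rfl⟩
  have hkk0 : 0 < kk := by rw [hkk]; exact Int.natAbs_pos.2 h0
  have hkkr : (0 : ℝ) < kk := by exact_mod_cast hkk0
  obtain ⟨τ, hτ⟩ : ∃ τ : ℝ, τ = 24 / 25 := ⟨_, rfl⟩
  obtain ⟨ζ, hζ⟩ : ∃ ζ : ℝ, ζ = τ / 4 := ⟨_, rfl⟩
  obtain ⟨υ, hυ⟩ : ∃ υ : ℝ, υ = 24 / 25 * τ := ⟨_, rfl⟩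
  obtain ⟨lam, hlam⟩ : ∃ lam : ℝ, lam = 8 / 9 := ⟨_, rfl⟩
  have hJ0 := cond_A τ lam (by rw [hτ]; norm_num) (by rw [hlam]; norm_num) (by rw [hlam]; norm_num)
  rw [← hζ, ← hυ] at hJ0
  have hζ' : ζ = 6 / 25 := by rw [hζ, hτ]; norm_num
  have hυ' : υ = 24 / 25 * (24 / 25) := by rw [hυ, hτ]
  have hυ0 : 0 < υ := by rw [hυ']; norm_num
  obtain ⟨c, K1, NC, hc, hK1, HC⟩ := core F hF hd τ ζ υ lam (lam / υ) (49 / 50) (ε / 2)
    (by rw [hζ', ]; norm_num)
    (by rw [hζ', hτ]; norm_num) (by rw [hζ', hτ]; norm_num) (by rw [hζ', hυ']; norm_num)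
    (by rw [hυ', hτ]; norm_num) (by rw [hlam]; norm_num) (by rw [hlam, hυ']; norm_num)
    (by rw [div_mul_cancel₀ _ hυ0.ne']) hJ0 (by rw [hτ]; norm_num) (by norm_num) (by norm_num)
    (by linarith) (by linarith)
  obtain ⟨CF, HCF⟩ := eval_le F
  obtain ⟨KK, q0, HB⟩ := bad_count F hF hd
  obtain ⟨C1, hC1⟩ : ∃ C1 : ℝ, C1 = 96 * K1 + kk := ⟨_, rfl⟩
  have hC10 : 0 < C1 := by rw [hC1]; positivity
  obtain ⟨C, hC⟩ : ∃ C : ℝ, C = |Real.log (c / 32)| + 2 + 6 * C1 := ⟨_, rfl⟩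
  have hC0 : 0 < C := by
    rw [hC]
    have := abs_nonneg (Real.log (c / 32))
    linarith
  refine ⟨C, hC0, ?_⟩
  filter_upwards [conds2 CF KK q0 NC C1 C ε hε] with N cd A hA hAc
  obtain ⟨c1, c2, c3, c4, c5, c6, c7, c8, c9, c10, c11, c12⟩ := cd
  have hN3 : (3 : ℝ) ≤ N := by exact_mod_cast c1
  have hNp : (0 : ℝ) < N := by linarith
  have hN1 : (1 : ℝ) ≤ N := by linarith
  obtain ⟨L, hL⟩ : ∃ L : ℝ, L = Real.log N := ⟨_, rfl⟩
  have HC' := HC N c2
  rw [← hL] at c3 c7 c8 c9 c10 c11 HC' hAc ⊢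
  have hL0 : 0 < L := by linarith
  have hpow : ∀ a b : ℝ, a ≤ b → (N : ℝ) ^ a ≤ (N : ℝ) ^ b := fun a b h =>
    Real.rpow_le_rpow_of_exponent_le hN1 h
  have hN1' : (N : ℝ) = (N : ℝ) ^ (1 : ℝ) := (Real.rpow_one _).symm
  have hLε0 : 0 < L ^ (1 - ε) := by positivity
  have hAr : (0 : ℝ) < A.card := lt_of_lt_of_le (by positivity) hAc
  have hAN : (A.card : ℝ) ≤ N := by
    have h1 := card_le_card hA
    rw [Nat.card_Icc, Nat.add_sub_cancel] at h1
    exact_mod_cast h1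
  obtain ⟨δ, hδ⟩ : ∃ δ : ℝ, δ = A.card / N := ⟨_, rfl⟩
  have hδ0 : 0 < δ := by rw [hδ]; exact div_pos hAr hNp
  have hδ1 : δ ≤ 1 := by
    rw [hδ, div_le_one hNp]
    exact hAN
  have hδN : δ * N = A.card := by
    rw [hδ, div_mul_cancel₀ _ hNp.ne']
  have hNA : (N : ℝ) / A.card = 1 / δ := by
    rw [hδ, one_div_div]
  have hinv : 1 / δ ≤ L ^ (1 - ε) := by
    rw [← hNA, div_le_iff₀ hAr]
    rw [div_le_iff₀ hLε0] at hAc
    linarith
  have hinv1 : 1 ≤ 1 / δ := by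
    rw [le_div_iff₀ hδ0]
    linarith
  have hLL : L ^ ε * L ^ (1 - ε) = L := by
    rw [← Real.rpow_add hL0]
    simp
  -- `exp (3 C1 / δ)` is a small power of `N`
  have hexp : ∀ (D κ : ℝ), 0 ≤ κ → D ≤ κ * L ^ ε → 0 ≤ D → Real.exp (D / δ) ≤ (N : ℝ) ^ κ := by
    intro D κ hκ hD hD0
    rw [Real.rpow_def_of_pos hNp, ← hL, Real.exp_le_exp]
    calc D / δ = D * (1 / δ) := by ring
      _ ≤ (κ * L ^ ε) * L ^ (1 - ε) := mul_le_mul hD hinv (by positivity) (by positivity)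
      _ = L * κ := by rw [mul_assoc, hLL, mul_comm]
  obtain ⟨Lam, hLam⟩ : ∃ Lam : ℝ, Lam = 96 / δ := ⟨_, rfl⟩
  have hLam1 : 1 ≤ Lam := by
    rw [hLam, le_div_iff₀ hδ0]
    linarith
  obtain ⟨w0, hw0⟩ : ∃ w0 : ℝ, w0 = K1 * Lam + kk := ⟨_, rfl⟩
  have hw0C : w0 ≤ C1 / δ := by
    rw [hw0, hLam, hC1]
    have : (kk : ℝ) ≤ kk / δ := by
      rw [le_div_iff₀ hδ0]
      nlinarith
    calc K1 * (96 / δ) + kk ≤ K1 * (96 / δ) + kk / δ := by linarith
      _ = _ := by ring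
  have hkw0 : (kk : ℝ) ≤ w0 := by
    rw [hw0]
    have : 0 ≤ K1 * Lam := by positivity
    linarith
  have hw03 : 3 ≤ w0 := by
    rw [hw0]
    have : 3 * 1 ≤ K1 * Lam := mul_le_mul hK1 hLam1 (by norm_num) (by linarith)
    linarith
  have hw0L : w0 ≤ L ^ (1 - ε / 2 / 2) := by
    calc w0 ≤ C1 / δ := hw0C
      _ = C1 * (1 / δ) := by ring
      _ ≤ L ^ (3 * ε / 4) * L ^ (1 - ε) := mul_le_mul c8 hinv (by positivity) (by positivity)
      _ = L ^ (1 - ε / 2 / 2) := by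
          rw [← Real.rpow_add hL0]
          congr 1
          ring
  have hLamL : Lam ≤ L ^ (1 - ε / 2) := by
    calc Lam = 96 * (1 / δ) := by rw [hLam]; ring
      _ ≤ L ^ (ε / 2) * L ^ (1 - ε) := mul_le_mul c7 hinv (by positivity) (by positivity)
      _ = L ^ (1 - ε / 2) := by
          rw [← Real.rpow_add hL0]
          congr 1
          ring
  obtain ⟨W0, hW0⟩ : ∃ W0 : ℕ, W0 = WN kk w0 := ⟨_, rfl⟩
  have hW0pos : 0 < W0 := by
    rw [hW0]
    unfold WN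
    exact Nat.mul_pos hkk0 (primorial_pos _)
  have hW0r : (0 : ℝ) < W0 := by exact_mod_cast hW0pos
  have hW0exp : (W0 : ℝ) ≤ Real.exp (3 * C1 / δ) := by
    rw [hW0]
    refine (WN_le kk w0 (by linarith)).trans ?_
    have g1 : (kk : ℝ) ≤ Real.exp (C1 / δ) := by
      have := Real.add_one_le_exp (C1 / δ)
      linarith
    have g2 : (4 : ℝ) ^ w0 ≤ Real.exp (2 * (C1 / δ)) := by
      rw [Real.rpow_def_of_pos (by norm_num : (0 : ℝ) < 4), Real.exp_le_exp]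
      have hlog4 : Real.log 4 ≤ 2 := by
        have h1 : Real.log 4 = 2 * Real.log 2 := by
          rw [show (4 : ℝ) = 2 ^ 2 by norm_num, Real.log_pow]
          norm_num
        have := Real.log_two_lt_d9
        linarith
      exact mul_le_mul hlog4 hw0C (by linarith) (by norm_num)
    calc (kk : ℝ) * 4 ^ w0 ≤ Real.exp (C1 / δ) * Real.exp (2 * (C1 / δ)) :=
          mul_le_mul g1 g2 (by positivity) (Real.exp_pos _).le
      _ = Real.exp (3 * C1 / δ) := by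
          rw [← Real.exp_add]
          congr 1
          ring
  have hW0N : (W0 : ℝ) ≤ (N : ℝ) ^ (1 / 100 : ℝ) :=
    hW0exp.trans (hexp (3 * C1) (1 / 100) (by norm_num) (by linarith) (by positivity))
  have hAL : (N : ℝ) / L ≤ A.card := by
    refine (div_le_div_of_nonneg_left hNp.le hLε0 ?_).trans hAc
    calc L ^ (1 - ε) ≤ L ^ (1 : ℝ) := Real.rpow_le_rpow_of_exponent_le c3 (by linarith)
      _ = L := Real.rpow_one L
  have hA2 : 2 * W0 ≤ A.card := by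
    have h1 : (2 : ℝ) * W0 ≤ A.card := by
      refine le_trans ?_ hAL
      rw [le_div_iff₀ hL0]
      calc (2 : ℝ) * W0 * L ≤ ((N : ℝ) ^ (1 / 100 : ℝ)) * ((N : ℝ) ^ (1 / 100 : ℝ)) * ((N : ℝ) ^ (1 / 100 : ℝ)) := by
            apply mul_le_mul _ c11 hL0.le (by positivity)
            exact mul_le_mul (by linarith) hW0N hW0r.le (by positivity)
        _ = (N : ℝ) ^ (1 / 100 + 1 / 100 + 1 / 100 : ℝ) := by
            rw [← Real.rpow_add hNp, ← Real.rpow_add hNp]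
        _ ≤ (N : ℝ) ^ (1 : ℝ) := hpow _ _ (by norm_num)
        _ = N := hN1'.symm
    exact_mod_cast h1
  obtain ⟨r0, B1, B2, hB1, hB2, hlt, hr1, hr2, hr0, hc1, hc2⟩ := two_sets A N W0 hW0pos hA hA2
  have hd1 : δ * N / (4 * W0) ≤ B1.card := by rw [hδN]; exact hc1
  have hd2 : δ * N / (4 * W0) ≤ B2.card := by rw [hδN]; exact hc2
  -- differences of elements
  have hdz : ∀ a ∈ B1, ∀ b ∈ B2, ((WN kk w0 : ℕ) : ℤ) ∣ (a : ℤ) - b := by
    intro a ha b hb
    rw [← hW0]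
    have h1 : b ≡ a [MOD W0] := by
      rw [Nat.ModEq, hr1 a ha, hr2 b hb]
    exact (Nat.modEq_iff_dvd.1 h1)
  have hval : ∀ a ∈ B1, ∀ b ∈ B2, _ := fun a ha b hb =>
    val_facts F h0 w0 (by rw [← hkk]; exact hkw0) ((a : ℤ) - b) (by rw [← hkk]; exact hdz a ha b hb)
  rw [← hkk] at hval
  have hmem : ∀ z ∈ B1.map Nat.castEmbedding ×ˢ B2.map Nat.castEmbedding,
      ∃ a ∈ B1, ∃ b ∈ B2, z = ((a : ℤ), (b : ℤ)) := by
    rintro ⟨u, v⟩ hz
    rw [mem_product, Finset.mem_map, Finset.mem_map] at hz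
    obtain ⟨⟨a, ha, hau⟩, b, hb, hbv⟩ := hz
    simp only [Nat.castEmbedding_apply] at hau hbv
    exact ⟨a, ha, b, hb, by rw [hau, hbv]⟩
  have hIC : ∀ B : Finset ℕ, B ⊆ A → (∀ a ∈ B, a % W0 = r0) →
      InC (B.map Nat.castEmbedding) 0 N W0 r0 := by
    intro B hB hBr a ha
    rw [Finset.mem_map] at ha
    obtain ⟨b, hb, rfl⟩ := ha
    have h1 := mem_Icc.1 (hA (hB hb))
    simp only [Nat.castEmbedding_apply]
    refine ⟨by omega, by omega, ?_⟩
    rw [← hBr b hb]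
    exact (Int.natCast_mod b W0).symm
  have HZ := HC' W0 (B1.map Nat.castEmbedding) (B2.map Nat.castEmbedding) 0 0 r0 r0 w0 Lam
    (fun z => (F.eval (z.1 - z.2)).natAbs / kk) hW0pos (by
      intro p hp hpW
      rw [hW0] at hpW
      exact WN_prime kk hkk0 w0 hkw0 p hp hpW) (by
      refine hW0N.trans (le_of_eq ?_)
      norm_num) (hIC B1 hB1 hr1) (hIC B2 hB2 hr2) hLam1 (by
      rw [hw0]
      linarith) hw0L hLamL (by
      rw [card_map, card_map]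
      have g1 : δ * N / (4 * W0) ≤ √((B1.card : ℝ) * B2.card) := by
        apply Real.le_sqrt_of_sq_le
        rw [sq]
        exact mul_le_mul hd1 hd2 (by positivity) (Nat.cast_nonneg _)
      refine le_trans (le_of_eq ?_) (mul_le_mul_of_nonneg_left g1 (by linarith))
      rw [hLam]
      field_simp
      ring) (by
      intro z hz p hp hpx
      obtain ⟨a, ha, b, hb, rfl⟩ := hmem z hz
      exact (hval a ha b hb).2.1 p hp hpx) (by
      intro z hz p hp hpx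
      obtain ⟨a, ha, b, hb, rfl⟩ := hmem z hz
      exact (hval a ha b hb).2.2 p hp hpx)
  rw [card_map, card_map] at HZ
  -- the sets of pairs
  obtain ⟨Z, hZ⟩ : ∃ Z : Finset (ℤ × ℤ), Z = (B1.map Nat.castEmbedding ×ˢ B2.map Nat.castEmbedding).filter
      (fun z : ℤ × ℤ => 0 < WW N ζ υ lam (lam / υ) ((F.eval (z.1 - z.2)).natAbs / kk)) := ⟨_, rfl⟩
  obtain ⟨Zb, hZb⟩ : ∃ Zb : Finset (ℤ × ℤ), Zb =
      (B1.map Nat.castEmbedding ×ˢ B2.map Nat.castEmbedding).filter (fun z : ℤ × ℤ =>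
      ∃ q ∈ pr N ζ υ, q ^ 2 ∣ (F.eval (z.1 - z.2)).natAbs / kk) := ⟨_, rfl⟩
  rw [← hZ] at HZ
  have hZl := arith6 c C1 C L N δ w0 W0 B1.card B2.card Z.card (Real.log w0) hc hC10.le hNp hL0 hδ0
    hδ1 hW0r hW0exp hd1 hd2 (by
      rw [Real.le_log_iff_exp_le (by linarith)]
      linarith [Real.exp_one_lt_d9]) HZ hC
  have hbadc := bad_pairs F B1 B2 N kk (pr N ζ υ) (hB1.trans hA) hlt (fun a ha b hb => by
    rw [(hval a ha b hb).1]
    rw [Nat.mul_div_cancel_left _ hkk0]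
    exact Dvd.intro_left _ rfl)
  rw [← hZb] at hbadc
  have hbad2 := HB N ζ υ (by omega) (by rw [hζ']; norm_num) (by rw [hυ']; norm_num) (by
    rw [hζ']; exact c5)
  have hB2N : (B2.card : ℝ) ≤ N := by
    have h1 := card_le_card (hB2.trans hA)
    rw [Nat.card_Icc, Nat.add_sub_cancel] at h1
    exact_mod_cast h1
  have hZbc : (Zb.card : ℝ) ≤ (N : ℝ) ^ (1.94 : ℝ) := by
    have h1 : (Zb.card : ℝ) ≤ KK * (2 * N / (N : ℝ) ^ ζ + (N : ℝ) ^ υ + 1) * B2.card := by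
      have h0 : (Zb.card : ℝ) ≤ ((((Icc 1 N).filter (fun m : ℕ => ∃ q ∈ pr N ζ υ,
          ((q ^ 2 : ℕ) : ℤ) ∣ F.eval (m : ℤ))).card : ℕ) : ℝ) * (B2.card : ℝ) := by
        rw [← Nat.cast_mul]
        exact Nat.cast_le.2 hbadc
      exact h0.trans (mul_le_mul_of_nonneg_right hbad2 (Nat.cast_nonneg _))
    have h2 : 2 * N / (N : ℝ) ^ ζ ≤ 2 * (N : ℝ) ^ υ := by
      rw [div_le_iff₀ (by positivity), mul_assoc, ← Real.rpow_add hNp]
      apply mul_le_mul_of_nonneg_left _ (by norm_num)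
      calc (N : ℝ) = (N : ℝ) ^ (1 : ℝ) := hN1'
        _ ≤ _ := hpow _ _ (by rw [hζ', hυ']; norm_num)
    have h3 : (1 : ℝ) ≤ (N : ℝ) ^ υ := Real.one_le_rpow hN1 hυ0.le
    calc (Zb.card : ℝ) ≤ KK * (2 * N / (N : ℝ) ^ ζ + (N : ℝ) ^ υ + 1) * B2.card := h1
      _ ≤ KK * (4 * (N : ℝ) ^ υ) * N := by
          apply mul_le_mul _ hB2N (Nat.cast_nonneg _) (by positivity)
          apply mul_le_mul_of_nonneg_left _ (Nat.cast_nonneg _)
          linarith
      _ = (KK * 4) * ((N : ℝ) ^ υ * N) := by ring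
      _ ≤ (N : ℝ) ^ (1 / 100 : ℝ) * ((N : ℝ) ^ υ * N) :=
          mul_le_mul_of_nonneg_right c6 (by positivity)
      _ = (N : ℝ) ^ (1 / 100 + (υ + 1)) := by
          nth_rw 3 [hN1']
          rw [← Real.rpow_add hNp, ← Real.rpow_add hNp]
      _ ≤ _ := hpow _ _ (by rw [hυ']; norm_num)
  have hdiff : Real.exp (-(C / δ)) * ((N : ℝ) ^ 2 / L) ≤ ((Z \ Zb).card : ℝ) := by
    have h1 : (Z.card : ℝ) ≤ ((Z \ Zb).card : ℝ) + Zb.card := by
      have := card_le_card_sdiff_add_card (s := Z) (t := Zb)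
      exact_mod_cast this
    have h2 : (N : ℝ) ^ (1.94 : ℝ) ≤ Real.exp (-(C / δ)) * ((N : ℝ) ^ 2 / L) := by
      have g1 := hexp C (1 / 100) (by norm_num) (by linarith) hC0.le
      rw [Real.exp_neg, ← one_div, one_div_mul_eq_div, le_div_iff₀ (Real.exp_pos _), le_div_iff₀ hL0]
      calc (N : ℝ) ^ (1.94 : ℝ) * Real.exp (C / δ) * L ≤
          (N : ℝ) ^ (1.94 : ℝ) * (N : ℝ) ^ (1 / 100 : ℝ) * (N : ℝ) ^ (1 / 100 : ℝ) := by
            apply mul_le_mul _ c11 hL0.le (by positivity)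
            exact mul_le_mul_of_nonneg_left g1 (by positivity)
        _ = (N : ℝ) ^ (1.94 + 1 / 100 + 1 / 100 : ℝ) := by
            rw [← Real.rpow_add hNp, ← Real.rpow_add hNp]
        _ ≤ (N : ℝ) ^ (2 : ℝ) := hpow _ _ (by norm_num)
        _ = (N : ℝ) ^ 2 := by
            rw [← Real.rpow_natCast]
            norm_num
    linarith
  have hCδ : C * (N / A.card) = C / δ := by rw [hNA]; ring
  rw [hCδ]
  refine hdiff.trans ?_
  have hinj : (Z \ Zb).card ≤ ((A ×ˢ A).filter (fun z : ℕ × ℕ => z.2 < z.1 ∧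
        GoodF F r ((N : ℝ) ^ (6 / 25 : ℝ)) (z.1 - z.2))).card := by
    apply card_le_card_of_injOn (fun z : ℤ × ℤ => (z.1.toNat, z.2.toNat))
    · intro z hz
      rw [mem_coe, Finset.mem_sdiff, hZ, hZb, mem_filter, mem_filter] at hz
      obtain ⟨⟨hz1, hz2⟩, hz3⟩ := hz
      obtain ⟨a, ha, b, hb, rfl⟩ := hmem z hz1
      have hba := hlt a ha b hb
      simp only [Int.toNat_natCast]
      rw [mem_coe, mem_filter, mem_product]
      refine ⟨⟨hB1 ha, hB2 hb⟩, hba, ?_⟩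
      obtain ⟨g1, g2, g3⟩ := hval a ha b hb
      set n := (F.eval ((a : ℤ) - b)).natAbs / kk with hn
      have hsub : (((a - b : ℕ)) : ℤ) = (a : ℤ) - b := by
        push_cast [Nat.cast_sub hba.le]
        rfl
      have haN : a ≤ N := (mem_Icc.1 (hA (hB1 ha))).2
      have hval2 := HCF N (a - b) (by omega) (by omega)
      rw [hsub] at hval2
      have hnS : (n : ℝ) ≤ (N : ℝ) ^ ((F.natDegree : ℝ) + 1 / 1000) := by
        have h5 : n ≤ (F.eval ((a : ℤ) - b)).natAbs := Nat.div_le_self _ _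
        have h6 : (n : ℝ) ≤ CF * (N : ℝ) ^ F.natDegree := by exact_mod_cast h5.trans hval2
        calc (n : ℝ) ≤ CF * (N : ℝ) ^ F.natDegree := h6
          _ ≤ (N : ℝ) ^ (1 / 1000 : ℝ) * (N : ℝ) ^ F.natDegree :=
              mul_le_mul_of_nonneg_right c4 (by positivity)
          _ = _ := by
              rw [← Real.rpow_natCast, ← Real.rpow_add hNp]
              congr 1
              ring
      have hal := fin_almost N c1 c12 F.natDegree r n ζ υ lam hζ' hυ' hlam hr hz2 hnS (by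
          intro q hq hqn
          exact hz3 ⟨hz1, q, hq, hqn⟩)
      refine ⟨n, ?_, hal.1, hal.2⟩
      show (F.eval ((a - b : ℕ) : ℤ)).natAbs = _
      rw [hsub, ← hkk]
      exact g1
    · intro z hz z' hz' heq
      rw [mem_coe, Finset.mem_sdiff, hZ, mem_filter] at hz hz'
      obtain ⟨a, _, b, _, rfl⟩ := hmem z hz.1.1
      obtain ⟨a', _, b', _, rfl⟩ := hmem z' hz'.1.1
      simp only [Int.toNat_natCast, Prod.mk.injEq] at heq
      rw [heq.1, heq.2]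
  exact_mod_cast hinj

end Pool.Agent.H540.DS
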