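import Pool.Agent.H540.DS.Bas

/-! **The weighted sieve for the differences of the elements of two sets.** -/

set_option autoImplicit false

namespace Pool.Agent.H540.DS

open Finset Filter Polynomial
open Pool.Agent.W23.DC
open Pool.Agent.Y882.PX
open Pool.Agent.Y882
open Pool.Agent.Y882.KW

theorem arith4 (K : ℕ) (L l f cM m Pr V0 MPv V E : ℝ) (hL : 1 ≤ L) (hm : 0 ≤ m) (hf : 0 < f)
    (hcM : 0 < cM) (hl : 1 ≤ l) (hPr : 0 ≤ Pr) (hV0 : 0 ≤ V0)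
    (h1 : m * Pr / 2 ≤ MPv) (h2 : f * V0 ≤ V) (h3 : |E| ≤ m / L ^ (2 * K + 5))
    (h5 : cM * (l / 2 / L) ≤ Pr * V0)
    (h4 : 8 / (f * cM) ≤ L) : f * cM / 8 * m * (l / L) ≤ MPv * V + E := by
  have hL0 : 0 < L := by linarith
  have a1 : m * Pr / 2 * (f * V0) ≤ MPv * V :=
    mul_le_mul h1 h2 (by positivity) (le_trans (by positivity) h1)
  have a2 : f * m / 2 * (cM * (l / 2 / L)) ≤ m * Pr / 2 * (f * V0) := by
    have : m * Pr / 2 * (f * V0) = f * m / 2 * (Pr * V0) := by ring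
    rw [this]
    exact mul_le_mul_of_nonneg_left h5 (by positivity)
  have a3 : m / L ^ (2 * K + 5) ≤ f * cM / 8 * m * (l / L) := by
    have e1 : m / L ^ (2 * K + 5) ≤ m / L ^ 2 :=
      div_le_div_of_nonneg_left hm (by positivity) (pow_le_pow_right₀ hL (by omega))
    have e2 : m / L ^ 2 ≤ f * cM / 8 * m * (l / L) := by
      rw [div_le_iff₀ (by positivity)] at h4 ⊢
      have e3 : f * cM / 8 * m * (l / L) * L ^ 2 = m * (l * ((L * (f * cM)) / 8)) := by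
        field_simp
      rw [e3]
      have e4 : 1 ≤ l * ((L * (f * cM)) / 8) := by
        have : 1 ≤ (L * (f * cM)) / 8 := by linarith
        nlinarith
      nlinarith
    exact e1.trans e2
  have a4 := (abs_le.1 h3).1
  have a5 : f * m / 2 * (cM * (l / 2 / L)) = 2 * (f * cM / 8 * m * (l / L)) := by ring
  rw [a5] at a2
  linarith

theorem ro_rho (F : ℤ[X]) (p : ℕ) : ro F 0 p = Pool.Agent.H300R2.BH.rho F p := by
  rw [ro_eq]
  unfold Pool.Agent.H300R2.BH.rho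
  simp

open Classical in
theorem engine (F : ℤ[X]) (hF : Irreducible F) (hd : 0 < F.natDegree)
    (τ ζ υ aw bw τ3 ε u : ℝ) (m0 : ℕ) (hζ : 0 < ζ) (h2 : 2 * ζ < τ) (h4 : τ ≤ 4 * ζ) (hζυ : ζ ≤ υ) (hυτ : υ < τ)
    (ha : 0 ≤ aw) (hb : 0 ≤ bw) (hab : bw * υ ≤ aw)
    (hJ0 : ∫ x in ζ..υ, (aw - bw * x) / (τ - x) / x < Real.log (τ / ζ - 1) / τ)
    (h5 : τ < τ3) (h6 : τ3 ≤ 1) (hε : 0 < ε) (hε1 : ε ≤ 1) (hu0 : 0 ≤ u) (hu1 : u ≤ ε / 8)
    (hu2 : u ≤ (τ3 - τ) / 8) :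
    ∃ (cc : ℝ) (N0 : ℕ), 0 < cc ∧ ∀ N : ℕ, N0 ≤ N → ∀ (W : ℕ) (A1 A2 : Finset ℤ)
      (N1 Lam Lam0 : ℝ) (Nz : ℤ × ℤ → ℕ),
      (∀ p : ℕ, p.Prime → p ∣ W → (p : ℝ) ≤ Real.log N ^ (1 - ε / 2)) →
      (N : ℝ) ^ τ3 ≤ N1 → 1 ≤ Lam → Lam ≤ Real.log N ^ (1 - ε) → LSH A1 A2 W N1 Lam u →
      1 ≤ Lam0 → Lam0 ≤ Real.log N ^ m0 → LSH A1 A2 W N1 Lam0 0 →
      (∀ z ∈ A1 ×ˢ A2, ∀ p : ℕ, p.Prime → (p : ℝ) ≤ Real.log N ^ (1 - ε / 2) → ¬ p ∣ Nz z) →
      (∀ z ∈ A1 ×ˢ A2, ∀ p : ℕ, p.Prime → Real.log N ^ (1 - ε / 2) < (p : ℝ) →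
        (p ∣ Nz z ↔ (p : ℤ) ∣ F.eval (z.1 - z.2))) →
      cc * ((A1.card : ℝ) * A2.card) * (Real.log (Real.log N) / Real.log N) ≤
        (((A1 ×ˢ A2).filter (fun z => 0 < WW N ζ υ aw bw (Nz z))).card : ℝ) := by
  obtain ⟨K, hKF⟩ : ∃ K : ℕ, K = KF F := ⟨_, rfl⟩
  have hK : ∀ p : ℕ, p.Prime → ro F 0 p ≤ K := by
    intro p hp
    rw [hKF]
    exact ro_le F hd 0 p hp
  have hτ0 : 0 < τ := by linarith
  obtain ⟨τ', hτ'⟩ : ∃ τ', τ' = τ + (τ3 - τ) / 4 := ⟨_, rfl⟩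
  obtain ⟨τ2, hτ2⟩ : ∃ τ2, τ2 = τ + (τ3 - τ) / 2 := ⟨_, rfl⟩
  obtain ⟨η', hη⟩ : ∃ η', η' = min (ε / 8) ((τ3 - τ) / 8) := ⟨_, rfl⟩
  have hη'0 : 0 < η' := by rw [hη]; exact lt_min (by linarith) (by linarith)
  have hη'ε : η' ≤ ε / 8 := by rw [hη]; exact min_le_left _ _
  have hη'τ : η' ≤ (τ3 - τ) / 8 := by rw [hη]; exact min_le_right _ _
  obtain ⟨η, hηη⟩ : ∃ η, η = η' + u := ⟨_, rfl⟩
  have hη0 : 0 < η := by linarith
  have hηε : η ≤ ε / 4 := by linarith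
  have hητ : η ≤ (τ3 - τ) / 4 := by linarith
  obtain ⟨ν, hν⟩ : ∃ ν, ν = (τ3 - τ) / 16 := ⟨_, rfl⟩
  have hν0 : 0 < ν := by rw [hν]; linarith
  obtain ⟨ε₁, ηM, f, hε₁, hε₁ζ, -, hηM, hf, Y1, HC⟩ :=
    core3 K τ ζ υ aw bw τ' 1 hζ h2 h4 (by linarith) hζυ hυτ ha hb hab hJ0 (by rw [hτ']; linarith)
      one_pos
  obtain ⟨Y2, HM⟩ := Pool.Agent.K3h21.IR.mer_irr F hF hd ε₁ υ ηM hε₁ (by linarith) hηM
  obtain ⟨cV, hcV, HP⟩ := Pi_bounds K
  obtain ⟨Ce, hCe, HET⟩ := ET_le K η' u hη'0 hu0 (by linarith)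
  rw [← hηη] at HET
  obtain ⟨cM, hcM, HPL⟩ := prod_low F hF hd K hK
  obtain ⟨B, hB⟩ : ∃ B : ℕ, B = 2 * (4 * K + 10) := ⟨_, rfl⟩
  obtain ⟨K0, hK0⟩ : ∃ K0 : ℝ, K0 = 3 * K * B + (4 * K + 9 + m0) := ⟨_, rfl⟩
  have hK00 : 0 ≤ K0 := by rw [hK0]; positivity
  have hcond := conds K B K0 cV Ce f cM ε₁ ε ν ((τ3 - τ) / 4) τ3 (by omega) hK00 hε₁ hε hε1 hν0
    (by linarith) (by linarith)
  obtain ⟨Y3, HY3⟩ := eventually_atTop.1 hcond
  have ev4 : ∀ᶠ N : ℕ in atTop, 2 ≤ (N : ℝ) ^ ν :=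
    ((tendsto_rpow_atTop hν0).comp tendsto_natCast_atTop_atTop).eventually_ge_atTop 2
  obtain ⟨Y4, HY4⟩ := eventually_atTop.1 ev4
  refine ⟨f * cM / 8, max Y1 (max Y2 (max Y3 Y4)), by positivity, ?_⟩
  intro N hN W A1 A2 N1 Lam Lam0 Nz hWp hN1 hLam1 hLam2 hLS hLam01 hLam0L hLS0 hsm hlg
  have hN_1 : Y1 ≤ N := (le_max_left _ _).trans hN
  have hN_2 : Y2 ≤ N := ((le_max_left _ _).trans (le_max_right _ _)).trans hN
  have hN_34 : max Y3 Y4 ≤ N := ((le_max_right _ _).trans (le_max_right _ _)).trans hN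
  have cd := HY3 N ((le_max_left _ _).trans hN_34)
  have cd4 := HY4 N ((le_max_right _ _).trans hN_34)
  clear HY3 HY4 hcond ev4 hN hN_34
  obtain ⟨c, hcL, hcD, hcN, hcV'⟩ := HC N hN_1
  have hmer := HM N hN_2
  clear HC HM
  obtain ⟨L, hL⟩ : ∃ L : ℝ, L = Real.log N := ⟨_, rfl⟩
  obtain ⟨l, hl⟩ : ∃ l : ℝ, l = Real.log L := ⟨_, rfl⟩
  obtain ⟨k, hk⟩ : ∃ k : ℕ, k = ⌈K0 * l⌉₊ := ⟨_, rfl⟩
  obtain ⟨w, hw⟩ : ∃ w : ℝ, w = L ^ (1 - ε / 2) := ⟨_, rfl⟩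
  obtain ⟨z0, hz0⟩ : ∃ z0 : ℝ, z0 = L ^ B := ⟨_, rfl⟩
  obtain ⟨c1, c2, c3, c4, c5, c6, c7, c8, c9, c10, c11, c12⟩ := cd
  rw [← hL] at c2 c3 c4 c5 c6 c7 c8 c9 c10 c11 c12 hWp hLam2 hLam0L hsm hlg hcL
  rw [← hl] at c2 c5 c8 c9
  rw [← hw] at c3 hWp hsm hlg
  rw [← hz0] at c4 c5
  rw [← hk] at c5
  rw [← hL, ← hl]
  have hNr : (3 : ℝ) ≤ N := by exact_mod_cast c1
  have hN0 : (0 : ℝ) < N := by linarith
  have hN1r : (1 : ℝ) ≤ N := by linarith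
  have hKr : (0 : ℝ) ≤ K := Nat.cast_nonneg K
  have hl1 : 1 ≤ l := by linarith
  have hL0 : 0 < L := by
    by_contra h
    push Not at h
    have hLnn : 0 ≤ L := by rw [hL]; exact Real.log_nonneg hN1r
    have h0 : L = 0 := le_antisymm h hLnn
    rw [hl, h0, Real.log_zero] at hl1
    linarith
  have hLe : Real.exp 1 ≤ L := by
    rw [← Real.le_log_iff_exp_le hL0, ← hl]
    exact hl1
  have hL2 : 2 ≤ L := by
    have := Real.add_one_le_exp (1 : ℝ)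
    linarith
  have hL1 : 1 ≤ L := by linarith
  have hw0 : 0 < w := by rw [hw]; positivity
  have hwL : w ≤ L := by
    rw [hw]
    calc L ^ (1 - ε / 2) ≤ L ^ (1 : ℝ) := Real.rpow_le_rpow_of_exponent_le hL1 (by linarith)
      _ = L := Real.rpow_one L
  have hLz : L ≤ z0 := by
    rw [hz0]
    calc L = L ^ 1 := (pow_one L).symm
      _ ≤ L ^ B := pow_le_pow_right₀ hL1 (by omega)
  have hwz : w ≤ z0 := hwL.trans hLz
  have hz02 : 2 ≤ z0 := hL2.trans hLz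
  have hz01 : 1 ≤ z0 := by linarith
  have hlz : Real.log z0 = B * l := by rw [hz0, Real.log_pow, hl]
  have hlt1 : (N : ℝ) ^ (ε₁ / 2) < (N : ℝ) ^ ε₁ :=
    Real.rpow_lt_rpow_of_exponent_lt (by linarith) (by linarith)
  have hz0e : z0 < (N : ℝ) ^ ε₁ := c4.trans_lt hlt1
  have hε₁υ : ε₁ ≤ υ := hε₁ζ.trans hζυ
  have hz0υ : z0 < (N : ℝ) ^ υ := hz0e.trans_le (Real.rpow_le_rpow_of_exponent_le hN1r hε₁υ)
  have hυ1 : υ ≤ 1 := by linarith
  have hN10 : 0 < N1 := lt_of_lt_of_le (by positivity) hN1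
  have hPZ : ∀ (u : ℝ) (p : ℕ), p ∈ PZ N u → p.Prime ∧ p ≤ N ∧ (p : ℝ) < (N : ℝ) ^ u := by
    intro u p hp
    unfold PZ at hp
    rw [mem_filter, mem_Icc] at hp
    exact ⟨hp.2.1, hp.1.2, (tt_lt N p u (by omega) hp.2.1.pos).1 hp.2.2⟩
  obtain ⟨P1, hP1⟩ : ∃ P1 : Finset ℕ, P1 = (PZ N υ).filter (fun p : ℕ => w < (p : ℝ) ∧ (p : ℝ) ≤ z0) :=
    ⟨_, rfl⟩
  obtain ⟨P2, hP2⟩ : ∃ P2 : Finset ℕ, P2 = (PZ N υ).filter (fun p : ℕ => z0 < (p : ℝ)) := ⟨_, rfl⟩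
  have m1 : ∀ p ∈ P1, p.Prime ∧ w < (p : ℝ) ∧ (p : ℝ) ≤ z0 := by
    intro p hp
    rw [hP1, mem_filter] at hp
    exact ⟨(hPZ υ p hp.1).1, hp.2⟩
  have m2 : ∀ p ∈ P2, p.Prime ∧ z0 < (p : ℝ) := by
    intro p hp
    rw [hP2, mem_filter] at hp
    exact ⟨(hPZ υ p hp.1).1, hp.2⟩
  have hd12 : Disjoint P1 P2 := by
    rw [disjoint_left]
    intro p hp hp'
    linarith [(m1 p hp).2.2, (m2 p hp').2]
  have hKp : ∀ p : ℕ, w < (p : ℝ) → K + 1 ≤ p := by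
    intro p hp
    have : ((K + 1 : ℕ) : ℝ) < p := by push_cast; linarith
    exact_mod_cast this.le
  have mb : ∀ p ∈ P1 ∪ P2, p.Prime ∧ (p : ℝ) ≤ N ∧ K + 1 ≤ p ∧ ro F 0 p ≤ K ∧ p.Coprime W := by
    intro p hp
    have a1 : p.Prime ∧ (p : ℝ) ≤ N ∧ w < (p : ℝ) := by
      rcases mem_union.1 hp with h | h
      · rw [hP1, mem_filter] at h
        exact ⟨(hPZ υ p h.1).1, by exact_mod_cast (hPZ υ p h.1).2.1, h.2.1⟩
      · rw [hP2, mem_filter] at h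
        exact ⟨(hPZ υ p h.1).1, by exact_mod_cast (hPZ υ p h.1).2.1, hwz.trans_lt h.2⟩
    refine ⟨a1.1, a1.2.1, hKp p a1.2.2, hK p a1.1, ?_⟩
    rw [Nat.Prime.coprime_iff_not_dvd a1.1]
    intro h
    linarith [hWp p a1.1 h, a1.2.2]
  have hk1 : K0 * l ≤ (k : ℝ) ∧ (k : ℝ) ≤ K0 * l + 1 := by
    rw [hk]
    exact ⟨Nat.le_ceil _, (Nat.ceil_lt_add_one (by positivity)).le⟩
  have hLamL : Lam ≤ L := by
    refine hLam2.trans ?_
    calc L ^ (1 - ε) ≤ L ^ (1 : ℝ) := Real.rpow_le_rpow_of_exponent_le hL1 (by linarith)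
      _ = L := Real.rpow_one L
  have bas : Bas F K B k L l w z0 N1 Lam u Lam0 m0 N W A1 A2 P1 P2 :=
    { L1 := hLe, leq := hl.symm, l1 := c2, LN := hL.symm, N3 := c1, zeq := hz0, Beq := hB, w0 := hw0,
      wL := hwL, m1 := m1, m2 := m2, mb := mb, N10 := hN10, Lam1 := hLam1, LamL := hLamL, ls := hLS,
      ls0 := hLS0, Lam01 := hLam01, Lam0L := hLam0L,
      k1 := by rw [← hK0]; exact hk1.1 }
  obtain ⟨D0, hD0⟩ : ∃ D0 : ℕ, D0 = ⌊(N : ℝ) ^ τ'⌋₊ := ⟨_, rfl⟩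
  obtain ⟨D, hD⟩ : ∃ D : ℕ, D = ⌊(N : ℝ) ^ τ2⌋₊ := ⟨_, rfl⟩
  obtain ⟨D1, hD1⟩ : ∃ D1 : ℕ, D1 = ⌊z0 ^ k⌋₊ := ⟨_, rfl⟩
  have hD0le : (D0 : ℝ) ≤ (N : ℝ) ^ τ' := by rw [hD0]; exact Nat.floor_le (by positivity)
  have hDle : (D : ℝ) ≤ (N : ℝ) ^ τ2 := by rw [hD]; exact Nat.floor_le (by positivity)
  have hPb := HP F (P1 ∪ P2) N (by linarith) (fun p hp => ⟨(mb p hp).1, (mb p hp).2.1,
    (mb p hp).2.2.1, (mb p hp).2.2.2.1⟩)
  rw [← hL] at hPb
  have hPb1 := HP F P1 z0 hz02 (fun p hp => ⟨(m1 p hp).1, (m1 p hp).2.2, hKp p (m1 p hp).2.1,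
    hK p (m1 p hp).1⟩)
  rw [hlz] at hPb1
  -- the main part
  have hMain := main_part bas cV Ce η K0 ε τ3 ν hcV hCe hPb1 D1
    (HET F A1 A2 P1 W N1 Lam w D1 (fun p hp => (m1 p hp).1)
      (fun p hp => hK p (m1 p hp).1) (fun p hp => (mb p (mem_union_left _ hp)).2.2.2.2) hN10
      (by linarith) hw0 hLS) hη0.le hηε hε hε1 hD1 hk1.2 hw hLam2 c5 (by rw [hν]; linarith)
      (by linarith) hN1 c8 c9 c10 c11
  -- the error part
  have hErr := err_part bas cV Ce η hcV hCe hPb.2 D0 D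
    (HET F A1 A2 (P1 ∪ P2) W N1 Lam z0 D (fun p hp => (mb p hp).1)
      (fun p hp => (mb p hp).2.2.2.1) (fun p hp => (mb p hp).2.2.2.2) hN10
      (by linarith) (by linarith) hLS) (by linarith) (by
        calc (z0 ^ k) ^ 2 ≤ ((N : ℝ) ^ ν) ^ 2 := pow_le_pow_left₀ (by positivity) c5 2
          _ = (N : ℝ) ^ (ν * 2) := by
              rw [← Real.rpow_natCast, ← Real.rpow_mul hN0.le]
              norm_num
          _ ≤ (N : ℝ) ^ τ3 := Real.rpow_le_rpow_of_exponent_le hN1r (by rw [hν]; linarith)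
          _ ≤ N1 := hN1) (by
        refine le_trans ?_ c6
        rw [div_le_iff₀ hN10]
        calc (D : ℝ) ^ (1 + η) ≤ ((N : ℝ) ^ τ2) ^ (1 + η) :=
              Real.rpow_le_rpow (Nat.cast_nonneg _) hDle (by linarith)
          _ = (N : ℝ) ^ (τ2 * (1 + η)) := by rw [← Real.rpow_mul hN0.le]
          _ ≤ (N : ℝ) ^ (-((τ3 - τ) / 4) + τ3) := by
              apply Real.rpow_le_rpow_of_exponent_le hN1r
              have : τ2 ≤ 1 := by rw [hτ2]; linarith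
              have h7 : τ2 * η ≤ 1 * η := mul_le_mul_of_nonneg_right this hη0.le
              rw [mul_add, mul_one]
              linarith
          _ = (N : ℝ) ^ (-((τ3 - τ) / 4)) * (N : ℝ) ^ τ3 := Real.rpow_add hN0 _ _
          _ ≤ _ := mul_le_mul_of_nonneg_left hN1 (by positivity)) (by
        refine hDle.trans ?_
        calc (N : ℝ) ^ τ2 ≤ (N : ℝ) ^ (1 : ℝ) :=
              Real.rpow_le_rpow_of_exponent_le hN1r (by rw [hτ2]; linarith)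
          _ = N := Real.rpow_one _) (by
        have g1 : z0 ^ k * D0 ≤ (N : ℝ) ^ ν * (N : ℝ) ^ τ' :=
          mul_le_mul c5 hD0le (Nat.cast_nonneg _) (by positivity)
        have g2 : (N : ℝ) ^ τ2 ≤ D + 1 := by
          rw [hD]
          exact (Nat.lt_floor_add_one _).le
        have g3 : (N : ℝ) ^ ν * ((N : ℝ) ^ ν * (N : ℝ) ^ τ') ≤ (N : ℝ) ^ τ2 := by
          rw [← Real.rpow_add hN0, ← Real.rpow_add hN0]
          exact Real.rpow_le_rpow_of_exponent_le hN1r (by rw [hν, hτ', hτ2]; linarith)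
        have g4 : 1 ≤ (N : ℝ) ^ ν * (N : ℝ) ^ τ' := by
          rw [← Real.rpow_add hN0]
          exact Real.one_le_rpow hN1r (by rw [hτ']; linarith)
        have g5 : 2 * ((N : ℝ) ^ ν * (N : ℝ) ^ τ') ≤ (N : ℝ) ^ ν * ((N : ℝ) ^ ν * (N : ℝ) ^ τ') :=
          mul_le_mul_of_nonneg_right cd4 (by linarith)
        linarith) c7 hd12 c hcL (by
        intro T hT hcT
        rw [hD0]
        apply Nat.le_floor
        refine hcD T ?_ hcT
        rw [hP2] at hT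
        exact hT.trans (filter_subset _ _))
  -- the value of the weights
  have hV : f * (∏ p ∈ (PZ N ε₁).filter (fun p : ℕ => z0 < (p : ℝ)), (1 - xx F p)) ≤
      VV (PZ N υ) c (fun p => if z0 < (p : ℝ) then xx F p else 0) := by
    have g1 := hcV' (fun p => if z0 < (p : ℝ) then xx F p else 0) (by
      intro p _
      beta_reduce
      split_ifs
      · exact xx_nonneg F p
      · exact le_rfl) (by
      intro p hp
      beta_reduce
      split_ifs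
      · unfold xx
        have hp0 : (0 : ℝ) < p := by exact_mod_cast (hPZ ε₁ p hp).1.pos
        rw [div_le_one hp0]
        exact_mod_cast ro_le_self F 0 p
      · norm_num) (by
      intro p hp _
      beta_reduce
      have hp2 : (2 : ℝ) ≤ p := by exact_mod_cast (hPZ ε₁ p hp).1.two_le
      have hp1 : (0 : ℝ) < (p : ℝ) - 1 := by linarith
      split_ifs
      · unfold xx
        have h7 : (ro F 0 p : ℝ) ≤ K := by exact_mod_cast hK p (hPZ ε₁ p hp).1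
        exact div_le_div₀ hKr h7 hp1 (by linarith)
      · positivity) (by
      intro a b ha' hab' hb'
      have g2 := hmer a b ha' hab' hb'
      have g3 : ∑ p ∈ (pr N ε₁ υ).filter (fun p => a ≤ tt N p ∧ tt N p < b),
          (fun p : ℕ => if z0 < (p : ℝ) then xx F p else 0) p =
          ∑ p ∈ (pr N ε₁ υ).filter (fun p => a ≤ tt N p ∧ tt N p < b),
          (fun p : ℕ => (Pool.Agent.H300R2.BH.rho F p : ℝ) / p) p := by
        apply sum_congr rfl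
        intro p hp
        beta_reduce
        rw [mem_filter] at hp
        have hp1 := hp.1
        unfold pr at hp1
        rw [mem_filter] at hp1
        have g4 : (N : ℝ) ^ ε₁ ≤ p := by
          by_contra hcon
          push Not at hcon
          have := (tt_lt N p ε₁ (by omega) hp1.2.1.pos).2 hcon
          linarith [hp1.2.2.1]
        rw [if_pos (hz0e.trans_le g4)]
        unfold xx
        rw [ro_rho]
      rw [g3]
      exact g2)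
    refine le_trans (mul_le_mul_of_nonneg_left ?_ hf.le) g1
    refine le_of_eq ?_
    rw [prod_filter]
    apply prod_congr rfl
    intro p _
    split_ifs
    · rfl
    · simp
  have hcount := count_low F N ζ υ aw bw hb hab c hcN A1 A2 w z0 P1 (by
    intro p hp hpw hpz
    rw [hP1, mem_filter]
    exact ⟨hp, hpw, hpz⟩) hwz Nz (fun z hz p hp hpw => hsm z hz p (hPZ υ p hp).1 hpw)
    (fun z hz p hp hpw => hlg z hz p (hPZ υ p hp).1 hpw)
  rw [← hP2] at hcount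
  -- the product of the local factors
  have hP3 : cM * (l / 2 / L) ≤ (∏ p ∈ P1, (1 - xx F p)) *
      ∏ p ∈ (PZ N ε₁).filter (fun p : ℕ => z0 < (p : ℝ)), (1 - xx F p) := by
    have hdis : Disjoint P1 ((PZ N ε₁).filter (fun p : ℕ => z0 < (p : ℝ))) := by
      rw [disjoint_left]
      intro p hp hp'
      rw [mem_filter] at hp'
      linarith [(m1 p hp).2.2, hp'.2]
    rw [← prod_union hdis]
    have g1 := HPL (P1 ∪ (PZ N ε₁).filter (fun p : ℕ => z0 < (p : ℝ))) w ((N : ℝ) ^ ε₁)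
      (by linarith) (by linarith) (hwz.trans hz0e.le) (by
        intro p hp
        rcases mem_union.1 hp with h | h
        · exact ⟨(m1 p h).1, (m1 p h).2.1, (m1 p h).2.2.trans hz0e.le⟩
        · rw [mem_filter] at h
          exact ⟨(hPZ ε₁ p h.1).1, hwz.trans_lt h.2, (hPZ ε₁ p h.1).2.2.le⟩)
    refine le_trans ?_ g1
    apply mul_le_mul_of_nonneg_left _ hcM.le
    rw [hw, Real.log_rpow hL0, ← hl, Real.log_rpow hN0, ← hL]
    have g2 : l / 2 ≤ (1 - ε / 2) * l := by nlinarith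
    have hε₁1 : ε₁ ≤ 1 := by linarith
    apply div_le_div₀ (by nlinarith) g2 (by positivity)
    nlinarith
  exact (arith4 K L l f cM ((A1.card : ℝ) * A2.card) _ _ _ _ _ hL1 (by positivity) hf hcM hl1
    (prod_nonneg fun p hp => by
      have h7 : xx F p ≤ 1 := by
        unfold xx
        have hp0 : (0 : ℝ) < p := by exact_mod_cast (m1 p hp).1.pos
        rw [div_le_one hp0]
        exact_mod_cast ro_le_self F 0 p
      linarith)
    (prod_nonneg fun p hp => by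
      rw [mem_filter] at hp
      have h7 : xx F p ≤ 1 := by
        unfold xx
        have hp0 : (0 : ℝ) < p := by exact_mod_cast (hPZ ε₁ p hp.1).1.pos
        rw [div_le_one hp0]
        exact_mod_cast ro_le_self F 0 p
      linarith) hMain hV hErr hP3 c12).trans hcount

end Pool.Agent.H540.DS
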