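import Pool.Agent.H540.DS.Four
import Pool.Agent.H540.DS.Bonf
import Pool.Graph.R_seed8.Y882.PX.Prim

/-! The sieve error terms for the pairs without small prime factors. -/

set_option autoImplicit false

namespace Pool.Agent.H540.DS

open Finset Polynomial
open Pool.Agent.Y882.PX

open Classical in
/-- the pairs at which no prime of `P1` divides `F` -/
noncomputable def JP (F : ℤ[X]) (A1 A2 : Finset ℤ) (P1 : Finset ℕ) : Finset (ℤ × ℤ) :=
  (A1 ×ˢ A2).filter (fun z => ∀ p ∈ P1, ¬ (p : ℤ) ∣ F.eval (z.1 - z.2))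

open Classical in
/-- the number of these pairs with `q ∣ F` -/
noncomputable def MP (F : ℤ[X]) (A1 A2 : Finset ℤ) (P1 : Finset ℕ) (q : ℕ) : ℕ :=
  ((JP F A1 A2 P1).filter (fun z => (q : ℤ) ∣ F.eval (z.1 - z.2))).card

/-- the local density -/
noncomputable def xx (F : ℤ[X]) (p : ℕ) : ℝ := (ro F 0 p : ℝ) / p

theorem xx_nonneg (F : ℤ[X]) (p : ℕ) : 0 ≤ xx F p := by
  unfold xx
  positivity

theorem xx_prod (F : ℤ[X]) (T : Finset ℕ) (hT : ∀ p ∈ T, p.Prime) :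
    (ro F 0 (∏ p ∈ T, p) : ℝ) / ((∏ p ∈ T, p : ℕ) : ℝ) = ∏ p ∈ T, xx F p := by
  unfold xx
  rw [ro_prod F 0 T hT, prod_div_distrib]
  push_cast
  rfl

theorem prod_dvd_int (T : Finset ℕ) (hT : ∀ p ∈ T, p.Prime) (n : ℤ) :
    ((∏ p ∈ T, p : ℕ) : ℤ) ∣ n ↔ ∀ p ∈ T, (p : ℤ) ∣ n := by
  constructor
  · intro h p hp
    refine dvd_trans ?_ h
    exact_mod_cast dvd_prod_of_mem _ hp
  · intro h
    have h1 : (∏ p ∈ T, p) ∣ n.natAbs := by
      apply prod_primes_dvd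
      · intro p hp
        exact (hT p hp).prime
      · intro p hp
        exact Int.natCast_dvd.1 (h p hp)
    exact Int.natCast_dvd.2 h1

theorem prod_pos' (T : Finset ℕ) (hT : ∀ p ∈ T, p.Prime) : 0 < ∏ p ∈ T, p :=
  prod_pos fun p hp => (hT p hp).pos

theorem cop_prod (T T' : Finset ℕ) (hT : ∀ p ∈ T, p.Prime) (hT' : ∀ p ∈ T', p.Prime)
    (hd : Disjoint T T') : (∏ p ∈ T, p).Coprime (∏ p ∈ T', p) := by
  apply Nat.Coprime.prod_left
  intro p hp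
  apply Nat.Coprime.prod_right
  intro q hq
  rw [Nat.coprime_primes (hT p hp) (hT' q hq)]
  rintro rfl
  exact disjoint_left.1 hd hp hq

theorem prod_dvd_int2 (T : Finset ℕ) (hT : ∀ p ∈ T, p.Prime) (q : ℕ) (hq : (∏ p ∈ T, p).Coprime q)
    (n : ℤ) : (((∏ p ∈ T, p) * q : ℕ) : ℤ) ∣ n ↔ (∀ p ∈ T, (p : ℤ) ∣ n) ∧ (q : ℤ) ∣ n := by
  rw [← prod_dvd_int T hT]
  constructor
  · intro h
    constructor
    · refine dvd_trans ?_ h
      push_cast
      exact Dvd.intro _ rfl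
    · refine dvd_trans ?_ h
      push_cast
      exact Dvd.intro_left _ rfl
  · rintro ⟨h1, h2⟩
    have := (Nat.isCoprime_iff_coprime.2 hq).mul_dvd h1 h2
    exact_mod_cast this

open Classical in
theorem incl_excl (F : ℤ[X]) (A1 A2 : Finset ℤ) (P1 : Finset ℕ) (hP : ∀ p ∈ P1, p.Prime) (q : ℕ)
    (hq : ∀ T ⊆ P1, (∏ p ∈ T, p).Coprime q) (k : ℕ) :
    |(MP F A1 A2 P1 q : ℝ) - ∑ T ∈ P1.powerset,
      (if T.card < k then (-1) ^ T.card * (M F A1 A2 ((∏ p ∈ T, p) * q) : ℝ) else 0)| ≤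
      ∑ T ∈ P1.powerset, (if T.card = k then (M F A1 A2 ((∏ p ∈ T, p) * q) : ℝ) else 0) := by
  set x : ℤ × ℤ → ℕ → ℝ := fun z p => if (p : ℤ) ∣ F.eval (z.1 - z.2) then 1 else 0 with hx
  set Z := (A1 ×ˢ A2).filter (fun z => (q : ℤ) ∣ F.eval (z.1 - z.2)) with hZ
  have hprod : ∀ z : ℤ × ℤ, ∀ T : Finset ℕ, ∏ p ∈ T, x z p =
      if ∀ p ∈ T, (p : ℤ) ∣ F.eval (z.1 - z.2) then 1 else 0 := by
    intro z T
    rw [hx]
    simp only
    rw [prod_boole]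
  have hM : ∀ T ∈ P1.powerset, (M F A1 A2 ((∏ p ∈ T, p) * q) : ℝ) = ∑ z ∈ Z, ∏ p ∈ T, x z p := by
    intro T hT
    rw [mem_powerset] at hT
    simp_rw [hprod]
    rw [sum_boole, hZ, filter_filter]
    unfold M
    congr 2
    apply filter_congr
    intro z _
    rw [prod_dvd_int2 T (fun p hp => hP p (hT hp)) q (hq T hT)]
    tauto
  have hMP : (MP F A1 A2 P1 q : ℝ) = ∑ z ∈ Z, ∏ p ∈ P1, (1 - x z p) := by
    have h1 : ∀ z : ℤ × ℤ, ∏ p ∈ P1, (1 - x z p) =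
        if ∀ p ∈ P1, ¬ (p : ℤ) ∣ F.eval (z.1 - z.2) then 1 else 0 := by
      intro z
      rw [← prod_boole]
      apply prod_congr rfl
      intro p _
      rw [hx]
      simp only
      split_ifs <;> simp
    simp_rw [h1]
    rw [sum_boole, hZ, filter_filter]
    unfold MP JP
    rw [filter_filter]
    congr 2
    apply filter_congr
    intro z _
    tauto
  have e1 : ∑ T ∈ P1.powerset,
      (if T.card < k then (-1) ^ T.card * (M F A1 A2 ((∏ p ∈ T, p) * q) : ℝ) else 0) =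
      ∑ z ∈ Z, SB P1 k (x z) := by
    unfold SB
    rw [sum_comm]
    apply sum_congr rfl
    intro T hT
    split_ifs with h
    · rw [hM T hT, mul_sum]
    · simp
  have e2 : ∑ T ∈ P1.powerset, (if T.card = k then (M F A1 A2 ((∏ p ∈ T, p) * q) : ℝ) else 0) =
      ∑ z ∈ Z, EB P1 k (x z) := by
    unfold EB
    rw [sum_comm]
    apply sum_congr rfl
    intro T hT
    split_ifs with h
    · rw [hM T hT]
    · simp
  rw [e1, e2, hMP, ← sum_sub_distrib]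
  refine (abs_sum_le_sum_abs _ _).trans (sum_le_sum ?_)
  intro z _
  apply bonf
  · intro p _
    rw [hx]
    simp only
    split_ifs <;> norm_num
  · intro p _
    rw [hx]
    simp only
    split_ifs <;> norm_num

/-- the deviation for sets of primes -/
noncomputable def dv (F : ℤ[X]) (A1 A2 : Finset ℤ) (T1 T : Finset ℕ) : ℝ :=
  |(M F A1 A2 ((∏ p ∈ T1, p) * ∏ p ∈ T, p) : ℝ) - (∏ p ∈ T, xx F p) * M F A1 A2 (∏ p ∈ T1, p)|

theorem dv_nonneg (F : ℤ[X]) (A1 A2 : Finset ℤ) (T1 T : Finset ℕ) : 0 ≤ dv F A1 A2 T1 T :=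
  abs_nonneg _

open Classical in
/-- the deviation, in terms of the energies -/
theorem dv_le (F : ℤ[X]) (A1 A2 : Finset ℤ) (T1 T : Finset ℕ) (hT1 : ∀ p ∈ T1, p.Prime)
    (hT : ∀ p ∈ T, p.Prime) (hd : Disjoint T1 T) :
    dv F A1 A2 T1 T ≤ ∑ U ∈ (T1 ∪ T).powerset.filter (fun U => ¬ U ⊆ T1),
      (∏ p ∈ T1 ∪ T, xx F p) * EE2 A1 A2 (∏ p ∈ U, p) := by
  have hc := cop_prod T1 T hT1 hT hd
  have hU : ∀ p ∈ T1 ∪ T, p.Prime := by
    intro p hp
    rcases mem_union.1 hp with h | h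
    · exact hT1 p h
    · exact hT p h
  have h1 := dev F A1 A2 (∏ p ∈ T1, p) (∏ p ∈ T, p) (prod_pos' T1 hT1) (prod_pos' T hT) hc
  rw [xx_prod F T hT] at h1
  have e1 : (∏ p ∈ T1, p) * ∏ p ∈ T, p = ∏ p ∈ T1 ∪ T, p := (prod_union hd).symm
  unfold dv
  refine h1.trans (le_of_eq ?_)
  rw [e1, xx_prod F _ hU, ← mul_sum]
  congr 1
  have h2 := sum_div_prod (T1 ∪ T) hU (fun f => if ¬ f ∣ ∏ p ∈ T1, p then
    ((EE2 A1 A2 f : ℝ) : ℂ) else 0)
  have h3 : ((∑ f ∈ (∏ p ∈ T1 ∪ T, p).divisors.filter (fun f => ¬ f ∣ ∏ p ∈ T1, p),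
      EE2 A1 A2 f : ℝ) : ℂ) =
      ((∑ U ∈ (T1 ∪ T).powerset.filter (fun U => ¬ U ⊆ T1), EE2 A1 A2 (∏ p ∈ U, p) : ℝ) : ℂ) := by
    rw [sum_filter, sum_filter, Complex.ofReal_sum, Complex.ofReal_sum]
    rw [show ∑ f ∈ (∏ p ∈ T1 ∪ T, p).divisors, (((if ¬ f ∣ ∏ p ∈ T1, p then
      EE2 A1 A2 f else 0 : ℝ)) : ℂ) = ∑ f ∈ (∏ p ∈ T1 ∪ T, p).divisors,
      (if ¬ f ∣ ∏ p ∈ T1, p then ((EE2 A1 A2 f : ℝ) : ℂ) else 0) from
        sum_congr rfl (fun f _ => by split_ifs <;> simp), h2]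
    apply sum_congr rfl
    intro U hU'
    rw [mem_powerset] at hU'
    have h4 : (∏ p ∈ U, p) ∣ ∏ p ∈ T1, p ↔ U ⊆ T1 := by
      constructor
      · intro h p hp
        have h5 : p ∣ ∏ p ∈ T1, p := dvd_trans (dvd_prod_of_mem _ hp) h
        rw [Prime.dvd_finset_prod_iff (hU p (hU' hp)).prime] at h5
        obtain ⟨a, ha, hpa⟩ := h5
        rw [Nat.prime_dvd_prime_iff_eq (hU p (hU' hp)) (hT1 a ha)] at hpa
        rw [hpa]
        exact ha
      · intro h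
        exact prod_dvd_prod_of_subset _ _ _ h
    simp only [h4]
    split_ifs <;> simp
  exact_mod_cast h3

end Pool.Agent.H540.DS
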