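import Pool.Agent.H540.DS.Err

/-! The total error of the sieve for pairs. -/

set_option autoImplicit false

namespace Pool.Agent.H540.DS

open Finset Polynomial
open Pool.Agent.Y882.PX

open Classical in
theorem sum_super (P U : Finset ℕ) (hU : U ⊆ P) (x : ℕ → ℝ) (hx : ∀ p, 0 ≤ x p) :
    ∑ V ∈ P.powerset.filter (fun V => U ⊆ V), ∏ p ∈ V, x p ≤
      (∏ p ∈ U, x p) * ∏ p ∈ P, (1 + x p) := by
  have h1 : ∏ p ∈ P, (1 + x p) = ∑ V ∈ P.powerset, ∏ p ∈ V, x p := prod_one_add P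
  rw [h1, mul_sum]
  have h2 : ∑ V ∈ P.powerset.filter (fun V => U ⊆ V), ∏ p ∈ V, x p =
      ∑ W ∈ (P.powerset.filter (fun V => U ⊆ V)).image (fun V => V \ U),
        (∏ p ∈ U, x p) * ∏ p ∈ W, x p := by
    rw [sum_image]
    · apply sum_congr rfl
      intro V hV
      rw [mem_filter] at hV
      rw [mul_comm, prod_sdiff hV.2]
    · intro V hV V' hV' h
      rw [coe_filter, Set.mem_setOf_eq] at hV hV'
      simp only at h
      rw [← sdiff_union_of_subset hV.2, ← sdiff_union_of_subset hV'.2, h]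
  rw [h2]
  apply sum_le_sum_of_subset_of_nonneg
  · intro W hW
    rw [mem_image] at hW
    obtain ⟨V, hV, rfl⟩ := hW
    rw [mem_filter, mem_powerset] at hV
    rw [mem_powerset]
    exact sdiff_subset.trans hV.1
  · intro W _ _
    exact mul_nonneg (prod_nonneg fun p _ => hx p) (prod_nonneg fun p _ => hx p)

open Classical in
/-- the sum of the energies at the large denominators -/
noncomputable def ET (F : ℤ[X]) (A1 A2 : Finset ℤ) (P : Finset ℕ) (z0 : ℝ) (D : ℕ) : ℝ :=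
  ∑ U ∈ P.powerset.filter (fun U => z0 < ((∏ p ∈ U, p : ℕ) : ℝ) ∧ ∏ p ∈ U, p ≤ D),
    (∏ p ∈ U, xx F p) * EE2 A1 A2 (∏ p ∈ U, p)

theorem ET_nonneg (F : ℤ[X]) (A1 A2 : Finset ℤ) (P : Finset ℕ) (z0 : ℝ) (D : ℕ) :
    0 ≤ ET F A1 A2 P z0 D := by
  unfold ET
  exact sum_nonneg fun U _ => mul_nonneg (prod_nonneg fun p _ => xx_nonneg F p) (EE2_nonneg _ _ _)

open Classical in
/-- the sum over all the pairs of sets -/
theorem devsum (F : ℤ[X]) (A1 A2 : Finset ℤ) (P1 P2 : Finset ℕ) (h1 : ∀ p ∈ P1, p.Prime)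
    (h2 : ∀ p ∈ P2, p.Prime) (hd : Disjoint P1 P2) (k D0 D : ℕ) (z0 : ℝ)
    (hz : ∀ p ∈ P2, z0 < (p : ℝ))
    (hD : ∀ T1 ⊆ P1, T1.card ≤ k → ∀ T ⊆ P2, ∏ p ∈ T, p ≤ D0 → (∏ p ∈ T1, p) * ∏ p ∈ T, p ≤ D) :
    ∑ T ∈ P2.powerset.filter (fun T => ∏ p ∈ T, p ≤ D0),
      ∑ T1 ∈ P1.powerset.filter (fun T1 => T1.card ≤ k), dv F A1 A2 T1 T ≤
      (∏ p ∈ P1 ∪ P2, (1 + xx F p)) * ET F A1 A2 (P1 ∪ P2) z0 D := by
  set P := P1 ∪ P2 with hP
  have hPp : ∀ p ∈ P, p.Prime := by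
    intro p hp
    rcases mem_union.1 hp with h | h
    · exact h1 p h
    · exact h2 p h
  set G : Finset ℕ → ℝ := fun V => ∑ U ∈ V.powerset.filter (fun U => z0 < ((∏ p ∈ U, p : ℕ) : ℝ)),
    (∏ p ∈ V, xx F p) * EE2 A1 A2 (∏ p ∈ U, p) with hG
  have hG0 : ∀ V, 0 ≤ G V := by
    intro V
    rw [hG]
    exact sum_nonneg fun U _ => mul_nonneg (prod_nonneg fun p _ => xx_nonneg F p) (EE2_nonneg _ _ _)
  have s1 : ∑ T ∈ P2.powerset.filter (fun T => ∏ p ∈ T, p ≤ D0),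
      ∑ T1 ∈ P1.powerset.filter (fun T1 => T1.card ≤ k), dv F A1 A2 T1 T ≤
      ∑ V ∈ P.powerset.filter (fun V => ∏ p ∈ V, p ≤ D), G V := by
    rw [← sum_product']
    have a1 : ∀ z ∈ (P2.powerset.filter (fun T => ∏ p ∈ T, p ≤ D0)) ×ˢ
        (P1.powerset.filter (fun T1 => T1.card ≤ k)), dv F A1 A2 z.2 z.1 ≤ G (z.2 ∪ z.1) := by
      rintro ⟨T, T1⟩ hz'
      rw [mem_product, mem_filter, mem_filter, mem_powerset, mem_powerset] at hz'
      obtain ⟨⟨b1, b2⟩, b3, b4⟩ := hz'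
      simp only at b1 b2 b3 b4 ⊢
      refine (dv_le F A1 A2 T1 T (fun p hp => h1 p (b3 hp)) (fun p hp => h2 p (b1 hp))
        (disjoint_of_subset_left b3 (disjoint_of_subset_right b1 hd))).trans ?_
      rw [hG]
      apply sum_le_sum_of_subset_of_nonneg
      · intro U hU
        rw [mem_filter, mem_powerset] at hU ⊢
        refine ⟨hU.1, ?_⟩
        obtain ⟨p, hpU, hpT⟩ := not_subset.1 hU.2
        have hpT' : p ∈ T := by
          rcases mem_union.1 (hU.1 hpU) with h | h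
          · exact absurd h hpT
          · exact h
        have c1 : p ≤ ∏ q ∈ U, q := by
          apply Nat.le_of_dvd
          · apply prod_pos' U
            intro q hq
            rcases mem_union.1 (hU.1 hq) with h | h
            · exact h1 q (b3 h)
            · exact h2 q (b1 h)
          · exact dvd_prod_of_mem _ hpU
        have c2 : (p : ℝ) ≤ ((∏ q ∈ U, q : ℕ) : ℝ) := by exact_mod_cast c1
        exact (hz p (b1 hpT')).trans_le c2
      · intro U _ _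
        exact mul_nonneg (prod_nonneg fun p _ => xx_nonneg F p) (EE2_nonneg _ _ _)
    refine (sum_le_sum a1).trans ?_
    have a2 : ∑ z ∈ (P2.powerset.filter (fun T => ∏ p ∈ T, p ≤ D0)) ×ˢ
        (P1.powerset.filter (fun T1 => T1.card ≤ k)), G (z.2 ∪ z.1) =
        ∑ V ∈ ((P2.powerset.filter (fun T => ∏ p ∈ T, p ≤ D0)) ×ˢ
        (P1.powerset.filter (fun T1 => T1.card ≤ k))).image (fun z => z.2 ∪ z.1), G V := by
      rw [sum_image]
      rintro ⟨T, T1⟩ hz' ⟨T', T1'⟩ hz'' heq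
      rw [mem_coe, mem_product, mem_filter, mem_filter, mem_powerset, mem_powerset] at hz' hz''
      obtain ⟨⟨b1, b2⟩, b3, b4⟩ := hz'
      obtain ⟨⟨b1', b2'⟩, b3', b4'⟩ := hz''
      simp only at b1 b3 b1' b3' heq
      have e1 : ∀ X Y : Finset ℕ, X ⊆ P1 → Y ⊆ P2 → (X ∪ Y) ∩ P1 = X := by
        intro X Y hX hY
        ext p
        rw [mem_inter, mem_union]
        constructor
        · rintro ⟨h | h, h'⟩
          · exact h
          · exact absurd (hY h) (disjoint_left.1 hd h')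
        · intro h
          exact ⟨Or.inl h, hX h⟩
      have e2 : ∀ X Y : Finset ℕ, X ⊆ P1 → Y ⊆ P2 → (X ∪ Y) ∩ P2 = Y := by
        intro X Y hX hY
        ext p
        rw [mem_inter, mem_union]
        constructor
        · rintro ⟨h | h, h'⟩
          · exact absurd h' (disjoint_left.1 hd (hX h))
          · exact h
        · intro h
          exact ⟨Or.inr h, hY h⟩
      rw [Prod.mk.injEq]
      constructor
      · rw [← e2 T1 T b3 b1, heq, e2 T1' T' b3' b1']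
      · rw [← e1 T1 T b3 b1, heq, e1 T1' T' b3' b1']
    rw [a2]
    apply sum_le_sum_of_subset_of_nonneg
    · intro V hV
      rw [mem_image] at hV
      obtain ⟨⟨T, T1⟩, hz', rfl⟩ := hV
      rw [mem_product, mem_filter, mem_filter, mem_powerset, mem_powerset] at hz'
      obtain ⟨⟨b1, b2⟩, b3, b4⟩ := hz'
      simp only at b1 b2 b3 b4 ⊢
      rw [mem_filter, mem_powerset]
      refine ⟨union_subset (b3.trans subset_union_left) (b1.trans subset_union_right), ?_⟩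
      rw [prod_union (disjoint_of_subset_left b3 (disjoint_of_subset_right b1 hd))]
      exact hD T1 b3 b4 T b1 b2
    · intro V _ _
      exact hG0 V
  refine s1.trans ?_
  rw [hG]
  simp only
  have s2 : ∑ V ∈ P.powerset.filter (fun V => ∏ p ∈ V, p ≤ D),
      ∑ U ∈ V.powerset.filter (fun U => z0 < ((∏ p ∈ U, p : ℕ) : ℝ)),
        (∏ p ∈ V, xx F p) * EE2 A1 A2 (∏ p ∈ U, p) =
      ∑ U ∈ P.powerset.filter (fun U => z0 < ((∏ p ∈ U, p : ℕ) : ℝ) ∧ ∏ p ∈ U, p ≤ D),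
        ∑ V ∈ (P.powerset.filter (fun V => ∏ p ∈ V, p ≤ D)).filter (fun V => U ⊆ V),
        (∏ p ∈ V, xx F p) * EE2 A1 A2 (∏ p ∈ U, p) := by
    apply sum_comm'
    intro V U
    simp only [mem_filter, mem_powerset]
    constructor
    · rintro ⟨⟨g1, g2⟩, g3, g4⟩
      refine ⟨⟨⟨g1, g2⟩, g3⟩, g3.trans g1, g4, ?_⟩
      refine le_trans (Nat.le_of_dvd (prod_pos' V fun p hp => hPp p (g1 hp))
        (prod_dvd_prod_of_subset _ _ _ g3)) g2
    · rintro ⟨⟨⟨g1, g2⟩, g3⟩, _, g4, _⟩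
      exact ⟨⟨g1, g2⟩, g3, g4⟩
  rw [s2]
  unfold ET
  rw [mul_sum]
  apply sum_le_sum
  intro U hU
  rw [mem_filter, mem_powerset] at hU
  rw [← sum_mul]
  have g1 := sum_super P U hU.1 (xx F) (xx_nonneg F)
  have g2 : ∑ V ∈ (P.powerset.filter (fun V => ∏ p ∈ V, p ≤ D)).filter (fun V => U ⊆ V),
      ∏ p ∈ V, xx F p ≤ ∑ V ∈ P.powerset.filter (fun V => U ⊆ V), ∏ p ∈ V, xx F p := by
    apply sum_le_sum_of_subset_of_nonneg
    · intro V hV
      rw [mem_filter, mem_filter] at hV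
      rw [mem_filter]
      exact ⟨hV.1.1, hV.2⟩
    · intro V _ _
      exact prod_nonneg fun p _ => xx_nonneg F p
  calc (∑ V ∈ (P.powerset.filter (fun V => ∏ p ∈ V, p ≤ D)).filter (fun V => U ⊆ V),
      ∏ p ∈ V, xx F p) * EE2 A1 A2 (∏ p ∈ U, p) ≤
      ((∏ p ∈ U, xx F p) * ∏ p ∈ P, (1 + xx F p)) * EE2 A1 A2 (∏ p ∈ U, p) :=
        mul_le_mul_of_nonneg_right (g2.trans g1) (EE2_nonneg _ _ _)
    _ = _ := by ring

open Classical in
/-- the number of the pairs at the sets of `k` primes -/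
noncomputable def MK (F : ℤ[X]) (A1 A2 : Finset ℤ) (P1 : Finset ℕ) (k : ℕ) : ℝ :=
  ∑ T ∈ P1.powerset, if T.card = k then (M F A1 A2 (∏ p ∈ T, p) : ℝ) else 0

theorem MK_nonneg (F : ℤ[X]) (A1 A2 : Finset ℤ) (P1 : Finset ℕ) (k : ℕ) : 0 ≤ MK F A1 A2 P1 k := by
  unfold MK
  apply sum_nonneg
  intro T _
  split_ifs
  · positivity
  · exact le_rfl

open Classical in
/-- one modulus -/
theorem one_T (F : ℤ[X]) (A1 A2 : Finset ℤ) (P1 T : Finset ℕ) (h1 : ∀ p ∈ P1, p.Prime)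
    (h2 : ∀ p ∈ T, p.Prime) (hd : Disjoint P1 T) (k : ℕ) :
    |(MP F A1 A2 P1 (∏ p ∈ T, p) : ℝ) - (∏ p ∈ T, xx F p) * MP F A1 A2 P1 1| ≤
      ∑ T1 ∈ P1.powerset.filter (fun T1 => T1.card ≤ k), dv F A1 A2 T1 T +
        2 * (∏ p ∈ T, xx F p) * MK F A1 A2 P1 k := by
  set x := ∏ p ∈ T, xx F p with hx
  have hx0 : 0 ≤ x := prod_nonneg fun p _ => xx_nonneg F p
  have i1 := incl_excl F A1 A2 P1 h1 (∏ p ∈ T, p) (fun T1 hT1 => cop_prod T1 T
    (fun p hp => h1 p (hT1 hp)) h2 (disjoint_of_subset_left hT1 hd)) k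
  have i2 := incl_excl F A1 A2 P1 h1 1 (fun T1 _ => Nat.coprime_one_right _) k
  set a := ∑ T1 ∈ P1.powerset,
      (if T1.card < k then (-1) ^ T1.card * (M F A1 A2 ((∏ p ∈ T1, p) * ∏ p ∈ T, p) : ℝ) else 0) with ha
  set b := ∑ T1 ∈ P1.powerset,
      (if T1.card < k then (-1) ^ T1.card * (M F A1 A2 ((∏ p ∈ T1, p) * 1) : ℝ) else 0) with hb
  set c := ∑ T1 ∈ P1.powerset,
      (if T1.card = k then (M F A1 A2 ((∏ p ∈ T1, p) * ∏ p ∈ T, p) : ℝ) else 0) with hc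
  set d := ∑ T1 ∈ P1.powerset,
      (if T1.card = k then (M F A1 A2 ((∏ p ∈ T1, p) * 1) : ℝ) else 0) with hd'
  have hdM : d = MK F A1 A2 P1 k := by
    rw [hd']
    unfold MK
    simp only [mul_one]
  have h3 : |a - x * b| + |c - x * d| ≤
      ∑ T1 ∈ P1.powerset.filter (fun T1 => T1.card ≤ k), dv F A1 A2 T1 T := by
    have e1 : |a - x * b| ≤ ∑ T1 ∈ P1.powerset, (if T1.card < k then dv F A1 A2 T1 T else 0) := by
      rw [ha, hb, mul_sum, ← sum_sub_distrib]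
      refine (abs_sum_le_sum_abs _ _).trans (sum_le_sum ?_)
      intro T1 _
      by_cases h : T1.card < k
      · rw [if_pos h, if_pos h, if_pos h]
        unfold dv
        rw [mul_one]
        have : (-1 : ℝ) ^ T1.card * (M F A1 A2 ((∏ p ∈ T1, p) * ∏ p ∈ T, p) : ℝ) -
            x * ((-1) ^ T1.card * (M F A1 A2 (∏ p ∈ T1, p) : ℝ)) =
            (-1) ^ T1.card * ((M F A1 A2 ((∏ p ∈ T1, p) * ∏ p ∈ T, p) : ℝ) -
              x * (M F A1 A2 (∏ p ∈ T1, p) : ℝ)) := by ring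
        rw [this, abs_mul, abs_pow, abs_neg, abs_one, one_pow, one_mul]
      · rw [if_neg h, if_neg h, if_neg h]
        simp
    have e2 : |c - x * d| ≤ ∑ T1 ∈ P1.powerset, (if T1.card = k then dv F A1 A2 T1 T else 0) := by
      rw [hc, hd', mul_sum, ← sum_sub_distrib]
      refine (abs_sum_le_sum_abs _ _).trans (sum_le_sum ?_)
      intro T1 _
      by_cases h : T1.card = k
      · rw [if_pos h, if_pos h, if_pos h]
        unfold dv
        rw [mul_one]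
      · rw [if_neg h, if_neg h, if_neg h]
        simp
    refine (add_le_add e1 e2).trans ?_
    rw [← sum_add_distrib, sum_filter]
    apply sum_le_sum
    intro T1 _
    have := dv_nonneg F A1 A2 T1 T
    by_cases h : T1.card < k
    · rw [if_pos h, if_neg (by omega), if_pos h.le, add_zero]
    · by_cases h' : T1.card = k
      · rw [if_neg h, if_pos h', if_pos h'.le, zero_add]
      · rw [if_neg h, if_neg h', if_neg (by omega), zero_add]
  have e3 : (MP F A1 A2 P1 (∏ p ∈ T, p) : ℝ) - x * MP F A1 A2 P1 1 =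
      ((MP F A1 A2 P1 (∏ p ∈ T, p) : ℝ) - a) + (a - x * b) - x * ((MP F A1 A2 P1 1 : ℝ) - b) := by
    ring
  have e4 : c ≤ |c - x * d| + x * d := by linarith [le_abs_self (c - x * d)]
  have e5 : |x * ((MP F A1 A2 P1 1 : ℝ) - b)| ≤ x * d := by
    rw [abs_mul, abs_of_nonneg hx0]
    exact mul_le_mul_of_nonneg_left i2 hx0
  rw [e3, ← hdM]
  have e6 := abs_sub (((MP F A1 A2 P1 (∏ p ∈ T, p) : ℝ) - a) + (a - x * b))
    (x * ((MP F A1 A2 P1 1 : ℝ) - b))
  have e7 := abs_add_le ((MP F A1 A2 P1 (∏ p ∈ T, p) : ℝ) - a) (a - x * b)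
  linarith

open Classical in
/-- **The total error.** -/
theorem err_total (F : ℤ[X]) (A1 A2 : Finset ℤ) (P1 P2 : Finset ℕ) (h1 : ∀ p ∈ P1, p.Prime)
    (h2 : ∀ p ∈ P2, p.Prime) (hd : Disjoint P1 P2) (k D0 D : ℕ) (z0 : ℝ)
    (hz : ∀ p ∈ P2, z0 < (p : ℝ))
    (hD : ∀ T1 ⊆ P1, T1.card ≤ k → ∀ T ⊆ P2, ∏ p ∈ T, p ≤ D0 → (∏ p ∈ T1, p) * ∏ p ∈ T, p ≤ D)
    (c : Finset ℕ → ℝ) (L : ℝ) (hL0 : 0 ≤ L) (hL : ∀ T, |c T| ≤ L)
    (hc : ∀ T ⊆ P2, c T ≠ 0 → ∏ p ∈ T, p ≤ D0) :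
    |∑ T ∈ P2.powerset, c T * ((MP F A1 A2 P1 (∏ p ∈ T, p) : ℝ) -
      (∏ p ∈ T, xx F p) * MP F A1 A2 P1 1)| ≤
      L * ((∏ p ∈ P1 ∪ P2, (1 + xx F p)) * (ET F A1 A2 (P1 ∪ P2) z0 D + 2 * MK F A1 A2 P1 k)) := by
  have s1 : |∑ T ∈ P2.powerset, c T * ((MP F A1 A2 P1 (∏ p ∈ T, p) : ℝ) -
      (∏ p ∈ T, xx F p) * MP F A1 A2 P1 1)| ≤
      ∑ T ∈ P2.powerset.filter (fun T => ∏ p ∈ T, p ≤ D0), L *
        (∑ T1 ∈ P1.powerset.filter (fun T1 => T1.card ≤ k), dv F A1 A2 T1 T +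
        2 * (∏ p ∈ T, xx F p) * MK F A1 A2 P1 k) := by
    refine (abs_sum_le_sum_abs _ _).trans ?_
    rw [sum_filter]
    apply sum_le_sum
    intro T hT
    rw [mem_powerset] at hT
    by_cases h0 : c T = 0
    · rw [h0, zero_mul, abs_zero]
      split_ifs
      · apply mul_nonneg hL0
        apply add_nonneg
        · exact sum_nonneg fun _ _ => dv_nonneg _ _ _ _ _
        · have : 0 ≤ ∏ p ∈ T, xx F p := prod_nonneg fun p _ => xx_nonneg F p
          have := MK_nonneg F A1 A2 P1 k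
          positivity
      · exact le_rfl
    · rw [if_pos (hc T hT h0), abs_mul]
      exact mul_le_mul (hL T) (one_T F A1 A2 P1 T h1 (fun p hp => h2 p (hT hp))
        (disjoint_of_subset_right hT hd) k) (abs_nonneg _) hL0
  refine s1.trans ?_
  rw [← mul_sum, sum_add_distrib]
  apply mul_le_mul_of_nonneg_left _ hL0
  rw [mul_add]
  refine add_le_add (devsum F A1 A2 P1 P2 h1 h2 hd k D0 D z0 hz hD) ?_
  rw [← sum_mul, ← mul_sum]
  have s2 : ∑ T ∈ P2.powerset.filter (fun T => ∏ p ∈ T, p ≤ D0), ∏ p ∈ T, xx F p ≤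
      ∏ p ∈ P1 ∪ P2, (1 + xx F p) := by
    rw [prod_one_add]
    apply sum_le_sum_of_subset_of_nonneg
    · intro T hT
      rw [mem_filter, mem_powerset] at hT
      rw [mem_powerset]
      exact hT.1.trans subset_union_right
    · intro T _ _
      exact prod_nonneg fun p _ => xx_nonneg F p
  have s3 := mul_le_mul_of_nonneg_right s2 (MK_nonneg F A1 A2 P1 k)
  linarith

theorem M_one (F : ℤ[X]) (A1 A2 : Finset ℤ) : M F A1 A2 1 = A1.card * A2.card := by
  unfold M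
  rw [filter_true_of_mem, card_product]
  intro z _
  simp

open Classical in
/-- **The main term.** -/
theorem main_J (F : ℤ[X]) (A1 A2 : Finset ℤ) (P1 : Finset ℕ) (h1 : ∀ p ∈ P1, p.Prime)
    (hx1 : ∀ p ∈ P1, xx F p ≤ 1) (k D : ℕ) (w : ℝ) (hw : ∀ p ∈ P1, w < (p : ℝ))
    (hD : ∀ T1 ⊆ P1, T1.card ≤ k → ∏ p ∈ T1, p ≤ D) :
    |(MP F A1 A2 P1 1 : ℝ) - (A1.card * A2.card) * ∏ p ∈ P1, (1 - xx F p)| ≤
      2 * (A1.card * A2.card) * EB P1 k (xx F) +
        (∏ p ∈ P1, (1 + xx F p)) * ET F A1 A2 P1 w D := by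
  have i2 := incl_excl F A1 A2 P1 h1 1 (fun T1 _ => Nat.coprime_one_right _) k
  simp only [mul_one] at i2
  have hb := bonf P1 (xx F) (fun p _ => xx_nonneg F p) hx1 k
  set m : ℝ := (A1.card : ℝ) * A2.card with hm
  have hm0 : 0 ≤ m := by positivity
  have hM1 : (M F A1 A2 (∏ p ∈ (∅ : Finset ℕ), p) : ℝ) = m := by
    rw [prod_empty, M_one, hm]
    push_cast
    rfl
  have hds := devsum F A1 A2 ∅ P1 (by simp) h1 (by simp) 0 D D w hw (by
    intro T1 hT1 _ T _ hT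
    rw [subset_empty] at hT1
    rw [hT1, prod_empty, one_mul]
    exact hT)
  rw [empty_union] at hds
  have e0 : ∑ T ∈ P1.powerset.filter (fun T => ∏ p ∈ T, p ≤ D),
      ∑ T1 ∈ (∅ : Finset ℕ).powerset.filter (fun T1 => T1.card ≤ 0), dv F A1 A2 T1 T =
      ∑ T ∈ P1.powerset.filter (fun T => ∏ p ∈ T, p ≤ D), dv F A1 A2 ∅ T := by
    apply sum_congr rfl
    intro T _
    rw [powerset_empty, filter_singleton, if_pos (by simp), sum_singleton]
  rw [e0] at hds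
  have hdv : ∀ T : Finset ℕ, dv F A1 A2 ∅ T = |(M F A1 A2 (∏ p ∈ T, p) : ℝ) - (∏ p ∈ T, xx F p) * m| := by
    intro T
    unfold dv
    rw [hM1, prod_empty, one_mul]
  set a := ∑ T1 ∈ P1.powerset,
      (if T1.card < k then (-1) ^ T1.card * (M F A1 A2 (∏ p ∈ T1, p) : ℝ) else 0) with ha
  set d := ∑ T1 ∈ P1.powerset, (if T1.card = k then (M F A1 A2 (∏ p ∈ T1, p) : ℝ) else 0) with hd'
  have h3 : |a - m * SB P1 k (xx F)| + |d - m * EB P1 k (xx F)| ≤
      (∏ p ∈ P1, (1 + xx F p)) * ET F A1 A2 P1 w D := by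
    refine le_trans ?_ hds
    have e1 : |a - m * SB P1 k (xx F)| ≤
        ∑ T1 ∈ P1.powerset, (if T1.card < k then dv F A1 A2 ∅ T1 else 0) := by
      rw [ha]
      unfold SB
      rw [mul_sum, ← sum_sub_distrib]
      refine (abs_sum_le_sum_abs _ _).trans (sum_le_sum ?_)
      intro T1 _
      by_cases h : T1.card < k
      · rw [if_pos h, if_pos h, if_pos h, hdv]
        have : (-1 : ℝ) ^ T1.card * (M F A1 A2 (∏ p ∈ T1, p) : ℝ) -
            m * ((-1) ^ T1.card * ∏ p ∈ T1, xx F p) =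
            (-1) ^ T1.card * ((M F A1 A2 (∏ p ∈ T1, p) : ℝ) - (∏ p ∈ T1, xx F p) * m) := by ring
        rw [this, abs_mul, abs_pow, abs_neg, abs_one, one_pow, one_mul]
      · rw [if_neg h, if_neg h, if_neg h]
        simp
    have e2 : |d - m * EB P1 k (xx F)| ≤
        ∑ T1 ∈ P1.powerset, (if T1.card = k then dv F A1 A2 ∅ T1 else 0) := by
      rw [hd']
      unfold EB
      rw [mul_sum, ← sum_sub_distrib]
      refine (abs_sum_le_sum_abs _ _).trans (sum_le_sum ?_)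
      intro T1 _
      by_cases h : T1.card = k
      · rw [if_pos h, if_pos h, if_pos h, hdv]
        apply le_of_eq
        congr 1
        ring
      · rw [if_neg h, if_neg h, if_neg h]
        simp
    refine (add_le_add e1 e2).trans ?_
    rw [← sum_add_distrib, sum_filter]
    apply sum_le_sum
    intro T1 hT1
    rw [mem_powerset] at hT1
    have h5 := dv_nonneg F A1 A2 ∅ T1
    by_cases h : T1.card < k
    · rw [if_pos h, if_neg (by omega), if_pos (hD T1 hT1 h.le), add_zero]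
    · by_cases h' : T1.card = k
      · rw [if_neg h, if_pos h', if_pos (hD T1 hT1 h'.le), zero_add]
      · rw [if_neg h, if_neg h', zero_add]
        split_ifs
        · exact h5
        · exact le_rfl
  have e3 : (MP F A1 A2 P1 1 : ℝ) - m * ∏ p ∈ P1, (1 - xx F p) =
      ((MP F A1 A2 P1 1 : ℝ) - a) + (a - m * SB P1 k (xx F)) -
        m * (∏ p ∈ P1, (1 - xx F p) - SB P1 k (xx F)) := by ring
  have e5 : |m * (∏ p ∈ P1, (1 - xx F p) - SB P1 k (xx F))| ≤ m * EB P1 k (xx F) := by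
    rw [abs_mul, abs_of_nonneg hm0]
    exact mul_le_mul_of_nonneg_left hb hm0
  have e4 : d ≤ |d - m * EB P1 k (xx F)| + m * EB P1 k (xx F) := by
    linarith [le_abs_self (d - m * EB P1 k (xx F))]
  rw [e3]
  have e6 := abs_sub (((MP F A1 A2 P1 1 : ℝ) - a) + (a - m * SB P1 k (xx F)))
    (m * (∏ p ∈ P1, (1 - xx F p) - SB P1 k (xx F)))
  have e7 := abs_add_le ((MP F A1 A2 P1 1 : ℝ) - a) (a - m * SB P1 k (xx F))
  linarith

end Pool.Agent.H540.DS
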