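import Pool.Graph.R_seed8.Y882.SI.Var

/-! Pairs of elements of two sets whose difference is a root modulo `q`: Fourier expansion. -/

set_option autoImplicit false

namespace Pool.Agent.H540.DS

open Finset Polynomial
open H343 (ex)
open Pool.Agent.Y882.PX
open Pool.Agent.Y882.SI (RT RT_card RS dvd_eval_congr)

/-- the exponential sum over a set of integers -/
noncomputable def S (A : Finset ℤ) (f b : ℕ) : ℂ := ∑ a ∈ A, ex ((b : ℝ) * (a : ℤ) / f)

/-- the energy of a set of integers at the reduced fractions with denominator `f` -/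
noncomputable def En (A : Finset ℤ) (f : ℕ) : ℝ :=
  ∑ b ∈ (range f).filter (fun b => b.Coprime f), ‖S A f b‖ ^ 2

/-- the common energy of two sets of integers at the reduced fractions with denominator `f` -/
noncomputable def EE2 (A1 A2 : Finset ℤ) (f : ℕ) : ℝ :=
  ∑ b ∈ (range f).filter (fun b => b.Coprime f), ‖S A1 f b‖ * ‖S A2 f b‖

/-- number of pairs with `q ∣ F(a - b)` -/
noncomputable def M (F : ℤ[X]) (A1 A2 : Finset ℤ) (q : ℕ) : ℕ :=
  ((A1 ×ˢ A2).filter (fun z => (q : ℤ) ∣ F.eval (z.1 - z.2))).card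

theorem En_nonneg (A : Finset ℤ) (f : ℕ) : 0 ≤ En A f := by
  unfold En
  exact sum_nonneg fun _ _ => by positivity

theorem EE2_nonneg (A1 A2 : Finset ℤ) (f : ℕ) : 0 ≤ EE2 A1 A2 f := by
  unfold EE2
  exact sum_nonneg fun _ _ => by positivity

/-- the root nearest to an integer -/
theorem one_root (F : ℤ[X]) (q : ℕ) (hq : 0 < q) (n : ℤ) :
    ∑ m ∈ RT F q, (if (q : ℤ) ∣ n - m then (1 : ℂ) else 0) =
      if (q : ℤ) ∣ F.eval n then 1 else 0 := by
  have h0 : (q : ℤ) ∣ n - ((n % q).toNat : ℤ) := by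
    rw [Int.toNat_of_nonneg (Int.emod_nonneg _ (by omega))]
    exact Int.dvd_self_sub_emod
  have hlt : (n % q).toNat < q := by
    have h1 := Int.emod_lt_of_pos n (show (0 : ℤ) < q by exact_mod_cast hq)
    have h2 := Int.emod_nonneg n (show (q : ℤ) ≠ 0 by omega)
    omega
  have h1 := Pool.Agent.Y882.SI.one_root F q hq (n % q).toNat
  have h2 : (if (q : ℤ) ∣ F.eval ((((n % q).toNat : ℕ)) : ℤ) then (1 : ℂ) else 0) =
      if (q : ℤ) ∣ F.eval n then 1 else 0 := by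
    have := dvd_eval_congr F q n ((n % q).toNat : ℤ) h0
    simp only [this]
  rw [← h2, ← h1]
  apply sum_congr rfl
  intro m _
  have h3 : (q : ℤ) ∣ n - m ↔ (q : ℤ) ∣ (((n % q).toNat : ℕ) : ℤ) - m := by
    have e : n - (m : ℤ) = (n - ((n % q).toNat : ℤ)) + ((((n % q).toNat : ℕ) : ℤ) - m) := by ring
    rw [e]
    exact (Int.dvd_add_right h0)
  simp only [h3]

theorem M_four (F : ℤ[X]) (A1 A2 : Finset ℤ) (q : ℕ) (hq : 0 < q) :
    (M F A1 A2 q : ℂ) = 1 / q * ∑ b ∈ range q, RS F q q b * (S A1 q b * (starRingEnd ℂ) (S A2 q b)) := by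
  have hqC : (q : ℂ) ≠ 0 := by exact_mod_cast hq.ne'
  have h1 : ∀ b ∈ range q, RS F q q b * (S A1 q b * (starRingEnd ℂ) (S A2 q b)) =
      ∑ z ∈ A1 ×ˢ A2, ∑ m ∈ RT F q, ex ((b : ℝ) * ((z.1 - z.2) - m : ℤ) / q) := by
    intro b _
    unfold RS S
    rw [map_sum, sum_mul_sum, mul_sum, sum_product]
    apply sum_congr rfl
    intro x _
    rw [mul_sum]
    apply sum_congr rfl
    intro y _
    rw [sum_mul]
    apply sum_congr rfl
    intro m _
    rw [ex_conj, ← H343.Gauss.ex_add, ← H343.Gauss.ex_add]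
    congr 1
    push_cast
    ring
  rw [sum_congr rfl h1, sum_comm]
  have h2 : ∀ z ∈ A1 ×ˢ A2, ∑ b ∈ range q, ∑ m ∈ RT F q,
      ex ((b : ℝ) * ((z.1 - z.2) - m : ℤ) / q) =
      q * (if (q : ℤ) ∣ F.eval (z.1 - z.2) then (1 : ℂ) else 0) := by
    intro z _
    rw [sum_comm, ← one_root F q hq (z.1 - z.2), mul_sum]
    apply sum_congr rfl
    intro m _
    rw [H336V.RamanAux.geom q hq]
    split_ifs <;> simp
  rw [sum_congr rfl h2, ← mul_sum, ← mul_assoc, one_div_mul_cancel hqC, one_mul]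
  unfold M
  rw [card_filter]
  push_cast
  rfl

/-- roots modulo a product -/
theorem RT_split (F : ℤ[X]) (q1 q2 : ℕ) (h1 : 0 < q1) (h2 : 0 < q2) (hc : q1.Coprime q2) (h : ℕ → ℂ) :
    ∑ m ∈ RT F (q1 * q2), h (m % q1) = (ro F 0 q2 : ℂ) * ∑ m ∈ RT F q1, h m := by
  classical
  have hmem : ∀ (q : ℕ) (m : ℕ), m ∈ RT F q ↔ m < q ∧ (q : ℤ) ∣ F.eval (m : ℤ) := by
    intro q m
    unfold RT
    rw [mem_filter, mem_range]
  have hmod : ∀ (q : ℕ) (m : ℕ), (q : ℤ) ∣ F.eval (m : ℤ) ↔ (q : ℤ) ∣ F.eval ((m % q : ℕ) : ℤ) := by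
    intro q m
    apply dvd_eval_congr
    push_cast
    exact Int.dvd_self_sub_emod
  have hlt : ∀ a b : ℕ, (Nat.chineseRemainder hc a b : ℕ) < q1 * q2 := fun a b =>
    Nat.chineseRemainder_lt_mul hc a b h1.ne' h2.ne'
  have e1 : (ro F 0 q2 : ℂ) * ∑ m ∈ RT F q1, h m =
      ∑ z ∈ RT F q2 ×ˢ RT F q1, h z.2 := by
    rw [sum_product]
    simp only [sum_const]
    rw [RT_card, nsmul_eq_mul]
  rw [e1]
  apply sum_bij' (i := fun m _ => (m % q2, m % q1))
    (j := fun z _ => (Nat.chineseRemainder hc z.2 z.1 : ℕ))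
  · intro m hm
    rw [hmem] at hm
    rw [mem_product, hmem, hmem]
    refine ⟨⟨Nat.mod_lt _ h2, (hmod _ _).1 (dvd_trans ?_ hm.2)⟩,
      ⟨Nat.mod_lt _ h1, (hmod _ _).1 (dvd_trans ?_ hm.2)⟩⟩
    · push_cast
      exact Dvd.intro_left _ rfl
    · push_cast
      exact Dvd.intro _ rfl
  · rintro ⟨m2, m1⟩ hz
    rw [mem_product, hmem, hmem] at hz
    obtain ⟨⟨a1, a2⟩, a3, a4⟩ := hz
    simp only at a1 a2 a3 a4 ⊢
    have b := (Nat.chineseRemainder hc m1 m2).2
    set x : ℕ := (Nat.chineseRemainder hc m1 m2 : ℕ) with hx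
    rw [hmem]
    refine ⟨hlt _ _, ?_⟩
    have c1 : (q1 : ℤ) ∣ F.eval (x : ℤ) := by
      rw [hmod, show x % q1 = m1 % q1 from b.1, ← hmod]
      exact a4
    have c2 : (q2 : ℤ) ∣ F.eval (x : ℤ) := by
      rw [hmod, show x % q2 = m2 % q2 from b.2, ← hmod]
      exact a2
    push_cast
    exact (Nat.isCoprime_iff_coprime.2 hc).mul_dvd c1 c2
  · intro m hm
    rw [hmem] at hm
    simp only
    have b := (Nat.chineseRemainder hc (m % q1) (m % q2)).2
    have c : (Nat.chineseRemainder hc (m % q1) (m % q2) : ℕ) ≡ m [MOD q1 * q2] := by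
      rw [← Nat.modEq_and_modEq_iff_modEq_mul hc]
      exact ⟨b.1.trans (Nat.mod_modEq _ _), b.2.trans (Nat.mod_modEq _ _)⟩
    exact Nat.ModEq.eq_of_lt_of_lt c (hlt _ _) hm.1
  · rintro ⟨m2, m1⟩ hz
    rw [mem_product, hmem, hmem] at hz
    obtain ⟨⟨a1, a2⟩, a3, a4⟩ := hz
    simp only at a1 a2 a3 a4 ⊢
    have b := (Nat.chineseRemainder hc m1 m2).2
    rw [Prod.mk.injEq]
    constructor
    · rw [show (Nat.chineseRemainder hc m1 m2 : ℕ) % q2 = m2 % q2 from b.2, Nat.mod_eq_of_lt a1]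
    · rw [show (Nat.chineseRemainder hc m1 m2 : ℕ) % q1 = m1 % q1 from b.1, Nat.mod_eq_of_lt a3]
  · intro m _
    rfl

theorem S_frac (A : Finset ℤ) (f c : ℕ) (hf : 0 < f) (hc : 0 < c) (b : ℕ) :
    S A (f * c) (b * c) = S A f b := by
  unfold S
  apply sum_congr rfl
  intro a _
  exact ex_frac f c hf hc b a

/-- the coefficients at the fractions with denominator dividing `q1` -/
theorem RS_split (F : ℤ[X]) (q1 q2 : ℕ) (h1 : 0 < q1) (h2 : 0 < q2) (hc : q1.Coprime q2) (b : ℕ) :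
    RS F (q1 * q2) (q1 * q2) (b * q2) = (ro F 0 q2 : ℂ) * RS F q1 q1 b := by
  have h := RT_split F q1 q2 h1 h2 hc (fun m => ex ((b : ℝ) * ((-(m : ℤ) : ℤ) : ℝ) / q1))
  unfold RS
  rw [← h]
  apply sum_congr rfl
  intro m _
  rw [ex_frac q1 q2 h1 h2 b]
  have h3 := ex_congr q1 h1 ((b : ℤ) * (-(m : ℤ))) ((b : ℤ) * (-((m % q1 : ℕ) : ℤ))) (by
    rw [← mul_sub]
    apply Dvd.dvd.mul_left
    have e : -(m : ℤ) - -((m % q1 : ℕ) : ℤ) = -((m : ℤ) - ((m % q1 : ℕ) : ℤ)) := by ring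
    rw [e, dvd_neg]
    push_cast
    exact Int.dvd_self_sub_emod)
  push_cast at h3 ⊢
  exact h3

theorem RS_norm (F : ℤ[X]) (q f b : ℕ) : ‖RS F q f b‖ ≤ ro F 0 q := by
  unfold RS
  refine (norm_sum_le _ _).trans ?_
  simp only [H343.Gauss.norm_ex, sum_const, nsmul_eq_mul, mul_one]
  rw [RT_card]

/-- multiples of `q2` in `range (q1 * q2)` -/
theorem sum_mult (q1 q2 : ℕ) (h2 : 0 < q2) (g : ℕ → ℂ) :
    ∑ b ∈ (range (q1 * q2)).filter (fun b => q2 ∣ b), g b = ∑ b ∈ range q1, g (b * q2) := by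
  symm
  apply sum_nbij' (i := fun b => b * q2) (j := fun b => b / q2)
  · intro b hb
    rw [mem_range] at hb
    rw [mem_filter, mem_range]
    exact ⟨Nat.mul_lt_mul_of_pos_right hb h2, Dvd.intro_left _ rfl⟩
  · intro b hb
    rw [mem_filter, mem_range] at hb
    rw [mem_range]
    exact Nat.div_lt_of_lt_mul (by rw [mul_comm]; exact hb.1)
  · intro b _
    exact Nat.mul_div_cancel _ h2
  · intro b hb
    rw [mem_filter] at hb
    exact Nat.div_mul_cancel hb.2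
  · intro b _
    rfl

/-- **The deviation.** -/
theorem dev (F : ℤ[X]) (A1 A2 : Finset ℤ) (q1 q2 : ℕ) (h1 : 0 < q1) (h2 : 0 < q2)
    (hc : q1.Coprime q2) :
    |(M F A1 A2 (q1 * q2) : ℝ) - (ro F 0 q2 : ℝ) / q2 * M F A1 A2 q1| ≤
      (ro F 0 (q1 * q2) : ℝ) / (q1 * q2 : ℕ) *
        ∑ f ∈ (q1 * q2).divisors.filter (fun f => ¬ f ∣ q1), EE2 A1 A2 f := by
  classical
  have hq : 0 < q1 * q2 := Nat.mul_pos h1 h2
  have hq1C : (q1 : ℂ) ≠ 0 := by exact_mod_cast h1.ne'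
  have hq2C : (q2 : ℂ) ≠ 0 := by exact_mod_cast h2.ne'
  set g : ℕ → ℂ := fun b => RS F (q1 * q2) (q1 * q2) b *
    (S A1 (q1 * q2) b * (starRingEnd ℂ) (S A2 (q1 * q2) b)) with hg
  have e1 : (M F A1 A2 (q1 * q2) : ℂ) - (ro F 0 q2 : ℂ) / q2 * M F A1 A2 q1 =
      1 / (q1 * q2 : ℕ) * ∑ b ∈ (range (q1 * q2)).filter (fun b => ¬ q2 ∣ b), g b := by
    have m1 : (M F A1 A2 (q1 * q2) : ℂ) = 1 / (q1 * q2 : ℕ) * ∑ b ∈ range (q1 * q2), g b :=
      M_four F A1 A2 _ hq
    rw [m1, M_four F A1 A2 q1 h1,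
      ← sum_filter_add_sum_filter_not (range (q1 * q2)) (fun b => q2 ∣ b), sum_mult q1 q2 h2]
    have e2 : ∑ b ∈ range q1, g (b * q2) = (ro F 0 q2 : ℂ) *
        ∑ b ∈ range q1, RS F q1 q1 b * (S A1 q1 b * (starRingEnd ℂ) (S A2 q1 b)) := by
      rw [mul_sum]
      apply sum_congr rfl
      intro b _
      rw [hg]
      simp only
      rw [RS_split F q1 q2 h1 h2 hc, S_frac A1 q1 q2 h1 h2, S_frac A2 q1 q2 h1 h2]
      ring
    rw [e2]
    generalize ∑ b ∈ (range (q1 * q2)).filter (fun b => ¬ q2 ∣ b), g b = Z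
    push_cast
    field_simp
    ring
  have e2 : |(M F A1 A2 (q1 * q2) : ℝ) - (ro F 0 q2 : ℝ) / q2 * M F A1 A2 q1| =
      ‖1 / ((q1 * q2 : ℕ) : ℂ) * ∑ b ∈ (range (q1 * q2)).filter (fun b => ¬ q2 ∣ b), g b‖ := by
    rw [← e1, ← Real.norm_eq_abs, ← Complex.norm_real]
    congr 1
    push_cast
    rfl
  rw [e2, norm_mul]
  have e3 : ‖(1 : ℂ) / ((q1 * q2 : ℕ) : ℂ)‖ = 1 / ((q1 * q2 : ℕ) : ℝ) := by
    rw [norm_div, norm_one, Complex.norm_natCast]
  rw [e3, div_mul_eq_mul_div, one_mul, div_mul_eq_mul_div]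
  apply div_le_div_of_nonneg_right _ (Nat.cast_nonneg _)
  have e4 : ∑ b ∈ (range (q1 * q2)).filter (fun b => ¬ q2 ∣ b),
      (‖S A1 (q1 * q2) b‖ * ‖S A2 (q1 * q2) b‖) =
      ∑ f ∈ (q1 * q2).divisors.filter (fun f => ¬ f ∣ q1), EE2 A1 A2 f := by
    have k1 := sum_reduced (q1 * q2) hq (fun b => if ¬ q2 ∣ b then
      ((‖S A1 (q1 * q2) b‖ * ‖S A2 (q1 * q2) b‖ : ℝ) : ℂ) else 0)
    have k2 : ((∑ b ∈ (range (q1 * q2)).filter (fun b => ¬ q2 ∣ b),
      (‖S A1 (q1 * q2) b‖ * ‖S A2 (q1 * q2) b‖) : ℝ) : ℂ) =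
      ((∑ f ∈ (q1 * q2).divisors.filter (fun f => ¬ f ∣ q1), EE2 A1 A2 f : ℝ) : ℂ) := by
      rw [Complex.ofReal_sum, sum_filter, k1, Complex.ofReal_sum, sum_filter]
      apply sum_congr rfl
      intro f hf
      rw [Nat.mem_divisors] at hf
      obtain ⟨⟨c, hc'⟩, _⟩ := hf
      have hf0 : 0 < f := by
        rcases Nat.eq_zero_or_pos f with h | h
        · subst h; omega
        · exact h
      have hc0 : 0 < c := by
        rcases Nat.eq_zero_or_pos c with h | h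
        · subst h; omega
        · exact h
      have hdiv : q1 * q2 / f = c := by rw [hc', Nat.mul_div_cancel_left c hf0]
      have k3 : ∀ b ∈ (range f).filter (fun b => b.Coprime f),
          (q2 ∣ b * (q1 * q2 / f) ↔ f ∣ q1) := by
        intro b hb
        rw [mem_filter] at hb
        rw [hdiv]
        constructor
        · intro h
          have h3 : f * q2 ∣ b * (q1 * q2) := by
            rw [hc']
            have : b * (f * c) = f * (b * c) := by ring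
            rw [this]
            exact mul_dvd_mul_left f h
          have h4 : f ∣ b * q1 := by
            have : b * (q1 * q2) = b * q1 * q2 := by ring
            rw [this] at h3
            exact Nat.dvd_of_mul_dvd_mul_right h2 h3
          exact (Nat.Coprime.symm hb.2).dvd_of_dvd_mul_left h4
        · rintro ⟨d, hd⟩
          have h3 : d * q2 = c := by
            have : f * (d * q2) = f * c := by rw [← hc', hd]; ring
            exact Nat.eq_of_mul_eq_mul_left hf0 this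
          rw [← h3]
          exact Dvd.intro_left (b * d) (by ring)
      by_cases h : f ∣ q1
      · rw [if_neg (not_not.2 h)]
        apply sum_eq_zero
        intro b hb
        rw [if_neg (not_not.2 ((k3 b hb).2 h))]
      · rw [if_pos h]
        unfold EE2
        rw [Complex.ofReal_sum]
        apply sum_congr rfl
        intro b hb
        rw [if_pos (fun h' => h ((k3 b hb).1 h')), hdiv, hc', S_frac A1 f c hf0 hc0 b,
          S_frac A2 f c hf0 hc0 b]
    exact_mod_cast k2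
  rw [← e4, mul_sum]
  refine (norm_sum_le _ _).trans (sum_le_sum ?_)
  intro b _
  rw [hg]
  simp only
  rw [norm_mul, norm_mul, RCLike.norm_conj]
  have n1 := RS_norm F (q1 * q2) (q1 * q2) b
  exact mul_le_mul_of_nonneg_right n1 (by positivity)

end Pool.Agent.H540.DS
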