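import Pool.Agent.H540.DS.Mert

/-! The exact sieve formula for a finite set of primes. -/

set_option autoImplicit false

namespace Pool.Agent.H540.DS

open Finset Polynomial
open H343 (ex)
open Pool.Agent.Y882.PX
open Pool.Agent.Y882.SI (RT RT_card RS dvd_eval_congr)

/-- the product of the primes of a set -/
def pd (U : Finset ℕ) : ℕ := ∏ p ∈ U, p

/-- the contribution of the reduced fractions with denominator `∏ p` -/
noncomputable def GG (F : ℤ[X]) (A1 A2 : Finset ℤ) (U : Finset ℕ) : ℂ :=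
  1 / ((pd U : ℕ) : ℂ) * ∑ b ∈ (range (pd U)).filter (fun b => b.Coprime (pd U)),
    RS F (pd U) (pd U) b * (S A1 (pd U) b * (starRingEnd ℂ) (S A2 (pd U) b))

theorem GG_empty (F : ℤ[X]) (A1 A2 : Finset ℤ) : GG F A1 A2 ∅ = (A1.card : ℂ) * A2.card := by
  unfold GG pd
  have h1 : (range (∏ p ∈ (∅ : Finset ℕ), p)).filter (fun b => b.Coprime (∏ p ∈ (∅ : Finset ℕ), p)) = {0} := by
    rw [prod_empty]
    decide
  rw [h1, sum_singleton, prod_empty]
  have h2 : ∀ A : Finset ℤ, S A 1 0 = A.card := by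
    intro A
    unfold S
    have : ∀ a ∈ A, ex (((0 : ℕ) : ℝ) * (a : ℤ) / ((1 : ℕ) : ℝ)) = 1 := by
      intro a _
      simp [ex]
    rw [sum_congr rfl this]
    simp
  have h3 : RS F 1 1 0 = 1 := by
    unfold RS RT
    have h4 : (range 1).filter (fun n : ℕ => ((1 : ℕ) : ℤ) ∣ F.eval (n : ℤ)) = {0} := by
      ext n
      simp
    rw [h4, sum_singleton]
    simp [ex]
  rw [h2, h2, h3]
  simp

theorem GG_norm (F : ℤ[X]) (A1 A2 : Finset ℤ) (U : Finset ℕ) (hU : ∀ p ∈ U, p.Prime) :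
    ‖GG F A1 A2 U‖ ≤ (∏ p ∈ U, xx F p) * EE2 A1 A2 (∏ p ∈ U, p) := by
  have hx := xx_prod F U hU
  unfold GG
  rw [norm_mul, norm_div, norm_one, Complex.norm_natCast, ← hx]
  rw [div_mul_eq_mul_div, one_mul, div_mul_eq_mul_div]
  apply div_le_div_of_nonneg_right _ (Nat.cast_nonneg _)
  unfold EE2
  rw [mul_sum]
  refine (norm_sum_le _ _).trans (sum_le_sum ?_)
  intro b _
  rw [norm_mul, norm_mul, RCLike.norm_conj]
  exact mul_le_mul_of_nonneg_right (RS_norm F _ _ b) (by positivity)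

theorem pd_pos (U : Finset ℕ) (hU : ∀ p ∈ U, p.Prime) : 0 < pd U := prod_pos' U hU

theorem M_GG (F : ℤ[X]) (A1 A2 : Finset ℤ) (T : Finset ℕ) (hT : ∀ p ∈ T, p.Prime) :
    (M F A1 A2 (∏ p ∈ T, p) : ℂ) =
      ∑ U ∈ T.powerset, ((∏ p ∈ T \ U, xx F p : ℝ) : ℂ) * GG F A1 A2 U := by
  have hq : 0 < ∏ p ∈ T, p := prod_pos' T hT
  rw [M_four F A1 A2 _ hq, sum_reduced _ hq,
    sum_div_prod T hT (fun f => ∑ b ∈ (range f).filter (fun b => b.Coprime f),
      (RS F (∏ p ∈ T, p) (∏ p ∈ T, p) (b * ((∏ p ∈ T, p) / f)) *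
        (S A1 (∏ p ∈ T, p) (b * ((∏ p ∈ T, p) / f)) *
        (starRingEnd ℂ) (S A2 (∏ p ∈ T, p) (b * ((∏ p ∈ T, p) / f)))))), mul_sum]
  apply sum_congr rfl
  intro U hU
  rw [mem_powerset] at hU
  have hUp : ∀ p ∈ U, p.Prime := fun p hp => hT p (hU hp)
  have hVp : ∀ p ∈ T \ U, p.Prime := fun p hp => hT p (mem_sdiff.1 hp).1
  have e0 : (∏ p ∈ U, p) * (∏ p ∈ T \ U, p) = ∏ p ∈ T, p := by
    rw [mul_comm, prod_sdiff hU]
  have hf0 : 0 < ∏ p ∈ U, p := prod_pos' U hUp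
  have hc0 : 0 < ∏ p ∈ T \ U, p := prod_pos' _ hVp
  have hcop : (∏ p ∈ U, p).Coprime (∏ p ∈ T \ U, p) := cop_prod U (T \ U) hUp hVp disjoint_sdiff
  have e1 : (∏ p ∈ T, p) / (∏ p ∈ U, p) = ∏ p ∈ T \ U, p := by
    rw [← e0, Nat.mul_div_cancel_left _ hf0]
  rw [e1, ← xx_prod F _ hVp]
  have hfC : (((∏ p ∈ U, p : ℕ)) : ℂ) ≠ 0 := by exact_mod_cast hf0.ne'
  have hcC : (((∏ p ∈ T \ U, p : ℕ)) : ℂ) ≠ 0 := by exact_mod_cast hc0.ne'
  unfold GG pd
  have e2 : ∑ b ∈ (range (∏ p ∈ U, p)).filter (fun b => b.Coprime (∏ p ∈ U, p)),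
      (RS F (∏ p ∈ T, p) (∏ p ∈ T, p) (b * (∏ p ∈ T \ U, p)) *
        (S A1 (∏ p ∈ T, p) (b * (∏ p ∈ T \ U, p)) *
        (starRingEnd ℂ) (S A2 (∏ p ∈ T, p) (b * (∏ p ∈ T \ U, p))))) =
      (ro F 0 (∏ p ∈ T \ U, p) : ℂ) *
      ∑ b ∈ (range (∏ p ∈ U, p)).filter (fun b => b.Coprime (∏ p ∈ U, p)),
        RS F (∏ p ∈ U, p) (∏ p ∈ U, p) b * (S A1 (∏ p ∈ U, p) b * (starRingEnd ℂ) (S A2 (∏ p ∈ U, p) b)) := by
    rw [mul_sum]
    apply sum_congr rfl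
    intro b _
    rw [← e0, RS_split F _ _ hf0 hc0 hcop, S_frac A1 _ _ hf0 hc0, S_frac A2 _ _ hf0 hc0]
    ring
  rw [e2, ← e0]
  generalize ∑ b ∈ (range (∏ p ∈ U, p)).filter (fun b => b.Coprime (∏ p ∈ U, p)),
        RS F (∏ p ∈ U, p) (∏ p ∈ U, p) b * (S A1 (∏ p ∈ U, p) b * (starRingEnd ℂ) (S A2 (∏ p ∈ U, p) b)) = Z
  rw [Nat.cast_mul]
  rw [Complex.ofReal_div, Complex.ofReal_natCast, Complex.ofReal_natCast]
  field_simp

/-- sums over the sets between two sets -/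
theorem sum_above (P U : Finset ℕ) (hU : U ⊆ P) (x : ℕ → ℝ) :
    ∑ T ∈ P.powerset.filter (fun T => U ⊆ T), (-1 : ℝ) ^ T.card * ∏ p ∈ T \ U, x p =
      (-1 : ℝ) ^ U.card * ∏ p ∈ P \ U, (1 - x p) := by
  classical
  have h1 : ∏ p ∈ P \ U, (1 - x p) = ∑ V ∈ (P \ U).powerset, (-1 : ℝ) ^ V.card * ∏ p ∈ V, x p := by
    have h2 : ∀ p ∈ P \ U, 1 - x p = -(x p) + 1 := fun p _ => by ring
    rw [prod_congr rfl h2, prod_add]
    apply sum_congr rfl
    intro V _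
    rw [prod_const_one, mul_one, prod_neg]
  rw [h1, mul_sum]
  apply sum_nbij' (i := fun T => T \ U) (j := fun V => V ∪ U)
  · intro T hT
    rw [mem_filter, mem_powerset] at hT
    rw [mem_powerset]
    exact sdiff_subset_sdiff hT.1 (subset_refl _)
  · intro V hV
    rw [mem_powerset] at hV
    rw [mem_filter, mem_powerset]
    exact ⟨union_subset (hV.trans sdiff_subset) hU, subset_union_right⟩
  · intro T hT
    rw [mem_filter] at hT
    exact sdiff_union_of_subset hT.2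
  · intro V hV
    rw [mem_powerset] at hV
    rw [union_sdiff_right]
    apply Finset.sdiff_eq_self_of_disjoint
    rw [disjoint_left]
    intro p hp hpU
    exact (mem_sdiff.1 (hV hp)).2 hpU
  · intro T hT
    rw [mem_filter] at hT
    rw [← mul_assoc, ← pow_add]
    congr 2
    rw [card_sdiff_of_subset hT.2]
    have := card_le_card hT.2
    omega

/-- **The exact sieve formula.** -/
theorem sieve_full (F : ℤ[X]) (A1 A2 : Finset ℤ) (P : Finset ℕ) (hP : ∀ p ∈ P, p.Prime) :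
    (MP F A1 A2 P 1 : ℂ) = ∑ U ∈ P.powerset,
      (((-1 : ℝ) ^ U.card * ∏ p ∈ P \ U, (1 - xx F p) : ℝ) : ℂ) * GG F A1 A2 U := by
  classical
  have h1 := incl_excl F A1 A2 P hP 1 (fun T _ => Nat.coprime_one_right _) (P.card + 1)
  have h2 : ∑ T ∈ P.powerset, (if T.card = P.card + 1 then (M F A1 A2 ((∏ p ∈ T, p) * 1) : ℝ) else 0) = 0 := by
    apply sum_eq_zero
    intro T hT
    rw [mem_powerset] at hT
    have := card_le_card hT
    rw [if_neg (by omega)]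
  have h3 : ∑ T ∈ P.powerset, (if T.card < P.card + 1 then (-1 : ℝ) ^ T.card *
      (M F A1 A2 ((∏ p ∈ T, p) * 1) : ℝ) else 0) =
      ∑ T ∈ P.powerset, (-1 : ℝ) ^ T.card * (M F A1 A2 (∏ p ∈ T, p) : ℝ) := by
    apply sum_congr rfl
    intro T hT
    rw [mem_powerset] at hT
    have := card_le_card hT
    rw [if_pos (by omega), mul_one]
  rw [h2, h3] at h1
  have h4 : (MP F A1 A2 P 1 : ℝ) = ∑ T ∈ P.powerset, (-1 : ℝ) ^ T.card * (M F A1 A2 (∏ p ∈ T, p) : ℝ) := by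
    have := abs_nonneg ((MP F A1 A2 P 1 : ℝ) - ∑ T ∈ P.powerset, (-1 : ℝ) ^ T.card * (M F A1 A2 (∏ p ∈ T, p) : ℝ))
    have h5 := abs_eq_zero.1 (le_antisymm h1 this)
    linarith
  have h5 : (MP F A1 A2 P 1 : ℂ) = ∑ T ∈ P.powerset, (-1 : ℂ) ^ T.card * (M F A1 A2 (∏ p ∈ T, p) : ℂ) := by
    have : (((MP F A1 A2 P 1 : ℝ)) : ℂ) = ((∑ T ∈ P.powerset, (-1 : ℝ) ^ T.card * (M F A1 A2 (∏ p ∈ T, p) : ℝ) : ℝ) : ℂ) := by
      rw [h4]
    push_cast at this
    exact this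
  rw [h5]
  have h6 : ∀ T ∈ P.powerset, (-1 : ℂ) ^ T.card * (M F A1 A2 (∏ p ∈ T, p) : ℂ) =
      ∑ U ∈ P.powerset, if U ⊆ T then
        (((-1 : ℝ) ^ T.card * ∏ p ∈ T \ U, xx F p : ℝ) : ℂ) * GG F A1 A2 U else 0 := by
    intro T hT
    rw [mem_powerset] at hT
    rw [M_GG F A1 A2 T (fun p hp => hP p (hT hp)), mul_sum, ← sum_filter]
    have h7 : P.powerset.filter (fun U => U ⊆ T) = T.powerset := by
      ext U
      rw [mem_filter, mem_powerset, mem_powerset]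
      exact ⟨fun h => h.2, fun h => ⟨h.trans hT, h⟩⟩
    rw [h7]
    apply sum_congr rfl
    intro U _
    push_cast
    ring
  rw [sum_congr rfl h6, sum_comm]
  apply sum_congr rfl
  intro U hU
  rw [mem_powerset] at hU
  rw [← sum_filter, ← sum_mul, ← Complex.ofReal_sum, sum_above P U hU]

/-- **The lower bound of the finite sieve.** -/
theorem sieve_fin (F : ℤ[X]) (A1 A2 : Finset ℤ) (P : Finset ℕ) (hP : ∀ p ∈ P, p.Prime) (θ : ℝ)
    (hθ1 : θ ≤ 1) (hx1 : ∀ p ∈ P, xx F p < 1) (hx : ∀ p ∈ P, xx F p / (1 - xx F p) ≤ θ) :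
    (∏ p ∈ P, (1 - xx F p)) * (A1.card * A2.card) -
      (∏ p ∈ P, (1 - xx F p)) * (θ * ∑ U ∈ P.powerset.filter (fun U => U ≠ ∅), EE2 A1 A2 (∏ p ∈ U, p)) ≤
      (MP F A1 A2 P 1 : ℝ) := by
  classical
  have h1 := sieve_full F A1 A2 P hP
  rw [← sum_filter_add_sum_filter_not P.powerset (fun U => U ≠ ∅)] at h1
  have h2 : P.powerset.filter (fun U => ¬ U ≠ ∅) = {∅} := by
    ext U
    rw [mem_filter, mem_singleton, not_not]
    constructor
    · exact fun h => h.2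
    · rintro rfl
      exact ⟨empty_mem_powerset P, rfl⟩
  rw [h2, sum_singleton, GG_empty, card_empty, pow_zero, one_mul, sdiff_empty] at h1
  set V : ℝ := ∏ p ∈ P, (1 - xx F p) with hV
  have hpos : ∀ p ∈ P, 0 < 1 - xx F p := fun p hp => by linarith [hx1 p hp]
  have hV0 : 0 < V := prod_pos hpos
  set Z : ℂ := ∑ U ∈ P.powerset.filter (fun U => U ≠ ∅),
      (((-1 : ℝ) ^ U.card * ∏ p ∈ P \ U, (1 - xx F p) : ℝ) : ℂ) * GG F A1 A2 U with hZ
  have h3 : (MP F A1 A2 P 1 : ℂ) - ((V * ((A1.card : ℝ) * A2.card) : ℝ) : ℂ) = Z := by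
    rw [h1]
    push_cast
    ring
  have h4 : |(MP F A1 A2 P 1 : ℝ) - V * ((A1.card : ℝ) * A2.card)| = ‖Z‖ := by
    rw [← h3, ← Real.norm_eq_abs, ← Complex.norm_real]
    congr 1
    push_cast
    rfl
  have h5 : ‖Z‖ ≤ V * (θ * ∑ U ∈ P.powerset.filter (fun U => U ≠ ∅), EE2 A1 A2 (∏ p ∈ U, p)) := by
    rw [hZ]
    refine (norm_sum_le _ _).trans ?_
    rw [mul_sum, mul_sum]
    apply sum_le_sum
    intro U hU
    rw [mem_filter, mem_powerset] at hU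
    have hUp : ∀ p ∈ U, p.Prime := fun p hp => hP p (hU.1 hp)
    have hg := GG_norm F A1 A2 U hUp
    have hE := EE2_nonneg A1 A2 (∏ p ∈ U, p)
    rw [norm_mul, Complex.norm_real, Real.norm_eq_abs, abs_mul, abs_pow, abs_neg, abs_one, one_pow,
      one_mul]
    have hW0 : 0 ≤ ∏ p ∈ P \ U, (1 - xx F p) := prod_nonneg fun p hp =>
      (hpos p (mem_sdiff.1 hp).1).le
    rw [abs_of_nonneg hW0]
    have e1 : V = (∏ p ∈ P \ U, (1 - xx F p)) * ∏ p ∈ U, (1 - xx F p) := by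
      rw [hV, prod_sdiff hU.1]
    have e2 : ∏ p ∈ U, xx F p = (∏ p ∈ U, (1 - xx F p)) * ∏ p ∈ U, (xx F p / (1 - xx F p)) := by
      rw [← prod_mul_distrib]
      apply prod_congr rfl
      intro p hp
      have := hpos p (hU.1 hp)
      field_simp
    have e3 : ∏ p ∈ U, (xx F p / (1 - xx F p)) ≤ θ := by
      obtain ⟨a, ha⟩ := nonempty_iff_ne_empty.2 hU.2
      rw [← mul_prod_erase U _ ha]
      have h6 : ∏ p ∈ U.erase a, (xx F p / (1 - xx F p)) ≤ 1 := by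
        apply prod_le_one
        · intro p hp
          exact div_nonneg (xx_nonneg F p) (hpos p (hU.1 (mem_of_mem_erase hp))).le
        · intro p hp
          exact (hx p (hU.1 (mem_of_mem_erase hp))).trans hθ1
      have h7 : 0 ≤ xx F a / (1 - xx F a) := div_nonneg (xx_nonneg F a) (hpos a (hU.1 ha)).le
      calc xx F a / (1 - xx F a) * ∏ p ∈ U.erase a, (xx F p / (1 - xx F p)) ≤
          xx F a / (1 - xx F a) * 1 := mul_le_mul_of_nonneg_left h6 h7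
        _ ≤ θ := by
          rw [mul_one]
          exact hx a (hU.1 ha)
    have hW1 : 0 ≤ ∏ p ∈ U, (1 - xx F p) := prod_nonneg fun p hp => (hpos p (hU.1 hp)).le
    calc (∏ p ∈ P \ U, (1 - xx F p)) * ‖GG F A1 A2 U‖ ≤
        (∏ p ∈ P \ U, (1 - xx F p)) * ((∏ p ∈ U, xx F p) * EE2 A1 A2 (∏ p ∈ U, p)) :=
          mul_le_mul_of_nonneg_left hg hW0
      _ = V * ((∏ p ∈ U, (xx F p / (1 - xx F p))) * EE2 A1 A2 (∏ p ∈ U, p)) := by
          rw [e2, e1]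
          ring
      _ ≤ V * (θ * EE2 A1 A2 (∏ p ∈ U, p)) := by
          apply mul_le_mul_of_nonneg_left _ hV0.le
          exact mul_le_mul_of_nonneg_right e3 hE
  have h6 := (abs_le.1 (h4.le.trans h5)).1
  linarith

end Pool.Agent.H540.DS
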