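import Pool.Agent.H540.DS.Core

/-! Summation over the large divisors, and the sieve formula with decreasing weights. -/

set_option autoImplicit false

namespace Pool.Agent.H540.DS

open Finset Filter Polynomial
open H343 (ex)
open Pool.Agent.Y882.PX
open Pool.Agent.Y882.SI (RT RT_card RS dvd_eval_congr)

theorem geo_tail (q : ℝ) (hq0 : 0 < q) (hq1 : q ≤ 3 / 4) (n i0 : ℕ) :
    ∑ i ∈ (range n).filter (fun i => i0 ≤ i), q ^ i ≤ 4 * q ^ i0 := by
  have h1 : (range n).filter (fun i => i0 ≤ i) = Ico i0 n := by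
    ext i
    rw [mem_filter, mem_range, mem_Ico]
    tauto
  rw [h1, sum_Ico_eq_sum_range]
  have h2 : ∀ i ∈ range (n - i0), q ^ (i0 + i) = q ^ i0 * q ^ i := fun i _ => pow_add q i0 i
  rw [sum_congr rfl h2, ← mul_sum]
  have h3 : ∑ i ∈ range (n - i0), q ^ i ≤ 4 := by
    have h4 : (∑ j ∈ range (n - i0), q ^ j) * (1 - q) = 1 - q ^ (n - i0) := by
      have := geom_sum_mul q (n - i0)
      linarith
    have h5 : 0 ≤ q ^ (n - i0) := by positivity
    have h6 : 0 ≤ ∑ j ∈ range (n - i0), q ^ j := sum_nonneg fun j _ => by positivity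
    nlinarith
  have h4 : 0 ≤ q ^ i0 := by positivity
  nlinarith

/-- dyadic summation with a geometric series -/
theorem dyadic2 (g : ℕ → ℝ) (hg : ∀ f, 0 ≤ g f) (B s u z0 : ℝ) (hB : 0 ≤ B)
    (hs0 : 0 ≤ s) (hs1 : s ≤ 1) (hu0 : 0 ≤ u) (hus : 1 / 2 ≤ s - u) (hz : 1 ≤ z0) (D : ℕ)
    (h : ∀ t : ℕ, 1 ≤ t → t ≤ 2 * D → ∑ f ∈ Icc 1 t, g f ≤ B * (t : ℝ) ^ u) :
    ∑ f ∈ (Icc 1 D).filter (fun f : ℕ => z0 < (f : ℝ)), (f : ℝ) ^ (-s) * g f ≤
      8 * B * z0 ^ (-(s - u)) := by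
  have h1 : ∀ f ∈ (Icc 1 D).filter (fun f : ℕ => z0 < (f : ℝ)), (f : ℝ) ^ (-s) * g f ≤
      ∑ i ∈ range (Nat.clog 2 D + 1), if f ≤ 2 ^ i ∧ 2 ^ i < 2 * f ∧ z0 < (2 : ℝ) ^ i then
        2 ^ s * ((2 : ℝ) ^ i) ^ (-s) * g f else 0 := by
    intro f hf
    rw [mem_filter, mem_Icc] at hf
    obtain ⟨⟨f1, f2⟩, f3⟩ := hf
    have a1 : f ≤ 2 ^ Nat.clog 2 f := Nat.le_pow_clog (by norm_num) f
    have a2 : 2 ^ Nat.clog 2 f < 2 * f := by
      rcases Nat.lt_or_ge 1 f with hlt | hge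
      · have := Nat.pow_pred_clog_lt_self (show 1 < 2 by norm_num) hlt
        have hpos : 0 < Nat.clog 2 f := Nat.clog_pos (by norm_num) hlt
        have e : Nat.clog 2 f = (Nat.clog 2 f).pred + 1 := by
          rw [← Nat.succ_eq_add_one, Nat.succ_pred_eq_of_pos hpos]
        rw [e, pow_succ]
        omega
      · have : f = 1 := by omega
        subst this
        simp
    have a3 : Nat.clog 2 f ≤ Nat.clog 2 D := Nat.clog_mono_right 2 f2
    have a1r : (f : ℝ) ≤ (2 : ℝ) ^ Nat.clog 2 f := by exact_mod_cast a1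
    have a4 : z0 < (2 : ℝ) ^ Nat.clog 2 f := f3.trans_le a1r
    have hf0 : (0 : ℝ) < f := by exact_mod_cast f1
    refine le_trans ?_ (single_le_sum (f := fun i => if f ≤ 2 ^ i ∧ 2 ^ i < 2 * f ∧ z0 < (2 : ℝ) ^ i
      then 2 ^ s * ((2 : ℝ) ^ i) ^ (-s) * g f else 0) ?_ (mem_range.2 (Nat.lt_succ_of_le a3)))
    · rw [if_pos ⟨a1, a2, a4⟩]
      apply mul_le_mul_of_nonneg_right _ (hg f)
      have a5 : ((2 : ℝ) ^ Nat.clog 2 f) ≤ 2 * f := by exact_mod_cast a2.le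
      have a6 : (2 * (f : ℝ)) ^ (-s) ≤ ((2 : ℝ) ^ Nat.clog 2 f) ^ (-s) :=
        Real.rpow_le_rpow_of_nonpos (by positivity) a5 (by linarith)
      calc (f : ℝ) ^ (-s) = 2 ^ s * (2 * (f : ℝ)) ^ (-s) := by
            rw [Real.mul_rpow (by norm_num) hf0.le, ← mul_assoc, ← Real.rpow_add (by norm_num)]
            simp
        _ ≤ _ := mul_le_mul_of_nonneg_left a6 (by positivity)
    · intro i _
      split_ifs
      · have := hg f
        positivity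
      · exact le_rfl
  refine (sum_le_sum h1).trans ?_
  rw [sum_comm]
  obtain ⟨q, hq⟩ : ∃ q : ℝ, q = (2 : ℝ) ^ (-(s - u)) := ⟨_, rfl⟩
  have hq0 : 0 < q := by rw [hq]; positivity
  have hq1 : q ≤ 3 / 4 := by
    rw [hq]
    have e1 : (2 : ℝ) ^ (-(s - u)) ≤ (2 : ℝ) ^ (-(1 / 2) : ℝ) :=
      Real.rpow_le_rpow_of_exponent_le (by norm_num) (by linarith)
    have e2 : (2 : ℝ) ^ (-(1 / 2) : ℝ) ≤ 3 / 4 := by
      by_contra hcon
      push Not at hcon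
      have e3 : ((2 : ℝ) ^ (-(1 / 2) : ℝ)) ^ 2 = 1 / 2 := by
        rw [← Real.rpow_natCast, ← Real.rpow_mul (by norm_num)]
        have h5 : (-(1 / 2) : ℝ) * ((2 : ℕ) : ℝ) = ((-1 : ℤ) : ℝ) := by norm_num
        rw [h5, Real.rpow_intCast]
        norm_num
      have e4 : (3 / 4 : ℝ) ^ 2 < ((2 : ℝ) ^ (-(1 / 2) : ℝ)) ^ 2 :=
        pow_lt_pow_left₀ hcon (by norm_num) (by norm_num)
      rw [e3] at e4
      norm_num at e4
    linarith
  have hqi : ∀ i : ℕ, ((2 : ℝ) ^ i) ^ (-(s - u)) = q ^ i := by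
    intro i
    rw [hq, ← Real.rpow_natCast, ← Real.rpow_natCast, ← Real.rpow_mul (by norm_num),
      ← Real.rpow_mul (by norm_num), mul_comm]
  obtain ⟨i0, hi0, hi0m⟩ : ∃ i0 : ℕ, z0 < (2 : ℝ) ^ i0 ∧ ∀ i : ℕ, z0 < (2 : ℝ) ^ i → i0 ≤ i := by
    classical
    have hex : ∃ i : ℕ, z0 < (2 : ℝ) ^ i := pow_unbounded_of_one_lt z0 (by norm_num)
    exact ⟨Nat.find hex, Nat.find_spec hex, fun i hi => Nat.find_min' hex hi⟩
  have h2 : ∀ i ∈ range (Nat.clog 2 D + 1),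
      ∑ f ∈ (Icc 1 D).filter (fun f : ℕ => z0 < (f : ℝ)),
        (if f ≤ 2 ^ i ∧ 2 ^ i < 2 * f ∧ z0 < (2 : ℝ) ^ i then
        2 ^ s * ((2 : ℝ) ^ i) ^ (-s) * g f else 0) ≤ if i0 ≤ i then 2 * B * q ^ i else 0 := by
    intro i _
    by_cases hi : z0 < (2 : ℝ) ^ i ∧ 2 ^ i < 2 * D
    · obtain ⟨hi1, hi2⟩ := hi
      rw [if_pos (hi0m i hi1)]
      have b1 : ∑ f ∈ (Icc 1 D).filter (fun f : ℕ => z0 < (f : ℝ)),
        (if f ≤ 2 ^ i ∧ 2 ^ i < 2 * f ∧ z0 < (2 : ℝ) ^ i then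
        2 ^ s * ((2 : ℝ) ^ i) ^ (-s) * g f else 0) ≤
        ∑ f ∈ Icc 1 (2 ^ i), 2 ^ s * ((2 : ℝ) ^ i) ^ (-s) * g f := by
        rw [← sum_filter]
        apply sum_le_sum_of_subset_of_nonneg
        · intro f hf
          rw [mem_filter, mem_filter, mem_Icc] at hf
          rw [mem_Icc]
          exact ⟨hf.1.1.1, hf.2.1⟩
        · intro f _ _
          have := hg f
          positivity
      refine b1.trans ?_
      rw [← mul_sum]
      have b2 := h (2 ^ i) Nat.one_le_two_pow hi2.le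
      have hp : (0 : ℝ) < (2 : ℝ) ^ i := by positivity
      have b3 : (2 : ℝ) ^ s ≤ 2 := by
        calc (2 : ℝ) ^ s ≤ 2 ^ (1 : ℝ) := Real.rpow_le_rpow_of_exponent_le (by norm_num) hs1
          _ = 2 := Real.rpow_one 2
      have b6 : ((2 : ℝ) ^ i) ^ (-s) * ((2 : ℝ) ^ i) ^ u = q ^ i := by
        rw [← Real.rpow_add hp, ← hqi]
        congr 1
        ring
      calc 2 ^ s * ((2 : ℝ) ^ i) ^ (-s) * ∑ f ∈ Icc 1 (2 ^ i), g f ≤
          2 ^ s * ((2 : ℝ) ^ i) ^ (-s) * (B * (((2 ^ i : ℕ) : ℝ)) ^ u) :=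
            mul_le_mul_of_nonneg_left b2 (by positivity)
        _ = 2 ^ s * B * (((2 : ℝ) ^ i) ^ (-s) * ((2 : ℝ) ^ i) ^ u) := by
            push_cast
            ring
        _ = 2 ^ s * B * q ^ i := by rw [b6]
        _ ≤ 2 * B * q ^ i := by
            apply mul_le_mul_of_nonneg_right _ (by positivity)
            exact mul_le_mul_of_nonneg_right b3 hB
    · refine le_trans (le_of_eq ?_) (show (0 : ℝ) ≤ if i0 ≤ i then 2 * B * q ^ i else 0 by
        split_ifs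
        · positivity
        · exact le_rfl)
      apply sum_eq_zero
      intro f hf
      rw [mem_filter, mem_Icc] at hf
      rw [if_neg]
      rintro ⟨c1, c2, c3⟩
      apply hi
      refine ⟨c3, ?_⟩
      have := hf.1.2
      omega
  refine (sum_le_sum h2).trans ?_
  rw [← sum_filter, ← mul_sum]
  have h3 := geo_tail q hq0 hq1 (Nat.clog 2 D + 1) i0
  have h4 : q ^ i0 ≤ z0 ^ (-(s - u)) := by
    rw [← hqi]
    exact Real.rpow_le_rpow_of_nonpos (by linarith) hi0.le (by linarith)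
  calc 2 * B * ∑ i ∈ (range (Nat.clog 2 D + 1)).filter (fun i => i0 ≤ i), q ^ i ≤ 2 * B * (4 * q ^ i0) :=
        mul_le_mul_of_nonneg_left h3 (by positivity)
    _ ≤ 2 * B * (4 * z0 ^ (-(s - u))) := by
        apply mul_le_mul_of_nonneg_left _ (by positivity)
        linarith
    _ = _ := by ring

open Classical in
/-- **the sieve for finitely many primes, with decreasing weights** -/
theorem sieve_fin2 (F : ℤ[X]) (A1 A2 : Finset ℤ) (P : Finset ℕ) (hP : ∀ p ∈ P, p.Prime) (s : ℝ)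
    (hx1 : ∀ p ∈ P, xx F p ≤ 1 / 2) (hx : ∀ p ∈ P, xx F p / (1 - xx F p) ≤ (p : ℝ) ^ (-s)) :
    (∏ p ∈ P, (1 - xx F p)) * (A1.card * A2.card) -
      (∏ p ∈ P, (1 - xx F p)) * ∑ U ∈ P.powerset.filter (fun U => U ≠ ∅),
        ((∏ p ∈ U, p : ℕ) : ℝ) ^ (-s) * EE2 A1 A2 (∏ p ∈ U, p) ≤
      (MP F A1 A2 P 1 : ℝ) := by
  classical
  have h1 := sieve_full F A1 A2 P hP
  rw [← sum_filter_add_sum_filter_not P.powerset (fun U => U ≠ ∅)] at h1
  have h2 : P.powerset.filter (fun U => ¬ U ≠ ∅) = {∅} := by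
    ext U
    rw [mem_filter, mem_singleton, not_not]
    constructor
    · exact fun h => h.2
    · rintro rfl
      exact ⟨empty_mem_powerset P, rfl⟩
  rw [h2, sum_singleton, GG_empty, card_empty, pow_zero, one_mul, sdiff_empty] at h1
  set V : ℝ := ∏ p ∈ P, (1 - xx F p) with hV
  have hpos : ∀ p ∈ P, 0 < 1 - xx F p := fun p hp => by linarith [hx1 p hp]
  have hV0 : 0 < V := prod_pos hpos
  set Z : ℂ := ∑ U ∈ P.powerset.filter (fun U => U ≠ ∅),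
      (((-1 : ℝ) ^ U.card * ∏ p ∈ P \ U, (1 - xx F p) : ℝ) : ℂ) * GG F A1 A2 U with hZ
  have h3 : (MP F A1 A2 P 1 : ℂ) - ((V * ((A1.card : ℝ) * A2.card) : ℝ) : ℂ) = Z := by
    rw [h1]
    push_cast
    ring
  have h4 : |(MP F A1 A2 P 1 : ℝ) - V * ((A1.card : ℝ) * A2.card)| = ‖Z‖ := by
    rw [← h3, ← Real.norm_eq_abs, ← Complex.norm_real]
    congr 1
    push_cast
    rfl
  have h5 : ‖Z‖ ≤ V * ∑ U ∈ P.powerset.filter (fun U => U ≠ ∅),
      ((∏ p ∈ U, p : ℕ) : ℝ) ^ (-s) * EE2 A1 A2 (∏ p ∈ U, p) := by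
    rw [hZ]
    refine (norm_sum_le _ _).trans ?_
    rw [mul_sum]
    apply sum_le_sum
    intro U hU
    rw [mem_filter, mem_powerset] at hU
    have hUp : ∀ p ∈ U, p.Prime := fun p hp => hP p (hU.1 hp)
    have hg := GG_norm F A1 A2 U hUp
    have hE := EE2_nonneg A1 A2 (∏ p ∈ U, p)
    rw [norm_mul, Complex.norm_real, Real.norm_eq_abs, abs_mul, abs_pow, abs_neg, abs_one, one_pow,
      one_mul]
    have hW0 : 0 ≤ ∏ p ∈ P \ U, (1 - xx F p) := prod_nonneg fun p hp =>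
      (hpos p (mem_sdiff.1 hp).1).le
    rw [abs_of_nonneg hW0]
    have e1 : V = (∏ p ∈ P \ U, (1 - xx F p)) * ∏ p ∈ U, (1 - xx F p) := by
      rw [hV, prod_sdiff hU.1]
    have e2 : ∏ p ∈ U, xx F p = (∏ p ∈ U, (1 - xx F p)) * ∏ p ∈ U, (xx F p / (1 - xx F p)) := by
      rw [← prod_mul_distrib]
      apply prod_congr rfl
      intro p hp
      have := hpos p (hU.1 hp)
      field_simp
    have e3 : ∏ p ∈ U, (xx F p / (1 - xx F p)) ≤ ((∏ p ∈ U, p : ℕ) : ℝ) ^ (-s) := by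
      push_cast
      rw [← Real.finsetProd_rpow _ _ (fun p _ => Nat.cast_nonneg p)]
      apply Finset.prod_le_prod
      · intro p hp
        exact div_nonneg (xx_nonneg F p) (hpos p (hU.1 hp)).le
      · intro p hp
        exact hx p (hU.1 hp)
    calc (∏ p ∈ P \ U, (1 - xx F p)) * ‖GG F A1 A2 U‖ ≤
        (∏ p ∈ P \ U, (1 - xx F p)) * ((∏ p ∈ U, xx F p) * EE2 A1 A2 (∏ p ∈ U, p)) :=
          mul_le_mul_of_nonneg_left hg hW0
      _ = V * ((∏ p ∈ U, (xx F p / (1 - xx F p))) * EE2 A1 A2 (∏ p ∈ U, p)) := by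
          rw [e2, e1]
          ring
      _ ≤ V * (((∏ p ∈ U, p : ℕ) : ℝ) ^ (-s) * EE2 A1 A2 (∏ p ∈ U, p)) := by
          apply mul_le_mul_of_nonneg_left _ hV0.le
          exact mul_le_mul_of_nonneg_right e3 hE
  have h6 := (abs_le.1 (h4.le.trans h5)).1
  linarith

end Pool.Agent.H540.DS
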