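import Pool.Agent.H540.DS.Cls
import Pool.Graph.R_pool_sql_team_seeded_35f281b4.K7.H64.LS.Sums

/-! The large sieve for subsets of sifted sets, in residue classes. -/

set_option autoImplicit false

namespace Pool.Agent.H540.DS

open Finset Polynomial
open Pool.Agent.Y882.PX
open Pool.Agent.Y843.HS (Pr VV)
open Pool.Agent.Helper112 (ee lsSep ls_sep_of_int)

/-- at most `r` classes are removed, and not all classes, modulo each prime of an interval -/
def ZC (r : ℕ) (y : ℝ) (Z : ℕ → Finset ℕ) : Prop :=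
  ∀ p : ℕ, p.Prime → (p : ℝ) ≤ y → (Z p).card ≤ r ∧ (Z p).card < p ∧ ∀ c ∈ Z p, c < p

theorem farey_card (t : ℕ) :
    ((Icc 1 t).sigma (fun f => (range f).filter (fun a => a.Coprime f))).card ≤ t ^ 2 := by
  rw [card_sigma]
  calc ∑ f ∈ Icc 1 t, ((range f).filter (fun a => a.Coprime f)).card ≤ ∑ _f ∈ Icc 1 t, t := by
        apply sum_le_sum
        intro f hf
        rw [mem_Icc] at hf
        exact ((card_filter_le _ _).trans (le_of_eq (card_range f))).trans hf.2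
    _ = t ^ 2 := by
        rw [sum_const, Nat.card_Icc, Nat.add_sub_cancel, smul_eq_mul, sq]

/-- the large sieve at the Farey fractions for a subset of a sifted set -/
theorem farey_sifted (r : ℕ) {κ : ℝ} (hκ : 0 < κ) : ∃ C : ℝ, 0 < C ∧ ∀ M : ℕ, 1 ≤ M →
    ∀ Z : ℕ → Finset ℕ, ZC r ((M : ℝ) ^ κ) Z → ∀ S : Finset ℕ, S ⊆ Icc 1 M →
    (∀ n ∈ S, ∀ p : ℕ, p.Prime → (p : ℝ) ≤ (M : ℝ) ^ κ → n % p ∉ Z p) → ∀ t : ℕ, 1 ≤ t →
    ∑ f ∈ Icc 1 t, ∑ a ∈ (range f).filter (fun a => a.Coprime f), ‖∑ n ∈ S, ee (n * a / f)‖ ^ 2 ≤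
      C * ((M : ℝ) + (t : ℝ) ^ 2) * VV Z (t ^ 2) ⌊(M : ℝ) ^ κ⌋₊ * S.card := by
  classical
  obtain ⟨C, hC, h⟩ := Pool.Agent.K7.H64.LS.lsf r hκ
  refine ⟨C, hC, ?_⟩
  intro M hM Z hZ S hS hSZ t ht
  set R : Finset (Σ _ : ℕ, ℕ) :=
    (Icc 1 t).sigma (fun f => (range f).filter (fun a => a.Coprime f)) with hR
  set ξ : (Σ _ : ℕ, ℕ) → ℝ := fun r => (r.2 : ℝ) / r.1 with hξ
  have hsep : ∀ r ∈ R, ∀ s ∈ R, r ≠ s → lsSep (t ^ 2) (ξ s - ξ r) := by
    rintro ⟨f, a⟩ hr ⟨f', a'⟩ hs hne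
    simp only [hR, mem_sigma, mem_Icc, mem_filter, mem_range] at hr hs
    refine ls_sep_of_int t f f' hr.1.1 hs.1.1 hr.1.2 hs.1.2 a a' hr.2.1 hs.2.1 hr.2.2 hs.2.2 ?_
    rintro ⟨h1, h2⟩
    subst h1
    subst h2
    exact hne rfl
  have hmain := h M hM 0 Z hZ S (by
    intro n hn
    have := mem_Icc.1 (hS hn)
    rw [mem_Ioc]
    omega) hSZ (Σ _ : ℕ, ℕ) R ξ (t ^ 2) (Nat.one_le_pow _ _ ht) hsep (fun _ => 1)
  have hmono : VV Z R.card ⌊(M : ℝ) ^ κ⌋₊ ≤ VV Z (t ^ 2) ⌊(M : ℝ) ^ κ⌋₊ := by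
    apply Pool.Agent.K7.H64.LS.VV_mono
    · intro p hp
      unfold Pr at hp
      rw [mem_filter, mem_Ioc] at hp
      refine (hZ p hp.2 ?_).2.1
      exact (Nat.le_floor_iff' hp.2.ne_zero).1 hp.1.2
    · rw [hR]
      exact farey_card t
  have e1 : ∑ i ∈ R, ‖∑ n ∈ S, (1 : ℂ) * ee (n * ξ i)‖ ^ 2 =
      ∑ f ∈ Icc 1 t, ∑ a ∈ (range f).filter (fun a => a.Coprime f), ‖∑ n ∈ S, ee (n * a / f)‖ ^ 2 := by
    rw [hR, Finset.sum_sigma]
    refine Finset.sum_congr rfl fun f _ => Finset.sum_congr rfl fun a _ => ?_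
    congr 2
    refine Finset.sum_congr rfl fun n _ => ?_
    simp only [hξ]
    rw [mul_div_assoc, one_mul]
  simp only [norm_one, one_pow, sum_const, nsmul_eq_mul, mul_one] at hmain
  rw [e1] at hmain
  push_cast at hmain
  refine hmain.trans ?_
  apply mul_le_mul_of_nonneg_right _ (Nat.cast_nonneg _)
  exact mul_le_mul_of_nonneg_left hmono (by positivity)

/-- the classes for the second variable in a residue class -/
def ZW (W : ℕ) (s : ℤ) (Z : ℕ → Finset ℕ) (p : ℕ) : Finset ℕ :=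
  if p ∣ W then ∅ else (range p).filter (fun c : ℕ => ((s + W * c) % p).toNat ∈ Z p)

theorem ZW_card (W : ℕ) (s : ℤ) (Z : ℕ → Finset ℕ) (p : ℕ) (hp : p.Prime) (hW : ¬ p ∣ W)
    (hZ : ∀ c ∈ Z p, c < p) : (ZW W s Z p).card = (Z p).card := by
  unfold ZW
  rw [if_neg hW]
  have hpz : (0 : ℤ) < p := by exact_mod_cast hp.pos
  have hinj : Set.InjOn (fun c : ℕ => ((s + W * c) % p).toNat) (range p : Finset ℕ) := by
    intro a ha b hb h
    rw [mem_coe, mem_range] at ha hb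
    simp only at h
    have h1 := Int.emod_nonneg (s + W * a) hpz.ne'
    have h2 := Int.emod_nonneg (s + W * b) hpz.ne'
    have h3 : (s + W * a) % p = (s + W * b) % p := by omega
    have h4 : (p : ℤ) ∣ (s + W * b) - (s + W * a) := Int.ModEq.dvd (show s + W * a ≡ s + W * b [ZMOD p] from h3)
    have h5 : (p : ℤ) ∣ (W : ℤ) * ((b : ℤ) - a) := by
      have e : (s + W * b) - (s + W * a) = (W : ℤ) * ((b : ℤ) - a) := by ring
      rwa [e] at h4
    have h6 : (p : ℤ) ∣ (b : ℤ) - a := by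
      rcases (Nat.prime_iff_prime_int.1 hp).dvd_or_dvd h5 with h | h
      · exact absurd (by exact_mod_cast h) hW
      · exact h
    have h7 : a ≡ b [MOD p] := by
      rw [Nat.modEq_iff_dvd]
      exact h6
    exact Nat.ModEq.eq_of_lt_of_lt h7 ha hb
  apply le_antisymm
  · apply card_le_card_of_injOn (fun c : ℕ => ((s + W * c) % p).toNat)
    · intro c hc
      rw [mem_coe, mem_filter] at hc
      exact hc.2
    · intro a ha b hb h
      rw [mem_coe, mem_filter] at ha hb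
      exact hinj (mem_coe.2 ha.1) (mem_coe.2 hb.1) h
  · -- surjectivity by counting
    have himg : (range p).image (fun c : ℕ => ((s + W * c) % p).toNat) = range p := by
      apply eq_of_subset_of_card_le
      · intro x hx
        rw [mem_image] at hx
        obtain ⟨c, _, rfl⟩ := hx
        rw [mem_range]
        have h1 := Int.emod_nonneg (s + W * c) hpz.ne'
        have h2 := Int.emod_lt_of_pos (s + W * c) hpz
        omega
      · rw [card_image_of_injOn hinj]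
    have hsub : Z p ⊆ ((range p).filter (fun c : ℕ => ((s + W * c) % p).toNat ∈ Z p)).image
        (fun c : ℕ => ((s + W * c) % p).toNat) := by
      intro x hx
      have hxp : x ∈ (range p).image (fun c : ℕ => ((s + W * c) % p).toNat) := by
        rw [himg, mem_range]
        exact hZ x hx
      rw [mem_image] at hxp ⊢
      obtain ⟨c, hc, hcx⟩ := hxp
      refine ⟨c, ?_, hcx⟩
      rw [mem_filter]
      refine ⟨hc, ?_⟩
      rw [hcx]
      exact hx
    exact (card_le_card hsub).trans card_image_le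

theorem ZW_ok (W : ℕ) (s : ℤ) (Z : ℕ → Finset ℕ) (r : ℕ) (y : ℝ) (hZ : ZC r y Z) :
    ZC r y (ZW W s Z) := by
  intro p hp hpy
  obtain ⟨h1, h2, h3⟩ := hZ p hp hpy
  by_cases hW : p ∣ W
  · unfold ZW
    rw [if_pos hW]
    refine ⟨by simp, by simpa using hp.pos, by simp⟩
  · rw [ZW_card W s Z p hp hW h3]
    refine ⟨h1, h2, ?_⟩
    intro c hc
    unfold ZW at hc
    rw [if_neg hW, mem_filter, mem_range] at hc
    exact hc.1

/-- **the large sieve for a subset of a sifted set in a residue class** -/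
theorem LSZ_class (r : ℕ) {κ : ℝ} (hκ : 0 < κ) : ∃ C : ℝ, 0 < C ∧ ∀ (B : Finset ℤ) (M W : ℕ), 0 < W →
    1 ≤ M → ∀ s : ℤ, (∀ a ∈ B, ∃ j : ℕ, 1 ≤ j ∧ j ≤ M ∧ a = s + W * j) → ∀ Z : ℕ → Finset ℕ,
    ZC r ((M : ℝ) ^ κ) Z → (∀ a ∈ B, ∀ p : ℕ, p.Prime → (p : ℝ) ≤ (M : ℝ) ^ κ → (a % p).toNat ∉ Z p) →
    ∀ t : ℕ, 1 ≤ t → (∀ p : ℕ, p.Prime → p ∣ W → p ≤ t ^ 2) →
    ∑ f ∈ (Icc 1 t).filter (fun f => f.Coprime W), En B f ≤
      C * ((M : ℝ) + (t : ℝ) ^ 2) * VV Z (t ^ 2) ⌊(M : ℝ) ^ κ⌋₊ * B.card := by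
  classical
  obtain ⟨C, hC, H⟩ := farey_sifted r hκ
  refine ⟨C, hC, ?_⟩
  intro A M W hW hM s hA Z hZ hAZ t ht hWt
  obtain ⟨S, hS⟩ : ∃ S : Finset ℕ, S = (Icc 1 M).filter (fun j : ℕ => s + (W : ℤ) * j ∈ A) := ⟨_, rfl⟩
  have hSM : S ⊆ Icc 1 M := by rw [hS]; exact filter_subset _ _
  have hScard : S.card ≤ A.card := by
    rw [hS]
    apply card_le_card_of_injOn (fun n : ℕ => s + (W : ℤ) * n)
    · intro n hn
      rw [mem_coe, mem_filter] at hn
      exact hn.2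
    · intro i _ j _ h
      simp only at h
      have hW' : (W : ℤ) ≠ 0 := by exact_mod_cast hW.ne'
      have h3 : (W : ℤ) * i = W * j := by linarith
      have h4 := mul_left_cancel₀ hW' h3
      exact_mod_cast h4
  have h1 := H M hM (ZW W s Z) (ZW_ok W s Z r _ hZ) S hSM (by
    intro n hn p hp hpM hmem
    rw [hS, mem_filter] at hn
    have h2 := hAZ _ hn.2 p hp hpM
    unfold ZW at hmem
    by_cases hpW : p ∣ W
    · rw [if_pos hpW] at hmem
      simp at hmem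
    · rw [if_neg hpW, mem_filter] at hmem
      apply h2
      have h3 := hmem.2
      have h4 : (s + (W : ℤ) * ((n % p : ℕ) : ℤ)) % p = (s + (W : ℤ) * n) % p := by
        have h5 : (p : ℤ) ∣ (s + (W : ℤ) * n) - (s + (W : ℤ) * ((n % p : ℕ) : ℤ)) := by
          have e : (s + (W : ℤ) * n) - (s + (W : ℤ) * ((n % p : ℕ) : ℤ)) = W * ((n : ℤ) - ((n % p : ℕ) : ℤ)) := by
            ring
          rw [e]
          apply Dvd.dvd.mul_left
          push_cast
          exact Int.dvd_self_sub_emod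
        exact (Int.modEq_iff_dvd.2 h5)
      rw [h4] at h3
      exact h3) t ht
  have hVV : VV (ZW W s Z) (t ^ 2) ⌊(M : ℝ) ^ κ⌋₊ = VV Z (t ^ 2) ⌊(M : ℝ) ^ κ⌋₊ := by
    unfold VV
    apply prod_congr rfl
    intro p hp
    unfold Pr at hp
    rw [mem_filter, mem_Ioc] at hp
    rw [ZW_card W s Z p hp.2]
    · intro h
      have := hWt p hp.2 h
      omega
    · exact (hZ p hp.2 ((Nat.le_floor_iff' hp.2.ne_zero).1 hp.1.2)).2.2
  rw [hVV] at h1
  have hVV0 : 0 ≤ VV Z (t ^ 2) ⌊(M : ℝ) ^ κ⌋₊ := by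
    apply (Pool.Agent.K7.H64.LS.VV_nonneg _).le
    intro p hp
    unfold Pr at hp
    rw [mem_filter, mem_Ioc] at hp
    exact (hZ p hp.2 ((Nat.le_floor_iff' hp.2.ne_zero).1 hp.1.2)).2.1
  have h3 : ∑ f ∈ (Icc 1 t).filter (fun f => f.Coprime W), En A f ≤
      ∑ f ∈ Icc 1 t, ∑ a ∈ (range f).filter (fun a => a.Coprime f),
        ‖∑ n ∈ S, ee (n * a / f)‖ ^ 2 := by
    rw [sum_filter]
    apply sum_le_sum
    intro f hf
    rw [mem_Icc] at hf
    have hf0 : 0 < f := hf.1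
    split_ifs with hc
    · unfold En
      have e1 : ∀ b ∈ (range f).filter (fun b => b.Coprime f), ‖DS.S A f b‖ ^ 2 =
          (fun c : ℕ => ‖∑ n ∈ S, ee (n * c / f)‖ ^ 2) (b * W % f) := by
        intro b _
        rw [S_class A M W hW s hA f hf0 b]
        simp only
        rw [hS, sum_filter]
        congr 2
        apply sum_congr rfl
        intro j _
        split_ifs <;> simp
      rw [sum_congr rfl e1]
      have e2 : Set.InjOn (fun b => b * W % f) ((range f).filter (fun b => b.Coprime f) : Finset ℕ) := by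
        intro b hb b' hb' h
        rw [mem_coe, mem_filter, mem_range] at hb hb'
        simp only at h
        have h5 : b * W ≡ b' * W [MOD f] := h
        have h6 : b ≡ b' [MOD f] := Nat.ModEq.cancel_right_of_coprime hc h5
        exact Nat.ModEq.eq_of_lt_of_lt h6 hb.1 hb'.1
      rw [← sum_image (f := fun c : ℕ => ‖∑ n ∈ S, ee (n * c / f)‖ ^ 2) e2]
      apply sum_le_sum_of_subset_of_nonneg
      · intro c hc'
        rw [mem_image] at hc'
        obtain ⟨b, hb, rfl⟩ := hc'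
        rw [mem_filter, mem_range] at hb ⊢
        refine ⟨Nat.mod_lt _ hf0, ?_⟩
        rw [Nat.Coprime, ← Nat.gcd_rec, Nat.gcd_comm]
        exact Nat.Coprime.mul_left hb.2 hc.symm
      · intro c _ _
        positivity
    · apply sum_nonneg
      intro a _
      positivity
  refine h3.trans (h1.trans ?_)
  apply mul_le_mul_of_nonneg_left (Nat.cast_le.2 hScard) (by positivity)

end Pool.Agent.H540.DS
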