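import Pool.Agent.H540.DS.Low
import Pool.Graph.R_pool_sql_team_seeded_5cf16337.K3h21.IR.Sqr
import Pool.Graph.R_pool_sql_team_seeded_5cf16337.K3h21.IR.Mer

/-! Numerical lemmas. -/

set_option autoImplicit false

namespace Pool.Agent.H540.DS

open Finset Filter

theorem lo (a b c : ℝ) (hb : 0 < b) : ∀ᶠ x : ℝ in atTop, c * Real.log x ^ a ≤ x ^ b := by
  have h := (isLittleO_log_rpow_rpow_atTop a hb).bound (show (0 : ℝ) < 1 / (|c| + 1) by positivity)
  filter_upwards [h, eventually_ge_atTop 1] with x hx hx1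
  have hx0 : 0 < x ^ b := by positivity
  have hl : 0 ≤ Real.log x ^ a := Real.rpow_nonneg (Real.log_nonneg hx1) a
  rw [Real.norm_of_nonneg hl, Real.norm_of_nonneg hx0.le, one_div, inv_mul_eq_div, le_div_iff₀ (by positivity)] at hx
  have : c ≤ |c| + 1 := by linarith [le_abs_self c]
  calc c * Real.log x ^ a ≤ (|c| + 1) * Real.log x ^ a := mul_le_mul_of_nonneg_right this hl
    _ ≤ _ := by linarith

theorem loN (a b c : ℝ) (hb : 0 < b) : ∀ᶠ N : ℕ in atTop, c * Real.log N ^ a ≤ (N : ℝ) ^ b :=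
  tendsto_natCast_atTop_atTop.eventually (lo a b c hb)

theorem tlog : Tendsto (fun N : ℕ => Real.log N) atTop atTop :=
  Real.tendsto_log_atTop.comp tendsto_natCast_atTop_atTop

theorem loL (a b c : ℝ) (hb : 0 < b) :
    ∀ᶠ N : ℕ in atTop, c * Real.log (Real.log N) ^ a ≤ Real.log N ^ b :=
  tlog.eventually (lo a b c hb)

theorem exJ2 (x : ℝ) (hx : 2 ≤ x) : ∃ J : ℕ, x < 2 ^ 2 ^ J ∧ (2 : ℝ) ^ J ≤ 3 * Real.log x := by
  classical
  have hex : ∃ J : ℕ, x < 2 ^ 2 ^ J := by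
    obtain ⟨m, hm⟩ := pow_unbounded_of_one_lt x (show (1 : ℝ) < 2 by norm_num)
    refine ⟨m, hm.trans_le ?_⟩
    apply pow_le_pow_right₀ (by norm_num)
    exact Nat.lt_two_pow_self.le
  refine ⟨Nat.find hex, Nat.find_spec hex, ?_⟩
  have hl2 := Real.log_two_gt_d9
  have hlx : Real.log 2 ≤ Real.log x := Real.log_le_log (by norm_num) hx
  rcases Nat.eq_zero_or_pos (Nat.find hex) with h0 | h0
  · rw [h0]
    norm_num
    linarith
  · have h1 : ¬ x < 2 ^ 2 ^ (Nat.find hex - 1) := Nat.find_min hex (by omega)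
    push Not at h1
    have h2 := Real.log_le_log (by positivity) h1
    rw [Real.log_pow] at h2
    push_cast at h2
    have h3 : (2 : ℝ) ^ Nat.find hex = 2 * 2 ^ (Nat.find hex - 1) := by
      rw [← pow_succ']
      congr 1
      omega
    rw [h3]
    have h4 : (0 : ℝ) ≤ 2 ^ (Nat.find hex - 1) := by positivity
    nlinarith

/-- the harmonic sum over primes, crude -/
theorem sum_inv_le (P : Finset ℕ) (x : ℝ) (hx : 1 ≤ x) (hP : ∀ p ∈ P, 1 ≤ p ∧ (p : ℝ) ≤ x) :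
    ∑ p ∈ P, 1 / (p : ℝ) ≤ 1 + Real.log x := by
  have h1 : P ⊆ Icc 1 ⌊x⌋₊ := by
    intro p hp
    rw [mem_Icc]
    exact ⟨(hP p hp).1, Nat.le_floor (hP p hp).2⟩
  have h2 : ∑ p ∈ P, 1 / (p : ℝ) ≤ ∑ p ∈ Icc 1 ⌊x⌋₊, 1 / (p : ℝ) :=
    sum_le_sum_of_subset_of_nonneg h1 (fun _ _ _ => by positivity)
  have h3 : ∑ p ∈ Icc 1 ⌊x⌋₊, 1 / (p : ℝ) = ((harmonic ⌊x⌋₊ : ℚ) : ℝ) := by
    rw [harmonic_eq_sum_Icc]
    push_cast
    apply sum_congr rfl
    intro p _
    rw [one_div]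
  have h4 := harmonic_le_one_add_log ⌊x⌋₊
  have hf : 1 ≤ ⌊x⌋₊ := Nat.le_floor (by exact_mod_cast hx)
  have h5 : Real.log ((⌊x⌋₊ : ℕ) : ℝ) ≤ Real.log x :=
    Real.log_le_log (by exact_mod_cast hf) (Nat.floor_le (by linarith))
  rw [h3] at h2
  linarith

/-- the elementary symmetric function, exponential bound -/
theorem EB_exp (P : Finset ℕ) (x : ℕ → ℝ) (hx0 : ∀ p ∈ P, 0 ≤ x p) (k : ℕ) (lam : ℝ)
    (hlam : ∑ p ∈ P, x p ≤ lam) : EB P k x ≤ Real.exp (3 * lam - k) := by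
  have hs0 : 0 ≤ ∑ p ∈ P, x p := sum_nonneg hx0
  have h1 := EB_le P x hx0 k
  set s := ∑ p ∈ P, x p with hs
  have hk : (0 : ℝ) < (k.factorial : ℝ) := by exact_mod_cast Nat.factorial_pos k
  have h2 : (3 * s) ^ k / (k.factorial : ℝ) ≤ Real.exp (3 * s) :=
    Real.pow_div_factorial_le_exp (3 * s) (by positivity) k
  have h3 : EB P k x ≤ s ^ k / k.factorial := by rwa [le_div_iff₀ hk]
  have h4 : s ^ k / k.factorial = (3 * s) ^ k / k.factorial * (1 / 3) ^ k := by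
    rw [mul_pow, one_div_pow]
    field_simp
  have h5 : ((1 : ℝ) / 3) ^ k ≤ Real.exp (-(k : ℝ)) := by
    have h6 : (1 : ℝ) / 3 ≤ Real.exp (-1) := by
      have := Real.exp_one_lt_d9
      rw [Real.exp_neg, one_div]
      apply inv_anti₀ (Real.exp_pos 1)
      linarith
    calc ((1 : ℝ) / 3) ^ k ≤ (Real.exp (-1)) ^ k := pow_le_pow_left₀ (by norm_num) h6 k
      _ = Real.exp (-(k : ℝ)) := by
        rw [← Real.exp_nat_mul]
        congr 1
        ring
  rw [h4] at h3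
  calc EB P k x ≤ (3 * s) ^ k / k.factorial * (1 / 3) ^ k := h3
    _ ≤ Real.exp (3 * s) * Real.exp (-(k : ℝ)) := mul_le_mul h2 h5 (by positivity) (by positivity)
    _ = Real.exp (3 * s - k) := by rw [← Real.exp_add]; congr 1
    _ ≤ _ := Real.exp_le_exp.2 (by linarith)

end Pool.Agent.H540.DS

namespace Pool.Agent.H540.DS

open Finset Filter Polynomial
open Pool.Agent.Y882.PX

theorem clog_le (D : ℕ) (x : ℝ) (hx : 1 ≤ x) (h : (D : ℝ) ≤ x) :
    (Nat.clog 2 D : ℝ) + 1 ≤ 2 + 2 * Real.log x := by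
  have hlx : 0 ≤ Real.log x := Real.log_nonneg hx
  rcases Nat.lt_or_ge 1 D with hlt | hge
  · have h1 := Nat.pow_pred_clog_lt_self (show 1 < 2 by norm_num) hlt
    have hpos : 0 < Nat.clog 2 D := Nat.clog_pos (by norm_num) hlt
    obtain ⟨j, hj⟩ : ∃ j, Nat.clog 2 D = j + 1 := ⟨Nat.clog 2 D - 1, by omega⟩
    rw [hj] at h1 ⊢
    simp only [Nat.pred_succ] at h1
    have h2 : (2 : ℝ) ^ j ≤ x := by
      have : ((2 ^ j : ℕ) : ℝ) ≤ D := by exact_mod_cast h1.le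
      push_cast at this
      linarith
    have h3 := Real.log_le_log (by positivity) h2
    rw [Real.log_pow] at h3
    have hl2 := Real.log_two_gt_d9
    push_cast
    have : (0 : ℝ) ≤ j := Nat.cast_nonneg j
    nlinarith
  · have : Nat.clog 2 D = 0 := Nat.clog_of_right_le_one hge 2
    rw [this]
    push_cast
    linarith

theorem Pi_bounds (K : ℕ) : ∃ c : ℝ, 0 < c ∧ ∀ (F : ℤ[X]) (P : Finset ℕ) (x : ℝ), 2 ≤ x →
    (∀ p ∈ P, p.Prime ∧ (p : ℝ) ≤ x ∧ K + 1 ≤ p ∧ ro F 0 p ≤ K) →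
    c / (3 * Real.log x) ^ (2 * K) ≤ ∏ p ∈ P, (1 - xx F p) ∧
    ∏ p ∈ P, (1 + xx F p) ≤ (3 * Real.log x) ^ (2 * K) / c := by
  obtain ⟨c, hc, HV⟩ := V_low K
  refine ⟨c, hc, ?_⟩
  intro F P x hx hP
  obtain ⟨J, hJ1, hJ2⟩ := exJ2 x hx
  have hl : 0 < Real.log x := Real.log_pos (by linarith)
  have h1 := HV J P (fun p => (ro F 0 p : ℝ)) (by
    intro p hp
    refine ⟨(hP p hp).1, ?_⟩
    have := (hP p hp).2.1.trans_lt hJ1
    exact_mod_cast this) (by
    intro p hp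
    exact_mod_cast (hP p hp).2.2.2) (by
    intro p hp
    obtain ⟨_, _, h3, h4⟩ := hP p hp
    have h5 : (K : ℝ) + 1 ≤ p := by exact_mod_cast h3
    have h6 : (ro F 0 p : ℝ) ≤ K := by exact_mod_cast h4
    linarith)
  have h2 : c / (3 * Real.log x) ^ (2 * K) ≤ ∏ p ∈ P, (1 - xx F p) := by
    refine le_trans ?_ h1
    rw [one_div_pow, mul_one_div]
    exact div_le_div_of_nonneg_left hc.le (by positivity) (pow_le_pow_left₀ (by positivity) hJ2 _)
  refine ⟨h2, ?_⟩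
  have h3 : (∏ p ∈ P, (1 + xx F p)) * ∏ p ∈ P, (1 - xx F p) ≤ 1 := by
    rw [← prod_mul_distrib]
    apply prod_le_one
    · intro p hp
      have hx0 := xx_nonneg F p
      have hx1 : xx F p ≤ 1 := by
        unfold xx
        have hp0 : (0 : ℝ) < p := by exact_mod_cast (hP p hp).1.pos
        rw [div_le_one hp0]
        exact_mod_cast ro_le_self F 0 p
      have : 0 ≤ 1 - xx F p := by linarith
      positivity
    · intro p _
      nlinarith [sq_nonneg (xx F p)]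
  have h4 : 0 < c / (3 * Real.log x) ^ (2 * K) := by positivity
  have h5 : 0 < ∏ p ∈ P, (1 - xx F p) := h4.trans_le h2
  calc ∏ p ∈ P, (1 + xx F p) ≤ 1 / ∏ p ∈ P, (1 - xx F p) := by rwa [le_div_iff₀ h5]
    _ ≤ 1 / (c / (3 * Real.log x) ^ (2 * K)) := one_div_le_one_div_of_le h4 h2
    _ = _ := one_div_div _ _

end Pool.Agent.H540.DS
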