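import Pool.Agent.H540.DS.LSZ
import Pool.Agent.H540.DS.Num

/-! The large sieve hypothesis for subsets of sifted sets. -/

set_option autoImplicit false

namespace Pool.Agent.H540.DS

open Finset Filter Polynomial
open Pool.Agent.Y882.PX
open Pool.Agent.Y843.HS (Pr VV)

theorem mem_Pr (a b p : ℕ) : p ∈ Pr a b ↔ p.Prime ∧ a < p ∧ p ≤ b := by
  unfold Pr
  rw [mem_filter, mem_Ioc]
  tauto

theorem VV_pow (r : ℕ) {u : ℝ} (hu : 0 < u) : ∃ c : ℝ, 0 < c ∧ ∀ Y : ℕ, 1 ≤ Y → ∀ Z : ℕ → Finset ℕ,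
    ZC r Y Z → c * (Y : ℝ) ^ (-u) ≤ VV Z 0 Y := by
  obtain ⟨c1, hc1, H⟩ := Pool.Agent.Y843.HG.VV_low r
  obtain ⟨Y0, hY0⟩ := eventually_atTop.1 (loN (2 * r) u 1 hu)
  obtain ⟨Y1, hY1⟩ : ∃ Y1 : ℕ, Y1 = max Y0 (2 * r + 3) := ⟨_, rfl⟩
  obtain ⟨c2, hc2⟩ : ∃ c2 : ℝ, c2 = ∏ p ∈ Pr 0 Y1, (1 / (p : ℝ)) := ⟨_, rfl⟩
  have hc20 : 0 < c2 := by
    rw [hc2]
    apply prod_pos
    intro p hp
    rw [mem_Pr] at hp
    have : (0 : ℝ) < p := by exact_mod_cast hp.1.pos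
    positivity
  refine ⟨min c1 c2, lt_min hc1 hc20, ?_⟩
  intro Y hY Z hZ
  have hY' : (1 : ℝ) ≤ Y := by exact_mod_cast hY
  have hYu : 0 < (Y : ℝ) ^ (-u) := by positivity
  rcases Nat.lt_or_ge Y Y1 with h | h
  · have h1 : (Y : ℝ) ^ (-u) ≤ 1 := Real.rpow_le_one_of_one_le_of_nonpos hY' (by linarith)
    calc min c1 c2 * (Y : ℝ) ^ (-u) ≤ c2 * 1 := mul_le_mul (min_le_right _ _) h1 hYu.le hc20.le
      _ = c2 := mul_one _
      _ ≤ ∏ p ∈ Pr 0 Y, (1 / (p : ℝ)) := by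
          rw [hc2]
          apply Finset.prod_le_prod_of_subset_of_le_one
          · intro p hp
            rw [mem_Pr] at hp ⊢
            exact ⟨hp.1, hp.2.1, by omega⟩
          · intro p _
            positivity
          · intro p hp _
            rw [mem_Pr] at hp
            have : (1 : ℝ) ≤ p := by exact_mod_cast hp.1.one_le
            rw [div_le_one (by linarith)]
            exact this
      _ ≤ VV Z 0 Y := by
          unfold VV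
          apply Finset.prod_le_prod
          · intro p _
            positivity
          · intro p hp
            rw [mem_Pr] at hp
            exact Pool.Agent.K7.H64.LS.fac_low hp.1 (hZ p hp.1 (by exact_mod_cast hp.2.2)).2.1
  · have h1 := H Y ((le_max_right _ _).trans (hY1 ▸ h)) Z (by
      intro p hp
      rw [mem_Pr] at hp
      exact hZ p hp.1 (by exact_mod_cast hp.2.2))
    have h2 := hY0 Y ((le_max_left _ _).trans (hY1 ▸ h))
    have h3 : Real.log Y ^ (2 * (r : ℝ)) = Real.log Y ^ (2 * r) := by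
      rw [← Real.rpow_natCast]
      push_cast
      rfl
    rw [h3, one_mul] at h2
    have hlog : 0 < Real.log Y := by
      apply Real.log_pos
      have : 2 * r + 3 ≤ Y := (le_max_right _ _).trans (hY1 ▸ h)
      have h4 : 3 ≤ Y := by omega
      have h5 : (3 : ℝ) ≤ Y := by exact_mod_cast h4
      linarith
    refine le_trans ?_ h1
    rw [Real.rpow_neg (by linarith), ← div_eq_mul_inv]
    exact div_le_div₀ hc1.le (min_le_left _ _) (by positivity) h2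

theorem VV_nonneg' (r : ℕ) (Z : ℕ → Finset ℕ) (a Y : ℕ) (hZ : ZC r Y Z) : 0 < VV Z a Y := by
  apply Pool.Agent.K7.H64.LS.VV_nonneg
  intro p hp
  rw [mem_Pr] at hp
  exact (hZ p hp.1 (by exact_mod_cast hp.2.2)).2.1

theorem VV_le_one' (r : ℕ) (Z : ℕ → Finset ℕ) (a Y : ℕ) (hZ : ZC r Y Z) : VV Z a Y ≤ 1 := by
  apply Pool.Agent.K7.H64.LS.VV_le_one
  intro p hp
  rw [mem_Pr] at hp
  exact (hZ p hp.1 (by exact_mod_cast hp.2.2)).2.1

theorem VV_tail (r : ℕ) {u : ℝ} (hu : 0 < u) : ∃ C : ℝ, 0 < C ∧ ∀ Y : ℕ, 1 ≤ Y → ∀ Z : ℕ → Finset ℕ,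
    ZC r Y Z → ∀ t : ℕ, 1 ≤ t → VV Z (t ^ 2) Y ≤ C * (t : ℝ) ^ u * VV Z 0 Y := by
  obtain ⟨c, hc, H⟩ := VV_pow r (show 0 < u / 2 by linarith)
  refine ⟨1 / c, by positivity, ?_⟩
  intro Y hY Z hZ t ht
  have ht' : (1 : ℝ) ≤ t := by exact_mod_cast ht
  have ht0 : (0 : ℝ) < t := by linarith
  have hV0 := VV_nonneg' r Z 0 Y hZ
  have htu : ((t ^ 2 : ℕ) : ℝ) ^ (-(u / 2)) = ((t : ℝ) ^ u)⁻¹ := by
    push_cast
    rw [← Real.rpow_natCast, ← Real.rpow_mul ht0.le, ← Real.rpow_neg ht0.le]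
    congr 1
    push_cast
    ring
  have htp : 0 < (t : ℝ) ^ u := by positivity
  rcases Nat.lt_or_ge Y (t ^ 2) with h | h
  · have h1 : VV Z (t ^ 2) Y ≤ 1 := VV_le_one' r Z _ Y hZ
    have h2 := H Y hY Z hZ
    have h3 : ((t : ℝ) ^ u)⁻¹ ≤ (Y : ℝ) ^ (-(u / 2)) := by
      rw [← htu]
      apply Real.rpow_le_rpow_of_nonpos (by exact_mod_cast hY) _ (by linarith)
      exact_mod_cast h.le
    have h4 : c * ((t : ℝ) ^ u)⁻¹ ≤ VV Z 0 Y := (mul_le_mul_of_nonneg_left h3 hc.le).trans h2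
    have h5 := mul_le_mul_of_nonneg_left h4 (show 0 ≤ 1 / c * (t : ℝ) ^ u by positivity)
    have h6 : 1 / c * (t : ℝ) ^ u * (c * ((t : ℝ) ^ u)⁻¹) = 1 := by
      field_simp
    linarith
  · have ht2 : 1 ≤ t ^ 2 := Nat.one_le_pow _ _ ht
    have h1 := Pool.Agent.Y843.HS.VV_split Z (Nat.zero_le (t ^ 2)) h
    have hZt : ZC r ((t ^ 2 : ℕ) : ℝ) Z := fun p hp hpt => hZ p hp (hpt.trans (by exact_mod_cast h))
    have h2 := H (t ^ 2) ht2 Z hZt
    rw [htu] at h2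
    have h3 := VV_nonneg' r Z (t ^ 2) Y hZ
    have h5 := mul_le_mul_of_nonneg_left h2 (show 0 ≤ 1 / c * (t : ℝ) ^ u * VV Z (t ^ 2) Y by positivity)
    have h6 : 1 / c * (t : ℝ) ^ u * VV Z (t ^ 2) Y * (c * ((t : ℝ) ^ u)⁻¹) = VV Z (t ^ 2) Y := by
      field_simp
    rw [← h1]
    calc VV Z (t ^ 2) Y = 1 / c * (t : ℝ) ^ u * VV Z (t ^ 2) Y * (c * ((t : ℝ) ^ u)⁻¹) := h6.symm
      _ ≤ 1 / c * (t : ℝ) ^ u * VV Z (t ^ 2) Y * VV Z 0 (t ^ 2) := h5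
      _ = _ := by ring

end Pool.Agent.H540.DS
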