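import Pool.Agent.H540.DS.LSZ2

/-! The large sieve hypothesis for subsets of sifted sets. -/

set_option autoImplicit false

namespace Pool.Agent.H540.DS

open Finset Filter Polynomial
open Pool.Agent.Y882.PX
open Pool.Agent.Y843.HS (Pr VV)

theorem VV_cmp2 (r : ℕ) {κ : ℝ} (hκ : 0 < κ) : ∃ (C : ℝ) (N0 : ℕ), 0 < C ∧ ∀ N M : ℕ, N0 ≤ N →
    (N : ℝ) ^ (1 / 2 : ℝ) ≤ M → (M : ℝ) ≤ (N : ℝ) ^ 2 → ∀ Z : ℕ → Finset ℕ, ZC r ((N : ℝ) ^ κ) Z →
    VV Z 0 ⌊(M : ℝ) ^ (κ / 2)⌋₊ ≤ C * VV Z 0 ⌊(N : ℝ) ^ κ⌋₊ := by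
  obtain ⟨c, hc, hc1, H⟩ := Pool.Agent.K7.H64.LS.low_const r 8 1
  obtain ⟨N0, hN0⟩ := eventually_atTop.1 (((tendsto_rpow_atTop (show 0 < κ / 8 by linarith)).comp
    tendsto_natCast_atTop_atTop).eventually_ge_atTop (2 : ℝ))
  refine ⟨1 / c, max N0 1, by positivity, ?_⟩
  intro N M hN h1 h2 Z hZ
  have hN2 : (2 : ℝ) ≤ (N : ℝ) ^ (κ / 8) := hN0 N ((le_max_left _ _).trans hN)
  have hN1 : (1 : ℝ) ≤ N := by exact_mod_cast (le_max_right _ _).trans hN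
  have hNp : (0 : ℝ) < N := by linarith
  obtain ⟨a, ha⟩ : ∃ a : ℕ, a = ⌊(M : ℝ) ^ (κ / 2)⌋₊ := ⟨_, rfl⟩
  obtain ⟨b, hb⟩ : ∃ b : ℕ, b = ⌊(N : ℝ) ^ κ⌋₊ := ⟨_, rfl⟩
  rw [← ha, ← hb]
  have hab : a ≤ b := by
    rw [ha, hb]
    apply Nat.floor_le_floor
    calc (M : ℝ) ^ (κ / 2) ≤ ((N : ℝ) ^ 2) ^ (κ / 2) :=
          Real.rpow_le_rpow (Nat.cast_nonneg _) h2 (by linarith)
      _ = (N : ℝ) ^ κ := by
          rw [← Real.rpow_natCast, ← Real.rpow_mul hNp.le]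
          congr 1
          push_cast
          ring
  have hbr : (b : ℝ) ≤ (N : ℝ) ^ κ := by rw [hb]; exact Nat.floor_le (by positivity)
  have hZb : ZC r b Z := fun p hp hpb => hZ p hp (hpb.trans hbr)
  have ha8 : b ≤ a ^ 8 := by
    have e1 : (N : ℝ) ^ (κ / 8) ≤ a := by
      have e2 : (M : ℝ) ^ (κ / 2) ≥ (N : ℝ) ^ (κ / 8) * (N : ℝ) ^ (κ / 8) := by
        rw [← Real.rpow_add hNp]
        calc (N : ℝ) ^ (κ / 8 + κ / 8) = ((N : ℝ) ^ (1 / 2 : ℝ)) ^ (κ / 2) := by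
              rw [← Real.rpow_mul hNp.le]
              congr 1
              ring
          _ ≤ (M : ℝ) ^ (κ / 2) := Real.rpow_le_rpow (by positivity) h1 (by linarith)
      have e3 := Nat.lt_floor_add_one ((M : ℝ) ^ (κ / 2))
      rw [← ha] at e3
      nlinarith
    have e4 : (N : ℝ) ^ κ ≤ (a : ℝ) ^ 8 := by
      calc (N : ℝ) ^ κ = ((N : ℝ) ^ (κ / 8)) ^ 8 := by
            rw [← Real.rpow_natCast, ← Real.rpow_mul hNp.le]
            congr 1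
            push_cast
            ring
        _ ≤ (a : ℝ) ^ 8 := pow_le_pow_left₀ (by positivity) e1 8
    have e5 : (b : ℝ) ≤ ((a ^ 8 : ℕ) : ℝ) := by
      push_cast
      linarith
    exact_mod_cast e5
  have h3 := H a b Z (by
    intro p hp
    rw [mem_Pr] at hp
    exact hZb p hp.1 (by exact_mod_cast hp.2.2)) (ha8.trans (le_max_right _ _))
  have h4 := Pool.Agent.Y843.HS.VV_split Z (Nat.zero_le a) hab
  have h5 : 0 < VV Z 0 a := VV_nonneg' r Z 0 a (fun p hp hpa => hZb p hp (hpa.trans (by exact_mod_cast hab)))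
  rw [← h4]
  have h6 := mul_le_mul_of_nonneg_left h3 h5.le
  calc VV Z 0 a = 1 / c * (VV Z 0 a * c) := by field_simp
    _ ≤ 1 / c * (VV Z 0 a * VV Z a b) := mul_le_mul_of_nonneg_left h6 (by positivity)

theorem EE2_one (B1 B2 : Finset ℤ) : EE2 B1 B2 1 = (B1.card : ℝ) * B2.card := by
  unfold EE2 S
  have h1 : (range 1).filter (fun b => b.Coprime 1) = {0} := by decide
  rw [h1, sum_singleton]
  have h2 : ∀ B : Finset ℤ, ∑ a ∈ B, H343.ex (((0 : ℕ) : ℝ) * (a : ℤ) / ((1 : ℕ) : ℝ)) = (B.card : ℂ) := by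
    intro B
    have h3 : ∀ a ∈ B, H343.ex (((0 : ℕ) : ℝ) * (a : ℤ) / ((1 : ℕ) : ℝ)) = 1 := by
      intro a _
      unfold H343.ex
      simp
    rw [sum_congr rfl h3]
    simp
  rw [h2, h2, Complex.norm_natCast, Complex.norm_natCast]

open Classical in
/-- **the large sieve hypothesis for subsets of sifted sets in residue classes** -/
theorem LSHZ (r : ℕ) {κ u : ℝ} (hκ : 0 < κ) (hu : 0 < u) : ∃ (C : ℝ) (N0 : ℕ), 0 < C ∧ ∀ N : ℕ, N0 ≤ N →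
    ∀ (W : ℕ) (B1 B2 : Finset ℤ) (x1 x2 r1 r2 : ℤ) (Z : ℕ → Finset ℕ) (y0 : ℝ) (Lam : ℝ), 0 < W →
    W ≤ N → (N : ℝ) ^ (1 / 2 : ℝ) ≤ (N : ℝ) / W → InC B1 x1 N W r1 → InC B2 x2 N W r2 →
    ZC r ((N : ℝ) ^ κ) Z →
    (∀ a ∈ B1, ∀ p : ℕ, p.Prime → (p : ℝ) ≤ (N : ℝ) ^ κ → (a % p).toNat ∉ Z p) →
    (∀ a ∈ B2, ∀ p : ℕ, p.Prime → (p : ℝ) ≤ (N : ℝ) ^ κ → (a % p).toNat ∉ Z p) →
    (∀ p : ℕ, p.Prime → (p ∣ W ↔ (p : ℝ) ≤ y0)) → 1 ≤ Lam →
    C * ((N : ℝ) / W) * VV Z 0 ⌊(N : ℝ) ^ κ⌋₊ ≤ Lam * √((B1.card : ℝ) * B2.card) →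
    LSH B1 B2 W ((N : ℝ) / W) Lam u := by
  obtain ⟨C1, hC1, H1⟩ := LSZ_class r (show 0 < κ / 2 by linarith)
  obtain ⟨C2, N2, hC2, H2⟩ := VV_cmp2 r hκ
  obtain ⟨C3, hC3, H3⟩ := VV_tail r hu
  refine ⟨2 * C1 * C3 * C2, max N2 2, by positivity, ?_⟩
  intro N hN W B1 B2 x1 x2 r1 r2 Z y0 Lam hW hWN hNW hI1 hI2 hZ hZ1 hZ2 hy0 hLam hd t ht
  have hNN2 : N2 ≤ N := (le_max_left _ _).trans hN
  have hN2 : (2 : ℝ) ≤ N := by exact_mod_cast (le_max_right _ _).trans hN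
  have hNp : (0 : ℝ) < N := by linarith
  have hWr : (0 : ℝ) < W := by exact_mod_cast hW
  have ht1 : (1 : ℝ) ≤ t := by exact_mod_cast ht
  have htu : (1 : ℝ) ≤ (t : ℝ) ^ u := Real.one_le_rpow ht1 hu.le
  have hN1 : 0 < (N : ℝ) / W := by positivity
  have hLt : (1 : ℝ) ≤ Lam * (t : ℝ) ^ u := one_le_mul_of_one_le_of_one_le hLam htu
  by_cases hty : ∀ p : ℕ, p.Prime → p ∣ W → p ≤ t ^ 2
  · -- the large sieve
    obtain ⟨M, hM⟩ : ∃ M : ℕ, M = N / W + 1 := ⟨_, rfl⟩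
    have hM2 : (M : ℝ) ≤ 2 * ((N : ℝ) / W) := by
      rw [hM]
      push_cast
      have h3 : ((N / W : ℕ) : ℝ) ≤ (N : ℝ) / W := Nat.cast_div_le
      have h4 : (1 : ℝ) ≤ (N : ℝ) / W := by
        rw [one_le_div hWr]
        exact_mod_cast hWN
      linarith
    have hM1 : (N : ℝ) ^ (1 / 2 : ℝ) ≤ M := by
      refine hNW.trans ?_
      rw [hM]
      push_cast
      exact (Nat.div_lt_iff_lt_mul hW).1 (Nat.lt_succ_self _) |> fun h => by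
        have h5 : (N : ℝ) < (((N / W + 1) : ℕ) : ℝ) * W := by exact_mod_cast h
        rw [div_le_iff₀ hWr]
        push_cast at h5
        exact h5.le
    have hMN : (M : ℝ) ≤ (N : ℝ) ^ 2 := by
      have h5 : (N : ℝ) / W ≤ N := div_le_self hNp.le (by exact_mod_cast hW)
      nlinarith
    have hκM : (M : ℝ) ^ (κ / 2) ≤ (N : ℝ) ^ κ := by
      calc (M : ℝ) ^ (κ / 2) ≤ ((N : ℝ) ^ 2) ^ (κ / 2) :=
            Real.rpow_le_rpow (Nat.cast_nonneg _) hMN (by linarith)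
        _ = (N : ℝ) ^ κ := by
            rw [← Real.rpow_natCast, ← Real.rpow_mul hNp.le]
            congr 1
            push_cast
            ring
    have hZM : ZC r ((M : ℝ) ^ (κ / 2)) Z := fun p hp hpM => hZ p hp (hpM.trans hκM)
    obtain ⟨s1, hs1⟩ := hI1.ls hW
    obtain ⟨s2, hs2⟩ := hI2.ls hW
    rw [← hM] at hs1 hs2
    have hMpos : 1 ≤ M := by rw [hM]; exact Nat.le_add_left 1 _
    have l1 := H1 B1 M W hW hMpos s1 hs1 Z hZM (fun a ha p hp hpM => hZ1 a ha p hp (hpM.trans hκM)) t ht hty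
    have l2 := H1 B2 M W hW hMpos s2 hs2 Z hZM (fun a ha p hp hpM => hZ2 a ha p hp (hpM.trans hκM)) t ht hty
    have l3 := EE2_sum_le B1 B2 _ _ _ l1 l2
    refine l3.trans ?_
    obtain ⟨V, hV⟩ : ∃ V : ℝ, V = VV Z 0 ⌊(N : ℝ) ^ κ⌋₊ := ⟨_, rfl⟩
    obtain ⟨V', hV'⟩ : ∃ V' : ℝ, V' = VV Z (t ^ 2) ⌊(M : ℝ) ^ (κ / 2)⌋₊ := ⟨_, rfl⟩
    rw [← hV] at hd
    rw [← hV']
    have hV0 : 0 < V := by
      rw [hV]
      apply VV_nonneg' r
      intro p hp hpY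
      exact hZ p hp (hpY.trans (Nat.floor_le (by positivity)))
    have hfl : ZC r (⌊(M : ℝ) ^ (κ / 2)⌋₊ : ℝ) Z := fun p hp hpY =>
      hZM p hp (hpY.trans (Nat.floor_le (by positivity)))
    have hV'0 : 0 < V' := by
      rw [hV']
      exact VV_nonneg' r Z _ _ hfl
    have hM1' : (1 : ℝ) ≤ M := by exact_mod_cast hMpos
    have hVV : V' ≤ C3 * (t : ℝ) ^ u * (C2 * V) := by
      rw [hV']
      refine (H3 _ (Nat.one_le_floor_iff _ |>.2 (Real.one_le_rpow hM1' (by linarith))) Z hfl t ht).trans ?_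
      apply mul_le_mul_of_nonneg_left _ (by positivity)
      rw [hV]
      exact H2 N M hNN2 hM1 hMN Z hZ
    set m : ℝ := (B1.card : ℝ) * B2.card with hm
    have hm0 : 0 ≤ m := mul_nonneg (Nat.cast_nonneg _) (Nat.cast_nonneg _)
    set T : ℝ := (M : ℝ) + (t : ℝ) ^ 2 with hT
    have hT0 : 0 ≤ T := by positivity
    have e1 : C1 * T * V' * (B1.card : ℝ) * (C1 * T * V' * (B2.card : ℝ)) = (C1 * T * V') ^ 2 * m := by
      rw [hm]; ring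
    have hT2 : (0 : ℝ) ≤ (C1 * T * V') ^ 2 := sq_nonneg _
    have hT3 : (0 : ℝ) ≤ C1 * T * V' := by positivity
    rw [e1, Real.sqrt_mul hT2, Real.sqrt_sq hT3]
    have e2 : m = √m * √m := (Real.mul_self_sqrt hm0).symm
    have hs : 0 ≤ √m := Real.sqrt_nonneg m
    have hTb : T ≤ 2 * ((N : ℝ) / W) * (1 + (t : ℝ) ^ 2 / ((N : ℝ) / W)) := by
      rw [hT]
      generalize (N : ℝ) / W = q at hM2 hN1 ⊢
      have e : 2 * q * (1 + (t : ℝ) ^ 2 / q) = 2 * q + 2 * (t : ℝ) ^ 2 := by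
        field_simp
      rw [e]
      have : 0 ≤ (t : ℝ) ^ 2 := by positivity
      linarith
    have hcc : 0 ≤ 1 + (t : ℝ) ^ 2 / ((N : ℝ) / W) := by positivity
    calc C1 * T * V' * √m ≤ C1 * (2 * ((N : ℝ) / W) * (1 + (t : ℝ) ^ 2 / ((N : ℝ) / W))) *
          (C3 * (t : ℝ) ^ u * (C2 * V)) * √m := by
          apply mul_le_mul_of_nonneg_right _ hs
          exact mul_le_mul (mul_le_mul_of_nonneg_left hTb hC1.le) hVV hV'0.le (by positivity)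
      _ = (2 * C1 * C3 * C2 * ((N : ℝ) / W) * V) * ((t : ℝ) ^ u * (1 + (t : ℝ) ^ 2 / ((N : ℝ) / W)) * √m) := by
          ring
      _ ≤ (Lam * √m) * ((t : ℝ) ^ u * (1 + (t : ℝ) ^ 2 / ((N : ℝ) / W)) * √m) :=
          mul_le_mul_of_nonneg_right hd (mul_nonneg (mul_nonneg (by linarith) hcc) hs)
      _ = Lam * (t : ℝ) ^ u * (1 + (t : ℝ) ^ 2 / ((N : ℝ) / W)) * (√m * √m) := by ring
      _ = _ := by rw [← e2]
  · -- only the denominator one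
    push Not at hty
    obtain ⟨p0, hp0, hp0W, hp0t⟩ := hty
    have h1 : (Icc 1 t).filter (fun f => f.Coprime W) ⊆ {1} := by
      intro f hf
      rw [mem_filter, mem_Icc] at hf
      rw [mem_singleton]
      by_contra hcon
      obtain ⟨p, hp, hpf⟩ := Nat.exists_prime_and_dvd hcon
      have hpf' : p ≤ f := Nat.le_of_dvd (by omega) hpf
      have hpW : p ∣ W := by
        rw [hy0 p hp]
        have h2 := (hy0 p0 hp0).1 hp0W
        have h3 : p ≤ p0 := by nlinarith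
        have h4 : (p : ℝ) ≤ p0 := by exact_mod_cast h3
        linarith
      have h5 : p ∣ Nat.gcd f W := Nat.dvd_gcd hpf hpW
      rw [hf.2] at h5
      exact hp.one_lt.ne' (Nat.dvd_one.1 h5)
    have h2 : ∑ f ∈ (Icc 1 t).filter (fun f => f.Coprime W), EE2 B1 B2 f ≤ (B1.card : ℝ) * B2.card := by
      refine (sum_le_sum_of_subset_of_nonneg h1 (fun f _ _ => EE2_nonneg _ _ _)).trans ?_
      rw [sum_singleton, EE2_one]
    refine h2.trans ?_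
    have h3 : (1 : ℝ) ≤ 1 + (t : ℝ) ^ 2 / ((N : ℝ) / W) := by
      have : 0 ≤ (t : ℝ) ^ 2 / ((N : ℝ) / W) := by positivity
      linarith
    exact le_mul_of_one_le_left (mul_nonneg (Nat.cast_nonneg _) (Nat.cast_nonneg _))
      (one_le_mul_of_one_le_of_one_le hLt h3)

end Pool.Agent.H540.DS
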