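import Pool.Agent.H540.DS.Sum
import Pool.Graph.R_seed8.Y882.KW.Core4

/-! The lower bound for the number of pairs with a positive weight. -/

set_option autoImplicit false

namespace Pool.Agent.H540.DS

open Finset Polynomial
open Pool.Agent.W23.DC
open Pool.Agent.Y882.PX
open Pool.Agent.Y882
open Pool.Agent.Y882.KW

open Classical in
theorem count_low (F : ℤ[X]) (Y : ℕ) (ζ υ aw bw : ℝ) (hb : 0 ≤ bw) (hab : bw * υ ≤ aw)
    (c : Finset ℕ → ℝ)
    (hcN : ∀ N : ℕ, VV (PZ Y υ) c (fun p => if p ∣ N then 1 else 0) ≤ WW Y ζ υ aw bw N)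
    (A1 A2 : Finset ℤ) (w z0 : ℝ) (P1 : Finset ℕ)
    (hP1 : ∀ p ∈ PZ Y υ, w < (p : ℝ) → (p : ℝ) ≤ z0 → p ∈ P1) (hwz : w ≤ z0) (Nz : ℤ × ℤ → ℕ)
    (hs : ∀ z ∈ A1 ×ˢ A2, ∀ p ∈ PZ Y υ, (p : ℝ) ≤ w → ¬ p ∣ Nz z)
    (hl : ∀ z ∈ A1 ×ˢ A2, ∀ p ∈ PZ Y υ, w < (p : ℝ) → (p ∣ Nz z ↔ (p : ℤ) ∣ F.eval (z.1 - z.2))) :
    (MP F A1 A2 P1 1 : ℝ) * VV (PZ Y υ) c (fun p => if z0 < (p : ℝ) then xx F p else 0) +
      ∑ T ∈ ((PZ Y υ).filter (fun p : ℕ => z0 < (p : ℝ))).powerset,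
        c T * ((MP F A1 A2 P1 (∏ p ∈ T, p) : ℝ) - (∏ p ∈ T, xx F p) * MP F A1 A2 P1 1) ≤
      (((A1 ×ˢ A2).filter (fun z => 0 < WW Y ζ υ aw bw (Nz z))).card : ℝ) := by
  set P2 := (PZ Y υ).filter (fun p : ℕ => z0 < (p : ℝ)) with hP2
  have hPZp : ∀ p ∈ PZ Y υ, p.Prime := by
    intro p hp
    unfold PZ at hp
    rw [mem_filter] at hp
    exact hp.2.1
  have hP2p : ∀ p ∈ P2, p.Prime := fun p hp => hPZp p (mem_filter.1 hp).1
  -- restriction of the sums to the subsets of `P2`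
  have hres : ∀ u : ℕ → ℝ, VV (PZ Y υ) c (fun p => if z0 < (p : ℝ) then u p else 0) =
      ∑ T ∈ P2.powerset, c T * ∏ p ∈ T, u p := by
    intro u
    unfold VV
    symm
    have hsub : P2.powerset ⊆ (PZ Y υ).powerset := powerset_mono.2 (filter_subset _ _)
    rw [← sum_subset hsub]
    · apply sum_congr rfl
      intro T hT
      rw [mem_powerset] at hT
      congr 1
      apply prod_congr rfl
      intro p hp
      beta_reduce
      rw [if_pos (mem_filter.1 (hT hp)).2]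
    · intro T hT hT'
      rw [mem_powerset] at hT hT'
      obtain ⟨p, hp, hp'⟩ := not_subset.1 hT'
      have h1 : ¬ z0 < (p : ℝ) := fun h => hp' (mem_filter.2 ⟨hT hp, h⟩)
      rw [prod_eq_zero hp (by beta_reduce; rw [if_neg h1]), mul_zero]
  have hz : ∀ z ∈ JP F A1 A2 P1, VV (PZ Y υ) c (fun p => if p ∣ Nz z then 1 else 0) =
      ∑ T ∈ P2.powerset, c T * (if ((∏ p ∈ T, p : ℕ) : ℤ) ∣ F.eval (z.1 - z.2) then 1 else 0) := by
    intro z hz
    unfold JP at hz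
    rw [mem_filter] at hz
    have h1 : VV (PZ Y υ) c (fun p => if p ∣ Nz z then 1 else 0) =
        VV (PZ Y υ) c (fun p => if z0 < (p : ℝ) then
          (if (p : ℤ) ∣ F.eval (z.1 - z.2) then 1 else 0) else 0) := by
      unfold VV
      apply sum_congr rfl
      intro T hT
      rw [mem_powerset] at hT
      congr 1
      apply prod_congr rfl
      intro p hp
      beta_reduce
      by_cases hpz : z0 < (p : ℝ)
      · rw [if_pos hpz]
        simp only [hl z hz.1 p (hT hp) (hwz.trans_lt hpz)]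
      · rw [if_neg hpz]
        push Not at hpz
        by_cases hpw : w < (p : ℝ)
        · rw [if_neg]
          intro h
          exact hz.2 p (hP1 p (hT hp) hpw hpz) ((hl z hz.1 p (hT hp) hpw).1 h)
        · push Not at hpw
          rw [if_neg (hs z hz.1 p (hT hp) hpw)]
    rw [h1, hres]
    apply sum_congr rfl
    intro T hT
    rw [mem_powerset] at hT
    congr 1
    rw [prod_boole]
    simp only [prod_dvd_int T (fun p hp => hP2p p (hT hp))]
  have hsum : ∑ z ∈ JP F A1 A2 P1, VV (PZ Y υ) c (fun p => if p ∣ Nz z then 1 else 0) =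
      ∑ T ∈ P2.powerset, c T * (MP F A1 A2 P1 (∏ p ∈ T, p) : ℝ) := by
    rw [sum_congr rfl hz, sum_comm]
    apply sum_congr rfl
    intro T _
    rw [← mul_sum, sum_boole]
    rfl
  have hmain : (MP F A1 A2 P1 1 : ℝ) * VV (PZ Y υ) c (fun p => if z0 < (p : ℝ) then xx F p else 0) +
      ∑ T ∈ P2.powerset,
        c T * ((MP F A1 A2 P1 (∏ p ∈ T, p) : ℝ) - (∏ p ∈ T, xx F p) * MP F A1 A2 P1 1) =
      ∑ T ∈ P2.powerset, c T * (MP F A1 A2 P1 (∏ p ∈ T, p) : ℝ) := by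
    rw [hres, mul_sum, ← sum_add_distrib]
    apply sum_congr rfl
    intro T _
    ring
  rw [hmain, ← hsum]
  calc ∑ z ∈ JP F A1 A2 P1, VV (PZ Y υ) c (fun p => if p ∣ Nz z then 1 else 0) ≤
      ∑ z ∈ JP F A1 A2 P1, WW Y ζ υ aw bw (Nz z) := sum_le_sum fun z _ => hcN (Nz z)
    _ ≤ ∑ z ∈ JP F A1 A2 P1, (if 0 < WW Y ζ υ aw bw (Nz z) then (1 : ℝ) else 0) := by
        apply sum_le_sum
        intro z _
        split_ifs with h
        · exact WW_le_one Y ζ υ aw bw hb hab (Nz z)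
        · exact not_lt.1 h
    _ = (((JP F A1 A2 P1).filter (fun z => 0 < WW Y ζ υ aw bw (Nz z))).card : ℝ) := by
        rw [sum_boole]
    _ ≤ _ := by
        have : (JP F A1 A2 P1).filter (fun z => 0 < WW Y ζ υ aw bw (Nz z)) ⊆
            (A1 ×ˢ A2).filter (fun z => 0 < WW Y ζ υ aw bw (Nz z)) := by
          apply filter_subset_filter
          unfold JP
          exact filter_subset _ _
        exact_mod_cast card_le_card this

end Pool.Agent.H540.DS
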