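import Pool.Agent.H540.DS.Num

/-! The numerical conditions. -/

set_option autoImplicit false

namespace Pool.Agent.H540.DS

open Finset Filter

/-- the list of the numerical conditions, `L = log N`, `l = log log N` -/
structure Cond (K B : ℕ) (K0 cV Ce f cM e1 ε ν ν' τ3 : ℝ) (N : ℕ) : Prop where
  n3 : 3 ≤ N
  l1 : 3 * (K : ℝ) + 1 ≤ Real.log (Real.log N)
  w1 : 2 * (K : ℝ) + 3 ≤ Real.log N ^ (1 - ε / 2)
  z1 : Real.log N ^ B ≤ (N : ℝ) ^ (e1 / 2)
  zk : (Real.log N ^ B) ^ ⌈K0 * Real.log (Real.log N)⌉₊ ≤ (N : ℝ) ^ ν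
  p1 : (N : ℝ) ^ (-ν') ≤ 1 / Real.log N ^ (4 * K + 10)
  q1 : (5 * 9 ^ K / cV) * (32 * Ce + 6) ≤ Real.log N
  q2 : (3 * (B * Real.log (Real.log N))) ^ (2 * K) / cV ≤ Real.log N ^ (ε / 32)
  q3 : Ce * (8 * (2 + 2 * (B * Real.log (Real.log N) * (K0 * Real.log (Real.log N) + 1)))) ≤
    Real.log N ^ (ε / 32)
  q4 : Real.log N * (N : ℝ) ^ (-(τ3 / 2)) ≤ Real.log N ^ (-(ε / 4))
  q5 : 4 / Real.log N + 2 * Real.log N ^ (ε / 16 - ε / 4) ≤ Real.log N ^ (-(ε / 32))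
  q6 : 8 / (f * cM) ≤ Real.log N

theorem conds (K B : ℕ) (K0 cV Ce f cM e1 ε ν ν' τ3 : ℝ) (hB : 1 ≤ B) (hK0 : 0 ≤ K0)
    (he1 : 0 < e1) (hε : 0 < ε) (hε1 : ε ≤ 1) (hν : 0 < ν) (hν' : 0 < ν') (hτ3 : 0 < τ3) :
    ∀ᶠ N : ℕ in atTop, Cond K B K0 cV Ce f cM e1 ε ν ν' τ3 N := by
  have tl : Tendsto (fun N : ℕ => Real.log (Real.log N)) atTop atTop :=
    Real.tendsto_log_atTop.comp tlog
  have v1 := tl.eventually_ge_atTop (3 * (K : ℝ) + 1)
  have v2 := ((tendsto_rpow_atTop (show 0 < 1 - ε / 2 by linarith)).comp tlog).eventually_ge_atTop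
    (2 * (K : ℝ) + 3)
  have v3 := loN B (e1 / 2) 1 (by linarith)
  have v4 := loL 2 1 ((K0 + 1) * B / ν) one_pos
  have v5 := loN ((4 * K + 10 : ℕ) : ℝ) ν' 1 hν'
  have v6 := tlog.eventually_ge_atTop ((5 * 9 ^ K / cV) * (32 * Ce + 6))
  have v7 := loL ((2 * K : ℕ) : ℝ) (ε / 32) ((3 * B) ^ (2 * K) / cV) (by linarith)
  have v8 := loL 2 (ε / 32) (|Ce| * (8 * (2 + 2 * (B * (K0 + 1))))) (by linarith)
  have v9 := loN (1 + ε / 4) (τ3 / 2) 1 (by linarith)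
  have v10 : ∀ᶠ N : ℕ in atTop, 8 ≤ Real.log N ^ (1 - ε / 32) :=
    ((tendsto_rpow_atTop (show 0 < 1 - ε / 32 by linarith)).comp tlog).eventually_ge_atTop 8
  have v11 : ∀ᶠ N : ℕ in atTop, 4 ≤ Real.log N ^ (5 * ε / 32) :=
    ((tendsto_rpow_atTop (show 0 < 5 * ε / 32 by linarith)).comp tlog).eventually_ge_atTop 4
  have v12 := tlog.eventually_ge_atTop (8 / (f * cM))
  filter_upwards [eventually_ge_atTop 3, v1, v2, v3, v4, v5, v6, v7, v8, v9, v10, v11, v12] with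
    N a0 a1 a2 a3 a4 a5 a6 a7 a8 a9 a10 a11 a12
  have hN3 : (3 : ℝ) ≤ N := by exact_mod_cast a0
  have hN0 : (0 : ℝ) < N := by linarith
  have hK0' : (0 : ℝ) ≤ K := Nat.cast_nonneg K
  set L : ℝ := Real.log N with hL
  set l : ℝ := Real.log L with hl
  have hl1 : 1 ≤ l := by linarith
  have hL0 : 0 < L := by
    by_contra h
    push Not at h
    have hLnn : 0 ≤ L := by rw [hL]; exact Real.log_nonneg (by linarith)
    have h0 : L = 0 := le_antisymm h hLnn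
    rw [hl, h0, Real.log_zero] at hl1
    linarith
  have hLe : Real.exp 1 ≤ L := by
    rw [← Real.le_log_iff_exp_le hL0]
    exact hl1
  have hL1 : 1 ≤ L := by
    have := Real.add_one_le_exp (1 : ℝ)
    linarith
  have hB0 : (1 : ℝ) ≤ B := by exact_mod_cast hB
  have hll : l ≤ l ^ 2 := by nlinarith
  refine ⟨a0, a1, a2, ?_, ?_, ?_, a6, ?_, ?_, ?_, ?_, a12⟩
  · rw [one_mul, Real.rpow_natCast] at a3
    exact a3
  · have h1 : (L ^ B) ^ ⌈K0 * l⌉₊ = Real.exp (⌈K0 * l⌉₊ * (B * l)) := by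
      rw [Real.exp_nat_mul, Real.exp_nat_mul, hl, Real.exp_log hL0]
    have h2 : (N : ℝ) ^ ν = Real.exp (L * ν) := by
      rw [Real.rpow_def_of_pos hN0]
    rw [h1, h2, Real.exp_le_exp]
    have h3 : (⌈K0 * l⌉₊ : ℝ) ≤ K0 * l + 1 := (Nat.ceil_lt_add_one (by positivity)).le
    have h4 : K0 * l + 1 ≤ (K0 + 1) * l := by nlinarith
    rw [Real.rpow_one] at a4
    have h5 : (K0 + 1) * B / ν * l ^ (2 : ℝ) = (K0 + 1) * B * l ^ 2 / ν := by
      rw [← Real.rpow_natCast l 2]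
      push_cast
      ring
    rw [h5, div_le_iff₀ hν] at a4
    calc (⌈K0 * l⌉₊ : ℝ) * (B * l) ≤ ((K0 + 1) * l) * (B * l) :=
          mul_le_mul_of_nonneg_right (h3.trans h4) (by positivity)
      _ = (K0 + 1) * B * l ^ 2 := by ring
      _ ≤ _ := a4
  · rw [one_mul, Real.rpow_natCast] at a5
    rw [Real.rpow_neg hN0.le, ← one_div]
    exact one_div_le_one_div_of_le (by positivity) a5
  · rw [Real.rpow_natCast] at a7
    refine le_trans (le_of_eq ?_) a7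
    rw [show (3 : ℝ) * (B * l) = (3 * B) * l by ring, mul_pow]
    ring
  · refine le_trans ?_ a8
    have h5 : l ^ (2 : ℝ) = l ^ 2 := by
      rw [← Real.rpow_natCast l 2]
      norm_num
    rw [h5]
    have h6 : Ce ≤ |Ce| := le_abs_self Ce
    have h7 : (8 : ℝ) * (2 + 2 * (B * l * (K0 * l + 1))) ≤ (8 * (2 + 2 * (B * (K0 + 1)))) * l ^ 2 := by
      have h8 : K0 * l + 1 ≤ (K0 + 1) * l := by nlinarith
      have h9 : B * l * (K0 * l + 1) ≤ B * l * ((K0 + 1) * l) :=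
        mul_le_mul_of_nonneg_left h8 (by positivity)
      have h10 : (1 : ℝ) ≤ l ^ 2 := by nlinarith
      nlinarith
    have h11 : 0 ≤ (8 : ℝ) * (2 + 2 * (B * l * (K0 * l + 1))) := by positivity
    calc Ce * (8 * (2 + 2 * (B * l * (K0 * l + 1)))) ≤ |Ce| * (8 * (2 + 2 * (B * l * (K0 * l + 1)))) :=
          mul_le_mul_of_nonneg_right h6 h11
      _ ≤ |Ce| * ((8 * (2 + 2 * (B * (K0 + 1)))) * l ^ 2) :=
          mul_le_mul_of_nonneg_left h7 (abs_nonneg _)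
      _ = _ := by ring
  · rw [one_mul, Real.rpow_add hL0, Real.rpow_one] at a9
    rw [Real.rpow_neg hN0.le, Real.rpow_neg hL0.le, ← one_div, ← one_div, mul_one_div,
      div_le_div_iff₀ (by positivity) (by positivity), one_mul]
    exact a9
  · have h1 : L ^ (ε / 16 - ε / 4) = L ^ (-(ε / 32)) * L ^ (-(5 * ε / 32)) := by
      rw [← Real.rpow_add hL0]
      congr 1
      ring
    have h2 : 4 / L = L ^ (-(ε / 32)) * (4 * L ^ (-(1 - ε / 32))) := by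
      rw [mul_left_comm, ← Real.rpow_add hL0, show -(ε / 32) + -(1 - ε / 32) = -1 by ring,
        Real.rpow_neg_one]
      rfl
    rw [h1, h2]
    have h3 : 4 * L ^ (-(1 - ε / 32)) ≤ 1 / 2 := by
      rw [Real.rpow_neg hL0.le, ← div_eq_mul_inv, div_le_div_iff₀ (by positivity) (by norm_num)]
      linarith
    have h4 : L ^ (-(5 * ε / 32)) ≤ 1 / 4 := by
      rw [Real.rpow_neg hL0.le, ← one_div]
      exact one_div_le_one_div_of_le (by norm_num) a11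
    have h5 : 0 ≤ L ^ (-(ε / 32)) := by positivity
    have h6 := mul_le_mul_of_nonneg_left h3 h5
    have h7 := mul_le_mul_of_nonneg_left h4 h5
    linarith

end Pool.Agent.H540.DS
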