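import Pool.Agent.H540.DS.Eng
import Pool.Agent.H540.DS.LSC

/-! Preparations for the final theorem. -/

set_option autoImplicit false

namespace Pool.Agent.H540.DS

open Finset Filter Polynomial
open Pool.Agent.W23.DC
open Pool.Agent.Y882.PX
open Pool.Agent.Y882
open Pool.Agent.Y882.KW

theorem exists_cut (S : Finset ℕ) (h : ℕ) (hh : h ≤ S.card) :
    ∃ t : ℕ, (S.filter (fun a => a < t)).card = h := by
  classical
  have hex : ∃ t : ℕ, h ≤ (S.filter (fun a => a < t)).card := by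
    refine ⟨S.sup id + 1, ?_⟩
    rw [filter_true_of_mem]
    · exact hh
    · intro a ha
      exact Nat.lt_succ_of_le (le_sup (f := id) ha)
  refine ⟨Nat.find hex, le_antisymm ?_ (Nat.find_spec hex)⟩
  rcases Nat.eq_zero_or_pos (Nat.find hex) with h0 | h0
  · rw [h0]
    simp
  · have h1 : ¬ h ≤ (S.filter (fun a => a < Nat.find hex - 1)).card := Nat.find_min hex (by omega)
    have h2 : S.filter (fun a => a < Nat.find hex) ⊆
        insert (Nat.find hex - 1) (S.filter (fun a => a < Nat.find hex - 1)) := by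
      intro a ha
      rw [mem_filter] at ha
      rw [mem_insert, mem_filter]
      by_cases h3 : a = Nat.find hex - 1
      · exact Or.inl h3
      · exact Or.inr ⟨ha.1, by omega⟩
    have h3 := (card_le_card h2).trans (card_insert_le _ _)
    omega

theorem exists_class (A : Finset ℕ) (W : ℕ) (hW : 0 < W) :
    ∃ r < W, A.card ≤ W * (A.filter (fun a => a % W = r)).card := by
  classical
  by_contra hcon
  push Not at hcon
  have h1 : A.card = ∑ r ∈ range W, (A.filter (fun a => a % W = r)).card :=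
    card_eq_sum_card_fiberwise (fun a _ => mem_coe.2 (mem_range.2 (Nat.mod_lt _ hW)))
  have h2 : ∑ r ∈ range W, W * (A.filter (fun a => a % W = r)).card < ∑ _r ∈ range W, A.card :=
    sum_lt_sum_of_nonempty ⟨0, mem_range.2 hW⟩ (fun r hr => hcon r (mem_range.1 hr))
  rw [← mul_sum, ← h1, sum_const, card_range, smul_eq_mul] at h2
  exact lt_irrefl _ h2

theorem eval_le (F : ℤ[X]) : ∃ C : ℕ, ∀ N m : ℕ, 1 ≤ N → m ≤ N →
    (F.eval (m : ℤ)).natAbs ≤ C * N ^ F.natDegree := by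
  refine ⟨∑ i ∈ range (F.natDegree + 1), (F.coeff i).natAbs, ?_⟩
  intro N m hN hm
  rw [eval_eq_sum_range, sum_mul]
  refine (Int.natAbs_sum_le _ _).trans ?_
  apply sum_le_sum
  intro i hi
  rw [mem_range] at hi
  rw [Int.natAbs_mul, Int.natAbs_pow, Int.natAbs_natCast]
  apply Nat.mul_le_mul_left
  exact (Nat.pow_le_pow_left hm i).trans (Nat.pow_le_pow_right hN (by omega))

/-- the modulus -/
noncomputable def WN (kk : ℕ) (x : ℝ) : ℕ := kk * primorial ⌊x⌋₊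

theorem WN_dvd (kk : ℕ) (x : ℝ) (p : ℕ) (hp : p.Prime) (hpx : (p : ℝ) ≤ x) : kk * p ∣ WN kk x := by
  unfold WN
  apply mul_dvd_mul_left
  unfold primorial
  apply dvd_prod_of_mem
  rw [mem_filter, mem_range]
  exact ⟨Nat.lt_succ_of_le (Nat.le_floor hpx), hp⟩

theorem WN_prime (kk : ℕ) (hkk : 0 < kk) (x : ℝ) (hx : (kk : ℝ) ≤ x) (p : ℕ) (hp : p.Prime)
    (h : p ∣ WN kk x) : (p : ℝ) ≤ x := by
  unfold WN at h
  rcases (Nat.Prime.dvd_mul hp).1 h with h | h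
  · have := Nat.le_of_dvd hkk h
    have h2 : (p : ℝ) ≤ kk := by exact_mod_cast this
    linarith
  · unfold primorial at h
    rw [Prime.dvd_finsetProd_iff hp.prime] at h
    obtain ⟨q, hq, hpq⟩ := h
    rw [mem_filter, mem_range] at hq
    rw [(Nat.prime_dvd_prime_iff_eq hp hq.2).1 hpq]
    have h3 : q ≤ ⌊x⌋₊ := by omega
    exact (Nat.le_floor_iff' hq.2.ne_zero).1 h3

theorem WN_le (kk : ℕ) (x : ℝ) (hx : 0 ≤ x) : (WN kk x : ℝ) ≤ kk * (4 : ℝ) ^ x := by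
  unfold WN
  push_cast
  apply mul_le_mul_of_nonneg_left _ (Nat.cast_nonneg _)
  have h1 : ((primorial ⌊x⌋₊ : ℕ) : ℝ) ≤ ((4 ^ ⌊x⌋₊ : ℕ) : ℝ) := by
    exact_mod_cast primorial_le_four_pow ⌊x⌋₊
  refine h1.trans ?_
  push_cast
  rw [← Real.rpow_natCast]
  exact Real.rpow_le_rpow_of_exponent_le (by norm_num) (Nat.floor_le hx)

/-- the quotient by `F 0` at multiples of the modulus -/
theorem val_facts (F : ℤ[X]) (h0 : F.eval 0 ≠ 0) (x : ℝ) (hx : ((F.eval 0).natAbs : ℝ) ≤ x) (m : ℤ)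
    (hm : ((WN (F.eval 0).natAbs x : ℕ) : ℤ) ∣ m) :
    (F.eval m).natAbs = (F.eval 0).natAbs * ((F.eval m).natAbs / (F.eval 0).natAbs) ∧
    (∀ p : ℕ, p.Prime → (p : ℝ) ≤ x → ¬ p ∣ (F.eval m).natAbs / (F.eval 0).natAbs) ∧
    (∀ p : ℕ, p.Prime → x < (p : ℝ) →
      (p ∣ (F.eval m).natAbs / (F.eval 0).natAbs ↔ (p : ℤ) ∣ F.eval m)) := by
  obtain ⟨kk, hkk⟩ : ∃ kk : ℕ, kk = (F.eval 0).natAbs := ⟨_, rfl⟩
  rw [← hkk] at hx hm ⊢
  have hk0 : 0 < kk := by rw [hkk]; exact Int.natAbs_pos.2 h0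
  have hsub : m ∣ F.eval m - F.eval 0 := by
    have := sub_dvd_eval_sub m 0 F
    rwa [sub_zero] at this
  have hkkm : (kk : ℤ) ∣ m := by
    refine dvd_trans ?_ hm
    unfold WN
    push_cast
    exact Dvd.intro _ rfl
  have hkF0 : (kk : ℤ) ∣ F.eval 0 := by
    rw [hkk]
    exact Int.natAbs_dvd.2 dvd_rfl
  have hkF : (kk : ℤ) ∣ F.eval m := by
    have h1 : (kk : ℤ) ∣ F.eval m - F.eval 0 := hkkm.trans hsub
    have h2 := dvd_add h1 hkF0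
    rwa [sub_add_cancel] at h2
  have hkFn : kk ∣ (F.eval m).natAbs := Int.natCast_dvd.1 hkF
  have e1 : (F.eval m).natAbs = kk * ((F.eval m).natAbs / kk) := (Nat.mul_div_cancel' hkFn).symm
  refine ⟨e1, ?_, ?_⟩
  · intro p hp hpx hpd
    have h1 : kk * p ∣ (F.eval m).natAbs := by
      rw [e1]
      exact mul_dvd_mul_left kk hpd
    have h2 : ((kk * p : ℕ) : ℤ) ∣ F.eval m := Int.natCast_dvd.2 h1
    have h3 : ((kk * p : ℕ) : ℤ) ∣ F.eval m - F.eval 0 :=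
      (dvd_trans (Int.natCast_dvd_natCast.2 (WN_dvd kk x p hp hpx)) hm).trans hsub
    have h4 : ((kk * p : ℕ) : ℤ) ∣ F.eval 0 := by
      have := dvd_sub h2 h3
      rwa [sub_sub_cancel] at this
    have h5 : kk * p ∣ kk := by
      have h6 := Int.natCast_dvd.1 h4
      rwa [← hkk] at h6
    have h6 := Nat.le_of_dvd hk0 h5
    have h7 := hp.two_le
    nlinarith
  · intro p hp hpx
    have hcop : ¬ p ∣ kk := by
      intro h
      have := Nat.le_of_dvd hk0 h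
      have h2 : (p : ℝ) ≤ kk := by exact_mod_cast this
      linarith
    rw [Int.natCast_dvd]
    constructor
    · intro h
      rw [e1]
      exact Dvd.dvd.mul_left h kk
    · intro h
      rw [e1] at h
      exact ((Nat.Prime.dvd_mul hp).1 h).resolve_left hcop

open Classical in
/-- few differences with a large square factor -/
theorem bad_count (F : ℤ[X]) (hF : Irreducible F) (hd : 0 < F.natDegree) :
    ∃ KK q0 : ℕ, ∀ (N : ℕ) (ζ υ : ℝ), 1 ≤ N → 0 ≤ ζ → υ ≤ 1 → (q0 : ℝ) ≤ (N : ℝ) ^ ζ →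
      (((Icc 1 N).filter (fun m : ℕ => ∃ q ∈ pr N ζ υ, ((q ^ 2 : ℕ) : ℤ) ∣ F.eval (m : ℤ))).card : ℝ) ≤
        KK * (2 * N / (N : ℝ) ^ ζ + (N : ℝ) ^ υ + 1) := by
  obtain ⟨KK, q0, H⟩ := Pool.Agent.K3h21.IR.sq_irr F hF hd
  refine ⟨KK, q0, ?_⟩
  intro N ζ υ hN hζ hυ hq0
  have hNr : (1 : ℝ) ≤ N := by exact_mod_cast hN
  have hN0 : (0 : ℝ) < N := by linarith
  rcases Nat.lt_or_ge N 2 with hN2 | hN2
  · have : N = 1 := by omega
    subst this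
    have hc : ((Icc 1 1).filter (fun m : ℕ => ∃ q ∈ pr 1 ζ υ, ((q ^ 2 : ℕ) : ℤ) ∣ F.eval (m : ℤ))) = ∅ := by
      rw [filter_eq_empty_iff]
      rintro m _ ⟨q, hq, _⟩
      unfold pr at hq
      rw [mem_filter, mem_Icc] at hq
      have := hq.2.1.two_le
      omega
    rw [hc]
    simp only [card_empty, Nat.cast_zero]
    positivity
  have hpr : ∀ q ∈ pr N ζ υ, q.Prime ∧ (N : ℝ) ^ ζ ≤ q ∧ (q : ℝ) < (N : ℝ) ^ υ ∧ 1 ≤ q ∧ q ≤ N := by
    intro q hq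
    unfold pr at hq
    rw [mem_filter, mem_Icc] at hq
    obtain ⟨⟨a1, a2⟩, a3, a4, a5⟩ := hq
    refine ⟨a3, ?_, (tt_lt N q υ hN2 a3.pos).1 a5, a1, a2⟩
    by_contra hcon
    push Not at hcon
    have := (tt_lt N q ζ hN2 a3.pos).2 hcon
    linarith
  have h1 : ((Icc 1 N).filter (fun m : ℕ => ∃ q ∈ pr N ζ υ, ((q ^ 2 : ℕ) : ℤ) ∣ F.eval (m : ℤ))) ⊆
      (pr N ζ υ).biUnion (fun q => (Icc 1 N).filter (fun j : ℕ =>
        ((q ^ 2 : ℕ) : ℤ) ∣ F.eval ((0 + j : ℕ) : ℤ))) := by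
    intro m hm
    rw [mem_filter] at hm
    obtain ⟨hm1, q, hq, hqm⟩ := hm
    rw [mem_biUnion]
    refine ⟨q, hq, ?_⟩
    rw [mem_filter, zero_add]
    exact ⟨hm1, hqm⟩
  have h2 : (((Icc 1 N).filter (fun m : ℕ => ∃ q ∈ pr N ζ υ, ((q ^ 2 : ℕ) : ℤ) ∣ F.eval (m : ℤ))).card : ℝ) ≤
      ∑ q ∈ pr N ζ υ, (((Icc 1 N).filter (fun j : ℕ =>
        ((q ^ 2 : ℕ) : ℤ) ∣ F.eval ((0 + j : ℕ) : ℤ))).card : ℝ) := by
    exact_mod_cast (card_le_card h1).trans card_biUnion_le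
  refine h2.trans ?_
  have h3 : ∑ q ∈ pr N ζ υ, (((Icc 1 N).filter (fun j : ℕ =>
        ((q ^ 2 : ℕ) : ℤ) ∣ F.eval ((0 + j : ℕ) : ℤ))).card : ℝ) ≤
      ∑ q ∈ pr N ζ υ, KK * (N * (1 / (q : ℝ) ^ 2) + 1) := by
    apply sum_le_sum
    intro q hq
    obtain ⟨a1, a2, _⟩ := hpr q hq
    exact H q a1 (by exact_mod_cast hq0.trans a2) 0 N
  refine h3.trans ?_
  rw [← mul_sum, sum_add_distrib, ← mul_sum, sum_const, nsmul_eq_mul, mul_one]
  apply mul_le_mul_of_nonneg_left _ (Nat.cast_nonneg _)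
  have h4 : ∑ q ∈ pr N ζ υ, 1 / (q : ℝ) ^ 2 ≤ 2 / (N : ℝ) ^ ζ := by
    have hNζ : (1 : ℝ) ≤ (N : ℝ) ^ ζ := Real.one_le_rpow hNr hζ
    set k := ⌈(N : ℝ) ^ ζ⌉₊ - 1 with hk
    have hk1 : 1 ≤ ⌈(N : ℝ) ^ ζ⌉₊ := Nat.one_le_ceil_iff.2 (by linarith)
    have h5 : pr N ζ υ ⊆ Ioo k (N + 1) := by
      intro q hq
      obtain ⟨_, a2, _, _, a5⟩ := hpr q hq
      rw [mem_Ioo]
      have : ⌈(N : ℝ) ^ ζ⌉₊ ≤ q := Nat.ceil_le.2 a2
      omega
    calc ∑ q ∈ pr N ζ υ, 1 / (q : ℝ) ^ 2 ≤ ∑ q ∈ Ioo k (N + 1), 1 / (q : ℝ) ^ 2 :=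
          sum_le_sum_of_subset_of_nonneg h5 (fun _ _ _ => by positivity)
      _ = ∑ q ∈ Ioo k (N + 1), ((q : ℝ) ^ 2)⁻¹ := by simp only [one_div]
      _ ≤ 2 / (k + 1) := sum_Ioo_inv_sq_le k (N + 1)
      _ ≤ 2 / (N : ℝ) ^ ζ := by
          apply div_le_div_of_nonneg_left (by norm_num) (by linarith)
          have h6 : ((k : ℝ) + 1) = (⌈(N : ℝ) ^ ζ⌉₊ : ℝ) := by
            rw [hk]
            push_cast [Nat.cast_sub hk1]
            ring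
          rw [h6]
          exact Nat.le_ceil _
  have h5 : ((pr N ζ υ).card : ℝ) ≤ (N : ℝ) ^ υ + 1 := by
    have h6 : pr N ζ υ ⊆ Icc 1 ⌊(N : ℝ) ^ υ⌋₊ := by
      intro q hq
      obtain ⟨_, _, a3, a4, _⟩ := hpr q hq
      rw [mem_Icc]
      exact ⟨a4, Nat.le_floor a3.le⟩
    have h7 := card_le_card h6
    rw [Nat.card_Icc, Nat.add_sub_cancel] at h7
    have h8 : ((pr N ζ υ).card : ℝ) ≤ (⌊(N : ℝ) ^ υ⌋₊ : ℝ) := by exact_mod_cast h7
    have h9 := Nat.floor_le (show 0 ≤ (N : ℝ) ^ υ by positivity)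
    linarith
  have h6 : (N : ℝ) * ∑ q ∈ pr N ζ υ, 1 / (q : ℝ) ^ 2 ≤ 2 * N / (N : ℝ) ^ ζ := by
    calc (N : ℝ) * ∑ q ∈ pr N ζ υ, 1 / (q : ℝ) ^ 2 ≤ N * (2 / (N : ℝ) ^ ζ) :=
          mul_le_mul_of_nonneg_left h4 hN0.le
      _ = _ := by ring
  linarith

end Pool.Agent.H540.DS
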