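import Pool.Agent.H540.DS.Core2
import Pool.Agent.H540.DS.LSZ3
import Pool.Agent.H540.DS.Diff2

/-! Dense subsets of sifted sets: preparations. -/

set_option autoImplicit false

namespace Pool.Agent.H540.DS

open Finset Filter Polynomial
open Pool.Agent.W23.DC
open Pool.Agent.Y882.PX
open Pool.Agent.Y882.KW
open Pool.Agent.Y843.HS (Pr VV)

theorem cop_PI (W0 : ℕ) (w0 w : ℝ) (hw : 0 ≤ w)
    (hW0p : ∀ p : ℕ, p.Prime → p ∣ W0 → (p : ℝ) ≤ w0) : W0.Coprime (pd (PI w0 w)) := by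
  unfold pd
  apply Nat.Coprime.prod_right
  intro p hp
  rw [mem_PI w0 w hw] at hp
  rw [Nat.coprime_comm, Nat.Prime.coprime_iff_not_dvd hp.1]
  intro h
  linarith [hW0p p hp.1 h, hp.2.1]

/-- the large sieve hypothesis for a set of elements in a sifted set, and for the residue classes -/
theorem LSHZ_all (k : ℕ) {κ u : ℝ} (hκ : 0 < κ) (hu : 0 < u) : ∃ (C : ℝ) (N0 : ℕ), 0 < C ∧
    ∀ N : ℕ, N0 ≤ N → ∀ (W0 : ℕ) (B1 B2 : Finset ℤ) (x1 x2 r1 r2 : ℤ) (Z : ℕ → Finset ℕ)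
      (w0 w Lam : ℝ), 0 < W0 → (∀ p : ℕ, p.Prime → (p ∣ W0 ↔ (p : ℝ) ≤ w0)) → 1 ≤ w0 → w0 ≤ w →
    (((W0 * pd (PI w0 w) : ℕ)) : ℝ) ≤ (N : ℝ) ^ (1 / 4 : ℝ) →
    InC B1 x1 N W0 r1 → InC B2 x2 N W0 r2 → ZC k ((N : ℝ) ^ κ) Z →
    (∀ a ∈ B1, ∀ p : ℕ, p.Prime → (p : ℝ) ≤ (N : ℝ) ^ κ → (a % p).toNat ∉ Z p) →
    (∀ a ∈ B2, ∀ p : ℕ, p.Prime → (p : ℝ) ≤ (N : ℝ) ^ κ → (a % p).toNat ∉ Z p) →
    1 ≤ Lam → 0 < (B1.card : ℝ) * B2.card →
    C * ((N : ℝ) / W0) * VV Z 0 ⌊(N : ℝ) ^ κ⌋₊ ≤ Lam * √((B1.card : ℝ) * B2.card) →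
    LSH B1 B2 W0 ((N : ℝ) / W0) Lam u ∧
    ∀ s1 s2 : ℤ, (B1.card : ℝ) * B2.card / (4 * (pd (PI w0 w) : ℝ) ^ 2) ≤
        ((cls B1 (pd (PI w0 w)) s1).card : ℝ) * (cls B2 (pd (PI w0 w)) s2).card →
        LSH (cls B1 (pd (PI w0 w)) s1) (cls B2 (pd (PI w0 w)) s2) (W0 * pd (PI w0 w))
          ((N : ℝ) / ((W0 * pd (PI w0 w) : ℕ) : ℝ)) Lam u := by
  obtain ⟨C, N0, hC, H⟩ := LSHZ k hκ hu
  refine ⟨2 * C, max N0 2, by positivity, ?_⟩
  intro N hN W0 B1 B2 x1 x2 r1 r2 Z w0 w Lam hW0 hW0p hw01 hw0w hWN hI1 hI2 hZ hZ1 hZ2 hLam hm hd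
  have hNN0 : N0 ≤ N := (le_max_left _ _).trans hN
  have hN2 : (2 : ℝ) ≤ N := by exact_mod_cast (le_max_right _ _).trans hN
  have hNp : (0 : ℝ) < N := by linarith
  have hw00 : 0 ≤ w := by linarith
  obtain ⟨W1, hW1⟩ : ∃ W1 : ℕ, W1 = pd (PI w0 w) := ⟨_, rfl⟩
  have hW1pos : 0 < W1 := by
    rw [hW1]
    exact pd_pos _ (fun p hp => ((mem_PI w0 w hw00 p).1 hp).1)
  rw [← hW1] at hWN ⊢
  have hcop : W0.Coprime W1 := by
    rw [hW1]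
    exact cop_PI W0 w0 w hw00 (fun p hp h => (hW0p p hp).1 h)
  have hW0r : (0 : ℝ) < W0 := by exact_mod_cast hW0
  have hW1r : (0 : ℝ) < W1 := by exact_mod_cast hW1pos
  have hW1' : (1 : ℝ) ≤ W1 := by exact_mod_cast hW1pos
  have hN1' : (N : ℝ) = (N : ℝ) ^ (1 : ℝ) := (Real.rpow_one _).symm
  -- sizes
  have hsz : ∀ W : ℕ, 0 < W → (W : ℝ) ≤ (N : ℝ) ^ (1 / 4 : ℝ) → W ≤ N ∧ (N : ℝ) ^ (1 / 2 : ℝ) ≤ (N : ℝ) / W := by
    intro W hW hWN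
    have hWr : (0 : ℝ) < W := by exact_mod_cast hW
    constructor
    · have : (W : ℝ) ≤ N := by
        refine hWN.trans ?_
        calc (N : ℝ) ^ (1 / 4 : ℝ) ≤ (N : ℝ) ^ (1 : ℝ) :=
              Real.rpow_le_rpow_of_exponent_le (by linarith) (by norm_num)
          _ = N := Real.rpow_one _
      exact_mod_cast this
    · rw [le_div_iff₀ hWr]
      calc (N : ℝ) ^ (1 / 2 : ℝ) * W ≤ (N : ℝ) ^ (1 / 2 : ℝ) * (N : ℝ) ^ (1 / 4 : ℝ) :=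
            mul_le_mul_of_nonneg_left hWN (by positivity)
        _ = (N : ℝ) ^ (1 / 2 + 1 / 4 : ℝ) := by rw [← Real.rpow_add hNp]
        _ ≤ (N : ℝ) ^ (1 : ℝ) := Real.rpow_le_rpow_of_exponent_le (by linarith) (by norm_num)
        _ = N := Real.rpow_one _
  have hW0N : (W0 : ℝ) ≤ (N : ℝ) ^ (1 / 4 : ℝ) := by
    refine le_trans ?_ hWN
    push_cast
    nlinarith
  obtain ⟨V, hV⟩ : ∃ V : ℝ, V = VV Z 0 ⌊(N : ℝ) ^ κ⌋₊ := ⟨_, rfl⟩
  rw [← hV] at hd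
  have hV0 : 0 < V := by
    rw [hV]
    apply VV_nonneg' k
    intro p hp hpY
    exact hZ p hp (hpY.trans (Nat.floor_le (by positivity)))
  have hsm : 0 ≤ √((B1.card : ℝ) * B2.card) := Real.sqrt_nonneg _
  constructor
  · obtain ⟨g1, g2⟩ := hsz W0 hW0 hW0N
    refine H N hNN0 W0 B1 B2 x1 x2 r1 r2 Z w0 Lam hW0 g1 g2 hI1 hI2 hZ hZ1 hZ2 hW0p hLam ?_
    rw [← hV]
    refine le_trans ?_ hd
    have : 0 ≤ C * ((N : ℝ) / W0) * V := by positivity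
    nlinarith
  · intro s1 s2 hden
    have hdpos : 0 < (B1.card : ℝ) * B2.card / (4 * (W1 : ℝ) ^ 2) := div_pos hm (by positivity)
    have hprod := hdpos.trans_le hden
    have hc1 : (cls B1 W1 s1).Nonempty := by
      rw [← card_pos]
      by_contra h
      have : (cls B1 W1 s1).card = 0 := by omega
      rw [this] at hprod
      simp at hprod
    have hc2 : (cls B2 W1 s2).Nonempty := by
      rw [← card_pos]
      by_contra h
      have : (cls B2 W1 s2).card = 0 := by omega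
      rw [this] at hprod
      simp at hprod
    obtain ⟨a1, ha1⟩ := hc1
    obtain ⟨a2, ha2⟩ := hc2
    have hJ1 := hI1.cls W1 hcop s1 a1 ha1
    have hJ2 := hI2.cls W1 hcop s2 a2 ha2
    have hWpos : 0 < W0 * W1 := Nat.mul_pos hW0 hW1pos
    obtain ⟨g1, g2⟩ := hsz (W0 * W1) hWpos hWN
    have hmem : ∀ (B : Finset ℤ) (s : ℤ), ∀ a ∈ cls B W1 s, a ∈ B := by
      intro B s a ha
      unfold cls at ha
      exact (mem_filter.1 ha).1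
    refine H N hNN0 (W0 * W1) (cls B1 W1 s1) (cls B2 W1 s2) x1 x2 _ _ Z w Lam hWpos g1 g2 hJ1 hJ2 hZ
      (fun a ha => hZ1 a (hmem B1 s1 a ha)) (fun a ha => hZ2 a (hmem B2 s2 a ha)) ?_ hLam ?_
    · intro p hp
      rw [Nat.Prime.dvd_mul hp, hW0p p hp]
      constructor
      · rintro (h | h)
        · linarith
        · rw [hW1] at h
          have h3 := dvd_pd (PI w0 w) (fun p hp => ((mem_PI w0 w hw00 p).1 hp).1) p hp h
          rw [mem_PI w0 w hw00] at h3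
          exact h3.2.2
      · intro h
        rcases le_or_gt (p : ℝ) w0 with h1 | h1
        · exact Or.inl h1
        · right
          rw [hW1]
          unfold pd
          apply dvd_prod_of_mem
          rw [mem_PI w0 w hw00]
          exact ⟨hp, h1, h⟩
    · rw [← hV]
      have h8 : √((B1.card : ℝ) * B2.card) / (2 * W1) ≤
          √(((cls B1 W1 s1).card : ℝ) * (cls B2 W1 s2).card) := by
        apply Real.le_sqrt_of_sq_le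
        refine le_trans (le_of_eq ?_) hden
        rw [div_pow, Real.sq_sqrt hm.le]
        ring
      refine le_trans ?_ (mul_le_mul_of_nonneg_left h8 (by linarith))
      have h10 : Lam * (√((B1.card : ℝ) * B2.card) / (2 * W1)) =
          Lam * √((B1.card : ℝ) * B2.card) / (2 * W1) := by ring
      rw [h10, le_div_iff₀ (by positivity)]
      have h9 : C * ((N : ℝ) / ((W0 * W1 : ℕ) : ℝ)) * V * (2 * W1) = 2 * C * ((N : ℝ) / W0) * V := by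
        push_cast
        field_simp
      rw [h9]
      exact hd

/-- lower bound for the sieve product -/
theorem VV_logN (k : ℕ) {κ : ℝ} (hκ : 0 < κ) : ∃ c : ℝ, 0 < c ∧ ∀ᶠ N : ℕ in atTop, ∀ Z : ℕ → Finset ℕ,
    ZC k ((N : ℝ) ^ κ) Z → c / Real.log N ^ (2 * k) ≤ VV Z 0 ⌊(N : ℝ) ^ κ⌋₊ := by
  obtain ⟨c1, hc1, H⟩ := Pool.Agent.Y843.HG.VV_low k
  refine ⟨c1 / κ ^ (2 * k), by positivity, ?_⟩
  have ev1 := ((tendsto_rpow_atTop hκ).comp tendsto_natCast_atTop_atTop).eventually_ge_atTop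
    (((2 * k + 3 : ℕ)) : ℝ)
  filter_upwards [ev1, eventually_ge_atTop 3] with N h1 h2 Z hZ
  have hN3 : (3 : ℝ) ≤ N := by exact_mod_cast h2
  have hNp : (0 : ℝ) < N := by linarith
  have h1' : (((2 * k + 3 : ℕ)) : ℝ) ≤ (N : ℝ) ^ κ := h1
  have hY : 2 * k + 3 ≤ ⌊(N : ℝ) ^ κ⌋₊ := Nat.le_floor h1'
  have hfl := Nat.floor_le (show 0 ≤ (N : ℝ) ^ κ by positivity)
  have h3 := H _ hY Z (by
    intro p hp
    rw [mem_Pr] at hp
    have : (p : ℝ) ≤ (⌊(N : ℝ) ^ κ⌋₊ : ℝ) := by exact_mod_cast hp.2.2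
    exact hZ p hp.1 (this.trans hfl))
  refine le_trans ?_ h3
  have hY3 : (3 : ℝ) ≤ (⌊(N : ℝ) ^ κ⌋₊ : ℝ) := by
    have : 3 ≤ ⌊(N : ℝ) ^ κ⌋₊ := by omega
    exact_mod_cast this
  have hlogY : 0 < Real.log (⌊(N : ℝ) ^ κ⌋₊ : ℝ) := Real.log_pos (by linarith)
  have h4 : Real.log (⌊(N : ℝ) ^ κ⌋₊ : ℝ) ≤ κ * Real.log N := by
    rw [← Real.log_rpow hNp]
    exact Real.log_le_log (by linarith) hfl
  rw [div_div, ← mul_pow]
  exact div_le_div_of_nonneg_left hc1.le (by positivity) (pow_le_pow_left₀ hlogY.le h4 _)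

/-- upper bound for a subset of a sifted set -/
theorem card_sifted (k : ℕ) {κ : ℝ} (hκ : 0 < κ) : ∃ C : ℝ, 0 < C ∧ ∀ N : ℕ, 1 ≤ N →
    ∀ Z : ℕ → Finset ℕ, ZC k ((N : ℝ) ^ κ) Z → ∀ A : Finset ℕ, A ⊆ Icc 1 N →
    (∀ n ∈ A, ∀ p : ℕ, p.Prime → (p : ℝ) ≤ (N : ℝ) ^ κ → n % p ∉ Z p) →
    (A.card : ℝ) ≤ C * (N * VV Z 0 ⌊(N : ℝ) ^ κ⌋₊) := by
  obtain ⟨C, hC, H⟩ := farey_sifted k hκ
  refine ⟨2 * C, by positivity, ?_⟩
  intro N hN Z hZ A hA hAZ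
  have hN1 : (1 : ℝ) ≤ N := by exact_mod_cast hN
  have h1 := H N hN Z hZ A hA hAZ 1 le_rfl
  have h2 : (range 1).filter (fun b => b.Coprime 1) = {0} := by decide
  rw [Icc_self, sum_singleton, h2, sum_singleton] at h1
  have h3 : ‖∑ n ∈ A, Pool.Agent.Helper112.ee ((n : ℝ) * ((0 : ℕ) : ℝ) / ((1 : ℕ) : ℝ))‖ ^ 2 =
      (A.card : ℝ) ^ 2 := by
    have h4 : ∀ n ∈ A, Pool.Agent.Helper112.ee ((n : ℝ) * ((0 : ℕ) : ℝ) / ((1 : ℕ) : ℝ)) = 1 := by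
      intro n _
      have : (n : ℝ) * ((0 : ℕ) : ℝ) / ((1 : ℕ) : ℝ) = 0 := by simp
      rw [this, Pool.Agent.Helper112.ls_ee_zero]
    rw [sum_congr rfl h4]
    simp
  rw [h3] at h1
  have h5 : VV Z (1 ^ 2) ⌊(N : ℝ) ^ κ⌋₊ = VV Z 0 ⌊(N : ℝ) ^ κ⌋₊ := by
    unfold VV
    apply prod_congr _ (fun _ _ => rfl)
    ext p
    rw [mem_Pr, mem_Pr]
    constructor
    · rintro ⟨a1, a2, a3⟩
      exact ⟨a1, a1.pos, a3⟩
    · rintro ⟨a1, a2, a3⟩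
      exact ⟨a1, by rw [one_pow]; exact a1.one_lt, a3⟩
  rw [h5] at h1
  have hV0 : 0 < VV Z 0 ⌊(N : ℝ) ^ κ⌋₊ := by
    apply VV_nonneg' k
    intro p hp hpY
    exact hZ p hp (hpY.trans (Nat.floor_le (by positivity)))
  rcases Nat.eq_zero_or_pos A.card with h0 | h0
  · rw [h0]
    push_cast
    positivity
  · have hA0 : (0 : ℝ) < A.card := by exact_mod_cast h0
    push_cast at h1
    have h6 : (A.card : ℝ) * A.card ≤ (2 * C * (N * VV Z 0 ⌊(N : ℝ) ^ κ⌋₊)) * A.card := by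
      calc (A.card : ℝ) * A.card = (A.card : ℝ) ^ 2 := by ring
        _ ≤ C * (N + 1 ^ 2) * VV Z 0 ⌊(N : ℝ) ^ κ⌋₊ * A.card := h1
        _ ≤ C * (N + N) * VV Z 0 ⌊(N : ℝ) ^ κ⌋₊ * A.card := by
            apply mul_le_mul_of_nonneg_right _ hA0.le
            apply mul_le_mul_of_nonneg_right _ hV0.le
            apply mul_le_mul_of_nonneg_left _ hC.le
            linarith
        _ = _ := by ring
    exact le_of_mul_le_mul_right h6 hA0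

end Pool.Agent.H540.DS
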