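import Pool.Agent.H540.DS.Rel

/-! **Almost prime values at the differences of the elements of a dense subset of a sifted set.** -/

set_option autoImplicit false

namespace Pool.Agent.H540.DS

open Finset Filter Polynomial
open Pool.Agent.W23.DC
open Pool.Agent.Y882.PX
open Pool.Agent.Y882.KW
open Pool.Agent.Y843.HS (Pr VV)

/-- numerical conditions -/
structure Cond5 (CF KK q0 N0 k : ℕ) (cV C6 CB CL CW C11 ε : ℝ) (N : ℕ) : Prop where
  n3 : 3 ≤ N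
  N0 : N0 ≤ N
  L1 : 1 ≤ Real.log N
  v1 : (CF : ℝ) ≤ (N : ℝ) ^ (1 / 1000 : ℝ)
  q1 : (q0 : ℝ) ≤ (N : ℝ) ^ (6 / 25 : ℝ)
  b1 : (KK : ℝ) * 4 ≤ (N : ℝ) ^ (1 / 100 : ℝ)
  e1 : CB ^ 2 * C6 ^ 2 ≤ Real.log N ^ (ε / 4)
  e2 : CL * C6 ≤ Real.log N ^ (ε / 2)
  e3 : 100 * CW * C6 ^ 2 ≤ Real.log N ^ (ε / 2)
  e4 : 100 * C11 * C6 ^ 2 ≤ Real.log N ^ (ε / 2)
  e5 : 200 ≤ Real.log N ^ (ε / 4)
  e6 : 96 / cV ≤ Real.log N
  e7 : 2 / cV * Real.log N ^ (2 * k + 1) ≤ (N : ℝ) ^ (1 / 100 : ℝ)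
  e8 : 1 / cV ^ 2 * Real.log N ^ (4 * k + 1) ≤ (N : ℝ) ^ (1 / 100 : ℝ)
  e9 : 3 ≤ (N : ℝ) ^ (1 / 100 : ℝ)

theorem conds5 (CF KK q0 N0 k : ℕ) (cV C6 CB CL CW C11 ε : ℝ) (hε : 0 < ε) :
    ∀ᶠ N : ℕ in atTop, Cond5 CF KK q0 N0 k cV C6 CB CL CW C11 ε N := by
  have v1 := tlog.eventually_ge_atTop 1
  have v2 : ∀ (c : ℝ) (κ : ℝ), 0 < κ → ∀ᶠ N : ℕ in atTop, c ≤ (N : ℝ) ^ κ := fun c κ hκ =>
    ((tendsto_rpow_atTop hκ).comp tendsto_natCast_atTop_atTop).eventually_ge_atTop _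
  have v3 : ∀ (c : ℝ) (κ : ℝ), 0 < κ → ∀ᶠ N : ℕ in atTop, c ≤ Real.log N ^ κ := fun c κ hκ =>
    ((tendsto_rpow_atTop hκ).comp tlog).eventually_ge_atTop _
  have v4 : ∀ (c : ℝ) (j : ℕ), ∀ᶠ N : ℕ in atTop, c * Real.log N ^ j ≤ (N : ℝ) ^ (1 / 100 : ℝ) := by
    intro c j
    filter_upwards [loN j (1 / 100) c (by norm_num)] with N h
    rw [Real.rpow_natCast] at h
    exact h
  filter_upwards [eventually_ge_atTop 3, eventually_ge_atTop N0, v1, v2 CF (1 / 1000) (by norm_num),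
    v2 q0 (6 / 25) (by norm_num), v2 ((KK : ℝ) * 4) (1 / 100) (by norm_num),
    v3 (CB ^ 2 * C6 ^ 2) (ε / 4) (by linarith), v3 (CL * C6) (ε / 2) (by linarith),
    v3 (100 * CW * C6 ^ 2) (ε / 2) (by linarith), v3 (100 * C11 * C6 ^ 2) (ε / 2) (by linarith),
    v3 200 (ε / 4) (by linarith), tlog.eventually_ge_atTop (96 / cV), v4 (2 / cV) (2 * k + 1),
    v4 (1 / cV ^ 2) (4 * k + 1), v2 3 (1 / 100) (by norm_num)] with
    N a0 a1 a2 a3 a4 a5 a6 a7 a8 a9 a10 a11 a12 a13 a14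
  exact ⟨a0, a1, a2, a3, a4, a5, a6, a7, a8, a9, a10, a11, a12, a13, a14⟩

/-- the final estimate -/
theorem arith7 (cc C6 CW C11 L M X E W0 B1c B2c Z lw : ℝ) (hc : 0 < cc) (hC6 : 0 < C6)
    (hL : 0 < L) (hX : 1 ≤ X) (hXE : X ≤ E) (hM : 0 < M)
    (hW0 : 0 < W0) (hW : W0 ≤ Real.exp (CW * E)) (h1 : C6 * M / X / (4 * W0) ≤ B1c)
    (h2 : C6 * M / X / (4 * W0) ≤ B2c) (hlw : 1 ≤ lw) (hZ : cc * (B1c * B2c) * (lw / L) ≤ Z)
    (hC : C11 = |Real.log (cc * C6 ^ 2 / 32)| + 2 + 2 * CW) :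
    2 * (Real.exp (-(C11 * E)) * (M ^ 2 / L)) ≤ Z := by
  have hX0 : 0 < X := by linarith
  have hb0 : 0 < C6 * M / X / (4 * W0) := by positivity
  have hE1 : 1 ≤ E := hX.trans hXE
  have e1 : (C6 * M / X / (4 * W0)) * (C6 * M / X / (4 * W0)) ≤ B1c * B2c :=
    mul_le_mul h1 h2 hb0.le (hb0.le.trans h1)
  have e2 : cc * ((C6 * M / X / (4 * W0)) * (C6 * M / X / (4 * W0))) * (1 / L) ≤
      cc * (B1c * B2c) * (lw / L) := by
    apply mul_le_mul (mul_le_mul_of_nonneg_left e1 hc.le) _ (by positivity)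
      (mul_nonneg hc.le (le_trans (by positivity) e1))
    exact div_le_div_of_nonneg_right hlw hL.le
  have e3 : cc * ((C6 * M / X / (4 * W0)) * (C6 * M / X / (4 * W0))) * (1 / L) =
      2 * ((cc * C6 ^ 2 / 32) * (1 / X ^ 2) * (1 / W0 ^ 2) * (M ^ 2 / L)) := by
    field_simp
    ring
  have e4 : Real.exp (-(C11 * E)) ≤ (cc * C6 ^ 2 / 32) * (1 / X ^ 2) * (1 / W0 ^ 2) := by
    have f1 : Real.exp (-(|Real.log (cc * C6 ^ 2 / 32)| * E)) ≤ cc * C6 ^ 2 / 32 := by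
      rw [← Real.le_log_iff_exp_le (by positivity)]
      have g1 : |Real.log (cc * C6 ^ 2 / 32)| * 1 ≤ |Real.log (cc * C6 ^ 2 / 32)| * E :=
        mul_le_mul_of_nonneg_left hE1 (abs_nonneg _)
      have g2 := neg_abs_le (Real.log (cc * C6 ^ 2 / 32))
      linarith
    have f2 : Real.exp (-(2 * E)) ≤ 1 / X ^ 2 := by
      rw [Real.exp_neg, ← one_div]
      apply one_div_le_one_div_of_le (by positivity)
      have g1 : X ≤ Real.exp E := by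
        have := Real.add_one_le_exp E
        linarith
      calc X ^ 2 ≤ Real.exp E ^ 2 := pow_le_pow_left₀ hX0.le g1 2
        _ = Real.exp (2 * E) := by
            rw [← Real.exp_nat_mul]
            push_cast
            rfl
    have f3 : Real.exp (-(2 * CW * E)) ≤ 1 / W0 ^ 2 := by
      rw [Real.exp_neg, ← one_div]
      apply one_div_le_one_div_of_le (by positivity)
      calc W0 ^ 2 ≤ Real.exp (CW * E) ^ 2 := pow_le_pow_left₀ hW0.le hW 2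
        _ = Real.exp (2 * CW * E) := by
            rw [← Real.exp_nat_mul]
            congr 1
            push_cast
            ring
    calc Real.exp (-(C11 * E)) = Real.exp (-(|Real.log (cc * C6 ^ 2 / 32)| * E)) * Real.exp (-(2 * E)) *
          Real.exp (-(2 * CW * E)) := by
          rw [← Real.exp_add, ← Real.exp_add, hC]
          congr 1
          ring
      _ ≤ _ := by
          apply mul_le_mul _ f3 (Real.exp_pos _).le (by positivity)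
          exact mul_le_mul f1 f2 (Real.exp_pos _).le (by positivity)
  calc 2 * (Real.exp (-(C11 * E)) * (M ^ 2 / L)) ≤
        2 * ((cc * C6 ^ 2 / 32) * (1 / X ^ 2) * (1 / W0 ^ 2) * (M ^ 2 / L)) := by
        apply mul_le_mul_of_nonneg_left _ (by norm_num)
        exact mul_le_mul_of_nonneg_right e4 (by positivity)
    _ = _ := e3.symm
    _ ≤ _ := e2.trans hZ

/-- the parameters -/
theorem rel_par (C4 C6 K1 kk ε u X CL CB : ℝ) (hC4 : 0 < C4) (hC6 : 1 ≤ C6) (hK1 : 3 ≤ K1) (hkk : 1 ≤ kk)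
    (hε : 0 < ε) (hε1 : ε ≤ 1) (hu : u = ε / 400) (hX : 1 ≤ X) (hCL : CL = 8 * C4 / C6 + 1)
    (hCB : CB = 32 * CL + K1 + kk + 3) (Lam w0 : ℝ) (hLam : Lam = 8 * C4 / C6 * X + 1)
    (hw0 : w0 = (32 * Lam + K1 + kk + 3) ^ (1 / (1 - 2 * u))) :
    1 ≤ Lam ∧ Lam ≤ CL * X ∧ w0 ≤ CB ^ 2 * X ^ (1 + ε / 2) ∧ kk ≤ w0 ∧ 3 ≤ w0 ∧ K1 ≤ w0 ∧
      32 * Lam ≤ w0 ^ (1 - 2 * u) := by
  have hX0 : 0 < X := by linarith
  have h0 : 0 ≤ 8 * C4 / C6 := by positivity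
  have hLam1 : 1 ≤ Lam := by
    rw [hLam]
    have : 0 ≤ 8 * C4 / C6 * X := by positivity
    linarith
  have hLamX : Lam ≤ CL * X := by
    rw [hLam, hCL, add_mul, one_mul]
    linarith
  have hCB1 : 1 ≤ CB := by rw [hCB, hCL]; linarith
  obtain ⟨bs, hbs⟩ : ∃ bs : ℝ, bs = 32 * Lam + K1 + kk + 3 := ⟨_, rfl⟩
  have hbs1 : 1 ≤ bs := by rw [hbs]; linarith
  have hbsX : bs ≤ CB * X := by
    have h1 : K1 ≤ K1 * X := le_mul_of_one_le_right (by linarith) hX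
    have h2 : kk ≤ kk * X := le_mul_of_one_le_right (by linarith) hX
    have h3 : 32 * Lam ≤ 32 * (CL * X) := mul_le_mul_of_nonneg_left hLamX (by norm_num)
    have h4 : CB * X = 32 * (CL * X) + K1 * X + kk * X + 3 * X := by rw [hCB]; ring
    rw [hbs, h4]
    linarith
  have h12u : 0 < 1 - 2 * u := by rw [hu]; linarith
  have he1 : 1 ≤ 1 / (1 - 2 * u) := by
    rw [le_div_iff₀ h12u, hu]
    linarith
  have he2 : 1 / (1 - 2 * u) ≤ 1 + ε / 2 := by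
    rw [div_le_iff₀ h12u, hu]
    nlinarith
  rw [← hbs] at hw0
  have hbw : bs ≤ w0 := by
    rw [hw0]
    calc bs = bs ^ (1 : ℝ) := (Real.rpow_one _).symm
      _ ≤ _ := Real.rpow_le_rpow_of_exponent_le hbs1 he1
  have hw0pow : w0 ^ (1 - 2 * u) = bs := by
    rw [hw0, ← Real.rpow_mul (by linarith), one_div_mul_cancel h12u.ne', Real.rpow_one]
  have hw0E : w0 ≤ CB ^ 2 * X ^ (1 + ε / 2) := by
    rw [hw0]
    calc bs ^ (1 / (1 - 2 * u)) ≤ bs ^ (1 + ε / 2) := Real.rpow_le_rpow_of_exponent_le hbs1 he2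
      _ ≤ (CB * X) ^ (1 + ε / 2) := Real.rpow_le_rpow (by linarith) hbsX (by linarith)
      _ = CB ^ (1 + ε / 2) * X ^ (1 + ε / 2) := by rw [Real.mul_rpow (by linarith) hX0.le]
      _ ≤ CB ^ (2 : ℝ) * X ^ (1 + ε / 2) := by
          apply mul_le_mul_of_nonneg_right _ (by positivity)
          exact Real.rpow_le_rpow_of_exponent_le hCB1 (by linarith)
      _ = CB ^ 2 * X ^ (1 + ε / 2) := by
          rw [← Real.rpow_natCast]
          norm_num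
  refine ⟨hLam1, hLamX, hw0E, ?_, ?_, ?_, ?_⟩
  · linarith
  · linarith
  · linarith
  · rw [hw0pow, hbs]
    linarith

/-- the size of the parameters -/
theorem rel_par2 (C6 ε L X : ℝ) (hC6 : 1 ≤ C6) (hε : 0 < ε) (hε1 : ε ≤ 1) (hX : 1 ≤ X) (hL : 1 ≤ L)
    (hXL : X ≤ C6 * L ^ (1 - ε)) : X ^ (1 + ε / 2) ≤ C6 ^ 2 * L ^ (1 - ε / 2) := by
  have hL0 : 0 < L := by linarith
  have hX0 : 0 < X := by linarith
  have hC60 : 0 < C6 := by linarith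
  have hLε0 : 0 < L ^ (1 - ε) := by positivity
  calc X ^ (1 + ε / 2) ≤ (C6 * L ^ (1 - ε)) ^ (1 + ε / 2) :=
        Real.rpow_le_rpow hX0.le hXL (by linarith)
    _ = C6 ^ (1 + ε / 2) * L ^ ((1 - ε) * (1 + ε / 2)) := by
        rw [Real.mul_rpow hC60.le hLε0.le, ← Real.rpow_mul hL0.le]
    _ ≤ C6 ^ (2 : ℝ) * L ^ (1 - ε / 2) := by
        apply mul_le_mul _ _ (by positivity) (by positivity)
        · exact Real.rpow_le_rpow_of_exponent_le hC6 (by linarith)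
        · apply Real.rpow_le_rpow_of_exponent_le hL
          nlinarith
    _ = _ := by
        rw [← Real.rpow_natCast]
        norm_num

theorem log_four_le : Real.log 4 ≤ 2 := by
  have h1 : Real.log 4 = 2 * Real.log 2 := by
    rw [show (4 : ℝ) = 2 ^ 2 by norm_num, Real.log_pow]
    norm_num
  have := Real.log_two_lt_d9
  linarith

theorem rel_W0 (kk : ℕ) (w0 CB E : ℝ) (hE : 1 ≤ E) (hw3 : 3 ≤ w0) (hw : w0 ≤ CB ^ 2 * E) :
    (WN kk w0 : ℝ) ≤ Real.exp ((kk + 2 * CB ^ 2) * E) := by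
  have hkkr : (0 : ℝ) ≤ kk := Nat.cast_nonneg kk
  refine (WN_le kk w0 (by linarith)).trans ?_
  have g1 : (kk : ℝ) ≤ Real.exp (kk * E) := by
    have h1 := Real.add_one_le_exp ((kk : ℝ) * E)
    have h2 : (kk : ℝ) * 1 ≤ kk * E := mul_le_mul_of_nonneg_left hE hkkr
    linarith
  have g2 : (4 : ℝ) ^ w0 ≤ Real.exp (2 * CB ^ 2 * E) := by
    rw [Real.rpow_def_of_pos (by norm_num : (0 : ℝ) < 4), Real.exp_le_exp]
    have : Real.log 4 * w0 ≤ 2 * (CB ^ 2 * E) := mul_le_mul log_four_le hw (by linarith) (by norm_num)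
    linarith
  calc (kk : ℝ) * 4 ^ w0 ≤ Real.exp (kk * E) * Real.exp (2 * CB ^ 2 * E) :=
        mul_le_mul g1 g2 (by positivity) (Real.exp_pos _).le
    _ = Real.exp ((kk + 2 * CB ^ 2) * E) := by
        rw [← Real.exp_add]
        congr 1
        ring

open Classical in
/-- **From pairs with positive weight to almost primes.** -/
theorem extract (F : ℤ[X]) (hF : Irreducible F) (hd : 0 < F.natDegree) (h0 : F.eval 0 ≠ 0) (r : ℕ)
    (hr : 9 / 8 + ((F.natDegree : ℝ) + 1 / 1000) / (24 / 25 * (24 / 25)) ≤ r + 1)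
    (ζ υ lam : ℝ) (hζ' : ζ = 6 / 25) (hυ' : υ = 24 / 25 * (24 / 25)) (hlam : lam = 8 / 9) :
    ∀ᶠ N : ℕ in atTop, ∀ (A B1 B2 : Finset ℕ) (w0 : ℝ), A ⊆ Icc 1 N → B1 ⊆ A → B2 ⊆ A →
      (∀ a ∈ B1, ∀ b ∈ B2, b < a) → ((F.eval 0).natAbs : ℝ) ≤ w0 →
      (∀ a ∈ B1, ∀ b ∈ B2, ((WN (F.eval 0).natAbs w0 : ℕ) : ℤ) ∣ (a : ℤ) - b) →
      ((((B1.map Nat.castEmbedding ×ˢ B2.map Nat.castEmbedding).filter
        (fun z : ℤ × ℤ => 0 < WW N ζ υ lam (lam / υ) ((F.eval (z.1 - z.2)).natAbs /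
          (F.eval 0).natAbs))).card : ℕ) : ℝ) - (N : ℝ) ^ (1.94 : ℝ) ≤
        (((A ×ˢ A).filter (fun z : ℕ × ℕ => z.2 < z.1 ∧
        GoodF F r ((N : ℝ) ^ (6 / 25 : ℝ)) (z.1 - z.2))).card : ℝ) := by
  obtain ⟨kk, hkk⟩ : ∃ kk : ℕ, kk = (F.eval 0).natAbs := ⟨_, rfl⟩
  have hkk0 : 0 < kk := by rw [hkk]; exact Int.natAbs_pos.2 h0
  have hυ0 : 0 < υ := by rw [hυ']; norm_num
  obtain ⟨CF, HCF⟩ := eval_le F
  obtain ⟨KK, q0, HB⟩ := bad_count F hF hd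
  have v2 : ∀ (c : ℝ) (κ : ℝ), 0 < κ → ∀ᶠ N : ℕ in atTop, c ≤ (N : ℝ) ^ κ := fun c κ hκ =>
    ((tendsto_rpow_atTop hκ).comp tendsto_natCast_atTop_atTop).eventually_ge_atTop _
  filter_upwards [eventually_ge_atTop 3, v2 CF (1 / 1000) (by norm_num), v2 q0 (6 / 25) (by norm_num),
    v2 ((KK : ℝ) * 4) (1 / 100) (by norm_num), v2 3 (1 / 100) (by norm_num)] with
    N c1 c4 c5 c6 c15 A B1 B2 w0 hA hB1 hB2 hlt hkw0 hdz
  have hN3 : (3 : ℝ) ≤ N := by exact_mod_cast c1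
  have hNp : (0 : ℝ) < N := by linarith
  have hN1 : (1 : ℝ) ≤ N := by linarith
  have hpow : ∀ a b : ℝ, a ≤ b → (N : ℝ) ^ a ≤ (N : ℝ) ^ b := fun a b h =>
    Real.rpow_le_rpow_of_exponent_le hN1 h
  have hN1' : (N : ℝ) = (N : ℝ) ^ (1 : ℝ) := (Real.rpow_one _).symm
  have hval : ∀ a ∈ B1, ∀ b ∈ B2, _ := fun a ha b hb =>
    val_facts F h0 w0 hkw0 ((a : ℤ) - b) (hdz a ha b hb)
  rw [← hkk] at hval ⊢
  have hmem : ∀ z ∈ B1.map Nat.castEmbedding ×ˢ B2.map Nat.castEmbedding,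
      ∃ a ∈ B1, ∃ b ∈ B2, z = ((a : ℤ), (b : ℤ)) := by
    rintro ⟨u, v⟩ hz
    rw [mem_product, Finset.mem_map, Finset.mem_map] at hz
    obtain ⟨⟨a, ha, hau⟩, b, hb, hbv⟩ := hz
    simp only [Nat.castEmbedding_apply] at hau hbv
    exact ⟨a, ha, b, hb, by rw [hau, hbv]⟩
  obtain ⟨Zg, hZg⟩ : ∃ Zg : Finset (ℤ × ℤ), Zg = (B1.map Nat.castEmbedding ×ˢ B2.map Nat.castEmbedding).filter
      (fun z : ℤ × ℤ => 0 < WW N ζ υ lam (lam / υ) ((F.eval (z.1 - z.2)).natAbs / kk)) := ⟨_, rfl⟩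
  obtain ⟨Zb, hZb⟩ : ∃ Zb : Finset (ℤ × ℤ), Zb =
      (B1.map Nat.castEmbedding ×ˢ B2.map Nat.castEmbedding).filter (fun z : ℤ × ℤ =>
      ∃ q ∈ pr N ζ υ, q ^ 2 ∣ (F.eval (z.1 - z.2)).natAbs / kk) := ⟨_, rfl⟩
  rw [← hZg]
  have hbadc := bad_pairs F B1 B2 N kk (pr N ζ υ) (hB1.trans hA) hlt (fun a ha b hb => by
    rw [(hval a ha b hb).1]
    rw [Nat.mul_div_cancel_left _ hkk0]
    exact Dvd.intro_left _ rfl)
  rw [← hZb] at hbadc
  have hbad2 := HB N ζ υ (by omega) (by rw [hζ']; norm_num) (by rw [hυ']; norm_num) (by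
    rw [hζ']; exact c5)
  have hB2N : (B2.card : ℝ) ≤ N := by
    have h1 := card_le_card (hB2.trans hA)
    rw [Nat.card_Icc, Nat.add_sub_cancel] at h1
    exact_mod_cast h1
  have hZbc : (Zb.card : ℝ) ≤ (N : ℝ) ^ (1.94 : ℝ) := by
    have h1 : (Zb.card : ℝ) ≤ KK * (2 * N / (N : ℝ) ^ ζ + (N : ℝ) ^ υ + 1) * B2.card := by
      have h0 : (Zb.card : ℝ) ≤ ((((Icc 1 N).filter (fun m : ℕ => ∃ q ∈ pr N ζ υ,
          ((q ^ 2 : ℕ) : ℤ) ∣ F.eval (m : ℤ))).card : ℕ) : ℝ) * (B2.card : ℝ) := by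
        rw [← Nat.cast_mul]
        exact Nat.cast_le.2 hbadc
      exact h0.trans (mul_le_mul_of_nonneg_right hbad2 (Nat.cast_nonneg _))
    have h2 : 2 * N / (N : ℝ) ^ ζ ≤ 2 * (N : ℝ) ^ υ := by
      rw [div_le_iff₀ (by positivity), mul_assoc, ← Real.rpow_add hNp]
      apply mul_le_mul_of_nonneg_left _ (by norm_num)
      calc (N : ℝ) = (N : ℝ) ^ (1 : ℝ) := hN1'
        _ ≤ _ := hpow _ _ (by rw [hζ', hυ']; norm_num)
    have h3 : (1 : ℝ) ≤ (N : ℝ) ^ υ := Real.one_le_rpow hN1 hυ0.le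
    calc (Zb.card : ℝ) ≤ KK * (2 * N / (N : ℝ) ^ ζ + (N : ℝ) ^ υ + 1) * B2.card := h1
      _ ≤ KK * (4 * (N : ℝ) ^ υ) * N := by
          apply mul_le_mul _ hB2N (Nat.cast_nonneg _) (by positivity)
          apply mul_le_mul_of_nonneg_left _ (Nat.cast_nonneg _)
          linarith
      _ = (KK * 4) * ((N : ℝ) ^ υ * N) := by ring
      _ ≤ (N : ℝ) ^ (1 / 100 : ℝ) * ((N : ℝ) ^ υ * N) :=
          mul_le_mul_of_nonneg_right c6 (by positivity)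
      _ = (N : ℝ) ^ (1 / 100 + (υ + 1)) := by
          nth_rw 3 [hN1']
          rw [← Real.rpow_add hNp, ← Real.rpow_add hNp]
      _ ≤ _ := hpow _ _ (by rw [hυ']; norm_num)
  have hdiff : (Zg.card : ℝ) - (N : ℝ) ^ (1.94 : ℝ) ≤ ((Zg \ Zb).card : ℝ) := by
    have h1 : (Zg.card : ℝ) ≤ ((Zg \ Zb).card : ℝ) + Zb.card := by
      have := card_le_card_sdiff_add_card (s := Zg) (t := Zb)
      exact_mod_cast this
    linarith
  refine hdiff.trans ?_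
  have hinj : (Zg \ Zb).card ≤ ((A ×ˢ A).filter (fun z : ℕ × ℕ => z.2 < z.1 ∧
        GoodF F r ((N : ℝ) ^ (6 / 25 : ℝ)) (z.1 - z.2))).card := by
    apply card_le_card_of_injOn (fun z : ℤ × ℤ => (z.1.toNat, z.2.toNat))
    · intro z hz
      rw [mem_coe, Finset.mem_sdiff, hZg, hZb, mem_filter, mem_filter] at hz
      obtain ⟨⟨hz1, hz2⟩, hz3⟩ := hz
      obtain ⟨a, ha, b, hb, rfl⟩ := hmem z hz1
      have hba := hlt a ha b hb
      simp only [Int.toNat_natCast]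
      rw [mem_coe, mem_filter, mem_product]
      refine ⟨⟨hB1 ha, hB2 hb⟩, hba, ?_⟩
      obtain ⟨g1, g2, g3⟩ := hval a ha b hb
      set n := (F.eval ((a : ℤ) - b)).natAbs / kk with hn
      have hsub : (((a - b : ℕ)) : ℤ) = (a : ℤ) - b := by
        push_cast [Nat.cast_sub hba.le]
        rfl
      have haN : a ≤ N := (mem_Icc.1 (hA (hB1 ha))).2
      have hval2 := HCF N (a - b) (by omega) (by omega)
      rw [hsub] at hval2
      have hnS : (n : ℝ) ≤ (N : ℝ) ^ ((F.natDegree : ℝ) + 1 / 1000) := by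
        have h5 : n ≤ (F.eval ((a : ℤ) - b)).natAbs := Nat.div_le_self _ _
        have h6 : (n : ℝ) ≤ CF * (N : ℝ) ^ F.natDegree := by exact_mod_cast h5.trans hval2
        calc (n : ℝ) ≤ CF * (N : ℝ) ^ F.natDegree := h6
          _ ≤ (N : ℝ) ^ (1 / 1000 : ℝ) * (N : ℝ) ^ F.natDegree :=
              mul_le_mul_of_nonneg_right c4 (by positivity)
          _ = _ := by
              rw [← Real.rpow_natCast, ← Real.rpow_add hNp]
              congr 1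
              ring
      have hal := fin_almost N c1 c15 F.natDegree r n ζ υ lam hζ' hυ' hlam hr hz2 hnS (by
          intro q hq hqn
          exact hz3 ⟨hz1, q, hq, hqn⟩)
      refine ⟨n, ?_, hal.1, hal.2⟩
      show (F.eval ((a - b : ℕ) : ℤ)).natAbs = _
      rw [hsub, ← hkk]
      exact g1
    · intro z hz z' hz' heq
      rw [mem_coe, Finset.mem_sdiff, hZg, mem_filter] at hz hz'
      obtain ⟨a, _, b, _, rfl⟩ := hmem z hz.1.1
      obtain ⟨a', _, b', _, rfl⟩ := hmem z' hz'.1.1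
      simp only [Int.toNat_natCast, Prod.mk.injEq] at heq
      rw [heq.1, heq.2]
  exact_mod_cast hinj

end Pool.Agent.H540.DS
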