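import Pool.Agent.H540.DS.Rel2

/-! **Almost prime values at the differences of the elements of a dense subset of a sifted set**:
the numerical part. -/

set_option autoImplicit false

namespace Pool.Agent.H540.DS

open Finset Filter Polynomial
open Pool.Agent.W23.DC
open Pool.Agent.Y882.PX
open Pool.Agent.Y882.KW
open Pool.Agent.Y843.HS (Pr VV)

/-- a power of `N` is larger than `exp (D E)` -/
theorem rel_exp (C6 ε L E Nr D : ℝ) (hNp : 0 < Nr) (hLN : L = Real.log Nr) (hL : 1 ≤ L)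
    (hEL : E ≤ C6 ^ 2 * L ^ (1 - ε / 2)) (hD : 0 ≤ D) (hDL : 100 * D * C6 ^ 2 ≤ L ^ (ε / 2)) :
    Real.exp (D * E) ≤ Nr ^ (1 / 100 : ℝ) := by
  have hL0 : 0 < L := by linarith
  have hLL : L ^ (ε / 2) * L ^ (1 - ε / 2) = L := by
    rw [← Real.rpow_add hL0]
    have : ε / 2 + (1 - ε / 2) = 1 := by ring
    rw [this, Real.rpow_one]
  rw [Real.rpow_def_of_pos hNp, ← hLN, Real.exp_le_exp]
  have h1 : D * E ≤ D * (C6 ^ 2 * L ^ (1 - ε / 2)) := mul_le_mul_of_nonneg_left hEL hD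
  have h2 : 100 * D * C6 ^ 2 * L ^ (1 - ε / 2) ≤ L ^ (ε / 2) * L ^ (1 - ε / 2) :=
    mul_le_mul_of_nonneg_right hDL (by positivity)
  rw [hLL] at h2
  have h3 : D * (C6 ^ 2 * L ^ (1 - ε / 2)) = (100 * D * C6 ^ 2 * L ^ (1 - ε / 2)) / 100 := by ring
  linarith

/-- the lower bound for the size of the set -/
theorem rel_AL (ε cV L M Nr V α : ℝ) (k : ℕ) (hε : 0 < ε) (hNp : 0 < Nr) (hL : 1 ≤ L) (hV : 0 < V)
    (hVL : cV / L ^ (2 * k) ≤ V) (hM : M = Nr * V) (hA : M / L ^ (1 - ε) ≤ α) :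
    Nr * cV / L ^ (2 * k + 1) ≤ α := by
  have hL0 : 0 < L := by linarith
  have hLε0 : 0 < L ^ (1 - ε) := by positivity
  refine le_trans ?_ hA
  rw [hM]
  have h1 : L ^ (1 - ε) ≤ L := by
    calc L ^ (1 - ε) ≤ L ^ (1 : ℝ) := Real.rpow_le_rpow_of_exponent_le hL (by linarith)
      _ = L := Real.rpow_one L
  calc Nr * cV / L ^ (2 * k + 1) = Nr * (cV / L ^ (2 * k)) / L := by
        rw [pow_succ]
        field_simp
    _ ≤ Nr * V / L := by
        apply div_le_div_of_nonneg_right _ hL0.le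
        exact mul_le_mul_of_nonneg_left hVL hNp.le
    _ ≤ Nr * V / L ^ (1 - ε) := div_le_div_of_nonneg_left (by positivity) hLε0 h1

/-- the set is large enough to be split -/
theorem rel_A2 (cV L Nr α W : ℝ) (k : ℕ) (hN1 : 1 ≤ Nr) (hL : 1 ≤ L) (hcV : 0 < cV)
    (hA : Nr * cV / L ^ (2 * k + 1) ≤ α) (hW : W ≤ Nr ^ (1 / 100 : ℝ))
    (h7 : 2 / cV * L ^ (2 * k + 1) ≤ Nr ^ (1 / 100 : ℝ)) : 2 * W ≤ α := by
  have hL0 : 0 < L := by linarith
  have hNp : 0 < Nr := by linarith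
  refine le_trans ?_ hA
  rw [le_div_iff₀ (by positivity)]
  have h2 : (2 : ℝ) * L ^ (2 * k + 1) ≤ cV * Nr ^ (1 / 100 : ℝ) := by
    have h3 := mul_le_mul_of_nonneg_left h7 hcV.le
    have h4 : cV * (2 / cV * L ^ (2 * k + 1)) = 2 * L ^ (2 * k + 1) := by field_simp
    linarith
  calc (2 : ℝ) * W * L ^ (2 * k + 1) = W * (2 * L ^ (2 * k + 1)) := by ring
    _ ≤ Nr ^ (1 / 100 : ℝ) * (cV * Nr ^ (1 / 100 : ℝ)) :=
        mul_le_mul hW h2 (by positivity) (by positivity)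
    _ = cV * (Nr ^ (1 / 100 : ℝ) * Nr ^ (1 / 100 : ℝ)) := by ring
    _ = cV * Nr ^ (1 / 100 + 1 / 100 : ℝ) := by rw [← Real.rpow_add hNp]
    _ ≤ cV * Nr ^ (1 : ℝ) := mul_le_mul_of_nonneg_left
        (Real.rpow_le_rpow_of_exponent_le hN1 (by norm_num)) hcV.le
    _ = Nr * cV := by rw [Real.rpow_one]; ring

/-- the pairs divisible by squares are few -/
theorem rel_low (cV L M Nr G : ℝ) (k : ℕ) (hN1 : 1 ≤ Nr) (hL : 1 ≤ L) (hcV : 0 < cV)
    (hM : Nr * cV / L ^ (2 * k) ≤ M) (hG : 0 < G) (hGN : G ≤ Nr ^ (1 / 100 : ℝ))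
    (h8 : 1 / cV ^ 2 * L ^ (4 * k + 1) ≤ Nr ^ (1 / 100 : ℝ)) :
    Nr ^ (1.94 : ℝ) ≤ G⁻¹ * (M ^ 2 / L) := by
  have hL0 : 0 < L := by linarith
  have hNp : 0 < Nr := by linarith
  have g4 : (Nr * cV / L ^ (2 * k)) ^ 2 ≤ M ^ 2 := pow_le_pow_left₀ (by positivity) hM 2
  have g5 : Nr ^ (1.94 : ℝ) * G * L ≤ (Nr * cV / L ^ (2 * k)) ^ 2 := by
    rw [div_pow, le_div_iff₀ (by positivity)]
    have g6 : L ^ (4 * k + 1) ≤ cV ^ 2 * Nr ^ (1 / 100 : ℝ) := by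
      have h3 := mul_le_mul_of_nonneg_left h8 (show 0 ≤ cV ^ 2 by positivity)
      have h4 : cV ^ 2 * (1 / cV ^ 2 * L ^ (4 * k + 1)) = L ^ (4 * k + 1) := by field_simp
      linarith
    calc Nr ^ (1.94 : ℝ) * G * L * (L ^ (2 * k)) ^ 2 =
        Nr ^ (1.94 : ℝ) * G * L ^ (4 * k + 1) := by
          rw [← pow_mul, pow_succ, show 2 * k * 2 = 4 * k by ring]
          ring
      _ ≤ Nr ^ (1.94 : ℝ) * Nr ^ (1 / 100 : ℝ) * (cV ^ 2 * Nr ^ (1 / 100 : ℝ)) := by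
          apply mul_le_mul _ g6 (by positivity) (by positivity)
          exact mul_le_mul_of_nonneg_left hGN (by positivity)
      _ = cV ^ 2 * (Nr ^ (1.94 : ℝ) * Nr ^ (1 / 100 : ℝ) * Nr ^ (1 / 100 : ℝ)) := by ring
      _ = cV ^ 2 * Nr ^ (1.94 + 1 / 100 + 1 / 100 : ℝ) := by
          rw [← Real.rpow_add hNp, ← Real.rpow_add hNp]
      _ ≤ cV ^ 2 * Nr ^ (2 : ℝ) := mul_le_mul_of_nonneg_left
          (Real.rpow_le_rpow_of_exponent_le hN1 (by norm_num)) (by positivity)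
      _ = (Nr * cV) ^ 2 := by
          rw [mul_pow, ← Real.rpow_natCast Nr 2]
          push_cast
          ring
  rw [← one_div, one_div_mul_eq_div, le_div_iff₀ hG, le_div_iff₀ hL0]
  exact g5.trans g4

/-- the exponent in the final form -/
theorem rel_CE (C6 C11 ε X D : ℝ) (hC6 : 1 ≤ C6) (hC11 : 0 < C11) (hε : 0 < ε) (hε1 : ε ≤ 1)
    (hD : 0 < D) (hX : X = C6 * D) (hX1 : 1 ≤ X) :
    Real.exp (-(C11 * C6 ^ 2 * D ^ (1 + ε))) ≤ Real.exp (-(C11 * X ^ (1 + ε / 2))) := by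
  have hC60 : 0 < C6 := by linarith
  rw [Real.exp_le_exp, neg_le_neg_iff, mul_assoc]
  apply mul_le_mul_of_nonneg_left _ hC11.le
  calc X ^ (1 + ε / 2) ≤ X ^ (1 + ε) := Real.rpow_le_rpow_of_exponent_le hX1 (by linarith)
    _ = C6 ^ (1 + ε) * D ^ (1 + ε) := by rw [hX, Real.mul_rpow hC60.le hD.le]
    _ ≤ C6 ^ (2 : ℝ) * D ^ (1 + ε) := by
        apply mul_le_mul_of_nonneg_right _ (by positivity)
        exact Real.rpow_le_rpow_of_exponent_le hC6 (by linarith)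
    _ = _ := by
        rw [← Real.rpow_natCast]
        norm_num

/-- the product of the primes up to `w` -/
theorem rel_PI (ε L Nr w0 w : ℝ) (hNp : 0 < Nr) (hLN : L = Real.log Nr) (hL : 1 ≤ L) (hw0 : 0 ≤ w0)
    (hw00 : 0 ≤ w) (hw : w = L ^ (1 - ε / 2 / 2)) (h200 : 200 ≤ L ^ (ε / 4)) :
    (pd (PI w0 w) : ℝ) ≤ Nr ^ (1 / 100 : ℝ) := by
  have hL0 : 0 < L := by linarith
  refine (pd_PI w0 w hw00).trans ?_
  rw [Real.rpow_def_of_pos (by norm_num : (0 : ℝ) < 4), Real.rpow_def_of_pos hNp, ← hLN,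
    Real.exp_le_exp]
  have h8 : w * L ^ (ε / 4) = L := by
    rw [hw, ← Real.rpow_add hL0]
    have : 1 - ε / 2 / 2 + ε / 4 = 1 := by ring
    rw [this, Real.rpow_one]
  have h9 : w * 200 ≤ L := by
    calc w * 200 ≤ w * L ^ (ε / 4) := mul_le_mul_of_nonneg_left h200 hw00
      _ = L := h8
  calc Real.log 4 * w ≤ 2 * w := mul_le_mul_of_nonneg_right log_four_le hw00
    _ ≤ L * (1 / 100) := by linarith

/-- the two bounds for `w0` and `Lam` by powers of the logarithm -/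
theorem rel_wL (C6 CB CL ε L X w0 Lam : ℝ) (hε : 0 < ε) (hL : 1 ≤ L) (hCL : 0 ≤ CL)
    (hXL : X ≤ C6 * L ^ (1 - ε)) (hEL : X ^ (1 + ε / 2) ≤ C6 ^ 2 * L ^ (1 - ε / 2))
    (hw0 : w0 ≤ CB ^ 2 * X ^ (1 + ε / 2)) (hLam : Lam ≤ CL * X)
    (e1 : CB ^ 2 * C6 ^ 2 ≤ L ^ (ε / 4)) (e2 : CL * C6 ≤ L ^ (ε / 2)) :
    w0 ≤ L ^ (1 - ε / 2 / 2) ∧ Lam ≤ L ^ (1 - ε / 2) := by
  have hL0 : 0 < L := by linarith
  have hLε0 : 0 < L ^ (1 - ε) := by positivity
  constructor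
  · calc w0 ≤ CB ^ 2 * X ^ (1 + ε / 2) := hw0
      _ ≤ CB ^ 2 * (C6 ^ 2 * L ^ (1 - ε / 2)) := mul_le_mul_of_nonneg_left hEL (by positivity)
      _ = (CB ^ 2 * C6 ^ 2) * L ^ (1 - ε / 2) := by ring
      _ ≤ L ^ (ε / 4) * L ^ (1 - ε / 2) := mul_le_mul_of_nonneg_right e1 (by positivity)
      _ = L ^ (1 - ε / 2 / 2) := by
          rw [← Real.rpow_add hL0]
          congr 1
          ring
  · calc Lam ≤ CL * X := hLam
      _ ≤ CL * (C6 * L ^ (1 - ε)) := mul_le_mul_of_nonneg_left hXL hCL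
      _ = (CL * C6) * L ^ (1 - ε) := by ring
      _ ≤ L ^ (ε / 2) * L ^ (1 - ε) := mul_le_mul_of_nonneg_right e2 hLε0.le
      _ = L ^ (1 - ε / 2) := by
          rw [← Real.rpow_add hL0]
          congr 1
          ring

/-- the trivial density is a power of the logarithm -/
theorem rel_Lam0 (cV L Nr α : ℝ) (k : ℕ) (hNp : 0 < Nr) (hL : 1 ≤ L) (hcV : 0 < cV) (hα : 0 < α)
    (hAL : Nr * cV / L ^ (2 * k + 1) ≤ α) (h6 : 96 / cV ≤ L) :
    96 * Nr / α ≤ L ^ (2 * k + 2) := by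
  have hL0 : 0 < L := by linarith
  rw [div_le_iff₀ hα]
  have h1 : 96 * Nr ≤ L ^ (2 * k + 2) * (Nr * cV / L ^ (2 * k + 1)) := by
    have h2 : L ^ (2 * k + 2) * (Nr * cV / L ^ (2 * k + 1)) = Nr * (cV * L) := by
      rw [pow_succ L (2 * k + 1)]
      field_simp
    rw [h2]
    have h3 : 96 ≤ cV * L := by
      rw [div_le_iff₀ hcV] at h6
      linarith
    calc 96 * Nr = Nr * 96 := by ring
      _ ≤ Nr * (cV * L) := mul_le_mul_of_nonneg_left h3 hNp.le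
  exact h1.trans (mul_le_mul_of_nonneg_left hAL (by positivity))

/-- the density condition of the sifted large sieve -/
theorem rel_dens (C4 C6 X M α V Nr W m Lam : ℝ) (hC4 : 0 < C4) (hC6 : 0 < C6) (hα : 0 < α) (hW : 0 < W)
    (hV : 0 < V) (hNp : 0 < Nr) (hM : M = Nr * V) (hX : X = C6 * (M / α)) (hLam : Lam = 8 * C4 / C6 * X + 1)
    (hsq : α / (4 * W) ≤ √m) : C4 * (Nr / W) * V ≤ Lam * √m := by
  have hMA : 0 < M / α := by rw [hM]; positivity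
  have hX0 : 0 < X := by rw [hX]; positivity
  have hAW : 0 < α / (4 * W) := by positivity
  have hLam0 : 0 < Lam := by rw [hLam]; positivity
  have h2 : (8 * C4 / C6 * X) * (α / (4 * W)) ≤ Lam * √m :=
    mul_le_mul (by rw [hLam]; linarith) hsq hAW.le hLam0.le
  have h4 : (8 * C4 / C6 * X) * (α / (4 * W)) = 2 * (C4 * (Nr / W) * V) := by
    rw [hX, hM]
    field_simp
    ring
  have h3 : 0 ≤ C4 * (Nr / W) * V := by positivity
  linarith

end Pool.Agent.H540.DS
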