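import Pool.Agent.H540.DS.Rel3

/-! **Almost prime values at the differences of the elements of a dense subset of a sifted set**:
the number of pairs with positive weight. -/

set_option autoImplicit false

namespace Pool.Agent.H540.DS

open Finset Filter Polynomial
open Pool.Agent.W23.DC
open Pool.Agent.Y882.PX
open Pool.Agent.Y882.KW
open Pool.Agent.Y843.HS (Pr VV)

theorem rel_InC (A B : Finset ℕ) (N W0 r0 : ℕ) (hA : A ⊆ Icc 1 N) (hB : B ⊆ A)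
    (hBr : ∀ a ∈ B, a % W0 = r0) : InC (B.map Nat.castEmbedding) 0 N W0 r0 := by
  intro a ha
  rw [Finset.mem_map] at ha
  obtain ⟨b, hb, rfl⟩ := ha
  have h1 := mem_Icc.1 (hA (hB hb))
  simp only [Nat.castEmbedding_apply]
  refine ⟨by omega, by omega, ?_⟩
  rw [← hBr b hb]
  exact (Int.natCast_mod b W0).symm

theorem rel_sift (A B : Finset ℕ) (Z : ℕ → Finset ℕ) (y : ℝ) (hB : B ⊆ A)
    (hAZ : ∀ n ∈ A, ∀ p : ℕ, p.Prime → (p : ℝ) ≤ y → n % p ∉ Z p) :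
    ∀ a ∈ B.map Nat.castEmbedding, ∀ p : ℕ, p.Prime → (p : ℝ) ≤ y → (a % (p : ℤ)).toNat ∉ Z p := by
  intro a ha p hp hpN
  rw [Finset.mem_map] at ha
  obtain ⟨b, hb, rfl⟩ := ha
  simp only [Nat.castEmbedding_apply]
  have h1 : (((b : ℕ) : ℤ) % (p : ℤ)).toNat = b % p := by
    rw [← Int.natCast_mod, Int.toNat_natCast]
  rw [h1]
  exact hAZ b (hB hb) p hp hpN

theorem rel_WN (kk W0 : ℕ) (w0 : ℝ) (hkk0 : 0 < kk) (hkw0 : (kk : ℝ) ≤ w0) (hW0 : W0 = WN kk w0) :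
    ∀ p : ℕ, p.Prime → (p ∣ W0 ↔ (p : ℝ) ≤ w0) := by
  intro p hp
  rw [hW0]
  constructor
  · exact WN_prime kk hkk0 w0 hkw0 p hp
  · intro h
    exact (Dvd.intro_left kk rfl).trans (WN_dvd kk w0 p hp h)

open Classical in
/-- **The number of pairs with positive weight.** -/
theorem rel_HZ (F : ℤ[X]) (hF : Irreducible F) (hd : 0 < F.natDegree) (h0 : F.eval 0 ≠ 0)
    (k : ℕ) (κ ε u ζ υ lam : ℝ) (hκ : 0 < κ) (hε : 0 < ε) (hε1 : ε ≤ 1) (hu : u = ε / 400)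
    (hζ : ζ = 24 / 25 / 4) (hυ : υ = 24 / 25 * (24 / 25)) (hlam : lam = 8 / 9) :
    ∃ cc K1 C4 : ℝ, 0 < cc ∧ 3 ≤ K1 ∧ 0 < C4 ∧ ∀ᶠ N : ℕ in atTop,
      ∀ Z : ℕ → Finset ℕ, ZC k ((N : ℝ) ^ κ) Z → ∀ (A B1 B2 : Finset ℕ) (W0 r0 : ℕ)
      (V w0 Lam Lam0 : ℝ), V = VV Z 0 ⌊(N : ℝ) ^ κ⌋₊ → A ⊆ Icc 1 N →
      (∀ n ∈ A, ∀ p : ℕ, p.Prime → (p : ℝ) ≤ (N : ℝ) ^ κ → n % p ∉ Z p) → B1 ⊆ A → B2 ⊆ A →
      (∀ a ∈ B1, a % W0 = r0) → (∀ a ∈ B2, a % W0 = r0) → W0 = WN (F.eval 0).natAbs w0 →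
      ((F.eval 0).natAbs : ℝ) ≤ w0 → 3 ≤ w0 → K1 ≤ w0 → 32 * Lam ≤ w0 ^ (1 - 2 * u) →
      w0 ≤ Real.log N ^ (1 - ε / 2 / 2) → Lam ≤ Real.log N ^ (1 - ε / 2) → 1 ≤ Lam →
      (W0 : ℝ) ≤ (N : ℝ) ^ (1 / 100 : ℝ) →
      (pd (PI w0 (Real.log N ^ (1 - ε / 2 / 2))) : ℝ) ≤ (N : ℝ) ^ (1 / 100 : ℝ) →
      0 < (B1.card : ℝ) * B2.card → C4 * ((N : ℝ) / W0) * V ≤ Lam * √((B1.card : ℝ) * B2.card) →
      1 ≤ Lam0 → Lam0 ≤ Real.log N ^ (2 * k + 2) →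
      24 * ((N : ℝ) / W0) ≤ Lam0 * √((B1.card : ℝ) * B2.card) →
      cc * ((B1.card : ℝ) * B2.card) * (Real.log w0 / Real.log N) ≤
      ((((B1.map Nat.castEmbedding ×ˢ B2.map Nat.castEmbedding).filter
        (fun z : ℤ × ℤ => 0 < WW N ζ υ lam (lam / υ) ((F.eval (z.1 - z.2)).natAbs /
          (F.eval 0).natAbs))).card : ℕ) : ℝ) := by
  obtain ⟨kk, hkk⟩ : ∃ kk : ℕ, kk = (F.eval 0).natAbs := ⟨_, rfl⟩
  have hkk0 : 0 < kk := by rw [hkk]; exact Int.natAbs_pos.2 h0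
  obtain ⟨τ, hτ⟩ : ∃ τ : ℝ, τ = 24 / 25 := ⟨_, rfl⟩
  have hJ0 := cond_A τ lam (by rw [hτ]; norm_num) (by rw [hlam]; norm_num) (by rw [hlam]; norm_num)
  have hζτ : ζ = τ / 4 := by rw [hζ, hτ]
  have hυτ : υ = 24 / 25 * τ := by rw [hυ, hτ]
  rw [← hζτ, ← hυτ] at hJ0
  have hζ' : ζ = 6 / 25 := by rw [hζ]; norm_num
  have hυ0 : 0 < υ := by rw [hυ]; norm_num
  have hu0 : 0 < u := by rw [hu]; linarith
  obtain ⟨cc, K1, NC, hcc, hK1, HC⟩ := core2 F hF hd τ ζ υ lam (lam / υ) (49 / 50) (ε / 2) u (2 * k + 2)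
    (by rw [hζ', ]; norm_num)
    (by rw [hζ', hτ]; norm_num) (by rw [hζ', hτ]; norm_num) (by rw [hζ', hυ]; norm_num)
    (by rw [hυ, hτ]; norm_num) (by rw [hlam]; norm_num) (by rw [hlam, hυ]; norm_num)
    (by rw [div_mul_cancel₀ _ hυ0.ne']) hJ0 (by rw [hτ]; norm_num) (by norm_num) (by norm_num)
    (by linarith) (by linarith) hu0 (by rw [hu]; linarith) (by rw [hu, hτ]; linarith)
  obtain ⟨C4, N4, hC4, HLS⟩ := LSHZ_all k hκ hu0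
  refine ⟨cc, K1, C4, hcc, hK1, hC4, ?_⟩
  filter_upwards [eventually_ge_atTop NC, eventually_ge_atTop N4, eventually_ge_atTop 3] with N c2 c2b c1
    Z hZ A B1 B2 W0 r0 V w0 Lam Lam0 hV hA hAZ hB1 hB2 hr1 hr2 hW0 hkw0 hw03 hK1w h32 hw0L hLamL hLam1
    hW0N hpdN hmp hdens hLam01 hLam0L h24
  rw [← hkk] at hW0 hkw0 ⊢
  have hN3 : (3 : ℝ) ≤ N := by exact_mod_cast c1
  have hNp : (0 : ℝ) < N := by linarith
  have hN1 : (1 : ℝ) ≤ N := by linarith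
  have hpow : ∀ a b : ℝ, a ≤ b → (N : ℝ) ^ a ≤ (N : ℝ) ^ b := fun a b h =>
    Real.rpow_le_rpow_of_exponent_le hN1 h
  have hW0pos : 0 < W0 := by
    rw [hW0]
    unfold WN
    exact Nat.mul_pos hkk0 (primorial_pos _)
  have hW0iff := rel_WN kk W0 w0 hkk0 hkw0 hW0
  have HC' := HC N c2
  have HLS' := HLS N c2b
  have hdz : ∀ a ∈ B1, ∀ b ∈ B2, ((WN kk w0 : ℕ) : ℤ) ∣ (a : ℤ) - b := by
    intro a ha b hb
    rw [← hW0]
    have h1 : b ≡ a [MOD W0] := by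
      rw [Nat.ModEq, hr1 a ha, hr2 b hb]
    exact (Nat.modEq_iff_dvd.1 h1)
  have hval : ∀ a ∈ B1, ∀ b ∈ B2, _ := fun a ha b hb =>
    val_facts F h0 w0 (by rw [← hkk]; exact hkw0) ((a : ℤ) - b) (by rw [← hkk]; exact hdz a ha b hb)
  rw [← hkk] at hval
  have hmem : ∀ z ∈ B1.map Nat.castEmbedding ×ˢ B2.map Nat.castEmbedding,
      ∃ a ∈ B1, ∃ b ∈ B2, z = ((a : ℤ), (b : ℤ)) := by
    rintro ⟨u, v⟩ hz
    rw [mem_product, Finset.mem_map, Finset.mem_map] at hz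
    obtain ⟨⟨a, ha, hau⟩, b, hb, hbv⟩ := hz
    simp only [Nat.castEmbedding_apply] at hau hbv
    exact ⟨a, ha, b, hb, by rw [hau, hbv]⟩
  have hI1 := rel_InC A B1 N W0 r0 hA hB1 hr1
  have hI2 := rel_InC A B2 N W0 r0 hA hB2 hr2
  obtain ⟨m, hm⟩ : ∃ m : ℝ, m = (B1.card : ℝ) * B2.card := ⟨_, rfl⟩
  rw [← hm] at hmp hdens h24
  have hLSall := HLS' W0 (B1.map Nat.castEmbedding) (B2.map Nat.castEmbedding) 0 0 r0 r0 Z w0
    (Real.log N ^ (1 - ε / 2 / 2)) Lam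
    hW0pos hW0iff (by linarith) hw0L (by
      push_cast
      calc (W0 : ℝ) * pd (PI w0 (Real.log N ^ (1 - ε / 2 / 2))) ≤
            (N : ℝ) ^ (1 / 100 : ℝ) * (N : ℝ) ^ (1 / 100 : ℝ) :=
            mul_le_mul hW0N hpdN (Nat.cast_nonneg _) (by positivity)
        _ = (N : ℝ) ^ (1 / 100 + 1 / 100 : ℝ) := by rw [← Real.rpow_add hNp]
        _ ≤ _ := hpow _ _ (by norm_num)) hI1 hI2 hZ
      (rel_sift A B1 Z _ hB1 hAZ) (rel_sift A B2 Z _ hB2 hAZ)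
      hLam1 (by rw [card_map, card_map, ← hm]; exact hmp) (by
      rw [card_map, card_map, ← hV, ← hm]
      exact hdens)
  obtain ⟨hLS0, hLS1⟩ := hLSall
  have HZ := HC' W0 (B1.map Nat.castEmbedding) (B2.map Nat.castEmbedding) 0 0 r0 r0 w0 Lam Lam0
    (fun z => (F.eval (z.1 - z.2)).natAbs / kk) hW0pos (fun p hp h => (hW0iff p hp).1 h) (by
      refine hW0N.trans (le_of_eq ?_)
      norm_num) hI1 hI2 hLam1 hK1w h32 hw0L hLamL hLS0 hLS1 hLam01 hLam0L (by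
      rw [card_map, card_map, ← hm]
      exact h24) (by
      intro z hz p hp hpx
      obtain ⟨a, ha, b, hb, rfl⟩ := hmem z hz
      exact (hval a ha b hb).2.1 p hp hpx) (by
      intro z hz p hp hpx
      obtain ⟨a, ha, b, hb, rfl⟩ := hmem z hz
      exact (hval a ha b hb).2.2 p hp hpx)
  rw [card_map, card_map] at HZ
  exact HZ

end Pool.Agent.H540.DS
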