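import Pool.Agent.H540.DS.Rel4

/-! **Almost prime values at the differences of the elements of a dense subset of a sifted set**:
the main theorem. -/

set_option autoImplicit false

namespace Pool.Agent.H540.DS

open Finset Filter Polynomial
open Pool.Agent.W23.DC
open Pool.Agent.Y882.PX
open Pool.Agent.Y882.KW
open Pool.Agent.Y843.HS (Pr VV)

open Classical in
/-- **The main theorem for differences in sifted sets.** -/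
theorem rels (F : ℤ[X]) (hF : Irreducible F) (hd : 0 < F.natDegree) (h0 : F.eval 0 ≠ 0) (r : ℕ)
    (hr : 9 / 8 + ((F.natDegree : ℝ) + 1 / 1000) / (24 / 25 * (24 / 25)) ≤ r + 1) (k : ℕ) (κ ε : ℝ)
    (hκ : 0 < κ) (hε : 0 < ε) (hε1 : ε ≤ 1) : ∃ C : ℝ, 0 < C ∧ ∀ᶠ N : ℕ in atTop,
      ∀ Z : ℕ → Finset ℕ, ZC k ((N : ℝ) ^ κ) Z → ∀ A : Finset ℕ, A ⊆ Icc 1 N →
      (∀ n ∈ A, ∀ p : ℕ, p.Prime → (p : ℝ) ≤ (N : ℝ) ^ κ → n % p ∉ Z p) →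
      N * VV Z 0 ⌊(N : ℝ) ^ κ⌋₊ / Real.log N ^ (1 - ε) ≤ A.card →
      Real.exp (-(C * (N * VV Z 0 ⌊(N : ℝ) ^ κ⌋₊ / A.card) ^ (1 + ε))) *
        ((N * VV Z 0 ⌊(N : ℝ) ^ κ⌋₊) ^ 2 / Real.log N) ≤
        (((A ×ˢ A).filter (fun z : ℕ × ℕ => z.2 < z.1 ∧
        GoodF F r ((N : ℝ) ^ (6 / 25 : ℝ)) (z.1 - z.2))).card : ℝ) := by
  obtain ⟨kk, hkk⟩ : ∃ kk : ℕ, kk = (F.eval 0).natAbs := ⟨_, rfl⟩
  have hkk0 : 0 < kk := by rw [hkk]; exact Int.natAbs_pos.2 h0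
  have hkkr : (0 : ℝ) < kk := by exact_mod_cast hkk0
  have hkk1 : (1 : ℝ) ≤ kk := by exact_mod_cast hkk0
  obtain ⟨ζ, hζ⟩ : ∃ ζ : ℝ, ζ = 24 / 25 / 4 := ⟨_, rfl⟩
  obtain ⟨υ, hυ⟩ : ∃ υ : ℝ, υ = 24 / 25 * (24 / 25) := ⟨_, rfl⟩
  obtain ⟨lam, hlam⟩ : ∃ lam : ℝ, lam = 8 / 9 := ⟨_, rfl⟩
  obtain ⟨u, hu⟩ : ∃ u : ℝ, u = ε / 400 := ⟨_, rfl⟩
  obtain ⟨cc, K1, C4, hcc, hK1, hC4, evH⟩ := rel_HZ F hF hd h0 k κ ε u ζ υ lam hκ hε hε1 hu hζ hυ hlam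
  obtain ⟨cV, hcV, evV⟩ := VV_logN k hκ
  obtain ⟨C6', hC6', HCA⟩ := card_sifted k hκ
  have evX := extract F hF hd h0 r hr ζ υ lam (by rw [hζ]; norm_num) hυ hlam
  obtain ⟨C6, hC6⟩ : ∃ C6 : ℝ, C6 = C6' + 1 := ⟨_, rfl⟩
  have hC61 : 1 ≤ C6 := by rw [hC6]; linarith
  have hC60 : 0 < C6 := by linarith
  obtain ⟨CL, hCL⟩ : ∃ CL : ℝ, CL = 8 * C4 / C6 + 1 := ⟨_, rfl⟩
  have hCL1 : 1 ≤ CL := by
    rw [hCL]
    have : 0 ≤ 8 * C4 / C6 := by positivity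
    linarith
  obtain ⟨CB, hCB⟩ : ∃ CB : ℝ, CB = 32 * CL + K1 + kk + 3 := ⟨_, rfl⟩
  obtain ⟨CW, hCW⟩ : ∃ CW : ℝ, CW = kk + 2 * CB ^ 2 := ⟨_, rfl⟩
  have hCW0 : 0 < CW := by rw [hCW]; positivity
  obtain ⟨C11, hC11⟩ : ∃ C11 : ℝ, C11 = |Real.log (cc * C6 ^ 2 / 32)| + 2 + 2 * CW := ⟨_, rfl⟩
  have hC110 : 0 < C11 := by
    rw [hC11]
    have := abs_nonneg (Real.log (cc * C6 ^ 2 / 32))
    linarith
  refine ⟨C11 * C6 ^ 2, by positivity, ?_⟩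
  filter_upwards [conds5 0 0 0 3 k cV C6 CB CL CW C11 ε hε, evV, evH, evX] with
    N cd hVN hH hX Z hZ A hA hAZ hAc
  obtain ⟨c1, _, c3, _, _, _, c7, c8, c9, c10, c11, c12, c13, c14, _⟩ := cd
  have hN3 : (3 : ℝ) ≤ N := by exact_mod_cast c1
  have hNp : (0 : ℝ) < N := by linarith
  have hN1 : (1 : ℝ) ≤ N := by linarith
  have hH' := hH Z hZ
  obtain ⟨V, hV⟩ : ∃ V : ℝ, V = VV Z 0 ⌊(N : ℝ) ^ κ⌋₊ := ⟨_, rfl⟩
  have hVN' := hVN Z hZ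
  have hACV := HCA N (by omega) Z hZ A hA hAZ
  rw [← hV] at hVN' hAc hACV ⊢
  obtain ⟨L, hL⟩ : ∃ L : ℝ, L = Real.log N := ⟨_, rfl⟩
  rw [← hL] at c3 c7 c8 c9 c10 c11 c12 c13 c14 hAc hVN' hH' ⊢
  obtain ⟨α, hα⟩ : ∃ α : ℝ, α = (A.card : ℝ) := ⟨_, rfl⟩
  rw [← hα] at hAc hACV ⊢
  have hL0 : 0 < L := by linarith
  have hV0 : 0 < V := lt_of_lt_of_le (by positivity) hVN'
  obtain ⟨M, hM⟩ : ∃ M : ℝ, M = N * V := ⟨_, rfl⟩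
  rw [← hM] at hAc hACV ⊢
  have hM0 : 0 < M := by rw [hM]; positivity
  have hLε0 : 0 < L ^ (1 - ε) := by positivity
  have hAr : 0 < α := lt_of_lt_of_le (by positivity) hAc
  have hAN : α ≤ N := by
    rw [hα]
    have h1 := card_le_card hA
    rw [Nat.card_Icc, Nat.add_sub_cancel] at h1
    exact_mod_cast h1
  obtain ⟨D, hD⟩ : ∃ D : ℝ, D = M / α := ⟨_, rfl⟩
  have hD0 : 0 < D := by rw [hD]; positivity
  obtain ⟨X, hX'⟩ : ∃ X : ℝ, X = C6 * D := ⟨_, rfl⟩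
  have hX1 : 1 ≤ X := by
    rw [hX', hD, ← mul_div_assoc, le_div_iff₀ hAr, one_mul]
    refine hACV.trans ?_
    apply mul_le_mul_of_nonneg_right _ hM0.le
    rw [hC6]
    linarith
  have hX0 : 0 < X := by linarith
  have hXL : X ≤ C6 * L ^ (1 - ε) := by
    rw [hX', hD]
    apply mul_le_mul_of_nonneg_left _ hC60.le
    rw [div_le_iff₀ hAr]
    rw [div_le_iff₀ hLε0] at hAc
    linarith
  have hMX : C6 * M / X = α := by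
    rw [hX', hD]
    field_simp
  have hXE : X ≤ X ^ (1 + ε / 2) := by
    calc X = X ^ (1 : ℝ) := (Real.rpow_one _).symm
      _ ≤ X ^ (1 + ε / 2) := Real.rpow_le_rpow_of_exponent_le hX1 (by linarith)
  have hEL := rel_par2 C6 ε L X hC61 hε hε1 hX1 c3 hXL
  obtain ⟨Lam, hLam⟩ : ∃ Lam : ℝ, Lam = 8 * C4 / C6 * X + 1 := ⟨_, rfl⟩
  obtain ⟨w0, hw0⟩ : ∃ w0 : ℝ, w0 = (32 * Lam + K1 + kk + 3) ^ (1 / (1 - 2 * u)) := ⟨_, rfl⟩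
  obtain ⟨hLam1, hLamX, hw0E, hkw0, hw03, hK1w, h32⟩ := rel_par C4 C6 K1 kk ε u X CL CB hC4 hC61 hK1
    hkk1 hε hε1 hu hX1 hCL hCB Lam w0 hLam hw0
  obtain ⟨hw0L, hLamL⟩ := rel_wL C6 CB CL ε L X w0 Lam hε c3 (by linarith) hXL hEL hw0E hLamX c7 c8
  obtain ⟨W0, hW0⟩ : ∃ W0 : ℕ, W0 = WN kk w0 := ⟨_, rfl⟩
  have hW0pos : 0 < W0 := by
    rw [hW0]
    unfold WN
    exact Nat.mul_pos hkk0 (primorial_pos _)
  have hW0r : (0 : ℝ) < W0 := by exact_mod_cast hW0pos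
  have hW0exp : (W0 : ℝ) ≤ Real.exp (CW * X ^ (1 + ε / 2)) := by
    rw [hW0, hCW]
    exact rel_W0 kk w0 CB _ (hX1.trans hXE) hw03 hw0E
  have hexp : ∀ G : ℝ, 0 ≤ G → 100 * G * C6 ^ 2 ≤ L ^ (ε / 2) →
      Real.exp (G * X ^ (1 + ε / 2)) ≤ (N : ℝ) ^ (1 / 100 : ℝ) := fun G hG hGL =>
    rel_exp C6 ε L _ N G hNp hL c3 hEL hG hGL
  have hW0N : (W0 : ℝ) ≤ (N : ℝ) ^ (1 / 100 : ℝ) := hW0exp.trans (hexp CW hCW0.le c9)
  have hAL := rel_AL ε cV L M N V α k hε hNp c3 hV0 hVN' hM hAc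
  have hA2' := rel_A2 cV L N α W0 k hN1 c3 hcV hAL hW0N c13
  have hA2 : 2 * W0 ≤ A.card := by
    rw [hα] at hA2'
    exact_mod_cast hA2'
  obtain ⟨r0, B1, B2, hB1, hB2, hlt, hr1, hr2, _, hc1, hc2⟩ := two_sets A N W0 hW0pos hA hA2
  rw [← hα] at hc1 hc2
  have hAW : 0 < α / (4 * W0) := by positivity
  have hsqm : α / (4 * W0) ≤ √((B1.card : ℝ) * B2.card) := by
    apply Real.le_sqrt_of_sq_le
    rw [sq]
    exact mul_le_mul hc1 hc2 hAW.le (Nat.cast_nonneg _)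
  have hmp : 0 < (B1.card : ℝ) * B2.card := Real.sqrt_pos.1 (hAW.trans_le hsqm)
  have hpdN := rel_PI ε L N w0 _ hNp hL c3 (by linarith) (by positivity) rfl c11
  have hdens := rel_dens C4 C6 X M α V N W0 _ Lam hC4 hC60 hAr hW0r hV0 hNp hM (by rw [hX', hD]) hLam hsqm
  have HZ := hH' A B1 B2 W0 r0 V w0 Lam (96 * N / α) hV hA hAZ hB1 hB2 hr1 hr2 (by rw [hW0, hkk])
    (by rw [← hkk]; exact hkw0) hw03 hK1w h32 hw0L hLamL hLam1 hW0N hpdN hmp hdens (by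
      rw [le_div_iff₀ hAr]
      linarith) (rel_Lam0 cV L N α k hNp c3 hcV hAr hAL c12) (by
      refine le_trans (le_of_eq ?_) (mul_le_mul_of_nonneg_left hsqm (by positivity))
      field_simp
      norm_num)
  have hdz : ∀ a ∈ B1, ∀ b ∈ B2, ((WN (F.eval 0).natAbs w0 : ℕ) : ℤ) ∣ (a : ℤ) - b := by
    intro a ha b hb
    rw [← hkk, ← hW0]
    have h1 : b ≡ a [MOD W0] := by
      rw [Nat.ModEq, hr1 a ha, hr2 b hb]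
    exact (Nat.modEq_iff_dvd.1 h1)
  have hfin := hX A B1 B2 w0 hA hB1 hB2 hlt (by rw [← hkk]; exact hkw0) hdz
  have hZl := arith7 cc C6 CW C11 L M X _ W0 B1.card B2.card _ (Real.log w0) hcc hC60 hL0 hX1 hXE
    hM0 hW0r hW0exp (by rw [hMX]; exact hc1) (by rw [hMX]; exact hc2) (by
      rw [Real.le_log_iff_exp_le (by linarith)]
      linarith [Real.exp_one_lt_d9]) HZ hC11
  have hlow := rel_low cV L M N (Real.exp (C11 * X ^ (1 + ε / 2))) k hN1 c3 hcV (by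
    rw [hM, mul_div_assoc]
    exact mul_le_mul_of_nonneg_left hVN' hNp.le) (Real.exp_pos _) (hexp C11 hC110.le c10) c14
  rw [← Real.exp_neg] at hlow
  have hCE := rel_CE C6 C11 ε X D hC61 hC110 hε hε1 hD0 hX' hX1
  rw [← hD]
  refine (mul_le_mul_of_nonneg_right hCE (by positivity)).trans ?_
  refine le_trans ?_ hfin
  linarith

end Pool.Agent.H540.DS
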