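import Pool.Agent.H540.DS.Rel5

/-! **Almost prime values at the differences of the elements of a dense set of primes**. -/

set_option autoImplicit false

namespace Pool.Agent.H540.DS

open Finset Filter Polynomial
open Pool.Agent.W23.DC
open Pool.Agent.Y882.PX
open Pool.Agent.Y882.KW
open Pool.Agent.Y843.HS (Pr VV)

theorem ro_X (p : ℕ) (hp : p.Prime) : ro X 0 p = 1 := by
  rw [ro_eq]
  have h : (range p).filter (fun n : ℕ => (p : ℤ) ∣ (X : ℤ[X]).eval (n : ℤ) + 0) = {0} := by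
    ext n
    rw [mem_filter, mem_range, mem_singleton, eval_X, add_zero]
    constructor
    · rintro ⟨h1, h2⟩
      have h3 : p ∣ n := by exact_mod_cast h2
      exact Nat.eq_zero_of_dvd_of_lt h3 h1
    · rintro rfl
      exact ⟨hp.pos, by simp⟩
  rw [h, card_singleton]

theorem VV_prime : ∃ c C : ℝ, 0 < c ∧ 0 < C ∧ ∀ Y : ℕ, 3 ≤ Y →
    c / Real.log Y ≤ VV (fun _ => {0}) 0 Y ∧ VV (fun _ => {0}) 0 Y ≤ C / Real.log Y := by
  have hX : Irreducible (X : ℤ[X]) := Polynomial.irreducible_X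
  have hXd : 0 < (X : ℤ[X]).natDegree := by simp
  obtain ⟨c, hc, h1⟩ := prod_low X hX hXd 1 (fun p hp => (ro_X p hp).le)
  obtain ⟨C, hC, h2⟩ := Pool.Agent.H474R2.GE.mertens_rho X hX hXd
  refine ⟨1 / 3 * c, Real.exp C, by positivity, Real.exp_pos _, ?_⟩
  intro Y hY
  have hY3 : (3 : ℝ) ≤ Y := by exact_mod_cast hY
  have hl3 : 1 < Real.log 3 := by
    rw [Real.lt_log_iff_exp_lt (by norm_num)]
    linarith [Real.exp_one_lt_d9]
  have hlY : Real.log 3 ≤ Real.log Y := Real.log_le_log (by norm_num) hY3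
  constructor
  · have h3 := h1 (Pr 3 Y) 3 Y (by norm_num) (by norm_num) hY3 (by
      intro p hp
      rw [mem_Pr] at hp
      exact ⟨hp.1, by exact_mod_cast hp.2.1, by exact_mod_cast hp.2.2⟩)
    have h4 : VV (fun _ => {0}) 0 Y = (1 / 3) * ∏ p ∈ Pr 3 Y, (1 - xx X p) := by
      unfold VV
      have h5 : Pr 0 Y = Pr 0 3 ∪ Pr 3 Y := by
        ext p
        rw [mem_union, mem_Pr, mem_Pr, mem_Pr]
        constructor
        · rintro ⟨g1, g2, g3⟩
          by_cases h : p ≤ 3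
          · exact Or.inl ⟨g1, g2, h⟩
          · exact Or.inr ⟨g1, by omega, g3⟩
        · rintro (⟨g1, g2, g3⟩ | ⟨g1, g2, g3⟩)
          · exact ⟨g1, g2, by omega⟩
          · exact ⟨g1, by omega, g3⟩
      have h6 : Disjoint (Pr 0 3) (Pr 3 Y) := by
        rw [disjoint_left]
        intro p hp hp'
        rw [mem_Pr] at hp hp'
        omega
      have h7 : Pr 0 3 = {2, 3} := by decide
      rw [h5, prod_union h6, h7]
      congr 1
      · rw [prod_pair (by norm_num)]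
        norm_num
      · apply prod_congr rfl
        intro p hp
        rw [mem_Pr] at hp
        unfold xx
        rw [ro_X p hp.1]
        simp
    rw [h4]
    calc 1 / 3 * c / Real.log Y ≤ 1 / 3 * (c * (Real.log 3 / Real.log Y)) := by
          rw [mul_div_assoc]
          apply mul_le_mul_of_nonneg_left _ (by norm_num)
          rw [div_eq_mul_one_div]
          apply mul_le_mul_of_nonneg_left _ hc.le
          exact div_le_div_of_nonneg_right hl3.le (by linarith)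
      _ ≤ _ := mul_le_mul_of_nonneg_left h3 (by norm_num)
  · have h3 := (abs_le.1 (h2 Y hY3)).1
    have h4 : Pool.Agent.H474R2.PG.Sg (Pool.Agent.H474R2.PG.rho X) Y = ∑ p ∈ Pr 0 Y, (1 / (p : ℝ)) := by
      unfold Pool.Agent.H474R2.PG.Sg
      have h5 : Pool.Agent.H474R2.PG.PR (Y : ℝ) = Pr 0 Y := by
        unfold Pool.Agent.H474R2.PG.PR
        ext p
        rw [mem_filter, mem_Icc, Nat.floor_natCast, mem_Pr]
        constructor
        · rintro ⟨⟨g1, g2⟩, g3⟩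
          exact ⟨g3, g1, g2⟩
        · rintro ⟨g1, g2, g3⟩
          exact ⟨⟨g2, g3⟩, g1⟩
      rw [h5]
      apply sum_congr rfl
      intro p hp
      rw [mem_Pr] at hp
      have h6 : Pool.Agent.H474R2.PG.rho X p = 1 := by
        have h7 := ro_X p hp.1
        rw [ro_eq] at h7
        unfold Pool.Agent.H474R2.PG.rho
        simpa using h7
      rw [h6]
      simp
    rw [h4] at h3
    unfold VV
    calc ∏ p ∈ Pr 0 Y, (1 - ((({0} : Finset ℕ)).card : ℝ) / p) ≤ ∏ p ∈ Pr 0 Y, Real.exp (-(1 / (p : ℝ))) := by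
          apply Finset.prod_le_prod
          · intro p hp
            rw [mem_Pr] at hp
            have : (1 : ℝ) ≤ p := by exact_mod_cast hp.1.one_le
            rw [card_singleton]
            have h8 : (1 : ℝ) / p ≤ 1 := by
              rw [div_le_one (by linarith)]
              exact this
            push_cast
            linarith
          · intro p hp
            rw [card_singleton]
            have := Real.add_one_le_exp (-(1 / (p : ℝ)))
            push_cast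
            linarith
      _ = Real.exp (-∑ p ∈ Pr 0 Y, (1 / (p : ℝ))) := by
          rw [← Real.exp_sum, sum_neg_distrib]
      _ ≤ Real.exp (C - Real.log (Real.log Y)) := by
          rw [Real.exp_le_exp]
          linarith
      _ = Real.exp C / Real.log Y := by
          rw [Real.exp_sub, Real.exp_log (by linarith)]

/-- the density of the set in the sifted set -/
theorem prim_E (C3 c4 ε D X : ℝ) (hC3 : 0 < C3) (hc40 : 0 < c4) (hc41 : c4 ≤ 1) (hε : 0 < ε) (hε1 : ε ≤ 1)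
    (hDc : c4 ≤ D) (hX : 0 < X) (h1 : X ≤ 2 * C3 * D) :
    X ^ (1 + ε / 2) ≤ (2 * C3 + 1) ^ 2 * (D ^ (1 + ε) / c4 ^ 2) := by
  have hD0 : 0 < D := by linarith
  have h2 : X ≤ (2 * C3 + 1) * D := by linarith
  calc X ^ (1 + ε / 2) ≤ ((2 * C3 + 1) * D) ^ (1 + ε / 2) :=
        Real.rpow_le_rpow hX.le h2 (by linarith)
    _ = (2 * C3 + 1) ^ (1 + ε / 2) * D ^ (1 + ε / 2) := Real.mul_rpow (by positivity) hD0.le
    _ ≤ (2 * C3 + 1) ^ (2 : ℝ) * (D ^ (1 + ε) / c4 ^ 2) := by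
        apply mul_le_mul _ _ (by positivity) (by positivity)
        · exact Real.rpow_le_rpow_of_exponent_le (by linarith) (by linarith)
        · rw [le_div_iff₀ (by positivity)]
          have h3 : D ^ (1 + ε) = D ^ (1 + ε / 2) * D ^ (ε / 2) := by
            rw [← Real.rpow_add hD0]
            congr 1
            ring
          rw [h3]
          apply mul_le_mul_of_nonneg_left _ (by positivity)
          calc c4 ^ 2 = c4 ^ (2 : ℝ) := by rw [← Real.rpow_natCast]; norm_num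
            _ ≤ c4 ^ (ε / 2) := Real.rpow_le_rpow_of_exponent_ge hc40 hc41 (by linarith)
            _ ≤ D ^ (ε / 2) := Real.rpow_le_rpow hc40.le hDc (by linarith)
    _ = _ := by
        rw [← Real.rpow_natCast]
        norm_num

/-- the final estimate -/
theorem prim_fin (C0 C3 C5 c c4 ε D Y M N L : ℝ) (hC0 : 0 < C0) (hc : 0 < c) (hc40 : 0 < c4) (hc41 : c4 ≤ 1)
    (hε : 0 < ε) (hε1 : ε ≤ 1) (hDc : c4 ≤ D) (hL : 0 < L) (hN : 0 < N) (hM : N * (c / L) ≤ M)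
    (hY : Y ≤ (2 * C3 + 1) ^ 2 * (D ^ (1 + ε) / c4 ^ 2))
    (hC5 : C5 = C0 * ((2 * C3 + 1) ^ 2 / c4 ^ 2) + |Real.log (c ^ 2)| / c4 ^ 2) :
    Real.exp (-(C5 * D ^ (1 + ε))) * (N ^ 2 / L ^ 3) ≤ Real.exp (-(C0 * Y)) * (M ^ 2 / L) := by
  have hD0 : 0 < D := by linarith
  have hDe : c4 ^ 2 ≤ D ^ (1 + ε) := by
    calc c4 ^ 2 = c4 ^ (2 : ℝ) := by rw [← Real.rpow_natCast]; norm_num
      _ ≤ c4 ^ (1 + ε) := Real.rpow_le_rpow_of_exponent_ge hc40 hc41 (by linarith)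
      _ ≤ D ^ (1 + ε) := Real.rpow_le_rpow hc40.le hDc (by linarith)
  have h1 : C0 * Y + |Real.log (c ^ 2)| ≤ C5 * D ^ (1 + ε) := by
    have g1 : C0 * Y ≤ C0 * ((2 * C3 + 1) ^ 2 * (D ^ (1 + ε) / c4 ^ 2)) := mul_le_mul_of_nonneg_left hY hC0.le
    have g2 : |Real.log (c ^ 2)| ≤ |Real.log (c ^ 2)| / c4 ^ 2 * D ^ (1 + ε) := by
      rw [div_mul_eq_mul_div, le_div_iff₀ (by positivity)]
      exact mul_le_mul_of_nonneg_left hDe (abs_nonneg _)
    have g3 : C5 * D ^ (1 + ε) = C0 * ((2 * C3 + 1) ^ 2 * (D ^ (1 + ε) / c4 ^ 2)) +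
        |Real.log (c ^ 2)| / c4 ^ 2 * D ^ (1 + ε) := by
      rw [hC5]
      ring
    linarith
  have h2 : Real.exp (-(C5 * D ^ (1 + ε))) ≤ Real.exp (-(C0 * Y)) * c ^ 2 := by
    have g1 : Real.exp (-(C0 * Y)) * c ^ 2 = Real.exp (-(C0 * Y) + Real.log (c ^ 2)) := by
      rw [Real.exp_add, Real.exp_log (by positivity)]
    rw [g1, Real.exp_le_exp]
    have := neg_abs_le (Real.log (c ^ 2))
    linarith
  calc Real.exp (-(C5 * D ^ (1 + ε))) * (N ^ 2 / L ^ 3) ≤ Real.exp (-(C0 * Y)) * c ^ 2 * (N ^ 2 / L ^ 3) :=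
        mul_le_mul_of_nonneg_right h2 (by positivity)
    _ = Real.exp (-(C0 * Y)) * ((N * (c / L)) ^ 2 / L) := by
        field_simp
    _ ≤ Real.exp (-(C0 * Y)) * (M ^ 2 / L) := by
        apply mul_le_mul_of_nonneg_left _ (Real.exp_pos _).le
        apply div_le_div_of_nonneg_right _ hL.le
        exact pow_le_pow_left₀ (by positivity) hM 2

/-- the set of large primes is dense enough -/
theorem prim_dens (C3 ε L N V α β : ℝ) (hε : 0 < ε) (hL1 : 1 ≤ L) (hN : 0 < N)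
    (hv3 : 2 * C3 ≤ L ^ (ε / 2)) (hVu : V ≤ C3 / L) (hAc : N / L ^ (2 - ε) ≤ α) (hβα : α / 2 ≤ β) :
    N * V / L ^ (1 - ε / 2) ≤ β := by
  have hL0 : 0 < L := by linarith
  have hLp : 0 < L ^ (2 - ε) := by positivity
  refine le_trans ?_ hβα
  refine le_trans ?_ (div_le_div_of_nonneg_right hAc (by norm_num : (0 : ℝ) ≤ 2))
  rw [div_div, div_le_div_iff₀ (by positivity) (by positivity)]
  have h1 : L ^ (1 - ε / 2) = L ^ (2 - ε) * (L ^ (ε / 2) / L) := by
    rw [mul_div_assoc', ← Real.rpow_add hL0]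
    have : (2 - ε + ε / 2) = (1 - ε / 2) + 1 := by ring
    rw [this, Real.rpow_add hL0, Real.rpow_one]
    field_simp
  have h2 : V * 2 ≤ L ^ (ε / 2) / L := by
    rw [le_div_iff₀ hL0]
    have h3 : V * L ≤ C3 := by
      rw [le_div_iff₀ hL0] at hVu
      exact hVu
    linarith
  rw [h1]
  calc (N : ℝ) * V * (L ^ (2 - ε) * 2) = N * (L ^ (2 - ε) * (V * 2)) := by ring
    _ ≤ N * (L ^ (2 - ε) * (L ^ (ε / 2) / L)) := by
        apply mul_le_mul_of_nonneg_left _ hN.le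
        exact mul_le_mul_of_nonneg_left h2 hLp.le

/-- the two bounds for the relative density -/
theorem prim_D (C2 C3 N L V α β : ℝ) (hC2 : 0 < C2) (hC3 : 0 < C3) (hN : 0 < N) (hL0 : 0 < L)
    (hα0 : 0 < α) (hβα : α / 2 ≤ β) (hVu : V ≤ C3 / L) (hup : β ≤ C2 * (N * V)) :
    1 / (2 * C2 * C3 + 1) ≤ N / (α * L) ∧ N * V / β ≤ 2 * C3 * (N / (α * L)) := by
  have hβ0 : 0 < β := by linarith
  have h3 : V * L ≤ C3 := by
    rw [le_div_iff₀ hL0] at hVu
    exact hVu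
  constructor
  · rw [div_le_div_iff₀ (by positivity) (by positivity), one_mul]
    have h1 : α ≤ 2 * (C2 * (N * V)) := by linarith
    have h2 : α * L ≤ 2 * (C2 * (N * V)) * L := mul_le_mul_of_nonneg_right h1 hL0.le
    have h4 : 2 * (C2 * (N * V)) * L = 2 * C2 * N * (V * L) := by ring
    have h5 : 2 * C2 * N * (V * L) ≤ 2 * C2 * N * C3 := mul_le_mul_of_nonneg_left h3 (by positivity)
    have h6 : (N : ℝ) * (2 * C2 * C3 + 1) = 2 * C2 * N * C3 + N := by ring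
    linarith
  · rw [div_le_iff₀ hβ0]
    have h4 : 2 * C3 * (N / (α * L)) * (α / 2) ≤ 2 * C3 * (N / (α * L)) * β :=
      mul_le_mul_of_nonneg_left hβα (by positivity)
    have h5 : 2 * C3 * (N / (α * L)) * (α / 2) = C3 / L * N := by field_simp
    have h6 : V * N ≤ C3 / L * N := mul_le_mul_of_nonneg_right hVu hN.le
    linarith

open Classical in
/-- **The main theorem for differences in dense sets of primes.** -/
theorem rel_primes (F : ℤ[X]) (hF : Irreducible F) (hd : 0 < F.natDegree) (h0 : F.eval 0 ≠ 0) (r : ℕ)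
    (hr : 9 / 8 + ((F.natDegree : ℝ) + 1 / 1000) / (24 / 25 * (24 / 25)) ≤ r + 1) (ε : ℝ)
    (hε : 0 < ε) (hε1 : ε ≤ 1) : ∃ C : ℝ, 0 < C ∧ ∀ᶠ N : ℕ in atTop,
      ∀ A : Finset ℕ, A ⊆ Icc 1 N → (∀ p ∈ A, p.Prime) →
      (N : ℝ) / Real.log N ^ (2 - ε) ≤ A.card →
      Real.exp (-(C * (N / (A.card * Real.log N)) ^ (1 + ε))) * ((N : ℝ) ^ 2 / Real.log N ^ 3) ≤
        (((A ×ˢ A).filter (fun z : ℕ × ℕ => z.2 < z.1 ∧
        GoodF F r ((N : ℝ) ^ (6 / 25 : ℝ)) (z.1 - z.2))).card : ℝ) := by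
  obtain ⟨C0, hC0, evR⟩ := rels F hF hd h0 r hr 1 (1 / 10) (ε / 2) (by norm_num) (by linarith) (by linarith)
  obtain ⟨c, C1, hc, hC1, HV⟩ := VV_prime
  obtain ⟨C2, hC2, HS⟩ := card_sifted 1 (show (0 : ℝ) < 1 / 10 by norm_num)
  -- `C3 / log N` bounds the product
  obtain ⟨C3, hC3⟩ : ∃ C3 : ℝ, C3 = 20 * C1 := ⟨_, rfl⟩
  have hC30 : 0 < C3 := by rw [hC3]; positivity
  obtain ⟨c4, hc4⟩ : ∃ c4 : ℝ, c4 = min 1 (1 / (2 * C2 * C3 + 1)) := ⟨_, rfl⟩
  have hc40 : 0 < c4 := by rw [hc4]; positivity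
  have hc41 : c4 ≤ 1 := by rw [hc4]; exact min_le_left _ _
  obtain ⟨C5, hC5⟩ : ∃ C5 : ℝ, C5 = C0 * ((2 * C3 + 1) ^ 2 / c4 ^ 2) + |Real.log (c ^ 2)| / c4 ^ 2 := ⟨_, rfl⟩
  have hC50 : 0 < C5 := by rw [hC5]; positivity
  refine ⟨C5, hC50, ?_⟩
  have v2 : ∀ᶠ N : ℕ in atTop, (3 : ℝ) + 1 ≤ (N : ℝ) ^ (1 / 10 : ℝ) :=
    ((tendsto_rpow_atTop (by norm_num : (0 : ℝ) < 1 / 10)).comp tendsto_natCast_atTop_atTop).eventually_ge_atTop _
  have v3 : ∀ᶠ N : ℕ in atTop, 2 * C3 ≤ Real.log N ^ (ε / 2) :=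
    ((tendsto_rpow_atTop (show 0 < ε / 2 by linarith)).comp tlog).eventually_ge_atTop _
  have v4 : ∀ᶠ N : ℕ in atTop, 2 * Real.log N ^ 2 ≤ (N : ℝ) ^ (1 / 10 : ℝ) := by
    filter_upwards [loN 2 (1 / 10) 2 (by norm_num)] with N h
    rw [Real.rpow_ofNat] at h
    exact h
  filter_upwards [evR, v2, v3, v4, tlog.eventually_ge_atTop 1, eventually_ge_atTop 3] with
    N hR hv2 hv3 hv4 hL1 hN3 A hA hAp hAc
  have hNr : (3 : ℝ) ≤ N := by exact_mod_cast hN3
  have hNp : (0 : ℝ) < N := by linarith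
  have hN1 : (1 : ℝ) ≤ N := by linarith
  obtain ⟨Y, hY⟩ : ∃ Y : ℕ, Y = ⌊(N : ℝ) ^ (1 / 10 : ℝ)⌋₊ := ⟨_, rfl⟩
  have hYle : (Y : ℝ) ≤ (N : ℝ) ^ (1 / 10 : ℝ) := by rw [hY]; exact Nat.floor_le (by positivity)
  have hYge : (N : ℝ) ^ (1 / 10 : ℝ) - 1 ≤ Y := by
    rw [hY]
    linarith [Nat.lt_floor_add_one ((N : ℝ) ^ (1 / 10 : ℝ))]
  have hY3 : 3 ≤ Y := by
    have : (3 : ℝ) ≤ Y := by linarith
    exact_mod_cast this
  have hY3r : (3 : ℝ) ≤ Y := by exact_mod_cast hY3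
  obtain ⟨hV1, hV2⟩ := HV Y hY3
  have hR' := hR (fun _ => {0}) (by
    intro p hp _
    refine ⟨by simp, by rw [card_singleton]; exact hp.one_lt, ?_⟩
    intro c hc
    rw [mem_singleton] at hc
    rw [hc]
    exact hp.pos)
  have hS' := HS N (by omega) (fun _ => {0}) (by
    intro p hp _
    refine ⟨by simp, by rw [card_singleton]; exact hp.one_lt, ?_⟩
    intro c hc
    rw [mem_singleton] at hc
    rw [hc]
    exact hp.pos)
  rw [← hY] at hR' hS'
  obtain ⟨V, hV⟩ : ∃ V : ℝ, V = VV (fun _ => {0}) 0 Y := ⟨_, rfl⟩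
  rw [← hV] at hV1 hV2 hR' hS'
  obtain ⟨L, hL⟩ : ∃ L : ℝ, L = Real.log N := ⟨_, rfl⟩
  rw [← hL] at hR' hv3 hv4 hL1 hAc ⊢
  have hL0 : 0 < L := by linarith
  -- the logarithm of `Y`
  have hlY1 : Real.log Y ≤ L := by
    rw [hL]
    apply Real.log_le_log (by linarith)
    refine hYle.trans ?_
    calc (N : ℝ) ^ (1 / 10 : ℝ) ≤ (N : ℝ) ^ (1 : ℝ) := Real.rpow_le_rpow_of_exponent_le hN1 (by norm_num)
      _ = N := Real.rpow_one _
  have hlY2 : L / 20 ≤ Real.log Y := by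
    have h1 : (N : ℝ) ^ (1 / 20 : ℝ) ≤ Y := by
      have h2 : (N : ℝ) ^ (1 / 10 : ℝ) = (N : ℝ) ^ (1 / 20 : ℝ) * (N : ℝ) ^ (1 / 20 : ℝ) := by
        rw [← Real.rpow_add hNp]
        norm_num
      have h3 : 0 < (N : ℝ) ^ (1 / 20 : ℝ) := by positivity
      have h4 : 2 ≤ (N : ℝ) ^ (1 / 20 : ℝ) := by
        by_contra h
        push Not at h
        rw [h2] at hv2
        nlinarith
      nlinarith
    have h5 := Real.log_le_log (by positivity) h1
    rw [Real.log_rpow hNp, ← hL] at h5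
    linarith
  have hlY0 : 0 < Real.log Y := by linarith
  have hVl : c / L ≤ V := (div_le_div_of_nonneg_left hc.le hlY0 hlY1).trans hV1
  have hVu : V ≤ C3 / L := by
    refine hV2.trans ?_
    rw [hC3, div_le_div_iff₀ hlY0 hL0]
    nlinarith
  have hV0 : 0 < V := lt_of_lt_of_le (by positivity) hVl
  -- the large primes
  obtain ⟨A', hA'⟩ : ∃ A' : Finset ℕ, A' = A.filter (fun p => Y < p) := ⟨_, rfl⟩
  have hA'A : A' ⊆ A := by rw [hA']; exact filter_subset _ _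
  have hcard : (A.card : ℝ) ≤ A'.card + Y := by
    have h1 : A ⊆ A' ∪ Icc 1 Y := by
      intro p hp
      rw [mem_union, hA', mem_filter, mem_Icc]
      by_cases h : Y < p
      · exact Or.inl ⟨hp, h⟩
      · exact Or.inr ⟨(hAp p hp).one_le, by omega⟩
    have h2 := (card_le_card h1).trans (card_union_le _ _)
    rw [Nat.card_Icc, Nat.add_sub_cancel] at h2
    exact_mod_cast h2
  obtain ⟨α, hα⟩ : ∃ α : ℝ, α = (A.card : ℝ) := ⟨_, rfl⟩
  obtain ⟨β, hβ⟩ : ∃ β : ℝ, β = (A'.card : ℝ) := ⟨_, rfl⟩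
  rw [← hα] at hcard hAc ⊢
  rw [← hβ] at hcard
  have hLp : 0 < L ^ (2 - ε) := by positivity
  have hα0 : 0 < α := lt_of_lt_of_le (by positivity) hAc
  have hYα : (Y : ℝ) ≤ α / 2 := by
    refine hYle.trans ?_
    have h1 : L ^ (2 - ε) ≤ L ^ 2 := by
      rw [← Real.rpow_natCast L 2]
      exact Real.rpow_le_rpow_of_exponent_le hL1 (by push_cast; linarith)
    have h2 : (N : ℝ) / L ^ 2 ≤ α := (div_le_div_of_nonneg_left hNp.le hLp h1).trans hAc
    have h3 : (N : ℝ) ^ (1 / 10 : ℝ) * (2 * L ^ 2) ≤ N := by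
      calc (N : ℝ) ^ (1 / 10 : ℝ) * (2 * L ^ 2) ≤ (N : ℝ) ^ (1 / 10 : ℝ) * (N : ℝ) ^ (1 / 10 : ℝ) :=
            mul_le_mul_of_nonneg_left hv4 (by positivity)
        _ = (N : ℝ) ^ (1 / 10 + 1 / 10 : ℝ) := by rw [← Real.rpow_add hNp]
        _ ≤ (N : ℝ) ^ (1 : ℝ) := Real.rpow_le_rpow_of_exponent_le hN1 (by norm_num)
        _ = N := Real.rpow_one _
    have h4 : (N : ℝ) ^ (1 / 10 : ℝ) * 2 ≤ N / L ^ 2 := by
      rw [le_div_iff₀ (by positivity)]
      linarith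
    linarith
  have hβα : α / 2 ≤ β := by linarith
  have hβ0 : 0 < β := by linarith
  have hsift : ∀ n ∈ A', ∀ p : ℕ, p.Prime → (p : ℝ) ≤ (N : ℝ) ^ (1 / 10 : ℝ) → n % p ∉ ({0} : Finset ℕ) := by
    intro n hn p hp hpN hmem
    rw [hA', mem_filter] at hn
    rw [mem_singleton] at hmem
    have h1 : p ∣ n := Nat.dvd_of_mod_eq_zero hmem
    have h2 := (Nat.prime_dvd_prime_iff_eq hp (hAp n hn.1)).1 h1
    have h3 : p ≤ Y := by rw [hY]; exact Nat.le_floor hpN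
    omega
  have hfin := hR' A' (hA'A.trans hA) hsift (by
    rw [← hβ]
    exact prim_dens C3 ε L N V α β hε hL1 hNp hv3 hVu hAc hβα)
  have hαup := hS' A' (hA'A.trans hA) hsift
  rw [← hβ] at hfin hαup
  obtain ⟨hD1, hD2⟩ := prim_D C2 C3 N L V α β hC2 hC30 hNp hL0 hα0 hβα hVu hαup
  obtain ⟨D, hD⟩ : ∃ D : ℝ, D = N / (α * L) := ⟨_, rfl⟩
  rw [← hD] at hD1 hD2 ⊢
  have hDc : c4 ≤ D := (show c4 ≤ 1 / (2 * C2 * C3 + 1) by rw [hc4]; exact min_le_right _ _).trans hD1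
  have hE := prim_E C3 c4 ε D (N * V / β) hC30 hc40 hc41 hε hε1 hDc (by positivity) hD2
  have hF := prim_fin C0 C3 C5 c c4 ε D _ (N * V) N L hC0 hc hc40 hc41 hε hε1 hDc hL0 hNp
    (mul_le_mul_of_nonneg_left hVl hNp.le) hE hC5
  refine hF.trans (hfin.trans ?_)
  have hsub : (A' ×ˢ A').filter (fun z : ℕ × ℕ => z.2 < z.1 ∧
        GoodF F r ((N : ℝ) ^ (6 / 25 : ℝ)) (z.1 - z.2)) ⊆ (A ×ˢ A).filter (fun z : ℕ × ℕ => z.2 < z.1 ∧
        GoodF F r ((N : ℝ) ^ (6 / 25 : ℝ)) (z.1 - z.2)) := by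
    apply filter_subset_filter
    exact product_subset_product hA'A hA'A
  exact_mod_cast card_le_card hsub

end Pool.Agent.H540.DS
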