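import Pool.Agent.H540.DS.Four
import Pool.Graph.R_seed8.Y882.PX.Ro
import Pool.Graph.R_pool_sql_team_seeded_5cf16337.K3h21.IR.Sqr

/-! Roots of an irreducible polynomial modulo prime powers, and a bound of Rankin's type. -/

set_option autoImplicit false

namespace Pool.Agent.H540.DS

open Finset Polynomial
open Pool.Agent.Y882.PX
open Pool.Agent.Y882.SI (RT RT_card RS dvd_eval_congr)

theorem mem_RT (F : ℤ[X]) (q m : ℕ) : m ∈ RT F q ↔ m < q ∧ (q : ℤ) ∣ F.eval (m : ℤ) := by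
  unfold RT
  rw [mem_filter, mem_range]

/-- two roots modulo a power of `p` which are close are very close -/
theorem roots_close (F P Q : ℤ[X]) (R : ℤ)
    (hb : ∀ x : ℤ, F.eval x * P.eval x + F.derivative.eval x * Q.eval x = R)
    (p : ℕ) (hp : p.Prime) (s j : ℕ) (hs : ¬ ((p : ℤ) ^ (s + 1)) ∣ R) (hj : 2 * s < j) (x y : ℤ)
    (hx : (p : ℤ) ^ j ∣ F.eval x) (hy : (p : ℤ) ^ j ∣ F.eval y) (hxy : (p : ℤ) ^ (s + 1) ∣ y - x) :
    (p : ℤ) ^ (j - s) ∣ y - x := by
  obtain ⟨k, hk⟩ := Polynomial.binomExpansion F x (y - x)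
  have e0 : x + (y - x) = y := by ring
  rw [e0] at hk
  have h1 : (p : ℤ) ^ j ∣ (y - x) * (F.derivative.eval x + k * (y - x)) := by
    have : (y - x) * (F.derivative.eval x + k * (y - x)) = F.eval y - F.eval x := by
      rw [hk]
      ring
    rw [this]
    exact dvd_sub hy hx
  have h2 : ¬ ((p : ℤ) ^ (s + 1)) ∣ F.derivative.eval x + k * (y - x) := by
    intro h
    apply hs
    rw [← hb x]
    have h3 : (p : ℤ) ^ (s + 1) ∣ F.eval x := dvd_trans (pow_dvd_pow _ (by omega)) hx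
    have h4 : (p : ℤ) ^ (s + 1) ∣ F.derivative.eval x := by
      have := dvd_sub h (Dvd.dvd.mul_left hxy k)
      rwa [add_sub_cancel_right] at this
    exact dvd_add (Dvd.dvd.mul_right h3 _) (Dvd.dvd.mul_right h4 _)
  have h5 : p ^ j ∣ (y - x).natAbs * (F.derivative.eval x + k * (y - x)).natAbs := by
    rw [← Int.natAbs_mul]
    have := Int.natAbs_dvd_natAbs.2 h1
    rwa [Int.natAbs_pow, Int.natAbs_natCast] at this
  obtain ⟨k1, k2, hk1, hk2, hk3⟩ := (Nat.dvd_mul).1 h5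
  obtain ⟨a, ha, hka⟩ := (Nat.dvd_prime_pow hp).1 (show k1 ∣ p ^ j by rw [← hk3]; exact Dvd.intro _ rfl)
  obtain ⟨b, hb', hkb⟩ := (Nat.dvd_prime_pow hp).1 (show k2 ∣ p ^ j by rw [← hk3]; exact Dvd.intro_left _ rfl)
  have hab : a + b = j := by
    rw [hka, hkb, ← pow_add] at hk3
    exact Nat.pow_right_injective hp.two_le hk3
  have hbs : b ≤ s := by
    by_contra hcon
    push Not at hcon
    apply h2
    have h6 : p ^ (s + 1) ∣ (F.derivative.eval x + k * (y - x)).natAbs := by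
      refine dvd_trans (pow_dvd_pow p hcon) ?_
      rw [← hkb]
      exact hk2
    have h7 := Int.natCast_dvd.2 h6
    push_cast at h7
    exact h7
  have h8 : p ^ (j - s) ∣ (y - x).natAbs := by
    refine dvd_trans (pow_dvd_pow p (show j - s ≤ a by omega)) ?_
    rw [← hka]
    exact hk1
  have h9 := Int.natCast_dvd.2 h8
  push_cast at h9
  exact h9

/-- **Boundedly many roots modulo prime powers.** -/
theorem ro_pow_le (F : ℤ[X]) (hF : Irreducible F) (hd : 0 < F.natDegree) :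
    ∃ K : ℕ, ∀ p : ℕ, p.Prime → ∀ j : ℕ, ro F 0 (p ^ j) ≤ K := by
  classical
  obtain ⟨P, Q, R, hR, hb⟩ := Pool.Agent.K3h21.IR.bez F hF hd
  refine ⟨max (KF F) (R.natAbs ^ 3), ?_⟩
  intro p hp j
  have hRn : R.natAbs ≠ 0 := Int.natAbs_ne_zero.2 hR
  obtain ⟨s, hs⟩ : ∃ s : ℕ, s = R.natAbs.factorization p := ⟨_, rfl⟩
  have hs1 : p ^ s ∣ R.natAbs := by
    rw [hs]
    exact Nat.ordProj_dvd _ _
  have hs2 : ¬ ((p : ℤ) ^ (s + 1)) ∣ R := by
    intro h
    have h1 := Int.natAbs_dvd_natAbs.2 h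
    rw [Int.natAbs_pow, Int.natAbs_natCast, hs] at h1
    exact Nat.pow_succ_factorization_not_dvd hRn hp h1
  have hs3 : p ^ s ≤ R.natAbs := Nat.le_of_dvd (Nat.pos_of_ne_zero hRn) hs1
  have hR1 : 1 ≤ R.natAbs := Nat.pos_of_ne_zero hRn
  rcases Nat.lt_or_ge (2 * s) j with hj | hj
  · -- many digits
    have hcl := roots_close F P Q R hb p hp s j hs2 hj
    have hpj : p ^ j = p ^ (j - s) * p ^ s := by
      rw [← pow_add]
      congr 1
      omega
    have h1 : (RT F (p ^ j)).card ≤ p ^ s * ((RT F (p ^ j)).image (fun m => m % p ^ (s + 1))).card := by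
      apply card_le_mul_card_image
      intro a ha
      rw [mem_image] at ha
      obtain ⟨x0, hx0, hx0a⟩ := ha
      rw [← card_range (p ^ s)]
      apply card_le_card_of_injOn (fun x => x / p ^ (j - s))
      · intro x hx
        rw [mem_coe, mem_filter, mem_RT] at hx
        rw [mem_coe, mem_range]
        apply Nat.div_lt_of_lt_mul
        rw [← hpj]
        exact hx.1.1
      · intro x hx y hy hxy
        rw [mem_coe, mem_filter, mem_RT] at hx hy
        simp only at hxy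
        have h2 : (p : ℤ) ^ (s + 1) ∣ (y : ℤ) - x := by
          have h3 : x ≡ y [MOD p ^ (s + 1)] := by
            rw [Nat.ModEq, hx.2, hy.2]
          have h4 := (Nat.modEq_iff_dvd.1 h3)
          push_cast at h4
          exact h4
        have h3 := hcl x y (by have := hx.1.2; push_cast at this; exact this)
          (by have := hy.1.2; push_cast at this; exact this) h2
        have h4 : x ≡ y [MOD p ^ (j - s)] := by
          rw [Nat.modEq_iff_dvd]
          push_cast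
          exact h3
        rw [← Nat.div_add_mod x (p ^ (j - s)), ← Nat.div_add_mod y (p ^ (j - s)), hxy, h4]
    rw [← RT_card]
    rcases Nat.eq_zero_or_pos s with h0 | h0
    · subst h0
      rw [pow_zero, one_mul, zero_add, pow_one] at h1
      refine h1.trans (le_trans ?_ (le_max_left _ _))
      refine le_trans ?_ (ro_le F hd 0 p hp)
      rw [← RT_card]
      apply card_le_card
      intro a ha
      rw [mem_image] at ha
      obtain ⟨x, hx, rfl⟩ := ha
      rw [mem_RT] at hx ⊢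
      refine ⟨Nat.mod_lt _ hp.pos, ?_⟩
      have h2 : (p : ℤ) ∣ F.eval (x : ℤ) := by
        refine dvd_trans ?_ hx.2
        push_cast
        exact dvd_pow_self _ (by omega)
      refine (dvd_eval_congr F p _ _ ?_).1 h2
      push_cast
      exact Int.dvd_self_sub_emod
    · refine h1.trans (le_trans ?_ (le_max_right _ _))
      have h2 : ((RT F (p ^ j)).image (fun m => m % p ^ (s + 1))).card ≤ p ^ (s + 1) := by
        refine le_trans (card_le_card (t := range (p ^ (s + 1))) ?_) (le_of_eq (card_range _))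
        intro a ha
        rw [mem_image] at ha
        obtain ⟨x, _, rfl⟩ := ha
        rw [mem_range]
        exact Nat.mod_lt _ (pow_pos hp.pos _)
      calc p ^ s * ((RT F (p ^ j)).image (fun m => m % p ^ (s + 1))).card ≤ p ^ s * p ^ (s + 1) :=
            Nat.mul_le_mul_left _ h2
        _ ≤ p ^ s * (p ^ s * p ^ s) := by
            apply Nat.mul_le_mul_left
            rw [← pow_add]
            exact Nat.pow_le_pow_right hp.pos (by omega)
        _ = (p ^ s) ^ 3 := by ring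
        _ ≤ R.natAbs ^ 3 := Nat.pow_le_pow_left hs3 3
  · refine (ro_le_self F 0 _).trans (le_trans ?_ (le_max_right _ _))
    calc p ^ j ≤ p ^ (2 * s) := Nat.pow_le_pow_right hp.pos hj
      _ = (p ^ s) ^ 2 := by rw [mul_comm, pow_mul]
      _ ≤ R.natAbs ^ 2 := Nat.pow_le_pow_left hs3 2
      _ ≤ R.natAbs ^ 3 := Nat.pow_le_pow_right hR1 (by norm_num)

theorem ro_mul (F : ℤ[X]) (q1 q2 : ℕ) (h1 : 0 < q1) (h2 : 0 < q2) (hc : q1.Coprime q2) :
    ro F 0 (q1 * q2) = ro F 0 q1 * ro F 0 q2 := by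
  have h := RT_split F q1 q2 h1 h2 hc (fun _ => 1)
  simp only [sum_const, nsmul_eq_mul, mul_one] at h
  rw [RT_card, RT_card] at h
  have h3 : ((ro F 0 (q1 * q2) : ℕ) : ℂ) = ((ro F 0 q1 * ro F 0 q2 : ℕ) : ℂ) := by
    rw [h]
    push_cast
    ring
  exact_mod_cast h3

theorem ro_one (F : ℤ[X]) : ro F 0 1 = 1 := by
  rw [← RT_card]
  unfold RT
  simp

/-- the sum over the divisors of a product of prime powers -/
theorem div_sum (F : ℤ[X]) (s : ℝ) (k : ℕ) (P : Finset ℕ) (hP : ∀ p ∈ P, p.Prime) (Z : ℕ → ℝ)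
    (hZ : ∀ p ∈ P, ∑ j ∈ range (k + 1), (ro F 0 (p ^ j) : ℝ) * ((p ^ j : ℕ) : ℝ) ^ s ≤ Z p) :
    ∑ f ∈ (∏ p ∈ P, p ^ k).divisors, (ro F 0 f : ℝ) * (f : ℝ) ^ s ≤ ∏ p ∈ P, Z p := by
  classical
  induction P using Finset.induction_on with
  | empty =>
    simp [ro_one]
  | insert q T hq ih =>
    have hqp : q.Prime := hP q (mem_insert_self _ _)
    have hTp : ∀ p ∈ T, p.Prime := fun p hp => hP p (mem_insert_of_mem hp)
    have ih' := ih hTp (fun p hp => hZ p (mem_insert_of_mem hp))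
    rw [prod_insert hq, prod_insert hq]
    obtain ⟨M0, hM0⟩ : ∃ M0 : ℕ, M0 = ∏ p ∈ T, p ^ k := ⟨_, rfl⟩
    rw [← hM0] at ih' ⊢
    have hM0pos : 0 < M0 := by
      rw [hM0]
      exact prod_pos fun p hp => pow_pos (hTp p hp).pos _
    have hcop : ∀ j : ℕ, (q ^ j).Coprime M0 := by
      intro j
      rw [hM0]
      apply Nat.Coprime.prod_right
      intro p hp
      apply Nat.Coprime.pow
      rw [Nat.coprime_primes hqp (hTp p hp)]
      rintro rfl
      exact hq hp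
    have hsub : (q ^ k * M0).divisors ⊆ (range (k + 1) ×ˢ M0.divisors).image
        (fun z : ℕ × ℕ => q ^ z.1 * z.2) := by
      intro f hf
      rw [Nat.mem_divisors] at hf
      obtain ⟨k1, k2, hk1, hk2, hk3⟩ := (Nat.dvd_mul).1 hf.1
      obtain ⟨a, ha, hka⟩ := (Nat.dvd_prime_pow hqp).1 hk1
      rw [mem_image]
      refine ⟨(a, k2), ?_, ?_⟩
      · rw [mem_product, mem_range, Nat.mem_divisors]
        exact ⟨by simp only; omega, hk2, hM0pos.ne'⟩
      · simp only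
        rw [← hka, hk3]
    have hnn : ∀ f : ℕ, 0 ≤ (ro F 0 f : ℝ) * (f : ℝ) ^ s := fun f => by positivity
    calc ∑ f ∈ (q ^ k * M0).divisors, (ro F 0 f : ℝ) * (f : ℝ) ^ s ≤
        ∑ f ∈ (range (k + 1) ×ˢ M0.divisors).image (fun z : ℕ × ℕ => q ^ z.1 * z.2),
          (ro F 0 f : ℝ) * (f : ℝ) ^ s := sum_le_sum_of_subset_of_nonneg hsub (fun f _ _ => hnn f)
      _ ≤ ∑ z ∈ range (k + 1) ×ˢ M0.divisors, (ro F 0 (q ^ z.1 * z.2) : ℝ) * ((q ^ z.1 * z.2 : ℕ) : ℝ) ^ s :=
          sum_image_le_of_nonneg (fun f _ => hnn f)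
      _ = ∑ z ∈ range (k + 1) ×ˢ M0.divisors, ((ro F 0 (q ^ z.1) : ℝ) * ((q ^ z.1 : ℕ) : ℝ) ^ s) *
            ((ro F 0 z.2 : ℝ) * (z.2 : ℝ) ^ s) := by
          apply sum_congr rfl
          rintro ⟨j, f⟩ hz
          rw [mem_product, Nat.mem_divisors] at hz
          simp only at hz ⊢
          have hf0 : 0 < f := Nat.pos_of_dvd_of_pos hz.2.1 hM0pos
          rw [ro_mul F _ f (pow_pos hqp.pos _) hf0 ((hcop j).coprime_dvd_right hz.2.1)]
          push_cast
          rw [Real.mul_rpow (by positivity) (by positivity)]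
          ring
      _ = (∑ j ∈ range (k + 1), (ro F 0 (q ^ j) : ℝ) * ((q ^ j : ℕ) : ℝ) ^ s) *
            ∑ f ∈ M0.divisors, (ro F 0 f : ℝ) * (f : ℝ) ^ s := by
          rw [sum_product, sum_mul_sum]
      _ ≤ Z q * ∏ p ∈ T, Z p := by
          apply mul_le_mul (hZ q (mem_insert_self _ _)) ih' (sum_nonneg fun f _ => hnn f)
          refine le_trans (sum_nonneg fun j _ => ?_) (hZ q (mem_insert_self _ _))
          exact hnn (q ^ j)

/-- the local factor -/
theorem loc_fac (F : ℤ[X]) (K : ℕ) (p : ℕ) (hp : p.Prime) (hK : ∀ j : ℕ, ro F 0 (p ^ j) ≤ K) (x : ℝ)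
    (hx : 4 ≤ Real.log x) (hpx : (p : ℝ) ≤ x) (k : ℕ) :
    ∑ j ∈ range (k + 1), (ro F 0 (p ^ j) : ℝ) * ((p ^ j : ℕ) : ℝ) ^ (1 / Real.log x - 1) ≤
      Real.exp (7 * K / p) := by
  have hl : 0 < Real.log x := by linarith
  have hp2 : (2 : ℝ) ≤ p := by exact_mod_cast hp.two_le
  have hp0 : (0 : ℝ) < p := by linarith
  obtain ⟨y, hy⟩ : ∃ y : ℝ, y = (p : ℝ) ^ (1 / Real.log x - 1) := ⟨_, rfl⟩
  have hy0 : 0 < y := by rw [hy]; positivity
  have hx0 : 0 < x := by linarith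
  have hye : y ≤ Real.exp 1 / p := by
    rw [hy, Real.rpow_sub hp0, Real.rpow_one]
    apply div_le_div_of_nonneg_right _ hp0.le
    calc (p : ℝ) ^ (1 / Real.log x) ≤ x ^ (1 / Real.log x) :=
          Real.rpow_le_rpow hp0.le hpx (by positivity)
      _ = Real.exp 1 := by
          rw [Real.rpow_def_of_pos hx0, mul_one_div_cancel hl.ne']
  have hy6 : y ≤ 3 / 5 := by
    have h1 : y ≤ (p : ℝ) ^ (-(3 / 4) : ℝ) := by
      rw [hy]
      apply Real.rpow_le_rpow_of_exponent_le (by linarith)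
      have : 1 / Real.log x ≤ 1 / 4 := one_div_le_one_div_of_le (by norm_num) hx
      linarith
    have h2 : (p : ℝ) ^ (-(3 / 4) : ℝ) ≤ (2 : ℝ) ^ (-(3 / 4) : ℝ) :=
      Real.rpow_le_rpow_of_nonpos (by norm_num) hp2 (by norm_num)
    have h3 : (2 : ℝ) ^ (-(3 / 4) : ℝ) ≤ 3 / 5 := by
      have h4 : ((2 : ℝ) ^ (-(3 / 4) : ℝ)) ^ 4 = 1 / 8 := by
        rw [← Real.rpow_natCast, ← Real.rpow_mul (by norm_num)]
        have h5 : (-(3 / 4) : ℝ) * ((4 : ℕ) : ℝ) = ((-3 : ℤ) : ℝ) := by norm_num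
        rw [h5, Real.rpow_intCast]
        norm_num
      by_contra hcon
      push Not at hcon
      have h5 : (3 / 5 : ℝ) ^ 4 < ((2 : ℝ) ^ (-(3 / 4) : ℝ)) ^ 4 :=
        pow_lt_pow_left₀ hcon (by norm_num) (by norm_num)
      rw [h4] at h5
      norm_num at h5
    linarith
  have hterm : ∀ j : ℕ, ((p ^ j : ℕ) : ℝ) ^ (1 / Real.log x - 1) = y ^ j := by
    intro j
    rw [hy]
    push_cast
    rw [← Real.rpow_natCast, ← Real.rpow_natCast, ← Real.rpow_mul hp0.le, ← Real.rpow_mul hp0.le,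
      mul_comm]
  have hKr : (0 : ℝ) ≤ K := Nat.cast_nonneg K
  have h1 : ∑ j ∈ range (k + 1), (ro F 0 (p ^ j) : ℝ) * ((p ^ j : ℕ) : ℝ) ^ (1 / Real.log x - 1) ≤
      1 + K * (5 / 2 * y) := by
    rw [sum_range_succ']
    have h2 : (ro F 0 (p ^ 0) : ℝ) * ((p ^ 0 : ℕ) : ℝ) ^ (1 / Real.log x - 1) = 1 := by
      simp [ro_one]
    rw [h2]
    have h3 : ∑ j ∈ range k, (ro F 0 (p ^ (j + 1)) : ℝ) * ((p ^ (j + 1) : ℕ) : ℝ) ^ (1 / Real.log x - 1) ≤
        ∑ j ∈ range k, K * (y * y ^ j) := by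
      apply sum_le_sum
      intro j _
      rw [hterm, ← pow_succ']
      have h9 : (ro F 0 (p ^ (j + 1)) : ℝ) ≤ K := Nat.cast_le.2 (hK (j + 1))
      exact mul_le_mul_of_nonneg_right h9 (by positivity)
    have h4 : ∑ j ∈ range k, K * (y * y ^ j) ≤ K * (5 / 2 * y) := by
      rw [← mul_sum, ← mul_sum]
      apply mul_le_mul_of_nonneg_left _ hKr
      have h5 : ∑ j ∈ range k, y ^ j ≤ 5 / 2 := by
        have h6 : (∑ j ∈ range k, y ^ j) * (1 - y) = 1 - y ^ k := by
          have := geom_sum_mul y k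
          linarith
        have h7 : 0 ≤ y ^ k := by positivity
        have h8 : 0 ≤ ∑ j ∈ range k, y ^ j := sum_nonneg fun j _ => by positivity
        nlinarith
      calc y * ∑ j ∈ range k, y ^ j ≤ y * (5 / 2) := mul_le_mul_of_nonneg_left h5 hy0.le
        _ = 5 / 2 * y := mul_comm _ _
    linarith
  refine h1.trans ?_
  have h2 : 1 + K * (5 / 2 * y) ≤ 1 + 7 * K / p := by
    have h3 : 5 / 2 * y ≤ 7 / p := by
      have h4 : 5 / 2 * y ≤ 5 / 2 * (Real.exp 1 / p) := mul_le_mul_of_nonneg_left hye (by norm_num)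
      refine h4.trans ?_
      rw [mul_div_assoc']
      apply div_le_div_of_nonneg_right _ hp0.le
      have := Real.exp_one_lt_d9
      linarith
    have h4 : (K : ℝ) * (5 / 2 * y) ≤ K * (7 / p) := mul_le_mul_of_nonneg_left h3 hKr
    have h5 : (K : ℝ) * (7 / p) = 7 * K / p := by ring
    linarith
  have h3 := Real.add_one_le_exp (7 * (K : ℝ) / p)
  linarith

open Classical in
/-- **Rankin's bound for the smooth divisors.** -/
theorem rankin (F : ℤ[X]) (K : ℕ) (hK : ∀ p : ℕ, p.Prime → ∀ j : ℕ, ro F 0 (p ^ j) ≤ K) (x : ℝ)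
    (hx1 : 1 ≤ x) (hx : 4 ≤ Real.log x) (k : ℕ) (P : Finset ℕ)
    (hP : ∀ p ∈ P, p.Prime ∧ (p : ℝ) ≤ x) (U : ℝ)
    (hU : Real.exp ((14 * K + 2) * Real.log x ^ 2) ≤ U) :
    ∑ f ∈ (∏ p ∈ P, p ^ k).divisors.filter (fun f : ℕ => U < f), (ro F 0 f : ℝ) / f ≤ 1 / x ^ 2 := by
  have hx0 : 0 < x := by linarith
  have hK' : (0 : ℝ) ≤ K := Nat.cast_nonneg K
  obtain ⟨l, hl⟩ : ∃ l : ℝ, l = Real.log x := ⟨_, rfl⟩
  have hDS := div_sum F (1 / Real.log x - 1) k P (fun p hp => (hP p hp).1)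
    (fun p => Real.exp (7 * K / p)) (fun p hp => loc_fac F K p (hP p hp).1 (hK p (hP p hp).1) x hx
      (hP p hp).2 k)
  rw [← hl] at hx hU hDS
  have hl0 : 0 < l := by linarith
  have hU0 : 0 < U := lt_of_lt_of_le (Real.exp_pos _) hU
  have hUl : Real.exp ((14 * K + 2) * l) ≤ U ^ (1 / l) := by
    calc Real.exp ((14 * K + 2) * l) = (Real.exp ((14 * K + 2) * l ^ 2)) ^ (1 / l) := by
          rw [← Real.exp_mul]
          congr 1
          field_simp
      _ ≤ U ^ (1 / l) := Real.rpow_le_rpow (Real.exp_pos _).le hU (by positivity)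
  have h1 : ∑ f ∈ (∏ p ∈ P, p ^ k).divisors.filter (fun f : ℕ => U < f), (ro F 0 f : ℝ) / f ≤
      ∑ f ∈ (∏ p ∈ P, p ^ k).divisors, (1 / Real.exp ((14 * K + 2) * l)) *
        ((ro F 0 f : ℝ) * (f : ℝ) ^ (1 / l - 1)) := by
    refine le_trans (sum_le_sum (fun f hf => ?_)) (sum_le_sum_of_subset_of_nonneg
      (filter_subset _ _) (fun f _ _ => by positivity))
    rw [mem_filter] at hf
    have hf0 : (0 : ℝ) < f := hU0.trans hf.2
    have h2 : 1 ≤ (1 / Real.exp ((14 * K + 2) * l)) * (f : ℝ) ^ (1 / l) := by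
      rw [one_div_mul_eq_div, le_div_iff₀ (Real.exp_pos _), one_mul]
      exact hUl.trans (Real.rpow_le_rpow hU0.le hf.2.le (by positivity))
    have h3 : (f : ℝ) ^ (1 / l - 1) = (f : ℝ) ^ (1 / l) / f := by
      rw [Real.rpow_sub hf0, Real.rpow_one]
    rw [h3]
    have h4 : (1 / Real.exp ((14 * K + 2) * l)) * ((ro F 0 f : ℝ) * ((f : ℝ) ^ (1 / l) / f)) =
        ((1 / Real.exp ((14 * K + 2) * l)) * (f : ℝ) ^ (1 / l)) * ((ro F 0 f : ℝ) / f) := by ring
    rw [h4]
    exact le_mul_of_one_le_left (by positivity) h2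
  refine h1.trans ?_
  rw [← mul_sum]
  have h5 : ∏ p ∈ P, Real.exp (7 * K / p) ≤ Real.exp (7 * K * (1 + l)) := by
    rw [← Real.exp_sum, Real.exp_le_exp]
    have h6 : ∀ p ∈ P, 7 * (K : ℝ) / p = 7 * K * (1 / p) := fun p _ => by ring
    rw [sum_congr rfl h6, ← mul_sum]
    apply mul_le_mul_of_nonneg_left _ (by positivity)
    have h7 : P ⊆ Icc 1 ⌊x⌋₊ := by
      intro p hp
      rw [mem_Icc]
      exact ⟨(hP p hp).1.one_le, Nat.le_floor (hP p hp).2⟩
    have h8 := harmonic_floor_le_one_add_log x hx1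
    rw [harmonic_eq_sum_Icc] at h8
    push_cast at h8
    rw [← hl] at h8
    refine le_trans (sum_le_sum_of_subset_of_nonneg h7 (fun p _ _ => by positivity)) ?_
    simp only [one_div]
    exact h8
  have h9 : (1 / Real.exp ((14 * K + 2) * l)) * Real.exp (7 * K * (1 + l)) ≤ 1 / x ^ 2 := by
    have h10 : x ^ 2 = Real.exp (2 * l) := by
      rw [hl, mul_comm, Real.exp_mul, Real.exp_log hx0]
      norm_num
    rw [h10, one_div_mul_eq_div, ← Real.exp_sub, one_div, ← Real.exp_neg, Real.exp_le_exp]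
    have : (K : ℝ) * 1 ≤ K * l := mul_le_mul_of_nonneg_left (by linarith) hK'
    nlinarith
  exact (mul_le_mul_of_nonneg_left (hDS.trans h5) (by positivity)).trans h9

end Pool.Agent.H540.DS
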