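import Pool.Agent.H540.DS.Roots
import Pool.Agent.H540.DS.Core

/-! Pairs whose value has a large smooth divisor. -/

set_option autoImplicit false

namespace Pool.Agent.H540.DS

open Finset Polynomial
open Pool.Agent.Y882.PX
open Pool.Agent.Y882.SI (RT RT_card RS dvd_eval_congr)

theorem M_one' (F : ℤ[X]) (B1 B2 : Finset ℤ) : M F B1 B2 1 = B1.card * B2.card := by
  unfold M
  rw [filter_true_of_mem, card_product]
  intro z _
  simp

theorem M_le_ro (F : ℤ[X]) (B1 B2 : Finset ℤ) (N1 Lam : ℝ) (hLam : 0 ≤ Lam) (hLS : LSH B1 B2 1 N1 Lam 0)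
    (f : ℕ) (hf : 0 < f) (hfN : (f : ℝ) ^ 2 ≤ N1) :
    (M F B1 B2 f : ℝ) ≤ (ro F 0 f : ℝ) / f * ((1 + 2 * Lam) * ((B1.card : ℝ) * B2.card)) := by
  classical
  have hfr : (0 : ℝ) < f := by exact_mod_cast hf
  have hN1 : 0 < N1 := lt_of_lt_of_le (by positivity) hfN
  have h1 := dev F B1 B2 1 f one_pos hf (Nat.coprime_one_left f)
  rw [one_mul, M_one'] at h1
  have h2 : ∑ d ∈ f.divisors.filter (fun d => ¬ d ∣ 1), EE2 B1 B2 d ≤
      2 * Lam * ((B1.card : ℝ) * B2.card) := by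
    have h3 := hLS f hf
    rw [Real.rpow_zero, mul_one] at h3
    have h4 : ∑ d ∈ f.divisors.filter (fun d => ¬ d ∣ 1), EE2 B1 B2 d ≤
        ∑ d ∈ (Icc 1 f).filter (fun d => d.Coprime 1), EE2 B1 B2 d := by
      apply sum_le_sum_of_subset_of_nonneg
      · intro d hd
        rw [mem_filter, Nat.mem_divisors] at hd
        rw [mem_filter, mem_Icc]
        exact ⟨⟨Nat.pos_of_dvd_of_pos hd.1.1 hf, Nat.le_of_dvd hf hd.1.1⟩, Nat.coprime_one_right d⟩
      · intro d _ _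
        exact EE2_nonneg _ _ _
    refine h4.trans (h3.trans ?_)
    apply mul_le_mul_of_nonneg_right _ (by positivity)
    have h5 : (f : ℝ) ^ 2 / N1 ≤ 1 := by
      rw [div_le_one hN1]
      exact hfN
    have h6 : Lam * (1 + (f : ℝ) ^ 2 / N1) ≤ Lam * 2 := mul_le_mul_of_nonneg_left (by linarith) hLam
    linarith
  have h3 := (abs_le.1 h1).2
  have hro : (0 : ℝ) ≤ (ro F 0 f : ℝ) / f := by positivity
  have h4 := mul_le_mul_of_nonneg_left h2 hro
  push_cast at h3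
  have h5 : (ro F 0 f : ℝ) / f * ((1 + 2 * Lam) * ((B1.card : ℝ) * B2.card)) =
      (ro F 0 f : ℝ) / f * ((B1.card : ℝ) * B2.card) +
        (ro F 0 f : ℝ) / f * (2 * Lam * ((B1.card : ℝ) * B2.card)) := by ring
  rw [h5]
  linarith

/-- a divisor in a short interval -/
theorem chain (x U : ℝ) (hU : 1 ≤ U) (u : ℕ) (hu : 0 < u)
    (hp : ∀ p : ℕ, p.Prime → p ∣ u → (p : ℝ) ≤ x) (hUu : U < u) :
    ∃ f : ℕ, f ∣ u ∧ U < f ∧ (f : ℝ) ≤ U * x := by
  classical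
  have hex : ∃ f : ℕ, f ∣ u ∧ U < f := ⟨u, dvd_rfl, hUu⟩
  obtain ⟨f, hf⟩ : ∃ f : ℕ, f = Nat.find hex := ⟨_, rfl⟩
  have h1 := Nat.find_spec hex
  rw [← hf] at h1
  refine ⟨f, h1.1, h1.2, ?_⟩
  have hf1 : f ≠ 1 := by
    intro h
    rw [h] at h1
    have := h1.2
    push_cast at this
    linarith
  have hf0 : 0 < f := Nat.pos_of_dvd_of_pos h1.1 hu
  have hq := Nat.minFac_prime hf1
  obtain ⟨g, hg⟩ := Nat.minFac_dvd f
  have hqx := hp _ hq ((Nat.minFac_dvd f).trans h1.1)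
  have hg0 : 0 < g := by
    rcases Nat.eq_zero_or_pos g with h | h
    · rw [h, mul_zero] at hg
      omega
    · exact h
  have hgf : g < f := by
    rw [hg]
    have := hq.one_lt
    calc g = 1 * g := (one_mul g).symm
      _ < f.minFac * g := Nat.mul_lt_mul_of_pos_right this hg0
  have hgU : (g : ℝ) ≤ U := by
    by_contra hcon
    push Not at hcon
    have h2 := Nat.find_min hex (m := g) (by rw [← hf]; exact hgf)
    apply h2
    exact ⟨(Dvd.intro_left _ hg.symm).trans h1.1, hcon⟩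
  have hfr : (f : ℝ) = (f.minFac : ℝ) * g := by
    exact_mod_cast hg
  rw [hfr, mul_comm]
  exact mul_le_mul hgU hqx (Nat.cast_nonneg _) (by linarith)

open Classical in
/-- **Few pairs have a large smooth divisor.** -/
theorem bad_smooth (F : ℤ[X]) (K : ℕ) (hK : ∀ p : ℕ, p.Prime → ∀ j : ℕ, ro F 0 (p ^ j) ≤ K)
    (B1 B2 : Finset ℤ) (N1 Lam x U : ℝ) (hLam : 0 ≤ Lam) (hLS : LSH B1 B2 1 N1 Lam 0)
    (hx1 : 1 ≤ x) (hx : 4 ≤ Real.log x) (k : ℕ) (P : Finset ℕ)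
    (hP : ∀ p ∈ P, p.Prime ∧ (p : ℝ) ≤ x)
    (hU : Real.exp ((14 * K + 2) * Real.log x ^ 2) ≤ U) (hUN : (U * x) ^ 2 ≤ N1) :
    (((B1 ×ˢ B2).filter (fun z : ℤ × ℤ =>
      U < ((Nat.gcd (F.eval (z.1 - z.2)).natAbs (∏ p ∈ P, p ^ k) : ℕ) : ℝ))).card : ℝ) ≤
      (1 + 2 * Lam) / x ^ 2 * ((B1.card : ℝ) * B2.card) := by
  obtain ⟨W, hW⟩ : ∃ W : ℕ, W = ∏ p ∈ P, p ^ k := ⟨_, rfl⟩
  have hR := rankin F K hK x hx1 hx k P hP U hU
  rw [← hW] at hR ⊢
  have hW0 : 0 < W := by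
    rw [hW]
    exact prod_pos fun p hp => pow_pos (hP p hp).1.pos _
  have hU1 : 1 ≤ U := by
    refine le_trans ?_ hU
    apply Real.one_le_exp
    positivity
  have hWp : ∀ p : ℕ, p.Prime → p ∣ W → (p : ℝ) ≤ x := by
    intro p hp h
    rw [hW, Prime.dvd_finsetProd_iff hp.prime] at h
    obtain ⟨q, hq, hpq⟩ := h
    have h2 := hp.dvd_of_dvd_pow hpq
    rw [Nat.prime_dvd_prime_iff_eq hp (hP q hq).1] at h2
    rw [h2]
    exact (hP q hq).2
  have hsub : (B1 ×ˢ B2).filter (fun z : ℤ × ℤ =>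
      U < ((Nat.gcd (F.eval (z.1 - z.2)).natAbs W : ℕ) : ℝ)) ⊆
      (W.divisors.filter (fun f : ℕ => U < f ∧ (f : ℝ) ≤ U * x)).biUnion
        (fun f => (B1 ×ˢ B2).filter (fun z => (f : ℤ) ∣ F.eval (z.1 - z.2))) := by
    intro z hz
    rw [mem_filter] at hz
    obtain ⟨hz1, hz2⟩ := hz
    have hg0 : 0 < Nat.gcd (F.eval (z.1 - z.2)).natAbs W := Nat.gcd_pos_of_pos_right _ hW0
    obtain ⟨f, hf1, hf2, hf3⟩ := chain x U hU1 _ hg0 (fun p hp h =>
      hWp p hp (h.trans (Nat.gcd_dvd_right _ _))) hz2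
    rw [mem_biUnion]
    refine ⟨f, ?_, ?_⟩
    · rw [mem_filter, Nat.mem_divisors]
      exact ⟨⟨hf1.trans (Nat.gcd_dvd_right _ _), hW0.ne'⟩, hf2, hf3⟩
    · rw [mem_filter]
      refine ⟨hz1, ?_⟩
      exact Int.natCast_dvd.2 (hf1.trans (Nat.gcd_dvd_left _ _))
  have h1 : (((B1 ×ˢ B2).filter (fun z : ℤ × ℤ =>
      U < ((Nat.gcd (F.eval (z.1 - z.2)).natAbs W : ℕ) : ℝ))).card : ℝ) ≤
      ∑ f ∈ W.divisors.filter (fun f : ℕ => U < f ∧ (f : ℝ) ≤ U * x), (M F B1 B2 f : ℝ) := by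
    have h2 := (card_le_card hsub).trans card_biUnion_le
    have h3 : ((((B1 ×ˢ B2).filter (fun z : ℤ × ℤ =>
      U < ((Nat.gcd (F.eval (z.1 - z.2)).natAbs W : ℕ) : ℝ))).card : ℕ) : ℝ) ≤
      ((∑ f ∈ W.divisors.filter (fun f : ℕ => U < f ∧ (f : ℝ) ≤ U * x), M F B1 B2 f : ℕ) : ℝ) := by
      apply Nat.cast_le.2
      exact h2
    push_cast at h3
    exact h3
  refine h1.trans ?_
  set m : ℝ := (B1.card : ℝ) * B2.card with hm
  have hm0 : 0 ≤ m := by positivity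
  calc ∑ f ∈ W.divisors.filter (fun f : ℕ => U < f ∧ (f : ℝ) ≤ U * x), (M F B1 B2 f : ℝ) ≤
      ∑ f ∈ W.divisors.filter (fun f : ℕ => U < f ∧ (f : ℝ) ≤ U * x),
        (ro F 0 f : ℝ) / f * ((1 + 2 * Lam) * m) := by
        apply sum_le_sum
        intro f hf
        rw [mem_filter, Nat.mem_divisors] at hf
        apply M_le_ro F B1 B2 N1 Lam hLam hLS f (Nat.pos_of_dvd_of_pos hf.1.1 hW0)
        exact (pow_le_pow_left₀ (Nat.cast_nonneg _) hf.2.2 2).trans hUN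
    _ ≤ ∑ f ∈ W.divisors.filter (fun f : ℕ => U < f), (ro F 0 f : ℝ) / f * ((1 + 2 * Lam) * m) := by
        apply sum_le_sum_of_subset_of_nonneg
        · intro f hf
          rw [mem_filter] at hf ⊢
          exact ⟨hf.1, hf.2.1⟩
        · intro f _ _
          positivity
    _ = (∑ f ∈ W.divisors.filter (fun f : ℕ => U < f), (ro F 0 f : ℝ) / f) * ((1 + 2 * Lam) * m) := by
        rw [sum_mul]
    _ ≤ 1 / x ^ 2 * ((1 + 2 * Lam) * m) := mul_le_mul_of_nonneg_right hR (by positivity)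
    _ = (1 + 2 * Lam) / x ^ 2 * m := by ring

/-- the value without its smooth part has no small prime factor -/
theorem smooth_part (n : ℕ) (P : Finset ℕ) (x U : ℝ) (k : ℕ) (hP : ∀ p : ℕ, p ∈ P ↔ p.Prime ∧ (p : ℝ) ≤ x)
    (hk : U < 2 ^ k) (hu : ((Nat.gcd n (∏ p ∈ P, p ^ k) : ℕ) : ℝ) ≤ U) :
    (∀ p : ℕ, p.Prime → (p : ℝ) ≤ x → ¬ p ∣ n / Nat.gcd n (∏ p ∈ P, p ^ k)) ∧
    (∀ p : ℕ, p.Prime → x < (p : ℝ) → (p ∣ n / Nat.gcd n (∏ p ∈ P, p ^ k) ↔ p ∣ n)) := by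
  obtain ⟨W, hW⟩ : ∃ W : ℕ, W = ∏ p ∈ P, p ^ k := ⟨_, rfl⟩
  rw [← hW] at hu ⊢
  have hW0 : 0 < W := by
    rw [hW]
    exact prod_pos fun p hp => pow_pos ((hP p).1 hp).1.pos _
  obtain ⟨g, hg⟩ : ∃ g : ℕ, g = Nat.gcd n W := ⟨_, rfl⟩
  rw [← hg] at hu ⊢
  have hg0 : 0 < g := by rw [hg]; exact Nat.gcd_pos_of_pos_right _ hW0
  have hgn : g ∣ n := by rw [hg]; exact Nat.gcd_dvd_left _ _
  obtain ⟨v, hv⟩ := hgn
  have hdv : n / g = v := by rw [hv, Nat.mul_div_cancel_left v hg0]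
  rw [hdv]
  constructor
  · intro p hp hpx hpv
    have hpP : p ∈ P := (hP p).2 ⟨hp, hpx⟩
    have hpk : p ^ k ∣ W := by
      rw [hW]
      exact dvd_prod_of_mem (fun p => p ^ k) hpP
    -- the exponent of `p` in `g`
    obtain ⟨a, ha⟩ : ∃ a : ℕ, a = g.factorization p := ⟨_, rfl⟩
    have h1 : p ^ a ∣ g := by rw [ha]; exact Nat.ordProj_dvd _ _
    have h2 : ¬ p ^ (a + 1) ∣ g := by rw [ha]; exact Nat.pow_succ_factorization_not_dvd hg0.ne' hp
    have h3 : a < k := by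
      by_contra hcon
      push Not at hcon
      have h4 : p ^ k ≤ g := (Nat.le_of_dvd hg0 ((pow_dvd_pow p hcon).trans h1))
      have h5 : 2 ^ k ≤ p ^ k := Nat.pow_le_pow_left hp.two_le k
      have h6 : ((2 ^ k : ℕ) : ℝ) ≤ g := by exact_mod_cast h5.trans h4
      push_cast at h6
      linarith
    apply h2
    rw [hg]
    apply Nat.dvd_gcd
    · rw [hv, pow_succ]
      exact mul_dvd_mul h1 hpv
    · exact (pow_dvd_pow p h3).trans hpk
  · intro p hp hpx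
    have hpg : ¬ p ∣ g := by
      intro h
      have h1 : p ∣ W := by
        rw [hg] at h
        exact h.trans (Nat.gcd_dvd_right _ _)
      rw [hW, Prime.dvd_finsetProd_iff hp.prime] at h1
      obtain ⟨q, hq, hpq⟩ := h1
      have h2 := hp.dvd_of_dvd_pow hpq
      rw [Nat.prime_dvd_prime_iff_eq hp ((hP q).1 hq).1] at h2
      have := ((hP q).1 hq).2
      rw [← h2] at this
      linarith
    rw [hv]
    constructor
    · intro h
      exact Dvd.dvd.mul_left h g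
    · intro h
      exact ((Nat.Prime.dvd_mul hp).1 h).resolve_left hpg

open Classical in
/-- **The sum over the pairs of classes.** -/
theorem class_sum2 (B1 B2 : Finset ℤ) (W : ℕ) (hW0 : 0 < W) (ok : ℤ × ℤ → Prop)
    (hok : ∀ z : ℤ × ℤ, ok z ↔ ok (z.1 % W, z.2 % W)) (G : ℤ × ℤ → Prop) (cc : ℝ) (hcc : 0 ≤ cc)
    (hs : (((B1 ×ˢ B2).filter (fun z => ¬ ok z)).card : ℝ) ≤ 1 / 4 * ((B1.card : ℝ) * B2.card))
    (H : ∀ r1 r2 : ℤ, (B1.card : ℝ) * B2.card / (4 * (W : ℝ) ^ 2) ≤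
      ((cls B1 W r1).card : ℝ) * (cls B2 W r2).card → ok (r1, r2) →
      cc * (((cls B1 W r1).card : ℝ) * (cls B2 W r2).card) ≤
      (((cls B1 W r1) ×ˢ (cls B2 W r2)).filter G).card) :
    cc / 2 * ((B1.card : ℝ) * B2.card) ≤ (((B1 ×ˢ B2).filter G).card : ℝ) := by
  have hWr : (0 : ℝ) < W := by exact_mod_cast hW0
  have hWz : (0 : ℤ) < W := by exact_mod_cast hW0
  have hm00 : 0 ≤ (B1.card : ℝ) * B2.card := mul_nonneg (Nat.cast_nonneg _) (Nat.cast_nonneg _)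
  have hq0 : 0 ≤ (B1.card : ℝ) * B2.card / (4 * (W : ℝ) ^ 2) :=
    div_nonneg hm00 (mul_nonneg (by norm_num) (sq_nonneg _))
  set m : ℝ := (B1.card : ℝ) * B2.card with hm'
  have hcl : ∀ z : ℤ × ℤ, (z.1 % (W : ℤ), z.2 % (W : ℤ)) ∈ RR W ×ˢ RR W := by
    intro z
    rw [mem_product, mem_RR, mem_RR]
    exact ⟨⟨Int.emod_nonneg _ hWz.ne', Int.emod_lt_of_pos _ hWz⟩, ⟨Int.emod_nonneg _ hWz.ne',
      Int.emod_lt_of_pos _ hWz⟩⟩
  have hfib : ∀ Q : ℤ × ℤ → Prop, ((B1 ×ˢ B2).filter Q).card =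
      ∑ r ∈ RR W ×ˢ RR W, (((cls B1 W r.1) ×ˢ (cls B2 W r.2)).filter Q).card := by
    intro Q
    rw [card_eq_sum_card_fiberwise (f := fun z : ℤ × ℤ => (z.1 % (W : ℤ), z.2 % (W : ℤ)))
      (t := RR W ×ˢ RR W) (fun z _ => hcl z)]
    apply sum_congr rfl
    rintro ⟨r1, r2⟩ _
    congr 1
    ext ⟨a, b⟩
    unfold cls
    simp only [mem_filter, mem_product, Prod.mk.injEq]
    tauto
  set J := (RR W ×ˢ RR W).filter ok with hJ
  have hmass : 3 / 4 * m ≤ ∑ r ∈ J, ((cls B1 W r.1).card : ℝ) * (cls B2 W r.2).card := by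
    have h1 : ((B1 ×ˢ B2).filter ok).card = ∑ r ∈ J, ((cls B1 W r.1).card) * (cls B2 W r.2).card := by
      rw [hfib, ← sum_subset (filter_subset ok (RR W ×ˢ RR W))]
      · apply sum_congr rfl
        rintro ⟨r1, r2⟩ hr
        rw [mem_filter] at hr
        rw [filter_true_of_mem, card_product]
        rintro ⟨a, b⟩ hz
        unfold cls at hz
        rw [mem_product, mem_filter, mem_filter] at hz
        rw [hok]
        simp only at hz ⊢
        rw [hz.1.2, hz.2.2]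
        exact hr.2
      · rintro ⟨r1, r2⟩ hr hrJ
        rw [card_eq_zero, filter_eq_empty_iff]
        rintro ⟨a, b⟩ hz hgood
        apply hrJ
        rw [mem_filter]
        refine ⟨hr, ?_⟩
        unfold cls at hz
        rw [mem_product, mem_filter, mem_filter] at hz
        rw [hok] at hgood
        simp only at hz hgood
        rw [hz.1.2, hz.2.2] at hgood
        exact hgood
    have h2 := card_filter_add_card_filter_not (s := B1 ×ˢ B2) ok
    rw [card_product, h1] at h2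
    have h3 : ((∑ r ∈ J, ((cls B1 W r.1).card) * (cls B2 W r.2).card : ℕ) : ℝ) +
        (((B1 ×ˢ B2).filter (fun z => ¬ ok z)).card : ℝ) = m := by
      rw [hm']
      exact_mod_cast h2
    push_cast at h3
    linarith
  set Jd := J.filter (fun r => m / (4 * (W : ℝ) ^ 2) ≤ ((cls B1 W r.1).card : ℝ) * (cls B2 W r.2).card)
    with hJd
  have h1 : ∑ r ∈ J.filter (fun r => ¬ m / (4 * (W : ℝ) ^ 2) ≤
      ((cls B1 W r.1).card : ℝ) * (cls B2 W r.2).card), ((cls B1 W r.1).card : ℝ) * (cls B2 W r.2).card ≤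
      1 / 4 * m := by
    calc ∑ r ∈ J.filter (fun r => ¬ m / (4 * (W : ℝ) ^ 2) ≤
      ((cls B1 W r.1).card : ℝ) * (cls B2 W r.2).card), ((cls B1 W r.1).card : ℝ) * (cls B2 W r.2).card ≤
        ∑ _r ∈ J.filter (fun r => ¬ m / (4 * (W : ℝ) ^ 2) ≤
      ((cls B1 W r.1).card : ℝ) * (cls B2 W r.2).card), m / (4 * (W : ℝ) ^ 2) := by
          apply sum_le_sum
          intro r hr
          rw [mem_filter] at hr
          push Not at hr
          exact hr.2.le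
      _ ≤ ∑ _r ∈ RR W ×ˢ RR W, m / (4 * (W : ℝ) ^ 2) :=
          sum_le_sum_of_subset_of_nonneg ((filter_subset _ _).trans (filter_subset _ _))
            (fun _ _ _ => hq0)
      _ = 1 / 4 * m := by
          rw [sum_const, nsmul_eq_mul, card_product, RR_card]
          push_cast
          field_simp
  have h2 : 1 / 2 * m ≤ ∑ r ∈ Jd, ((cls B1 W r.1).card : ℝ) * (cls B2 W r.2).card := by
    rw [← sum_filter_add_sum_filter_not J (fun r => m / (4 * (W : ℝ) ^ 2) ≤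
      ((cls B1 W r.1).card : ℝ) * (cls B2 W r.2).card)] at hmass
    linarith
  rw [hfib]
  push_cast
  calc cc / 2 * m = cc * (1 / 2 * m) := by ring
    _ ≤ cc * ∑ r ∈ Jd, ((cls B1 W r.1).card : ℝ) * (cls B2 W r.2).card :=
        mul_le_mul_of_nonneg_left h2 hcc
    _ = ∑ r ∈ Jd, cc * (((cls B1 W r.1).card : ℝ) * (cls B2 W r.2).card) := mul_sum _ _ _
    _ ≤ ∑ r ∈ Jd, ((((cls B1 W r.1) ×ˢ (cls B2 W r.2)).filter G).card : ℝ) := by
        apply sum_le_sum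
        intro r hr
        rw [hJd, mem_filter, hJ, mem_filter] at hr
        exact H r.1 r.2 hr.2 hr.1.2
    _ ≤ _ := by
        apply sum_le_sum_of_subset_of_nonneg
        · rw [hJd, hJ]
          exact (filter_subset _ _).trans (filter_subset _ _)
        · intro r _ _
          exact Nat.cast_nonneg _

end Pool.Agent.H540.DS
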