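import Pool.Agent.H540.DS.Err2

/-! Bounds from the large sieve hypothesis. -/

set_option autoImplicit false

namespace Pool.Agent.H540.DS

open Finset Polynomial
open Pool.Agent.Y882.PX

/-- dyadic summation -/
theorem dyadic (g : ℕ → ℝ) (hg : ∀ f, 0 ≤ g f) (B N1 s u z0 : ℝ) (hN : 0 < N1) (hB : 0 ≤ B)
    (hs0 : 0 ≤ s) (hs1 : s ≤ 1) (hu0 : 0 ≤ u) (hus : u ≤ s) (hz : 0 < z0) (D : ℕ)
    (h : ∀ t : ℕ, 1 ≤ t → ∑ f ∈ Icc 1 t, g f ≤ B * (t : ℝ) ^ u * (1 + (t : ℝ) ^ 2 / N1)) :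
    ∑ f ∈ (Icc 1 D).filter (fun f : ℕ => z0 < (f : ℝ)), (f : ℝ) ^ (-s) * g f ≤
      (Nat.clog 2 D + 1) * (8 * B * (z0 ^ (-(s - u)) + (D : ℝ) ^ (2 - (s - u)) / N1)) := by
  have h1 : ∀ f ∈ (Icc 1 D).filter (fun f : ℕ => z0 < (f : ℝ)), (f : ℝ) ^ (-s) * g f ≤
      ∑ i ∈ range (Nat.clog 2 D + 1), if f ≤ 2 ^ i ∧ 2 ^ i < 2 * f ∧ z0 < (2 : ℝ) ^ i then
        2 ^ s * ((2 : ℝ) ^ i) ^ (-s) * g f else 0 := by
    intro f hf
    rw [mem_filter, mem_Icc] at hf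
    obtain ⟨⟨f1, f2⟩, f3⟩ := hf
    have a1 : f ≤ 2 ^ Nat.clog 2 f := Nat.le_pow_clog (by norm_num) f
    have a2 : 2 ^ Nat.clog 2 f < 2 * f := by
      rcases Nat.lt_or_ge 1 f with hlt | hge
      · have := Nat.pow_pred_clog_lt_self (show 1 < 2 by norm_num) hlt
        have hpos : 0 < Nat.clog 2 f := Nat.clog_pos (by norm_num) hlt
        have e : Nat.clog 2 f = (Nat.clog 2 f).pred + 1 := by
          rw [← Nat.succ_eq_add_one, Nat.succ_pred_eq_of_pos hpos]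
        rw [e, pow_succ]
        omega
      · have : f = 1 := by omega
        subst this
        simp
    have a3 : Nat.clog 2 f ≤ Nat.clog 2 D := Nat.clog_mono_right 2 f2
    have a1r : (f : ℝ) ≤ (2 : ℝ) ^ Nat.clog 2 f := by exact_mod_cast a1
    have a4 : z0 < (2 : ℝ) ^ Nat.clog 2 f := f3.trans_le a1r
    have hf0 : (0 : ℝ) < f := by exact_mod_cast f1
    refine le_trans ?_ (single_le_sum (f := fun i => if f ≤ 2 ^ i ∧ 2 ^ i < 2 * f ∧ z0 < (2 : ℝ) ^ i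
      then 2 ^ s * ((2 : ℝ) ^ i) ^ (-s) * g f else 0) ?_ (mem_range.2 (Nat.lt_succ_of_le a3)))
    · rw [if_pos ⟨a1, a2, a4⟩]
      apply mul_le_mul_of_nonneg_right _ (hg f)
      have a5 : ((2 : ℝ) ^ Nat.clog 2 f) ≤ 2 * f := by exact_mod_cast a2.le
      have a6 : (2 * (f : ℝ)) ^ (-s) ≤ ((2 : ℝ) ^ Nat.clog 2 f) ^ (-s) :=
        Real.rpow_le_rpow_of_nonpos (by positivity) a5 (by linarith)
      calc (f : ℝ) ^ (-s) = 2 ^ s * (2 * (f : ℝ)) ^ (-s) := by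
            rw [Real.mul_rpow (by norm_num) hf0.le, ← mul_assoc, ← Real.rpow_add (by norm_num)]
            simp
        _ ≤ _ := mul_le_mul_of_nonneg_left a6 (by positivity)
    · intro i _
      split_ifs
      · have := hg f
        positivity
      · exact le_rfl
  refine (sum_le_sum h1).trans ?_
  rw [sum_comm]
  have h2 : ∀ i ∈ range (Nat.clog 2 D + 1),
      ∑ f ∈ (Icc 1 D).filter (fun f : ℕ => z0 < (f : ℝ)),
        (if f ≤ 2 ^ i ∧ 2 ^ i < 2 * f ∧ z0 < (2 : ℝ) ^ i then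
        2 ^ s * ((2 : ℝ) ^ i) ^ (-s) * g f else 0) ≤
      8 * B * (z0 ^ (-(s - u)) + (D : ℝ) ^ (2 - (s - u)) / N1) := by
    intro i _
    have hR : 0 ≤ 8 * B * (z0 ^ (-(s - u)) + (D : ℝ) ^ (2 - (s - u)) / N1) := by positivity
    by_cases hi : z0 < (2 : ℝ) ^ i ∧ 2 ^ i < 2 * D
    · obtain ⟨hi1, hi2⟩ := hi
      have b1 : ∑ f ∈ (Icc 1 D).filter (fun f : ℕ => z0 < (f : ℝ)),
        (if f ≤ 2 ^ i ∧ 2 ^ i < 2 * f ∧ z0 < (2 : ℝ) ^ i then
        2 ^ s * ((2 : ℝ) ^ i) ^ (-s) * g f else 0) ≤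
        ∑ f ∈ Icc 1 (2 ^ i), 2 ^ s * ((2 : ℝ) ^ i) ^ (-s) * g f := by
        rw [← sum_filter]
        apply sum_le_sum_of_subset_of_nonneg
        · intro f hf
          rw [mem_filter, mem_filter, mem_Icc] at hf
          rw [mem_Icc]
          exact ⟨hf.1.1.1, hf.2.1⟩
        · intro f _ _
          have := hg f
          positivity
      refine b1.trans ?_
      rw [← mul_sum]
      have b2 := h (2 ^ i) Nat.one_le_two_pow
      have hp : (0 : ℝ) < (2 : ℝ) ^ i := by positivity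
      have b3 : (2 : ℝ) ^ s ≤ 2 := by
        calc (2 : ℝ) ^ s ≤ 2 ^ (1 : ℝ) := Real.rpow_le_rpow_of_exponent_le (by norm_num) hs1
          _ = 2 := Real.rpow_one 2
      have b4 : ((2 : ℝ) ^ i) ^ (-(s - u)) ≤ z0 ^ (-(s - u)) :=
        Real.rpow_le_rpow_of_nonpos hz hi1.le (by linarith)
      have b6 : ((2 : ℝ) ^ i) ^ (-s) * ((2 : ℝ) ^ i) ^ u = ((2 : ℝ) ^ i) ^ (-(s - u)) := by
        rw [← Real.rpow_add hp]
        congr 1
        ring
      have b5 : (2 : ℝ) ^ s * (((2 : ℝ) ^ i) ^ (-(s - u)) * ((2 : ℝ) ^ i) ^ 2) ≤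
          8 * (D : ℝ) ^ (2 - (s - u)) := by
        have c1 : ((2 : ℝ) ^ i) ^ (-(s - u)) * ((2 : ℝ) ^ i) ^ 2 = ((2 : ℝ) ^ i) ^ (2 - (s - u)) := by
          rw [← Real.rpow_natCast ((2 : ℝ) ^ i) 2, ← Real.rpow_add hp]
          congr 1
          push_cast
          ring
        have c2 : ((2 : ℝ) ^ i) ≤ 2 * D := by exact_mod_cast hi2.le
        have c3 : ((2 : ℝ) ^ i) ^ (2 - (s - u)) ≤ (2 * (D : ℝ)) ^ (2 - (s - u)) :=
          Real.rpow_le_rpow hp.le c2 (by linarith)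
        rw [c1]
        calc (2 : ℝ) ^ s * ((2 : ℝ) ^ i) ^ (2 - (s - u)) ≤ (2 : ℝ) ^ s * (2 * (D : ℝ)) ^ (2 - (s - u)) :=
              mul_le_mul_of_nonneg_left c3 (by positivity)
          _ = (2 : ℝ) ^ (2 + u) * (D : ℝ) ^ (2 - (s - u)) := by
            rw [Real.mul_rpow (by norm_num) (Nat.cast_nonneg _), ← mul_assoc,
              ← Real.rpow_add (by norm_num)]
            congr 2
            ring
          _ ≤ 8 * (D : ℝ) ^ (2 - (s - u)) := by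
            apply mul_le_mul_of_nonneg_right _ (by positivity)
            calc (2 : ℝ) ^ (2 + u) ≤ (2 : ℝ) ^ (3 : ℝ) :=
                  Real.rpow_le_rpow_of_exponent_le (by norm_num) (by linarith)
              _ = 8 := by norm_num
      calc 2 ^ s * ((2 : ℝ) ^ i) ^ (-s) * ∑ f ∈ Icc 1 (2 ^ i), g f ≤
          2 ^ s * ((2 : ℝ) ^ i) ^ (-s) * (B * (((2 ^ i : ℕ) : ℝ)) ^ u * (1 + (((2 ^ i : ℕ) : ℝ)) ^ 2 / N1)) :=
            mul_le_mul_of_nonneg_left b2 (by positivity)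
        _ = B * (2 ^ s * (((2 : ℝ) ^ i) ^ (-s) * ((2 : ℝ) ^ i) ^ u) +
            (2 ^ s * ((((2 : ℝ) ^ i) ^ (-s) * ((2 : ℝ) ^ i) ^ u) * ((2 : ℝ) ^ i) ^ 2)) / N1) := by
            push_cast
            ring
        _ ≤ B * (8 * z0 ^ (-(s - u)) + (8 * (D : ℝ) ^ (2 - (s - u))) / N1) := by
            rw [b6]
            apply mul_le_mul_of_nonneg_left _ hB
            apply add_le_add
            · calc (2 : ℝ) ^ s * ((2 : ℝ) ^ i) ^ (-(s - u)) ≤ 2 * z0 ^ (-(s - u)) :=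
                    mul_le_mul b3 b4 (by positivity) (by norm_num)
                _ ≤ 8 * z0 ^ (-(s - u)) := by
                    have : 0 ≤ z0 ^ (-(s - u)) := by positivity
                    linarith
            · exact div_le_div_of_nonneg_right b5 hN.le
        _ = _ := by ring
    · refine le_trans (le_of_eq ?_) hR
      apply sum_eq_zero
      intro f hf
      rw [mem_filter, mem_Icc] at hf
      rw [if_neg]
      rintro ⟨c1, c2, c3⟩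
      apply hi
      refine ⟨c3, ?_⟩
      have := hf.1.2
      omega
  refine (sum_le_sum h2).trans ?_
  rw [sum_const, card_range, nsmul_eq_mul]
  push_cast
  exact le_rfl

open Classical in
/-- the large sieve hypothesis for two sets of integers: modulus `W`, length `N1`, constant `Lam` -/
def LSH (A1 A2 : Finset ℤ) (W : ℕ) (N1 Lam u : ℝ) : Prop :=
  ∀ t : ℕ, 1 ≤ t → ∑ f ∈ (Icc 1 t).filter (fun f => f.Coprime W), EE2 A1 A2 f ≤
    Lam * (t : ℝ) ^ u * (1 + (t : ℝ) ^ 2 / N1) * (A1.card * A2.card)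

open Classical in
theorem ET_le (K : ℕ) (η u : ℝ) (hη : 0 < η) (hu : 0 ≤ u) (hη1 : η + u ≤ 1) : ∃ C : ℝ, 1 ≤ C ∧
    ∀ (F : ℤ[X]) (A1 A2 : Finset ℤ) (P : Finset ℕ) (W : ℕ) (N1 Lam z0 : ℝ) (D : ℕ),
      (∀ p ∈ P, p.Prime) → (∀ p ∈ P, ro F 0 p ≤ K) → (∀ p ∈ P, p.Coprime W) → 0 < N1 → 0 ≤ Lam →
      0 < z0 → LSH A1 A2 W N1 Lam u →
      ET F A1 A2 P z0 D ≤ C * ((Nat.clog 2 D + 1) * (4 * (Lam * (A1.card * A2.card)) *
        (z0 ^ (-(1 - (η + u))) + (D : ℝ) ^ (1 + (η + u)) / N1))) := by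
  obtain ⟨C, hC1, HC⟩ := pow_card_le K η hη
  refine ⟨2 * C, by linarith, ?_⟩
  intro F A1 A2 P W N1 Lam z0 D hP hK hW hN1 hLam hz hLS
  set g : ℕ → ℝ := fun f => if f.Coprime W then EE2 A1 A2 f else 0 with hg
  have hg0 : ∀ f, 0 ≤ g f := by
    intro f
    rw [hg]
    simp only
    split_ifs
    · exact EE2_nonneg _ _ _
    · exact le_rfl
  have hd := dyadic g hg0 (Lam * (A1.card * A2.card)) N1 (1 - η) u z0 hN1 (by positivity)
    (by linarith) (by linarith) hu (by linarith) hz D (by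
      intro t ht
      have := hLS t ht
      rw [hg]
      simp only
      rw [← sum_filter]
      refine this.trans (le_of_eq ?_)
      ring)
  have e1 : (2 : ℝ) - (1 - η - u) = 1 + (η + u) := by ring
  have e0 : (1 : ℝ) - η - u = 1 - (η + u) := by ring
  rw [e1, e0] at hd
  refine le_trans ?_ (le_trans (mul_le_mul_of_nonneg_left hd (by linarith : (0 : ℝ) ≤ C))
    (le_of_eq (by ring)))
  unfold ET
  have h1 : ∀ U ∈ P.powerset.filter (fun U => z0 < ((∏ p ∈ U, p : ℕ) : ℝ) ∧ ∏ p ∈ U, p ≤ D),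
      (∏ p ∈ U, xx F p) * EE2 A1 A2 (∏ p ∈ U, p) ≤
      C * ((((∏ p ∈ U, p : ℕ) : ℝ)) ^ (-(1 - η)) * g (∏ p ∈ U, p)) := by
    intro U hU
    rw [mem_filter, mem_powerset] at hU
    have hUp : ∀ p ∈ U, p.Prime := fun p hp => hP p (hU.1 hp)
    have hpos : (0 : ℝ) < ((∏ p ∈ U, p : ℕ) : ℝ) := by exact_mod_cast prod_pos' U hUp
    have hcop : (∏ p ∈ U, p).Coprime W := Nat.Coprime.prod_left fun p hp => hW p (hU.1 hp)
    rw [hg]
    simp only
    rw [if_pos hcop, ← mul_assoc]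
    apply mul_le_mul_of_nonneg_right _ (EE2_nonneg _ _ _)
    have h2 : ∏ p ∈ U, xx F p ≤ (K : ℝ) ^ U.card / ((∏ p ∈ U, p : ℕ) : ℝ) := by
      push_cast
      rw [← prod_const, ← prod_div_distrib]
      apply prod_le_prod
      · intro p _
        exact xx_nonneg F p
      · intro p hp
        unfold xx
        apply div_le_div_of_nonneg_right _ (Nat.cast_nonneg _)
        exact_mod_cast hK p (hU.1 hp)
    refine h2.trans ?_
    rw [div_le_iff₀ hpos]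
    refine (HC U hUp).trans (le_of_eq ?_)
    rw [mul_assoc]
    congr 1
    nth_rw 3 [← Real.rpow_one ((∏ p ∈ U, p : ℕ) : ℝ)]
    rw [← Real.rpow_add hpos]
    congr 1
    ring
  refine (sum_le_sum h1).trans ?_
  rw [← mul_sum]
  apply mul_le_mul_of_nonneg_left _ (by linarith)
  have h3 : ∑ U ∈ P.powerset.filter (fun U => z0 < ((∏ p ∈ U, p : ℕ) : ℝ) ∧ ∏ p ∈ U, p ≤ D),
      (((∏ p ∈ U, p : ℕ) : ℝ)) ^ (-(1 - η)) * g (∏ p ∈ U, p) =
      ∑ f ∈ (P.powerset.filter (fun U => z0 < ((∏ p ∈ U, p : ℕ) : ℝ) ∧ ∏ p ∈ U, p ≤ D)).image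
        (fun U => ∏ p ∈ U, p), (f : ℝ) ^ (-(1 - η)) * g f := by
    rw [sum_image]
    intro U hU V hV h
    rw [mem_coe, mem_filter, mem_powerset] at hU hV
    simp only at h
    rw [← pf_prod U (fun p hp => hP p (hU.1 hp)), ← pf_prod V (fun p hp => hP p (hV.1 hp)), h]
  rw [h3]
  apply sum_le_sum_of_subset_of_nonneg
  · intro f hf
    rw [mem_image] at hf
    obtain ⟨U, hU, rfl⟩ := hf
    rw [mem_filter, mem_powerset] at hU
    rw [mem_filter, mem_Icc]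
    exact ⟨⟨prod_pos' U fun p hp => hP p (hU.1 hp), hU.2.2⟩, hU.2.1⟩
  · intro f _ _
    have := hg0 f
    positivity

open Classical in
/-- the trivial bound for the number of pairs -/
theorem M_triv (F : ℤ[X]) (A1 A2 : Finset ℤ) (W : ℕ) (N1 Lam : ℝ) (hN1 : 0 < N1) (hLam : 1 ≤ Lam)
    (hLS : LSH A1 A2 W N1 Lam 0) (T : Finset ℕ) (hT : ∀ p ∈ T, p.Prime) (hW : ∀ p ∈ T, p.Coprime W)
    (hT1 : (((∏ p ∈ T, p : ℕ) : ℝ)) ^ 2 ≤ N1) :
    (M F A1 A2 (∏ p ∈ T, p) : ℝ) ≤ (∏ p ∈ T, xx F p) * (3 * Lam * (A1.card * A2.card)) := by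
  have h1 := dev F A1 A2 1 (∏ p ∈ T, p) one_pos (prod_pos' T hT) (Nat.coprime_one_left _)
  rw [one_mul, xx_prod F T hT, M_one] at h1
  set x := ∏ p ∈ T, xx F p with hx
  have hx0 : 0 ≤ x := prod_nonneg fun p _ => xx_nonneg F p
  set m : ℝ := (A1.card : ℝ) * A2.card with hm
  have hm0 : 0 ≤ m := by positivity
  have h2 : ∑ f ∈ (∏ p ∈ T, p).divisors.filter (fun f => ¬ f ∣ 1), EE2 A1 A2 f ≤
      2 * Lam * m := by
    have h3 := hLS (∏ p ∈ T, p) (prod_pos' T hT)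
    rw [Real.rpow_zero, mul_one] at h3
    have h4 : ∑ f ∈ (∏ p ∈ T, p).divisors.filter (fun f => ¬ f ∣ 1), EE2 A1 A2 f ≤
        ∑ f ∈ (Icc 1 (∏ p ∈ T, p)).filter (fun f => f.Coprime W), EE2 A1 A2 f := by
      apply sum_le_sum_of_subset_of_nonneg
      · intro f hf
        rw [mem_filter, Nat.mem_divisors] at hf
        rw [mem_filter, mem_Icc]
        refine ⟨⟨Nat.pos_of_dvd_of_pos hf.1.1 (prod_pos' T hT), Nat.le_of_dvd (prod_pos' T hT) hf.1.1⟩, ?_⟩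
        exact Nat.Coprime.coprime_dvd_left hf.1.1 (Nat.Coprime.prod_left fun p hp => hW p hp)
      · intro f _ _
        exact EE2_nonneg _ _ _
    refine h4.trans (h3.trans ?_)
    apply mul_le_mul_of_nonneg_right _ hm0
    have h5 : (((∏ p ∈ T, p : ℕ) : ℝ)) ^ 2 / N1 ≤ 1 := (div_le_one hN1).2 hT1
    nlinarith
  have h6 := (abs_le.1 h1).2
  have h7 : (((A1.card * A2.card : ℕ)) : ℝ) = m := by rw [hm]; push_cast; rfl
  rw [h7] at h6
  have h8 := mul_le_mul_of_nonneg_left h2 hx0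
  have h9 : x * m ≤ x * (Lam * m) := mul_le_mul_of_nonneg_left (by nlinarith) hx0
  nlinarith

open Classical in
theorem MK_le (F : ℤ[X]) (A1 A2 : Finset ℤ) (W : ℕ) (N1 Lam : ℝ) (hN1 : 0 < N1) (hLam : 1 ≤ Lam)
    (hLS : LSH A1 A2 W N1 Lam 0) (P1 : Finset ℕ) (hT : ∀ p ∈ P1, p.Prime)
    (hW : ∀ p ∈ P1, p.Coprime W) (k : ℕ)
    (hT1 : ∀ T ⊆ P1, T.card = k → (((∏ p ∈ T, p : ℕ) : ℝ)) ^ 2 ≤ N1) :
    MK F A1 A2 P1 k ≤ 3 * Lam * (A1.card * A2.card) * EB P1 k (xx F) := by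
  unfold MK EB
  rw [mul_sum]
  apply sum_le_sum
  intro T hT'
  rw [mem_powerset] at hT'
  split_ifs with h
  · refine (M_triv F A1 A2 W N1 Lam hN1 hLam hLS T (fun p hp => hT p (hT' hp))
      (fun p hp => hW p (hT' hp)) (hT1 T hT' h)).trans (le_of_eq ?_)
    ring
  · simp

end Pool.Agent.H540.DS
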