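import Pool.Agent.H540.DS.Smo
import Pool.Agent.H540.DS.Diff

/-! **Almost prime values at the sums of the elements of two dense sets.** -/

set_option autoImplicit false

namespace Pool.Agent.H540.DS

open Finset Filter Polynomial
open Pool.Agent.W23.DC
open Pool.Agent.Y882.PX
open Pool.Agent.Y882
open Pool.Agent.Y882.KW

/-- up to the sign, `F m` is the product of a number which is at most `U` and of at most `r` primes which
are all at least `y` -/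
def GoodS (F : ℤ[X]) (r : ℕ) (U y : ℝ) (m : ℕ) : Prop :=
  ∃ u n : ℕ, (F.eval (m : ℤ)).natAbs = u * n ∧ (u : ℝ) ≤ U ∧ n.primeFactorsList.length ≤ r ∧
    ∀ p : ℕ, p.Prime → p ∣ n → y ≤ p

open Classical in
theorem bad_pairs2 (F : ℤ[X]) (A B : Finset ℕ) (N : ℕ) (P : Finset ℕ) (hA : A ⊆ Icc 1 N)
    (hB : B ⊆ Icc 1 N) :
    ((A ×ˢ B).filter (fun z : ℕ × ℕ =>
      ∃ q ∈ P, ((q ^ 2 : ℕ) : ℤ) ∣ F.eval ((z.1 + z.2 : ℕ) : ℤ))).card ≤
      ((Icc 1 (2 * N)).filter (fun m : ℕ => ∃ q ∈ P, ((q ^ 2 : ℕ) : ℤ) ∣ F.eval (m : ℤ))).card * B.card := by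
  rw [← card_product]
  apply card_le_card_of_injOn (fun z : ℕ × ℕ => (z.1 + z.2, z.2))
  · rintro ⟨a, b⟩ hz
    rw [mem_coe, mem_filter, mem_product] at hz
    obtain ⟨⟨ha, hb⟩, hq⟩ := hz
    have h1 := mem_Icc.1 (hA ha)
    have h2 := mem_Icc.1 (hB hb)
    rw [mem_coe, mem_product, mem_filter, mem_Icc]
    simp only at ha hb hq h1 h2 ⊢
    exact ⟨⟨⟨by omega, by omega⟩, hq⟩, hb⟩
  · rintro ⟨a, b⟩ _ ⟨a', b'⟩ _ heq
    simp only [Prod.mk.injEq] at heq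
    rw [Prod.mk.injEq]
    omega

/-- numerical conditions for the final theorem -/
structure Cond3 (CF KK q0 N0 : ℕ) (K1 K3 c ε : ℝ) (N : ℕ) : Prop where
  n3 : 3 ≤ N
  N0 : N0 ≤ N
  L1 : 1 ≤ Real.log N
  v1 : (CF : ℝ) ≤ (N : ℝ) ^ (1 / 1000 : ℝ)
  q1 : (q0 : ℝ) ≤ (N : ℝ) ^ (3 / 25 : ℝ)
  b1 : (KK : ℝ) * 8 ≤ (N : ℝ) ^ (1 / 1000 : ℝ)
  e1 : 48 * K1 ≤ Real.log N ^ (3 * ε / 4)
  e2 : 48 ≤ Real.log N ^ (ε / 2)
  e3 : K3 * Real.log (Real.log N) ^ 2 ≤ Real.log N ^ (ε / 4)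
  e5 : Real.log N ^ 3 ≤ (c / 4) * (N : ℝ) ^ (1 / 1000 : ℝ)
  e6 : 3 ≤ (N : ℝ) ^ (1 / 100 : ℝ)

theorem conds3 (CF KK q0 N0 : ℕ) (K1 K3 c ε : ℝ) (hc : 0 < c) (hε : 0 < ε) :
    ∀ᶠ N : ℕ in atTop, Cond3 CF KK q0 N0 K1 K3 c ε N := by
  have v1 := tlog.eventually_ge_atTop 1
  have v2 : ∀ (c : ℝ) (κ : ℝ), 0 < κ → ∀ᶠ N : ℕ in atTop, c ≤ (N : ℝ) ^ κ := fun c κ hκ =>
    ((tendsto_rpow_atTop hκ).comp tendsto_natCast_atTop_atTop).eventually_ge_atTop _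
  have v3 : ∀ (c : ℝ) (κ : ℝ), 0 < κ → ∀ᶠ N : ℕ in atTop, c ≤ Real.log N ^ κ := fun c κ hκ =>
    ((tendsto_rpow_atTop hκ).comp tlog).eventually_ge_atTop _
  have v4 := loN 3 (1 / 1000) (4 / c) (by norm_num)
  have v5 := loL 2 (ε / 4) K3 (by linarith)
  filter_upwards [eventually_ge_atTop 3, eventually_ge_atTop N0, v1, v2 CF (1 / 1000) (by norm_num),
    v2 q0 (3 / 25) (by norm_num), v2 ((KK : ℝ) * 8) (1 / 1000) (by norm_num),
    v3 (48 * K1) (3 * ε / 4) (by linarith), v3 48 (ε / 2) (by linarith), v4, v5,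
    v2 3 (1 / 100) (by norm_num)] with N a0 a1 a2 a3 a4 a5 a6 a7 a8 a9 a10
  refine ⟨a0, a1, a2, a3, a4, a5, a6, a7, ?_, ?_, a10⟩
  · have : Real.log (Real.log N) ^ (2 : ℝ) = Real.log (Real.log N) ^ 2 := by
      rw [← Real.rpow_natCast]
      norm_num
    rw [this] at a9
    exact a9
  · have : Real.log N ^ (3 : ℝ) = Real.log N ^ 3 := by
      rw [← Real.rpow_natCast]
      norm_num
    rw [this] at a8
    have h1 := mul_le_mul_of_nonneg_left a8 (show 0 ≤ c / 4 by linarith)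
    have h2 : c / 4 * (4 / c * Real.log N ^ 3) = Real.log N ^ 3 := by
      field_simp
    linarith

theorem gcd_congr (F : ℤ[X]) (W : ℕ) (x y : ℤ) (h : (W : ℤ) ∣ x - y) :
    Nat.gcd (F.eval x).natAbs W = Nat.gcd (F.eval y).natAbs W := by
  have h1 : (W : ℤ) ∣ F.eval x - F.eval y := h.trans (sub_dvd_eval_sub x y F)
  have h2 : ∀ (a b : ℤ), (W : ℤ) ∣ a - b → Nat.gcd a.natAbs W ∣ Nat.gcd b.natAbs W := by
    intro a b hab
    apply Nat.dvd_gcd _ (Nat.gcd_dvd_right _ _)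
    obtain ⟨g, hg⟩ : ∃ g : ℕ, g = Nat.gcd a.natAbs W := ⟨_, rfl⟩
    rw [← hg]
    have e1 : (g : ℤ) ∣ a := by
      rw [Int.natCast_dvd, hg]
      exact Nat.gcd_dvd_left _ _
    have e2 : (g : ℤ) ∣ a - b := by
      refine dvd_trans ?_ hab
      rw [hg]
      exact_mod_cast Nat.gcd_dvd_right _ _
    have e3 : (g : ℤ) ∣ b := by
      have := dvd_sub e1 e2
      rwa [sub_sub_cancel] at this
    exact Int.natCast_dvd.1 e3
  exact Nat.dvd_antisymm (h2 _ _ h1) (h2 _ _ (by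
    have := (dvd_neg (α := ℤ)).2 h1
    rwa [neg_sub] at this))

end Pool.Agent.H540.DS
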