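import Pool.Agent.H540.DS.Sums

/-! **Almost prime values at the sums of the elements of two dense sets.** -/

set_option autoImplicit false

namespace Pool.Agent.H540.DS

open Finset Filter Polynomial
open Pool.Agent.W23.DC
open Pool.Agent.Y882.PX
open Pool.Agent.Y882
open Pool.Agent.Y882.KW

open Classical in
/-- **Pairs of elements of two dense sets: the value without its small factor has positive weight.** -/
theorem pairsU (F : ℤ[X]) (hF : Irreducible F) (hd : 0 < F.natDegree)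
    (τ ζ υ aw bw ε : ℝ) (hζ : 0 < ζ) (h2 : 2 * ζ < τ) (h4 : τ ≤ 4 * ζ) (hζυ : ζ ≤ υ) (hυτ : υ < τ)
    (ha : 0 ≤ aw) (hb : 0 ≤ bw) (hab : bw * υ ≤ aw)
    (hJ0 : ∫ x in ζ..υ, (aw - bw * x) / (τ - x) / x < Real.log (τ / ζ - 1) / τ)
    (h5 : τ < 49 / 50) (hε : 0 < ε) (hε1 : ε ≤ 1) :
    ∃ (c K1 K3 : ℝ) (K N0 : ℕ), 0 < c ∧ 3 ≤ K1 ∧ ∀ N : ℕ, N0 ≤ N → 3 ≤ N → 1 ≤ Real.log N →
      48 * K1 ≤ Real.log N ^ (3 * ε / 4) → 48 ≤ Real.log N ^ (ε / 2) →
      K3 * Real.log (Real.log N) ^ 2 ≤ Real.log N ^ (ε / 4) →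
      ∀ (B1 B2 : Finset ℤ) (x1 x2 : ℤ) (D w0 U : ℝ), (∀ a ∈ B1, x1 < a ∧ a ≤ x1 + N) →
      (∀ a ∈ B2, x2 < a ∧ a ≤ x2 + N) → 1 ≤ D → D ≤ Real.log N ^ (1 - ε) →
      (N : ℝ) ≤ D * √((B1.card : ℝ) * B2.card) → w0 = 48 * K1 * D →
      U = Real.exp ((14 * K + 2) * Real.log w0 ^ 2) → ∃ W0 : ℕ, 0 < W0 ∧
      c * ((B1.card : ℝ) * B2.card) * (Real.log w0 / Real.log N) ≤
        (((B1 ×ˢ B2).filter (fun z : ℤ × ℤ =>
          ((Nat.gcd (F.eval (z.1 - z.2)).natAbs W0 : ℕ) : ℝ) ≤ U ∧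
          0 < WW N ζ υ aw bw ((F.eval (z.1 - z.2)).natAbs /
            Nat.gcd (F.eval (z.1 - z.2)).natAbs W0))).card : ℝ) := by
  obtain ⟨c, K1, NC, hc, hK1, HC⟩ := core F hF hd τ ζ υ aw bw (49 / 50) (ε / 2) hζ h2 h4 hζυ hυτ ha hb
    hab hJ0 h5 (by norm_num) (by norm_num) (by linarith) (by linarith)
  obtain ⟨K, hK⟩ := ro_pow_le F hF hd
  refine ⟨c / 2, K1, 200 * (28 * K + 5), K, NC, by linarith, hK1, ?_⟩
  intro N hNC hN3' c3 hKL hL48 hK3 B1 B2 x1 x2 D w0 U hB1 hB2 hD1 hDL hND hw0 hU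
  have hKr : (0 : ℝ) ≤ K := Nat.cast_nonneg K
  have hN3 : (3 : ℝ) ≤ N := by exact_mod_cast hN3'
  have hNp : (0 : ℝ) < N := by linarith
  have hN1 : (1 : ℝ) ≤ N := by linarith
  obtain ⟨L, hL⟩ : ∃ L : ℝ, L = Real.log N := ⟨_, rfl⟩
  have HC' := HC N hNC
  rw [← hL] at c3 hKL hL48 hK3 hDL HC' ⊢
  have hL0 : 0 < L := by linarith
  have hw144 : 144 ≤ w0 := by
    rw [hw0]
    have : 3 * 1 ≤ K1 * D := mul_le_mul hK1 hD1 (by norm_num) (by linarith)
    nlinarith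
  have hw0p : 0 < w0 := by linarith
  obtain ⟨l0, hl0⟩ : ∃ l0 : ℝ, l0 = Real.log w0 := ⟨_, rfl⟩
  have hl4 : 4 ≤ l0 := by
    rw [hl0, Real.le_log_iff_exp_le hw0p]
    have h1 : Real.exp 4 = Real.exp 1 ^ 4 := by
      rw [← Real.exp_nat_mul]
      norm_num
    rw [h1]
    have h2 := Real.exp_one_lt_d9
    have h3 : Real.exp 1 ^ 4 ≤ (2.7182818286 : ℝ) ^ 4 :=
      pow_le_pow_left₀ (Real.exp_pos 1).le h2.le 4
    refine h3.trans (le_trans ?_ hw144)
    norm_num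
  have hw0L : w0 ≤ L ^ (1 - ε / 2 / 2) := by
    rw [hw0]
    calc 48 * K1 * D ≤ L ^ (3 * ε / 4) * L ^ (1 - ε) := mul_le_mul hKL hDL (by linarith) (by positivity)
      _ = L ^ (1 - ε / 2 / 2) := by
          rw [← Real.rpow_add hL0]
          congr 1
          ring
  obtain ⟨Lam, hLam⟩ : ∃ Lam : ℝ, Lam = 48 * D := ⟨_, rfl⟩
  have hLam1 : 1 ≤ Lam := by rw [hLam]; linarith
  have hLamL : Lam ≤ L ^ (1 - ε / 2) := by
    rw [hLam]
    calc 48 * D ≤ L ^ (ε / 2) * L ^ (1 - ε) := mul_le_mul hL48 hDL (by linarith) (by positivity)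
      _ = L ^ (1 - ε / 2) := by
          rw [← Real.rpow_add hL0]
          congr 1
          ring
  have hL1 : L ^ (1 - ε / 4) ≤ L := by
    calc L ^ (1 - ε / 4) ≤ L ^ (1 : ℝ) := Real.rpow_le_rpow_of_exponent_le c3 (by linarith)
      _ = L := Real.rpow_one L
  have hl0L : l0 ≤ Real.log L := by
    rw [hl0]
    apply Real.log_le_log hw0p
    refine hw0L.trans (le_trans (le_of_eq ?_) hL1)
    congr 1
    ring
  have hl0sq : l0 ^ 2 ≤ Real.log L ^ 2 := pow_le_pow_left₀ (by linarith) hl0L 2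
  -- the exponent
  obtain ⟨k, hk⟩ : ∃ k : ℕ, k = ⌊2 * (14 * K + 2) * l0 ^ 2⌋₊ + 1 := ⟨_, rfl⟩
  have hlog2 : 1 / 2 ≤ Real.log 2 := by
    have := Real.log_two_gt_d9
    linarith
  have hUk : U < 2 ^ k := by
    rw [hU, ← hl0, ← Real.log_lt_log_iff (Real.exp_pos _) (by positivity), Real.log_exp, Real.log_pow]
    have h1 := Nat.lt_floor_add_one (2 * (14 * (K : ℝ) + 2) * l0 ^ 2)
    have h2 : ((k : ℕ) : ℝ) = (⌊2 * (14 * (K : ℝ) + 2) * l0 ^ 2⌋₊ : ℝ) + 1 := by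
      rw [hk]
      push_cast
      rfl
    rw [← h2] at h1
    have h3 : 0 ≤ (k : ℝ) := Nat.cast_nonneg k
    nlinarith
  have hkle : (k : ℝ) ≤ (28 * K + 5) * l0 ^ 2 := by
    rw [hk]
    push_cast
    have h1 := Nat.floor_le (show 0 ≤ 2 * (14 * (K : ℝ) + 2) * l0 ^ 2 by positivity)
    have h2 : 1 ≤ l0 ^ 2 := by nlinarith
    nlinarith
  obtain ⟨P, hP⟩ : ∃ P : Finset ℕ, P = PI 1 w0 := ⟨_, rfl⟩
  have hPm : ∀ p : ℕ, p ∈ P ↔ p.Prime ∧ (p : ℝ) ≤ w0 := by
    intro p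
    rw [hP, mem_PI 1 w0 (by linarith)]
    constructor
    · rintro ⟨h1, _, h3⟩
      exact ⟨h1, h3⟩
    · rintro ⟨h1, h3⟩
      exact ⟨h1, by exact_mod_cast h1.one_lt, h3⟩
  have hPp : ∀ p ∈ P, p.Prime := fun p hp => ((hPm p).1 hp).1
  obtain ⟨W0, hW0⟩ : ∃ W0 : ℕ, W0 = ∏ p ∈ P, p ^ k := ⟨_, rfl⟩
  have hW0pos : 0 < W0 := by
    rw [hW0]
    exact prod_pos fun p hp => pow_pos (hPp p hp).pos _
  have hW0r : (0 : ℝ) < W0 := by exact_mod_cast hW0pos
  have hW0p : ∀ p : ℕ, p.Prime → p ∣ W0 → (p : ℝ) ≤ w0 := by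
    intro p hp h
    rw [hW0, Prime.dvd_finsetProd_iff hp.prime] at h
    obtain ⟨q, hq, hpq⟩ := h
    have h2 := hp.dvd_of_dvd_pow hpq
    rw [Nat.prime_dvd_prime_iff_eq hp (hPp q hq)] at h2
    rw [h2]
    exact ((hPm q).1 hq).2
  have hmain : (28 * K + 5) * (w0 * l0 ^ 2) ≤ L / 200 := by
    have h1 : 200 * (28 * K + 5) * l0 ^ 2 ≤ L ^ (ε / 4) :=
      (mul_le_mul_of_nonneg_left hl0sq (by positivity)).trans hK3
    have h2 : w0 * (200 * (28 * K + 5) * l0 ^ 2) ≤ L ^ (1 - ε / 2 / 2) * L ^ (ε / 4) :=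
      mul_le_mul hw0L h1 (by positivity) (by positivity)
    have h3 : L ^ (1 - ε / 2 / 2) * L ^ (ε / 4) = L := by
      rw [← Real.rpow_add hL0]
      have : 1 - ε / 2 / 2 + ε / 4 = 1 := by ring
      rw [this, Real.rpow_one]
    rw [h3] at h2
    linarith
  have hW0N : (W0 : ℝ) ≤ (N : ℝ) ^ ((1 - 49 / 50) / 2 : ℝ) := by
    have h1 : (W0 : ℝ) = (pd P : ℝ) ^ k := by
      rw [hW0, prod_pow]
      unfold pd
      push_cast
      rfl
    have h2 : (pd P : ℝ) ≤ (4 : ℝ) ^ w0 := by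
      rw [hP]
      exact pd_PI 1 w0 (by linarith)
    rw [h1]
    calc (pd P : ℝ) ^ k ≤ ((4 : ℝ) ^ w0) ^ k := pow_le_pow_left₀ (Nat.cast_nonneg _) h2 k
      _ = Real.exp (Real.log 4 * w0 * k) := by
          rw [Real.rpow_def_of_pos (by norm_num : (0 : ℝ) < 4), ← Real.exp_nat_mul]
          congr 1
          ring
      _ ≤ Real.exp (L * ((1 - 49 / 50) / 2)) := by
          rw [Real.exp_le_exp]
          have hlog4 : Real.log 4 ≤ 2 := by
            have h1 : Real.log 4 = 2 * Real.log 2 := by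
              rw [show (4 : ℝ) = 2 ^ 2 by norm_num, Real.log_pow]
              norm_num
            have := Real.log_two_lt_d9
            linarith
          have h3 : Real.log 4 * w0 * k ≤ 2 * w0 * ((28 * K + 5) * l0 ^ 2) := by
            apply mul_le_mul (mul_le_mul_of_nonneg_right hlog4 hw0p.le) hkle (Nat.cast_nonneg _)
            positivity
          have h4 : 2 * w0 * ((28 * K + 5) * l0 ^ 2) = 2 * ((28 * K + 5) * (w0 * l0 ^ 2)) := by ring
          linarith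
      _ = (N : ℝ) ^ ((1 - 49 / 50) / 2 : ℝ) := by
          rw [Real.rpow_def_of_pos hNp, ← hL]
  set m : ℝ := (B1.card : ℝ) * B2.card with hm
  have hm0 : 0 ≤ m := by positivity
  have hsm : 0 < √m := by
    by_contra hcon
    push Not at hcon
    have h1 : √m = 0 := le_antisymm hcon (Real.sqrt_nonneg _)
    rw [h1, mul_zero] at hND
    linarith
  have hmp : 0 < m := Real.sqrt_pos.1 hsm
  -- the bad pairs
  have hI1 : InC B1 x1 N 1 0 := by
    intro a ha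
    refine ⟨(hB1 a ha).1, (hB1 a ha).2, ?_⟩
    simp
  have hI2 : InC B2 x2 N 1 0 := by
    intro a ha
    refine ⟨(hB2 a ha).1, (hB2 a ha).2, ?_⟩
    simp
  have hLS := LSH_cls B1 B2 x1 x2 N 1 0 0 one_pos (by omega) hI1 hI2 (12 * D) (by linarith) (by
    rw [Nat.cast_one, div_one, ← hm]
    calc 12 * (N : ℝ) ≤ 12 * (D * √m) := by linarith
      _ = _ := by ring)
  rw [Nat.cast_one, div_one] at hLS
  have hU1 : 0 < U := by rw [hU]; exact Real.exp_pos _
  have hbad := bad_smooth F K hK B1 B2 N (12 * D) w0 U (by linarith) hLS (by linarith)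
    (by rw [← hl0]; exact hl4) k P (fun p hp => (hPm p).1 hp) hU.ge (by
      have h1 : (U * w0) ^ 2 = Real.exp (2 * ((14 * K + 2) * l0 ^ 2 + l0)) := by
        have h2 : w0 = Real.exp l0 := by rw [hl0, Real.exp_log hw0p]
        rw [hU, ← hl0, h2, ← Real.exp_add, ← Real.exp_nat_mul]
        norm_num
      rw [h1, ← Real.exp_log hNp, ← hL, Real.exp_le_exp]
      have h3 : (28 * K + 5) * (1 * l0 ^ 2) ≤ (28 * K + 5) * (w0 * l0 ^ 2) := by
        apply mul_le_mul_of_nonneg_left _ (by positivity)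
        apply mul_le_mul_of_nonneg_right (by linarith) (sq_nonneg _)
      have h4 : l0 ≤ l0 ^ 2 := by nlinarith
      have h5 : 0 ≤ (K : ℝ) * l0 ^ 2 := by positivity
      nlinarith)
  rw [← hW0, ← hm] at hbad
  obtain ⟨ok, hokd⟩ : ∃ ok : ℤ × ℤ → Prop, ok = fun z : ℤ × ℤ =>
      ((Nat.gcd (F.eval (z.1 - z.2)).natAbs W0 : ℕ) : ℝ) ≤ U := ⟨_, rfl⟩
  have hbad2 : (((B1 ×ˢ B2).filter (fun z => ¬ ok z)).card : ℝ) ≤ 1 / 4 * m := by
    have h1 : (B1 ×ˢ B2).filter (fun z => ¬ ok z) = (B1 ×ˢ B2).filter (fun z : ℤ × ℤ =>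
      U < ((Nat.gcd (F.eval (z.1 - z.2)).natAbs W0 : ℕ) : ℝ)) := by
      apply filter_congr
      intro z _
      rw [hokd]
      exact not_le
    rw [h1]
    refine hbad.trans ?_
    apply mul_le_mul_of_nonneg_right _ hm0
    rw [div_le_iff₀ (by positivity)]
    have h2 : D ≤ w0 := by
      rw [hw0]
      nlinarith
    nlinarith
  have hdz : ∀ z : ℤ × ℤ, (W0 : ℤ) ∣ (z.1 - z.2) - (z.1 % (W0 : ℤ) - z.2 % (W0 : ℤ)) := by
    intro z
    have e1 : (W0 : ℤ) ∣ z.1 - z.1 % (W0 : ℤ) := Int.dvd_self_sub_emod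
    have e2 : (W0 : ℤ) ∣ z.2 - z.2 % (W0 : ℤ) := Int.dvd_self_sub_emod
    have e3 : (z.1 - z.2) - (z.1 % (W0 : ℤ) - z.2 % (W0 : ℤ)) =
      (z.1 - z.1 % (W0 : ℤ)) - (z.2 - z.2 % (W0 : ℤ)) := by ring
    rw [e3]
    exact dvd_sub e1 e2
  have hgc : ∀ z : ℤ × ℤ, Nat.gcd (F.eval (z.1 - z.2)).natAbs W0 =
      Nat.gcd (F.eval (z.1 % (W0 : ℤ) - z.2 % (W0 : ℤ))).natAbs W0 := fun z =>
    gcd_congr F W0 _ _ (hdz z)
  have hok : ∀ z : ℤ × ℤ, ok z ↔ ok (z.1 % W0, z.2 % W0) := by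
    intro z
    rw [hokd]
    simp only
    rw [hgc z]
  refine ⟨W0, hW0pos, ?_⟩
  have hfin := class_sum2 B1 B2 W0 hW0pos ok hok (fun z : ℤ × ℤ =>
          ((Nat.gcd (F.eval (z.1 - z.2)).natAbs W0 : ℕ) : ℝ) ≤ U ∧
          0 < WW N ζ υ aw bw ((F.eval (z.1 - z.2)).natAbs /
            Nat.gcd (F.eval (z.1 - z.2)).natAbs W0)) (c * (l0 / L)) (by positivity) hbad2 (by
      intro s1 s2 hden hoks
      rw [← hm] at hden
      have hmem1 : ∀ a ∈ cls B1 W0 s1, a ∈ B1 ∧ a % (W0 : ℤ) = s1 := by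
        intro a ha
        unfold cls at ha
        rw [mem_filter] at ha
        exact ha
      have hmem2 : ∀ a ∈ cls B2 W0 s2, a ∈ B2 ∧ a % (W0 : ℤ) = s2 := by
        intro a ha
        unfold cls at ha
        rw [mem_filter] at ha
        exact ha
      have hgz : ∀ z ∈ cls B1 W0 s1 ×ˢ cls B2 W0 s2,
          ((Nat.gcd (F.eval (z.1 - z.2)).natAbs W0 : ℕ) : ℝ) ≤ U := by
        rintro ⟨a, b⟩ hz
        rw [mem_product] at hz
        have g1 := hmem1 a hz.1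
        have g2 := hmem2 b hz.2
        rw [hgc, g1.2, g2.2]
        rw [hokd] at hoks
        exact hoks
      have hsp : ∀ z ∈ cls B1 W0 s1 ×ˢ cls B2 W0 s2, _ := fun z hz =>
        smooth_part (F.eval (z.1 - z.2)).natAbs P w0 U k hPm hUk (by rw [← hW0]; exact hgz z hz)
      rw [← hW0] at hsp
      have hfi := HC' W0 (cls B1 W0 s1) (cls B2 W0 s2) x1 x2 s1 s2 w0 Lam
        (fun z : ℤ × ℤ => (F.eval (z.1 - z.2)).natAbs / Nat.gcd (F.eval (z.1 - z.2)).natAbs W0)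
        hW0pos hW0p hW0N (by
          intro a ha
          have := hmem1 a ha
          exact ⟨(hB1 a this.1).1, (hB1 a this.1).2, this.2⟩) (by
          intro a ha
          have := hmem2 a ha
          exact ⟨(hB2 a this.1).1, (hB2 a this.1).2, this.2⟩) hLam1 (by
          rw [hLam, hw0]
          linarith) hw0L hLamL (by
          have h8 : √m / (2 * W0) ≤ √(((cls B1 W0 s1).card : ℝ) * (cls B2 W0 s2).card) := by
            apply Real.le_sqrt_of_sq_le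
            refine le_trans (le_of_eq ?_) hden
            rw [div_pow, Real.sq_sqrt hm0]
            ring
          refine le_trans ?_ (mul_le_mul_of_nonneg_left h8 (by linarith))
          have h10 : Lam * (√m / (2 * W0)) = 24 * ((D * √m) / W0) := by
            rw [hLam]
            field_simp
            ring
          rw [h10]
          apply mul_le_mul_of_nonneg_left _ (by norm_num)
          exact div_le_div_of_nonneg_right hND hW0r.le) (by
          intro z hz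
          exact (hsp z hz).1) (by
          intro z hz p hp hpx
          rw [(hsp z hz).2 p hp hpx, Int.natCast_dvd])
      rw [← hl0] at hfi
      have h9 : c * (l0 / L) * (((cls B1 W0 s1).card : ℝ) * (cls B2 W0 s2).card) =
          c * (((cls B1 W0 s1).card : ℝ) * (cls B2 W0 s2).card) * (l0 / L) := by ring
      rw [h9]
      refine hfi.trans (le_of_eq ?_)
      apply congrArg
      apply congrArg
      ext z
      simp only [mem_filter]
      constructor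
      · rintro ⟨hz, h⟩
        exact ⟨hz, hgz z hz, h⟩
      · rintro ⟨hz, h⟩
        exact ⟨hz, h.2⟩)
  rw [← hm] at hfin
  refine le_trans (le_of_eq ?_) (hfin.trans (le_of_eq ?_))
  · rw [← hl0]
    ring
  · apply congrArg
    apply congrArg
    ext z
    simp only [mem_filter]

end Pool.Agent.H540.DS
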