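import Pool.Agent.H540.DS.Sums2

/-! **Almost prime values at the sums of the elements of two dense sets.** -/

set_option autoImplicit false

namespace Pool.Agent.H540.DS

open Finset Filter Polynomial
open Pool.Agent.W23.DC
open Pool.Agent.Y882.PX
open Pool.Agent.Y882
open Pool.Agent.Y882.KW

theorem pr_sub (N : ℕ) (hN : 2 ≤ N) (ζ υ : ℝ) (hζ : 0 ≤ ζ) : pr N ζ υ ⊆ pr (2 * N) (ζ / 2) υ := by
  intro q hq
  unfold pr at hq ⊢
  rw [mem_filter, mem_Icc] at hq ⊢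
  obtain ⟨⟨a1, a2⟩, a3, a4, a5⟩ := hq
  have hNr : (2 : ℝ) ≤ N := by exact_mod_cast hN
  have hq0 : (1 : ℝ) ≤ q := by exact_mod_cast a1
  refine ⟨⟨a1, by omega⟩, a3, ?_, ?_⟩
  · by_contra hcon
    push Not at hcon
    have h1 := (tt_lt (2 * N) q (ζ / 2) (by omega) a3.pos).1 hcon
    have h2 : ¬ (q : ℝ) < (N : ℝ) ^ ζ := fun h => by
      have := (tt_lt N q ζ hN a3.pos).2 h
      linarith
    push Not at h2
    push_cast at h1
    have h3 : (2 * (N : ℝ)) ^ (ζ / 2) ≤ ((N : ℝ) ^ 2) ^ (ζ / 2) := by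
      apply Real.rpow_le_rpow (by linarith) _ (by linarith)
      nlinarith
    have h4 : ((N : ℝ) ^ 2) ^ (ζ / 2) = (N : ℝ) ^ ζ := by
      rw [← Real.rpow_natCast, ← Real.rpow_mul (by linarith)]
      congr 1
      push_cast
      ring
    linarith
  · rcases le_or_gt υ 0 with h0 | h0
    · exfalso
      have h1 := (tt_lt N q υ hN a3.pos).1 a5
      have h2 : (N : ℝ) ^ υ ≤ 1 := Real.rpow_le_one_of_one_le_of_nonpos (by linarith) h0
      linarith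
    · rw [tt_lt (2 * N) q υ (by omega) a3.pos]
      have h1 := (tt_lt N q υ hN a3.pos).1 a5
      refine h1.trans_le ?_
      push_cast
      apply Real.rpow_le_rpow (by linarith) (by linarith) h0.le

open Classical in
/-- **The main theorem for sums.** -/
theorem sums (F : ℤ[X]) (hF : Irreducible F) (hd : 0 < F.natDegree) (r : ℕ)
    (hr : 9 / 8 + ((F.natDegree : ℝ) + 1 / 1000) / (24 / 25 * (24 / 25)) ≤ r + 1) (ε : ℝ) (hε : 0 < ε)
    (hε1 : ε ≤ 1) : ∃ c C : ℝ, 0 < c ∧ 0 < C ∧ ∀ᶠ N : ℕ in atTop, ∀ A B : Finset ℕ,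
      A ⊆ Icc 1 N → B ⊆ Icc 1 N →
      (N : ℝ) / Real.log N ^ (1 - ε) ≤ √((A.card : ℝ) * B.card) →
      c * ((A.card : ℝ) * B.card) * (Real.log (2 * N / √((A.card : ℝ) * B.card)) / Real.log N) ≤
        (((A ×ˢ B).filter (fun z : ℕ × ℕ =>
        GoodS F r (Real.exp (C * Real.log (2 * N / √((A.card : ℝ) * B.card)) ^ 2))
          ((N : ℝ) ^ (6 / 25 : ℝ)) (z.1 + z.2))).card : ℝ) := by
  obtain ⟨τ, hτ⟩ : ∃ τ : ℝ, τ = 24 / 25 := ⟨_, rfl⟩
  obtain ⟨ζ, hζ⟩ : ∃ ζ : ℝ, ζ = τ / 4 := ⟨_, rfl⟩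
  obtain ⟨υ, hυ⟩ : ∃ υ : ℝ, υ = 24 / 25 * τ := ⟨_, rfl⟩
  obtain ⟨lam, hlam⟩ : ∃ lam : ℝ, lam = 8 / 9 := ⟨_, rfl⟩
  have hJ0 := cond_A τ lam (by rw [hτ]; norm_num) (by rw [hlam]; norm_num) (by rw [hlam]; norm_num)
  rw [← hζ, ← hυ] at hJ0
  have hζ' : ζ = 6 / 25 := by rw [hζ, hτ]; norm_num
  have hυ' : υ = 24 / 25 * (24 / 25) := by rw [hυ, hτ]
  have hυ0 : 0 < υ := by rw [hυ']; norm_num
  obtain ⟨c, K1, K3, K, N0, hc, hK1, HP⟩ := pairsU F hF hd τ ζ υ lam (lam / υ) ε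
    (by rw [hζ', ]; norm_num)
    (by rw [hζ', hτ]; norm_num) (by rw [hζ', hτ]; norm_num) (by rw [hζ', hυ']; norm_num)
    (by rw [hυ', hτ]; norm_num) (by rw [hlam]; norm_num) (by rw [hlam, hυ']; norm_num)
    (by rw [div_mul_cancel₀ _ hυ0.ne']) hJ0 (by rw [hτ]; norm_num) hε hε1
  obtain ⟨CF, HCF⟩ := eval_le F
  obtain ⟨KK, q0, HB⟩ := bad_count F hF hd
  obtain ⟨C2, hC2⟩ : ∃ C2 : ℝ, C2 = Real.log (24 * K1) / Real.log 2 + 1 := ⟨_, rfl⟩
  have hlog2 : 0 < Real.log 2 := Real.log_pos (by norm_num)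
  have hC21 : 1 ≤ C2 := by
    rw [hC2]
    have : 0 ≤ Real.log (24 * K1) / Real.log 2 := div_nonneg (Real.log_nonneg (by linarith)) hlog2.le
    linarith
  have hKr : (0 : ℝ) ≤ K := Nat.cast_nonneg K
  refine ⟨c / 2, (14 * K + 2) * C2 ^ 2, by linarith, by positivity, ?_⟩
  filter_upwards [conds3 (CF * 2 ^ F.natDegree) KK q0 N0 K1 K3 (2 * c) ε (by linarith) hε]
    with N cd A B hA hB hAB
  obtain ⟨c1, c2, c3, c4, c5, c6, c7, c8, c9, c10, c11⟩ := cd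
  have hN3 : (3 : ℝ) ≤ N := by exact_mod_cast c1
  have hNp : (0 : ℝ) < N := by linarith
  have hN1 : (1 : ℝ) ≤ N := by linarith
  have hpow : ∀ a b : ℝ, a ≤ b → (N : ℝ) ^ a ≤ (N : ℝ) ^ b := fun a b h =>
    Real.rpow_le_rpow_of_exponent_le hN1 h
  have hN1' : (N : ℝ) = (N : ℝ) ^ (1 : ℝ) := (Real.rpow_one _).symm
  set m : ℝ := (A.card : ℝ) * B.card with hm
  have hm0 : 0 ≤ m := mul_nonneg (Nat.cast_nonneg _) (Nat.cast_nonneg _)
  have hcm : 0 ≤ c / 2 * m := mul_nonneg (by linarith) hm0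
  have hL0' : 0 < Real.log N := by linarith
  have hsm : 0 < √m := lt_of_lt_of_le (by positivity) hAB
  have hmp : 0 < m := Real.sqrt_pos.1 hsm
  obtain ⟨D, hD⟩ : ∃ D : ℝ, D = N / √m := ⟨_, rfl⟩
  have hDm : D * √m = N := by rw [hD, div_mul_cancel₀ _ hsm.ne']
  have hAN : (A.card : ℝ) ≤ N := by
    have h1 := card_le_card hA
    rw [Nat.card_Icc, Nat.add_sub_cancel] at h1
    exact_mod_cast h1
  have hBN : (B.card : ℝ) ≤ N := by
    have h1 := card_le_card hB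
    rw [Nat.card_Icc, Nat.add_sub_cancel] at h1
    exact_mod_cast h1
  have hmN : √m ≤ N := by
    rw [Real.sqrt_le_left (by linarith), sq]
    exact mul_le_mul hAN hBN (Nat.cast_nonneg _) (by linarith)
  have hD1 : 1 ≤ D := by
    rw [hD, le_div_iff₀ hsm]
    linarith
  have hDL : D ≤ Real.log N ^ (1 - ε) := by
    rw [hD, div_le_iff₀ hsm]
    rw [div_le_iff₀ (by positivity)] at hAB
    linarith
  have h2D : 2 * (N : ℝ) / √m = 2 * D := by rw [hD]; ring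
  rw [h2D]
  obtain ⟨NB, hNB⟩ : ∃ NB : Finset ℤ, NB = B.image (fun b : ℕ => -(b : ℤ)) := ⟨_, rfl⟩
  have hinjB : Function.Injective (fun b : ℕ => -(b : ℤ)) := by
    intro a b h
    simp only [neg_inj, Nat.cast_inj] at h
    exact h
  have hNBc : NB.card = B.card := by rw [hNB, card_image_of_injective _ hinjB]
  obtain ⟨w0, hw0⟩ : ∃ w0 : ℝ, w0 = 48 * K1 * D := ⟨_, rfl⟩
  obtain ⟨U, hU⟩ : ∃ U : ℝ, U = Real.exp ((14 * K + 2) * Real.log w0 ^ 2) := ⟨_, rfl⟩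
  obtain ⟨W0, hW0, HZ⟩ := HP N c2 c1 c3 c7 c8 c9 (A.map Nat.castEmbedding) NB 0 (-((N : ℤ) + 1)) D w0 U (by
      intro a ha
      rw [Finset.mem_map] at ha
      obtain ⟨b, hb, rfl⟩ := ha
      have h1 := mem_Icc.1 (hA hb)
      simp only [Nat.castEmbedding_apply]
      constructor
      · omega
      · omega) (by
      intro a ha
      rw [hNB, mem_image] at ha
      obtain ⟨b, hb, rfl⟩ := ha
      have h1 := mem_Icc.1 (hB hb)
      constructor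
      · omega
      · omega) hD1 hDL (by
      rw [card_map, hNBc, ← hm, hDm]) hw0 hU
  rw [card_map, hNBc, ← hm] at HZ
  obtain ⟨L, hL⟩ : ∃ L : ℝ, L = Real.log N := ⟨_, rfl⟩
  rw [← hL] at c3 c7 c8 c9 c10 hDL HZ ⊢
  have hL0 : 0 < L := by linarith
  have hw0D : 2 * D ≤ w0 := by
    rw [hw0]
    nlinarith
  have hlog2D : Real.log 2 ≤ Real.log (2 * D) := Real.log_le_log (by norm_num) (by linarith)
  have hlw : Real.log (2 * D) ≤ Real.log w0 := Real.log_le_log (by linarith) hw0D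
  have hlw1 : 1 ≤ Real.log w0 := by
    rw [Real.le_log_iff_exp_le (by linarith)]
    have : (3 : ℝ) ≤ w0 := by
      rw [hw0]
      nlinarith
    linarith [Real.exp_one_lt_d9]
  have hlwu : Real.log w0 ≤ C2 * Real.log (2 * D) := by
    have h1 : w0 = (24 * K1) * (2 * D) := by rw [hw0]; ring
    rw [h1, Real.log_mul (by positivity) (by positivity), hC2, add_mul, one_mul]
    have h2 : Real.log (24 * K1) ≤ Real.log (24 * K1) / Real.log 2 * Real.log (2 * D) := by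
      rw [div_mul_eq_mul_div, le_div_iff₀ hlog2]
      exact mul_le_mul_of_nonneg_left hlog2D (Real.log_nonneg (by linarith))
    linarith
  have hUU : U ≤ Real.exp ((14 * K + 2) * C2 ^ 2 * Real.log (2 * D) ^ 2) := by
    rw [hU, Real.exp_le_exp, mul_assoc, ← mul_pow]
    apply mul_le_mul_of_nonneg_left _ (by positivity)
    exact pow_le_pow_left₀ (by linarith) hlwu 2
  -- the pairs of natural numbers
  obtain ⟨g, hg⟩ : ∃ g : ℕ × ℕ → ℕ, g = fun z => Nat.gcd (F.eval ((z.1 + z.2 : ℕ) : ℤ)).natAbs W0 := ⟨_, rfl⟩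
  obtain ⟨n, hn⟩ : ∃ n : ℕ × ℕ → ℕ, n = fun z => (F.eval ((z.1 + z.2 : ℕ) : ℤ)).natAbs / g z := ⟨_, rfl⟩
  obtain ⟨Z, hZ⟩ : ∃ Z : Finset (ℕ × ℕ), Z = (A ×ˢ B).filter (fun z => (g z : ℝ) ≤ U ∧
      0 < WW N ζ υ lam (lam / υ) (n z)) := ⟨_, rfl⟩
  obtain ⟨Zb, hZb⟩ : ∃ Zb : Finset (ℕ × ℕ), Zb = (A ×ˢ B).filter (fun z : ℕ × ℕ =>
      ∃ q ∈ pr N ζ υ, ((q ^ 2 : ℕ) : ℤ) ∣ F.eval ((z.1 + z.2 : ℕ) : ℤ)) := ⟨_, rfl⟩
  have hZl : c * m * (Real.log w0 / L) ≤ (Z.card : ℝ) := by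
    refine HZ.trans ?_
    apply Nat.cast_le.2
    apply card_le_card_of_injOn (fun z : ℤ × ℤ => (z.1.toNat, (-z.2).toNat))
    · rintro ⟨x, y⟩ hz
      rw [mem_coe] at hz
      simp only [mem_filter, mem_product, Finset.mem_map, hNB, mem_image] at hz
      obtain ⟨⟨⟨a, ha, hax⟩, b, hb, hby⟩, hz1, hz2⟩ := hz
      simp only [Nat.castEmbedding_apply] at hax
      subst hax
      subst hby
      have e1 : (a : ℤ) - -(b : ℤ) = ((a + b : ℕ) : ℤ) := by push_cast; ring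
      rw [e1] at hz1 hz2
      rw [mem_coe, hZ, mem_filter, mem_product]
      simp only [Int.toNat_natCast, neg_neg]
      rw [hn]
      simp only
      rw [hg]
      exact ⟨⟨ha, hb⟩, hz1, hz2⟩
    · rintro ⟨x, y⟩ hz ⟨x', y'⟩ hz' heq
      rw [mem_coe] at hz hz'
      simp only [mem_filter, mem_product, Finset.mem_map, hNB, mem_image] at hz hz'
      obtain ⟨⟨⟨a, ha, hax⟩, b, hb, hby⟩, _⟩ := hz
      obtain ⟨⟨⟨a', ha', hax'⟩, b', hb', hby'⟩, _⟩ := hz'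
      simp only [Nat.castEmbedding_apply] at hax hax'
      subst hax hby hax' hby'
      simp only [Int.toNat_natCast, neg_neg, Prod.mk.injEq] at heq
      rw [heq.1, heq.2]
  have hbadc := bad_pairs2 F A B N (pr N ζ υ) hA hB
  rw [← hZb] at hbadc
  have hbad2 := HB (2 * N) (ζ / 2) υ (by omega) (by rw [hζ']; norm_num) (by rw [hυ']; norm_num) (by
    refine c5.trans ?_
    push_cast
    rw [hζ']
    have : (6 / 25 / 2 : ℝ) = 3 / 25 := by norm_num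
    rw [this]
    exact Real.rpow_le_rpow hNp.le (by linarith) (by norm_num))
  have hZbc : (Zb.card : ℝ) ≤ (N : ℝ) ^ (1.95 : ℝ) := by
    have h0 : (Zb.card : ℝ) ≤ (((Icc 1 (2 * N)).filter (fun m : ℕ => ∃ q ∈ pr N ζ υ,
        ((q ^ 2 : ℕ) : ℤ) ∣ F.eval (m : ℤ))).card : ℝ) * (B.card : ℝ) := by
      rw [← Nat.cast_mul]
      exact Nat.cast_le.2 hbadc
    have h1 : (((Icc 1 (2 * N)).filter (fun m : ℕ => ∃ q ∈ pr N ζ υ,
        ((q ^ 2 : ℕ) : ℤ) ∣ F.eval (m : ℤ))).card : ℝ) ≤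
        (((Icc 1 (2 * N)).filter (fun m : ℕ => ∃ q ∈ pr (2 * N) (ζ / 2) υ,
        ((q ^ 2 : ℕ) : ℤ) ∣ F.eval (m : ℤ))).card : ℝ) := by
      apply Nat.cast_le.2
      apply card_le_card
      intro j hj
      rw [mem_filter] at hj ⊢
      obtain ⟨h1, q, hq, hqj⟩ := hj
      exact ⟨h1, q, pr_sub N (by omega) ζ υ (by rw [hζ']; norm_num) hq, hqj⟩
    have h2 := h1.trans hbad2
    push_cast at h2
    have h3 : 2 * (2 * (N : ℝ)) / (2 * (N : ℝ)) ^ (ζ / 2) ≤ 4 * (N : ℝ) ^ (0.93 : ℝ) := by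
      rw [div_le_iff₀ (by positivity)]
      have h4 : (N : ℝ) ^ (ζ / 2) ≤ (2 * (N : ℝ)) ^ (ζ / 2) :=
        Real.rpow_le_rpow hNp.le (by linarith) (by rw [hζ']; norm_num)
      have h5 : (N : ℝ) ≤ (N : ℝ) ^ (0.93 : ℝ) * (N : ℝ) ^ (ζ / 2) := by
        rw [← Real.rpow_add hNp]
        calc (N : ℝ) = (N : ℝ) ^ (1 : ℝ) := hN1'
          _ ≤ _ := hpow _ _ (by rw [hζ']; norm_num)
      have h6 : (N : ℝ) ^ (0.93 : ℝ) * (N : ℝ) ^ (ζ / 2) ≤ (N : ℝ) ^ (0.93 : ℝ) * (2 * (N : ℝ)) ^ (ζ / 2) :=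
        mul_le_mul_of_nonneg_left h4 (by positivity)
      linarith
    have h4 : (2 * (N : ℝ)) ^ υ ≤ 2 * (N : ℝ) ^ (0.93 : ℝ) := by
      rw [Real.mul_rpow (by norm_num) hNp.le]
      apply mul_le_mul _ (hpow _ _ (by rw [hυ']; norm_num)) (by positivity) (by norm_num)
      calc (2 : ℝ) ^ υ ≤ (2 : ℝ) ^ (1 : ℝ) :=
            Real.rpow_le_rpow_of_exponent_le (by norm_num) (by rw [hυ']; norm_num)
        _ = 2 := Real.rpow_one 2
    have h5 : (1 : ℝ) ≤ (N : ℝ) ^ (0.93 : ℝ) := Real.one_le_rpow hN1 (by norm_num)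
    calc (Zb.card : ℝ) ≤ KK * (2 * (2 * N) / (2 * (N : ℝ)) ^ (ζ / 2) + (2 * (N : ℝ)) ^ υ + 1) * B.card :=
          h0.trans (mul_le_mul_of_nonneg_right h2 (Nat.cast_nonneg _))
      _ ≤ KK * (8 * (N : ℝ) ^ (0.93 : ℝ)) * N := by
          apply mul_le_mul _ hBN (Nat.cast_nonneg _) (by positivity)
          apply mul_le_mul_of_nonneg_left _ (Nat.cast_nonneg _)
          linarith
      _ = (KK * 8) * ((N : ℝ) ^ (0.93 : ℝ) * N) := by ring
      _ ≤ (N : ℝ) ^ (1 / 1000 : ℝ) * ((N : ℝ) ^ (0.93 : ℝ) * N) :=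
          mul_le_mul_of_nonneg_right c6 (by positivity)
      _ = (N : ℝ) ^ (1 / 1000 + (0.93 + 1) : ℝ) := by
          nth_rw 3 [hN1']
          rw [← Real.rpow_add hNp, ← Real.rpow_add hNp]
      _ ≤ _ := hpow _ _ (by norm_num)
  have hmlow : (N : ℝ) ^ 2 ≤ m * L ^ 2 := by
    have h1 : (N : ℝ) ≤ √m * L := by
      calc (N : ℝ) = D * √m := hDm.symm
        _ ≤ L * √m := by
            apply mul_le_mul_of_nonneg_right _ hsm.le
            refine hDL.trans ?_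
            calc L ^ (1 - ε) ≤ L ^ (1 : ℝ) := Real.rpow_le_rpow_of_exponent_le c3 (by linarith)
              _ = L := Real.rpow_one L
        _ = √m * L := mul_comm _ _
    calc (N : ℝ) ^ 2 ≤ (√m * L) ^ 2 := pow_le_pow_left₀ hNp.le h1 2
      _ = m * L ^ 2 := by rw [mul_pow, Real.sq_sqrt hm0]
  have hdiff : c / 2 * m * (Real.log (2 * D) / L) ≤ ((Z \ Zb).card : ℝ) := by
    have h1 : (Z.card : ℝ) ≤ ((Z \ Zb).card : ℝ) + Zb.card := by
      have := card_le_card_sdiff_add_card (s := Z) (t := Zb)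
      exact_mod_cast this
    have h2 : (N : ℝ) ^ (1.95 : ℝ) ≤ c / 2 * m * (Real.log w0 / L) := by
      have h3 : c / 2 * m * (1 / L) ≤ c / 2 * m * (Real.log w0 / L) :=
        mul_le_mul_of_nonneg_left (div_le_div_of_nonneg_right hlw1 hL0.le) hcm
      refine le_trans ?_ h3
      rw [mul_one_div, le_div_iff₀ hL0]
      have h4 : (N : ℝ) ^ (1.95 : ℝ) * L ^ 3 ≤ (2 * c / 4) * (m * L ^ 2) := by
        calc (N : ℝ) ^ (1.95 : ℝ) * L ^ 3 ≤ (N : ℝ) ^ (1.95 : ℝ) * ((2 * c / 4) * (N : ℝ) ^ (1 / 1000 : ℝ)) :=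
              mul_le_mul_of_nonneg_left c10 (by positivity)
          _ = (2 * c / 4) * (N : ℝ) ^ (1.95 + 1 / 1000 : ℝ) := by
              rw [Real.rpow_add hNp]
              ring
          _ ≤ (2 * c / 4) * (N : ℝ) ^ (2 : ℝ) :=
              mul_le_mul_of_nonneg_left (hpow _ _ (by norm_num)) (by positivity)
          _ = (2 * c / 4) * (N : ℝ) ^ 2 := by
              rw [← Real.rpow_natCast]
              norm_num
          _ ≤ _ := mul_le_mul_of_nonneg_left hmlow (by positivity)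
      have h5 : 0 < L ^ 2 := by positivity
      have h6 : (N : ℝ) ^ (1.95 : ℝ) * L * L ^ 2 ≤ (c / 2 * m) * L ^ 2 := by
        calc (N : ℝ) ^ (1.95 : ℝ) * L * L ^ 2 = (N : ℝ) ^ (1.95 : ℝ) * L ^ 3 := by ring
          _ ≤ (2 * c / 4) * (m * L ^ 2) := h4
          _ = _ := by ring
      exact le_of_mul_le_mul_right h6 h5
    have h3 : c * m * (Real.log w0 / L) = c / 2 * m * (Real.log w0 / L) + c / 2 * m * (Real.log w0 / L) := by
      ring
    have h4 : c / 2 * m * (Real.log (2 * D) / L) ≤ c / 2 * m * (Real.log w0 / L) :=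
      mul_le_mul_of_nonneg_left (div_le_div_of_nonneg_right hlw hL0.le) hcm
    linarith
  refine hdiff.trans ?_
  apply Nat.cast_le.2
  apply card_le_card
  rintro ⟨a, b⟩ hz
  rw [Finset.mem_sdiff, hZ, hZb, mem_filter, mem_filter] at hz
  obtain ⟨⟨hz1, hz2, hz3⟩, hz4⟩ := hz
  have hz1' := mem_product.1 hz1
  rw [mem_filter]
  refine ⟨hz1, ?_⟩
  have ha := mem_Icc.1 (hA hz1'.1)
  have hb := mem_Icc.1 (hB hz1'.2)
  simp only at ha hb ⊢
  have hgd : g (a, b) ∣ (F.eval ((a + b : ℕ) : ℤ)).natAbs := by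
    rw [hg]
    exact Nat.gcd_dvd_left _ _
  have hg0 : 0 < g (a, b) := by
    rw [hg]
    exact Nat.gcd_pos_of_pos_right _ hW0
  have hnd : n (a, b) = (F.eval ((a + b : ℕ) : ℤ)).natAbs / g (a, b) := by rw [hn]
  have hval2 := HCF (2 * N) (a + b) (by omega) (by omega)
  have hnS : (n (a, b) : ℝ) ≤ (N : ℝ) ^ ((F.natDegree : ℝ) + 1 / 1000) := by
    have h5 : n (a, b) ≤ (F.eval ((a + b : ℕ) : ℤ)).natAbs := by
      rw [hnd]
      exact Nat.div_le_self _ _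
    have h6 : (n (a, b) : ℝ) ≤ ((CF * 2 ^ F.natDegree : ℕ) : ℝ) * (N : ℝ) ^ F.natDegree := by
      have h7 : n (a, b) ≤ (CF * 2 ^ F.natDegree) * N ^ F.natDegree := by
        refine (h5.trans hval2).trans (le_of_eq ?_)
        rw [mul_pow]
        ring
      exact_mod_cast h7
    calc (n (a, b) : ℝ) ≤ ((CF * 2 ^ F.natDegree : ℕ) : ℝ) * (N : ℝ) ^ F.natDegree := h6
      _ ≤ (N : ℝ) ^ (1 / 1000 : ℝ) * (N : ℝ) ^ F.natDegree :=
          mul_le_mul_of_nonneg_right c4 (by positivity)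
      _ = _ := by
          rw [← Real.rpow_natCast, ← Real.rpow_add hNp]
          congr 1
          ring
  have hal := fin_almost N c1 c11 F.natDegree r (n (a, b)) ζ υ lam hζ' hυ' hlam hr hz3 hnS (by
      intro q hq hqn
      apply hz4
      refine ⟨hz1, q, hq, ?_⟩
      rw [Int.natCast_dvd]
      refine hqn.trans ?_
      rw [hnd]
      exact Nat.div_dvd_of_dvd hgd)
  refine ⟨g (a, b), n (a, b), ?_, hz2.trans hUU, hal.1, hal.2⟩
  rw [hnd, Nat.mul_div_cancel' hgd]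

end Pool.Agent.H540.DS
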